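import Pool.Agent.P.MP_dba3d2_lc.F.TbA
import Pool.Agent.P.MP_dba3d2_lc.E.Iface

/-! Adjunction of exponents. -/

namespace Pool.Agent.P.MP_dba3d2_lc

open Filter ET

namespace FA

variable {Γ : HG} {a : Amb} {μ : a.K} {H : Subgroup (MM Γ a)} {c h p x : MM Γ a}

/-- `H` is witness closed in an adjunction of exponents -/
theorem wc_exp (hM : S_MICE) (hH : GC H) (hc : c ∈ H) (pc : Prim c) (k : ℚ →+ a.Z)
    (hG : GC (H ⊔ Subgroup.closure (Set.range fun q => ipow c (k q)))) (ext : ExtE H c k) :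
    Wc H (H ⊔ Subgroup.closure (Set.range fun q => ipow c (k q))) := by
  obtain ⟨κ, k', e, g0, fc, ext', -⟩ := hM Γ a H c hH.toGC0 hc pc
  obtain ⟨θ, t1, t2⟩ := ext _ (((a.dg U0).hom Γ).comp H.subtype) (expH ((a.dg U0).hom Γ c) k')
    (fun x q hx => commute_k k' ((GT.memEp_hom _).2 hx) q)
    fun x q h1 h2 => invert_k k' ((GT.inE_hom _).2 h1) (mt (GT.memEp_hom _).1 h2) q
  obtain ⟨ρ, r1, r2⟩ := ext' _ (Einv (a.dg U0) H) (expH c k)
    (fun x q hx => commute_k k ((GT.memEp_hom (a.dg U0)).1 (by rwa [hom_Einv])) q)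
    fun x q h1 h2 => invert_k k ((GT.inE_hom (a.dg U0)).1 (by rwa [hom_Einv]))
      (fun h => h2 (by rw [← hom_Einv (a.dg U0) H x]; exact (GT.memEp_hom _).2 h)) q
  have t1' : ∀ t : ↥(H ⊔ Subgroup.closure (Set.range fun q => ipow c (k q))), (t : MM Γ a) ∈ H →
      θ t = (a.dg U0).hom Γ t := fun t ht => t1 ⟨t, ht⟩
  obtain ⟨i1, i2⟩ := iso ((a.dg U0).hom Γ) (z := fun _ => 1) (w := fun _ => 1)
    (fun _ => H.one_mem) (fun _ => H.one_mem) θ ρ t1'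
    (fun t q ht => by
      rw [map_one, one_mul, mul_one]; exact (congrArg θ (Subtype.ext ht)).trans (t2 q))
    (fun t x hx ht => ((congrArg ρ (Subtype.ext ht)).trans (r1 ⟨_, x, hx, rfl⟩)).trans
      (Einv_eq _ _ _ rfl))
    fun t q ht => by
      rw [inv_one, one_mul, mul_one]; exact (congrArg ρ (Subtype.ext ht)).trans (r2 q)
  refine wc_of_hom le_sup_left hG θ i1 (i2 ▸ ⟨g0, fc hH.finc⟩) t1' ?_
  rw [i2]
  refine sup_le (map_le_UT H) ((Subgroup.closure_le _).2 ?_)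
  rintro _ ⟨q, rfl⟩
  refine ⟨fun n => ipow c (κ q n : a.Z), fun n => ?_, ?_⟩
  · beta_reduce
    rw [ipow_intCast]
    exact H.zpow_mem hc _
  · rw [← ipow_mk', mk'_hom, ← e]

theorem ll_mul {s t u : a.K} (h : Ll (s * t) μ) (h0 : 0 ≤ s) (e : Ls u t) : Ll (s * u) μ := by
  obtain ⟨n, e⟩ := e
  refine Ll.mono_left ?_ (h.nat_mul n)
  nlinarith [mul_le_mul_of_nonneg_left e h0]

/-- the new exponents are long -/
theorem long (hC : S_E_CHI) (hS : S_E_SZ) (hμ : Big μ) (hH : GC0 H) (hc : c ∈ H) (pc : Prim c)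
    (hm : Ll (md c) μ) (hx : x ∈ H) (cx : Ls (ds x (c * x)) (md c)) (k : ℚ →+ a.Z)
    (far : ∀ y ∈ H, Ls μ (ds (ipow c (k 1) * x) y)) {q : ℚ} (hq : q ≠ 0) {f : MM Γ a}
    (hf : f ∈ H) (ef : f ∈ Ep c) : Ls μ (md (f * ipow c (k q))) := by
  refine (ll_or_ls hμ.pos _).resolve_left fun hl => ?_
  obtain ⟨χ, c1, c2, c3, c4, c5, c6, -, c8, c9, -⟩ := hC Γ a c pc
  have m0 := md_nonneg c
  have e1 := mul_mem ef (ipow_mem_Ep c (k q))
  have s1 := Ll.ls_left (hS Γ a c _ _ pc.1 e1 ((c1 _ e1 _).1 rfl)).1 hl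
  rw [c2 _ ef _ (ipow_mem_Ep _ _), c8, zK_add] at s1
  have N0 : 0 < q.num.natAbs ^ 2 := pow_pos (Int.natAbs_pos.2 (Rat.num_ne_zero.2 hq)) 2
  obtain ⟨g, hg, eg, r, t⟩ := hH.pur c hc pc f hf ef _ N0
  have e2 := pow_mem eg (q.num.natAbs ^ 2)
  have e3 := pow_mem (self_mem_Ep c) r
  have t1 := congrArg zK ((c4 _ (mul_mem (inv_mem ef) (mul_mem e2 e3))).2 t)
  rw [c2 _ (inv_mem ef) _ (mul_mem e2 e3), c2 _ e2 _ e3, c3 _ ef, c5 _ eg, c5 _ (self_mem_Ep c), c9,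
    mul_one, zK_add, zK_add, zK_neg, zK_mul, zK_natCast, zK_natCast, zK_zero] at t1
  set s : ℤ := -(q.num * q.den) with hs
  have e4 := inv_mem (ipow_mem_Ep c (k 1))
  have e5 := zpow_mem eg s
  have e6 := mul_mem e4 e5
  have t2 : zK (χ ((ipow c (k 1))⁻¹ * g ^ s)) = -zK (k 1) + s * zK (χ g) := by
    rw [c2 _ e4 _ e5, c3 _ (ipow_mem_Ep _ _), c8, c6 _ eg, zK_add, zK_neg, zK_mul, zK_intCast]
  have t3 : (s : a.K) * zK (k q) = -((q.num.natAbs ^ 2 : ℕ) : a.K) * zK (k 1) := by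
    have : s • k q = (-((q.num.natAbs ^ 2 : ℕ) : ℤ)) • k 1 := by
      rw [← map_zsmul, ← map_zsmul, zsmul_eq_mul, zsmul_eq_mul, hs]
      push_cast
      rw [sq_abs, neg_mul, mul_assoc, Rat.den_mul_eq_num]
      ring_nf
    have := congrArg zK this
    rw [zsmul_eq_mul, zsmul_eq_mul, zK_mul, zK_mul, zK_intCast, zK_intCast] at this
    exact_mod_cast this
  have t4 : ((q.num.natAbs ^ 2 : ℕ) : a.K) * zK (χ ((ipow c (k 1))⁻¹ * g ^ s)) =
      s * (zK (χ f) + zK (k q)) - s * r := by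
    rw [t2]; linear_combination (s : a.K) * t1 - t3
  have s2 : Ll (|zK (χ ((ipow c (k 1))⁻¹ * g ^ s))| * md c) μ := by
    refine Ll.mono_left ?_ ((s1.nat_mul s.natAbs).add ((hm.nat_mul r).nat_mul s.natAbs))
    have u1 : (1 : a.K) ≤ ((q.num.natAbs ^ 2 : ℕ) : a.K) := by exact_mod_cast N0
    have u2 := congrArg abs t4
    rw [abs_mul, abs_of_nonneg (Nat.cast_nonneg _)] at u2
    have u3 := abs_sub ((s : a.K) * (zK (χ f) + zK (k q))) (s * r)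
    rw [abs_mul, abs_mul, Nat.abs_cast] at u3
    have u4 := mul_le_mul_of_nonneg_right u1 (abs_nonneg (zK (χ ((ipow c (k 1))⁻¹ * g ^ s))))
    rw [Nat.cast_natAbs, Int.cast_abs]
    nlinarith [mul_le_mul_of_nonneg_right (u4.trans (u2.le.trans u3)) m0]
  have s3 := ((hS Γ a c _ _ pc.1 e6 ((c1 _ e6 _).1 rfl)).2 x).2
  rw [add_mul, one_mul] at s3
  have s4 := Ll.ls_left s3 ((ll_mul s2 (abs_nonneg _) cx).add (Ll.ls_left cx hm))
  rw [← ds_mul_left (ipow c (k 1)), mul_assoc, mul_inv_cancel_left] at s4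
  exact s4.not_ls hμ.pos (far _ (mul_mem (zpow_mem hg s) hx))

theorem adjA (hE : S_ELEM) (hL : S_LINE) (hR : S_ROOT) (hT : S_TRUNC) (hX : S_EXP) (hM : S_MICE)
    (hC : S_E_CHI) (hS : S_E_SZ) (hGE : S_E_GE) (hH : GC H) (hμ : Big μ) (hh : h ∈ H)
    (hs : Sim (ln h) μ) (lp : Ls (ln p) μ) (far : ∀ y ∈ H, Ls μ (ds p y)) {γ : MM Γ a}
    (hγ : γ ∈ H) (inf : ¬ IsOfFinOrder γ) (fx : Ll (ds p (γ * p)) μ) :
    ∃ H' : Subgroup (MM Γ a), GC H' ∧ Wc H H' ∧ Sc H' H ∧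
      ∃ p' ∈ H', Ll (ds p p') μ := by
  have h0 := hμ.pos.le
  obtain ⟨c, hc, pc, ec⟩ := (hR Γ a H hH.toGC0).1 γ hγ inf
  have fc := pc.fix hE hL inf ec fx
  have lc : Ls (ln c) μ := by
    refine Ls.mono_left ?_ (lp.two.add fc.ls)
    simpa using disp_le c 1 p
  have hm : Ll (md c) μ := Ll.mono_left (md_le_ds c p) fc
  obtain ⟨x, hx, lx, cx⟩ := hH.cen1 hc pc.1
  rw [Cen, md_conj, ← ds_conj] at cx
  obtain ⟨k0, hk0⟩ := (hL Γ a c x pc.1 cx).2.1 p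
  have dx : Ll (ds x (c * x)) μ := Ll.ls_left cx hm
  have d0 : 0 < ds x (c * x) := one_pos.trans_le ((one_le_md' pc.1).trans (md_le_ds c x))
  obtain ⟨k1, dv, hk1⟩ := exists_divisible (zK k0) (μ / ds x (c * x)) fun n =>
    (le_div_iff₀ d0).2 (dx n)
  obtain ⟨k, hk⟩ := Etrl.exists_hom k1 dv
  have sz := fun j : a.Z => hS Γ a c _ j pc.1 (ipow_mem_Ep c j) (by simp)
  have near : Ll (ds p (ipow c (k 1) * x)) μ := by
    refine Ll.mono_left (ds_tri _ (ipow c k0 * x) _) ((Ll.ls_left hk0 fc).add fun n => ?_)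
    have u1 := ((sz (k 1 - k0)).2 x).1
    rw [← ds_ipow, zK_sub, hk, Rat.cast_one, one_mul] at u1
    have u2 := (le_div_iff₀ d0).1 (hk1 n)
    nlinarith [mul_le_mul_of_nonneg_left u1 (Nat.cast_nonneg (α := a.K) n)]
  have lx' := lx.trans' lc
  have b1 : Ls (|zK k1| * md c) μ := by
    have := (sz (k 1)).1
    rw [hk, Rat.cast_one, one_mul] at this
    refine this.trans' (Ls.mono_left ?_ ((lx'.add lp).add near.ls))
    linarith [md_le_ds (ipow c (k 1)) x, ds_tri x p (ipow c (k 1) * x), ds_le_ln x p]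
  have bd : ∀ q, ipow c (k q) ∈ ball Γ μ := fun q => by
    obtain ⟨n, hn⟩ := exists_nat_ge |q|
    obtain ⟨m, hm⟩ := cx
    refine (mem_ball h0).2 (Ls.mono_left ?_ (lx'.two.add ((b1.nat_mul m).nat_mul n)))
    have u1 := ((sz (k q)).2 x).1
    have u2 := disp_le (ipow c (k q)) 1 x
    have u3 : |(q : a.K)| ≤ n := by exact_mod_cast hn
    rw [hk, abs_mul] at u1
    rw [ds_one_mul, ds_one_left] at u2
    have u4 := mul_le_mul u3 (mul_le_mul_of_nonneg_left hm (abs_nonneg (zK k1)))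
      (mul_nonneg (abs_nonneg _) d0.le) (Nat.cast_nonneg _)
    nlinarith
  have lg : ∀ q, q ≠ 0 → ∀ f ∈ H ⊓ ball Γ μ, f ∈ Ep c → Ls μ (md (f * ipow c (k q))) :=
    fun q hq f hf ef => long hC hS hμ hH.toGC0 hc pc hm hx cx k (fun y hy =>
      (far y hy).of_le_add near hμ.pos 1 (by
        push_cast; linarith [ds_tri p (ipow c (k 1) * x) y])) hq hf.1 ef
  have hc' : c ∈ H ⊓ ball Γ μ := ⟨hc, (mem_ball h0).2 lc⟩
  obtain ⟨g0, fr, -, ext, nf, -⟩ := hGE Γ a μ H c k hμ hH.toGC0 hc' pc hm bd lg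
  have top := (hX Γ a μ _ c k hμ (gc0_trunc hT hμ hH.toGC0) inf_le_right hc' pc hm bd lg).1
  have hG : GC _ := ⟨g0, finC_of_finRed fr le_sup_left le_sup_left hH.finc hH.finc⟩
  exact ⟨_, hG, wc_exp hM hH hc pc k hG ext, sc_of hμ nf top hh hs, _,
    mul_mem (Subgroup.mem_sup_right (Subgroup.subset_closure ⟨1, rfl⟩)) (Subgroup.mem_sup_left hx),
    near⟩

end FA

end Pool.Agent.P.MP_dba3d2_lc
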