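import Pool.Agent.P.MP_dba3d2_lc.F.TbA
import Pool.Agent.P.MP_dba3d2_lc.E.Iface

/-! Adjunction of a point with finite stabiliser. -/

namespace Pool.Agent.P.MP_dba3d2_lc

open Filter ET

namespace FA

variable {Γ : HG} {a : Amb} {μ : a.K} {H : Subgroup (MM Γ a)} {c h p x : MM Γ a}

/-- extension of homomorphisms to a graft of letters -/
theorem ext_graft (hE : S_ELEM) (hR : S_ROOT) (hT : S_TRUNC) (hG : S_GRAFT) (hμ : Big μ)
    (hH : GC0 H) {r : ℕ} {u : Fin r → MM Γ a}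
    (top : TopOut μ (H ⊓ ball Γ μ) (H ⊓ ball Γ μ ⊔ Subgroup.closure (Set.range u)))
    (eL : ExtL (H ⊓ ball Γ μ) u)
    (last : ∀ c ∈ H ⊓ ball Γ μ, Prim c → ∀ f ∈ H ⊓ ball Γ μ ⊔ Subgroup.closure (Set.range u),
      f ∈ Ep c → f ∈ H ⊓ ball Γ μ) {G : Type} [Group G] (θ0 : H →* G) (ν : Fin r → G)
    (hν : ∀ i (x y : H), (x : MM Γ a) ∈ ball Γ μ → (y : MM Γ a) ∈ ball Γ μ →
      (y : MM Γ a) = (u i)⁻¹ * x * u i → θ0 y = (ν i)⁻¹ * θ0 x * ν i) :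
    ∃ θ : ↥(H ⊔ Subgroup.closure (Set.range u)) →* G,
      (∀ x : H, θ ⟨x, (le_sup_left : H ≤ _) x.2⟩ = θ0 x) ∧
      ∀ i, θ ⟨u i, (le_sup_right : _ ≤ H ⊔ _) (Subgroup.subset_closure ⟨i, rfl⟩)⟩ = ν i := by
  have hB := gc0_trunc hT hμ hH
  have sep := sep_of_le (H := H) hμ le_sup_left top.bd
  have e := inf_of_le (H := H) le_sup_left top.bd
  obtain ⟨θ1, h1, h2⟩ := eL G (θ0.comp (Subgroup.inclusion inf_le_left)) ν
    fun i x y h => hν i ⟨x, x.2.1⟩ ⟨y, y.2.1⟩ x.2.2 y.2.2 h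
  obtain ⟨θ, t0, t1⟩ := (hG Γ a H _ hH top.gc sep).1.ext G θ0 θ1
    (fun x y h => by
      have hy : (y : MM Γ a) ∈ H ⊓ ball Γ μ := e.le ⟨h ▸ x.2, y.2⟩
      exact (congrArg θ0 (Subtype.ext h)).trans (h1 ⟨y, hy⟩).symm)
    (fun c hc hf x y hx hy => by
      rw [e] at hc
      obtain ⟨c0, m0, p0, e0⟩ := (hR Γ a _ hB).1 c hc hf
      have hy' : (y : MM Γ a) ∈ H ⊓ ball Γ μ := last c0 m0 p0 y y.2 (e0 ▸ hy)
      have k : Commute (x ^ Γ.e) ⟨y, hy'.1⟩ :=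
        Subtype.ext ((hE Γ a c hf).2.2.2.2.2.2.2.1 x hx y hy)
      rw [← map_pow, show θ1 y = θ0 ⟨y, hy'.1⟩ from h1 ⟨y, hy'⟩]
      exact k.map θ0)
  exact ⟨θ.comp (Subgroup.inclusion (sup_le_sup_left le_sup_right H)), t0,
    fun i => (t1 ⟨u i, _⟩).trans (h2 i)⟩

/-- a frame at a point with finite stabiliser -/
theorem frame (hT : S_TORS) (hF : S_FINM) (hH : GC H) (hμ : Big μ)
    (tor : ∀ γ ∈ H, Ll (ds p (γ * p)) μ → IsOfFinOrder γ) :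
    ∃ p' : MM Γ a, ∃ z ∈ H, ∃ K : Subgroup Γ.G, Ll (ds p p') μ ∧ Finite K ∧
      (∀ k ∈ K, Commute (z⁻¹ * p') (cst Γ a k)) ∧
      ∀ x ∈ H, Ll (ds p' (x * p')) μ → z⁻¹ * x * z ∈ K.map (cst Γ a) := by
  have h0 := hμ.pos.le
  have mem : ∀ x, x ∈ H ⊓ StabG μ p p ↔ x ∈ H ∧ Ll (ds p (x * p)) μ := fun x => by
    rw [Subgroup.mem_inf, mem_stabG h0, Stab, and_self]
  have f0 : Finite ↥(H ⊓ StabG μ p p) :=
    (hT Γ a _ fun k hk => tor k ((mem k).1 hk).1 ((mem k).1 hk).2).1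
  obtain ⟨z, hz, e1⟩ := hH.finc _ inf_le_left f0
  obtain ⟨w, e2, lw⟩ := Frame.finm hF hμ ((H ⊓ StabG μ p p).comap (MulAut.conj p).toMonoidHom)
    (Frame.fin_comap _ (MulAut.conj p).injective _ f0) fun k hk => by
      have := ((mem _).1 hk).2
      rw [ds_conj] at this
      simpa [mul_assoc] using this
  let K : Subgroup Γ.G := (H ⊓ StabG μ p p).comap ((MulAut.conj z).toMonoidHom.comp (cst Γ a))
  have hK : ∀ x, x ∈ K ↔ z * cst Γ a x * z⁻¹ ∈ H ⊓ StabG μ p p := fun _ => Iff.rfl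
  have fK : Finite K := Frame.fin_comap _ ((MulAut.conj z).injective.comp cst_injective) _ f0
  obtain ⟨γ, hγ⟩ := Frame.fix (z⁻¹ * (p * w)) K fK fun k hk => by
    have := e2 (p⁻¹ * (z * cst Γ a k * z⁻¹) * p) (by
      simpa [Subgroup.mem_comap, mul_assoc] using (hK k).1 hk)
    simpa [mul_assoc] using this
  have near : Ll (ds p (p * w * (cst Γ a γ)⁻¹)) μ := by
    rw [mul_assoc, ds_mul_right]
    exact Frame.ll_mul lw (Frame.ll_inv ((mem_tiny h0).1 (std_le_tiny hμ ⟨γ, rfl⟩)))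
  refine ⟨_, z, hz, K, near, fK, fun k hk => ?_, fun x hx fx => ?_⟩
  · have h1 := hγ k hk
    rw [map_mul, map_mul, map_inv] at h1
    rw [← mul_assoc]
    generalize z⁻¹ * (p * w) = u at h1
    have h2 : cst Γ a k * u = u * ((cst Γ a γ)⁻¹ * cst Γ a k * cst Γ a γ) := by
      rw [← h1]; group
    rw [Commute, SemiconjBy, ← mul_assoc, h2]
    group
  · have m := (mem x).2 ⟨hx, fix_congr fx (FixA.ll_comm near)⟩
    obtain ⟨k, e⟩ := e1 x m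
    refine ⟨k, (hK k).2 ?_, e⟩
    rw [e]
    simpa [mul_assoc] using m

/-- `H` is witness closed in the adjunction of a letter over a finite group -/
theorem wc_let (hTo : S_TORS) (hE : S_ELEM) (hM : S_MICL) (hH : GC H) {u z w : MM Γ a}
    {K : Subgroup Γ.G} (hu : u ∉ H) (hz : z ∈ H) (hw : w ∈ H) (fK : Finite K)
    (cm : ∀ k ∈ K, Commute (z⁻¹ * u * w⁻¹) (cst Γ a k))
    (mx : ∀ g ∈ std Γ a, (z⁻¹ * u * w⁻¹)⁻¹ * g * (z⁻¹ * u * w⁻¹) ∈ std Γ a → g ∈ K.map (cst Γ a))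
    (gc : GC (H ⊔ Subgroup.closure (Set.range fun _ : Fin 1 => u)))
    (ext : ∀ (G : Type) [Group G] (θ0 : H →* G) (ν : Fin 1 → G),
      (∀ i (x y : H), z⁻¹ * x * z ∈ K.map (cst Γ a) → (y : MM Γ a) = u⁻¹ * x * u →
        θ0 y = (ν i)⁻¹ * θ0 x * ν i) →
      ∃ θ : ↥(H ⊔ Subgroup.closure (Set.range fun _ : Fin 1 => u)) →* G,
        (∀ x : H, θ ⟨x, (le_sup_left : H ≤ _) x.2⟩ = θ0 x) ∧
        ∀ i, θ ⟨u, (le_sup_right : _ ≤ H ⊔ _) (Subgroup.subset_closure ⟨i, rfl⟩)⟩ = ν i) :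
    Wc H (H ⊔ Subgroup.closure (Set.range fun _ : Fin 1 => u)) := by
  have lg : Legal Γ K := legal hTo hE
    (fun e => hu (by simpa [mul_assoc] using mul_mem (mul_mem hz (hH.base e)) hw)) fK cm mx
  obtain ⟨t, ct, hM'⟩ := hM Γ 1 (fun _ => K) fun _ => lg
  obtain ⟨g1, fc, ext', c4, -⟩ := hM' a H hH.toGC0
  set v : Fin 1 → MM Γ (a.pow U0) := fun i => a.mk' U0 fun n => cst Γ a (t i n) with hv
  have cu : ∀ i, ∀ k ∈ K, (v i)⁻¹ * cst Γ (a.pow U0) k * v i = cst Γ (a.pow U0) k := fun i k hk => by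
    have : Commute (v i) (cst Γ (a.pow U0) k) := by
      rw [← (a.dg U0).hom_cst, ← mk'_hom, Commute, SemiconjBy, ← mk'_mul, ← mk'_mul]
      exact congrArg _ (funext fun n => ((ct i n k hk).map (cst Γ a)).eq)
    exact this.inv_mul_cancel
  obtain ⟨θ, t1, t2⟩ := ext _ (((a.dg U0).hom Γ).comp H.subtype)
    (fun i => (a.dg U0).hom Γ z * v i * (a.dg U0).hom Γ w) fun i x y ⟨k, hk, e1⟩ e => by
      have e3 : (x : MM Γ a) = z * cst Γ a k * z⁻¹ := by rw [e1]; group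
      have e2 : (y : MM Γ a) = w⁻¹ * cst Γ a k * w := by
        rw [e, e3]
        conv_rhs => rw [← (cm k hk).inv_mul_cancel]
        group
      simp only [MonoidHom.comp_apply, Subgroup.coe_subtype, e3, e2, map_mul, map_inv,
        Ext.hom_cst]
      conv_lhs => rw [← cu i k hk]
      group
  obtain ⟨ρ, r1, r2⟩ := ext' _ (Einv (a.dg U0) H) (fun _ => z⁻¹ * u * w⁻¹) fun i x y e => by
    obtain ⟨k, hk, e1⟩ := c4 i x x.2 (e ▸ y.2)
    rw [Einv_eq _ _ x (h := cst Γ a k) e1.symm, Einv_eq _ _ y (h := cst Γ a k) (by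
      rw [e, ← e1, cu i k hk]; rfl)]
    exact (cm k hk).inv_mul_cancel.symm
  have t1' : ∀ t : ↥(H ⊔ Subgroup.closure (Set.range fun _ : Fin 1 => u)), (t : MM Γ a) ∈ H →
      θ t = (a.dg U0).hom Γ t := fun t ht => t1 ⟨t, ht⟩
  obtain ⟨i1, i2⟩ := iso ((a.dg U0).hom Γ) (z := fun _ => z) (w := fun _ => w) (fun _ => hz)
    (fun _ => hw) θ ρ t1' (fun t q ht => (congrArg θ (Subtype.ext ht)).trans (t2 q))
    (fun t x hx ht => ((congrArg ρ (Subtype.ext ht)).trans (r1 ⟨_, x, hx, rfl⟩)).trans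
      (Einv_eq _ _ _ rfl))
    fun t q ht => (congrArg ρ (Subtype.ext ht)).trans (r2 q)
  refine wc_of_hom le_sup_left gc θ i1 (i2 ▸ ⟨g1, fc hH.finc⟩) t1' ?_
  rw [i2]
  refine sup_le (map_le_UT H) ((Subgroup.closure_le _).2 ?_)
  rintro _ ⟨i, rfl⟩
  exact ⟨_, fun n => hH.base ⟨t i n, rfl⟩, rfl⟩

theorem adjB (hTo : S_TORS) (hF : S_FINM) (hE : S_ELEM) (hR : S_ROOT) (hT : S_TRUNC)
    (hG : S_GRAFT) (hP : S_PT) (hM : S_MICL) (hH : GC H) (hμ : Big μ) (hh : h ∈ H)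
    (hs : Sim (ln h) μ) (hp : On μ p 1 h) (far : ∀ y ∈ H, Ls μ (ds p y))
    (tor : ∀ γ ∈ H, Ll (ds p (γ * p)) μ → IsOfFinOrder γ) :
    ∃ H' : Subgroup (MM Γ a), GC H' ∧ Wc H H' ∧ Sc H' H ∧ ∃ p' ∈ H', Ll (ds p p') μ := by
  have h0 := hμ.pos.le
  obtain ⟨p', z, hz, K, near, fK, cm, st⟩ := frame hTo hF hH hμ tor
  have far' : ∀ y ∈ H, Ls μ (ds p' y) := fun y hy =>
    (far y hy).of_le_add near hμ.pos 1 (by push_cast; linarith [ds_tri p p' y])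
  obtain ⟨top, eL, c3, last⟩ := hP Γ a μ _ p' h hμ (gc0_trunc hT hμ hH.toGC0) inf_le_right
    ⟨hh, (mem_ball h0).2 hs.1⟩ (hp.congr near (FixA.ll_self h0 _) (FixA.ll_self h0 _))
    (fun x hx => far' x hx.1) fun x hx fx => by
      obtain ⟨k, hk, e⟩ := st x hx.1 fx
      refine ⟨⟨k, ?_⟩, tor x hx.1 (fix_congr fx (FixA.ll_comm near))⟩
      rw [← (cm k hk).inv_mul_cancel, e]
      group
  obtain ⟨o, nf⟩ := hG Γ a H _ hH.toGC0 top.gc (sep_of_le hμ le_sup_left top.bd)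
  have red := (red_two o inf_le_left top.fin top.per).1
  have g0 := o.gc
  rw [← sup_assoc, sup_inf_self] at g0 red
  have sc := sc_of hμ nf top hh hs
  rw [← sup_assoc, sup_inf_self] at sc
  have gc : GC _ := ⟨g0, finC_of_finRed red le_sup_left le_sup_left hH.finc hH.finc⟩
  refine ⟨_, gc, wc_let hTo hE hM hH (w := 1)
    (fun e => (FixA.ll_self h0 p').not_ls hμ.pos (far' p' e)) hz H.one_mem fK (by simpa using cm)
    (fun g hg e => ?_) gc fun G _ θ0 ν hν => ext_graft hE hR hT hG hμ hH.toGC0 top eL last θ0 ν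
      fun i x y hx hy e => hν i x y (st x x.2 (c3 x ⟨x.2, hx⟩ (e ▸ ⟨y.2, hy⟩))) e, sc, p',
    Subgroup.mem_sup_right (Subgroup.subset_closure ⟨0, rfl⟩), near⟩
  have := st (z * g * z⁻¹) (mul_mem (mul_mem hz (hH.base hg)) (inv_mem hz)) (by
    rw [ds_conj]
    exact hμ.ll_of_not_big (mem_std_iff.1 (by simpa [mul_assoc] using e)))
  simpa [mul_assoc] using this

end FA

end Pool.Agent.P.MP_dba3d2_lc
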