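import Pool.Agent.P.MP_dba3d2_lc.F.Iface
import Pool.Agent.P.MP_dba3d2_lc.A.Iface
import Pool.Agent.P.MP_dba3d2_lc.B.Iface
import Pool.Agent.P.MP_dba3d2_lc.C.Iface
import Pool.Agent.P.MP_dba3d2_lc.E.Iface
import Pool.Agent.P.MP_dba3d2_lc.E.Iface2
import Pool.Agent.P.MP_dba3d2_lc.F.AdjA
import Pool.Agent.P.MP_dba3d2_lc.F.AdjB

/-! Step ADJ of the stability project. -/

namespace Pool.Agent.P.MP_dba3d2_lc

open Filter

theorem p_ADJ (hTORS : S_TORS) (hFINM : S_FINM) (hELEM : S_ELEM) (hLINE : S_LINE) (hROOT : S_ROOT) (hTRUNC : S_TRUNC) (hGRAFT : S_GRAFT) (hPT : S_PT) (hEXP : S_EXP) (hMICL : S_MICL) (hMICE : S_MICE) (hE_CHI : S_E_CHI) (hE_SZ : S_E_SZ) (hE_GE : S_E_GE) :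
    S_ADJ := by
  intro Γ a H μ p h hH hμ hh hs hp
  by_cases near : ∃ y ∈ H, Ll (ds p y) μ
  · exact ⟨H, hH, ⟨le_rfl, fun _ _ _ _ _ _ x hx k => ⟨x, hx, k⟩⟩,
      fun g hg _ => ⟨g, hg, Sim.refl' _⟩, near⟩
  have far : ∀ y ∈ H, Ls μ (ds p y) := fun y hy =>
    (ll_or_ls hμ.pos _).resolve_left fun e => near ⟨y, hy, e⟩
  by_cases tor : ∀ γ ∈ H, Ll (ds p (γ * p)) μ → IsOfFinOrder γ
  · exact FA.adjB hTORS hFINM hELEM hROOT hTRUNC hGRAFT hPT hMICL hH hμ hh hs hp far tor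
  push Not at tor
  obtain ⟨γ, h1, h2, h3⟩ := tor
  exact FA.adjA hELEM hLINE hROOT hTRUNC hEXP hMICE hE_CHI hE_SZ hE_GE hH hμ hh hs
    (by simpa using hp.ls_left (by simpa using hs.1)) far h1 h3 h2

end Pool.Agent.P.MP_dba3d2_lc
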