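import Pool.Agent.P.MP_dba3d2_lc.F.DefsC

/-! Interface, chapter F: the limit of the grafts. -/

namespace Pool.Agent.P.MP_dba3d2_lc

open Filter

-- deps: ELEM LINE ROOT E_CHI E_SZ
-- imports: Pool.Agent.P.MP_dba3d2_lc.F.TbC
def S_FC_SM : Prop := ∀ (Γ : HG) (a : Amb) (c : MM Γ a), Prim c →
  (∀ f ∈ Ep c, ∀ p, Ls (ds p (f * p)) (md f + ds p (c * p))) ∧
  (∀ X : Subgroup (MM Γ a), GC0 X → c ∈ X → ∀ f ∈ Ep c, Ls (md f) (md c) → f ∈ X) ∧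
  (∀ (X : Subgroup (MM Γ a)) (ν : a.K), GC0 X → 0 ≤ ν → ball Γ ν ≤ X → c ∈ X →
    ∀ f ∈ Ep c, Ls (md f) (ν + md c) → f ∈ X) ∧
  (∀ z z', Ls (ds z (c * z)) (md c) → Ls (ds z' (c * z')) (md c) →
    ∃ k : a.Z, Ls (ds z (ipow c k * z')) (md c) ∧
      ∀ X : Subgroup (MM Γ a), GC0 X → c ∈ X → z ∈ X → z' ∈ X → ipow c k ∈ X) ∧
  ∀ X : Subgroup (MM Γ a), GC0 X → c ∈ X → ∀ f ∈ X, f ∈ Ep c → ∀ f' ∈ Ep c, ∀ n r : ℕ, 0 < n →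
    IsOfFinOrder (f⁻¹ * (f' ^ n * c ^ r)) → f' ∈ X

-- deps: ELEM ROOT CVX GRAFT FC_SM
-- imports: Pool.Agent.P.MP_dba3d2_lc.F.TbC
def S_FC_EXPO : Prop := ∀ (Γ : HG) (a : Amb) (H : Subgroup (MM Γ a)) (ν : a.K) (c f : MM Γ a),
  GC0 H → Big ν → Prim c → c ∈ H ⊔ ball Γ ν → f ∈ H ⊔ ball Γ ν → f ∈ Ep c →
  ∃ f1 ∈ Ep c, ∃ f2 ∈ Ep c, f = f1 * f2 ∧ Ls (md f2) ν ∧
    ∀ X : Subgroup (MM Γ a), GC0 X → H ≤ X → c ∈ X → f1 ∈ X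

-- deps: LINE CVX GRAFT FC_SM FC_EXPO
-- imports: Pool.Agent.P.MP_dba3d2_lc.F.TbC
def S_FC_COSET : Prop := ∀ (Γ : HG) (a : Amb) (H : Subgroup (MM Γ a)) (l : ℕ → a.K)
  (c g : MM Γ a) (n : ℕ), GC0 H → Desc l → Prim c → c ∈ capS H l → g ∈ H ⊔ ball Γ (l n) →
  (∀ m, ∃ e ∈ Ep c, e * g ∈ H ⊔ ball Γ (l m)) →
  ∃ y ∈ Ep c, Ls (md y) (l n + md c) ∧ y * g ∈ capS H l

-- deps: E_GEO
-- imports: Pool.Agent.P.MP_dba3d2_lc.F.TbC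
def S_FC_AX : Prop := ∀ (Γ : HG) (a : Amb) (D : a.K) (γ u z : MM Γ a) (X : Subgroup (MM Γ a)),
  Big D → ds u (γ * u) = md γ → Sim (md γ) D → Ls (ds u z) D → γ ∈ X → z ∈ X →
  XArc D X u (γ * u)

-- deps: ELEM LINE PERC ROOT CVX GRAFT FC_COSET
-- imports: Pool.Agent.P.MP_dba3d2_lc.F.TbC
def S_FC_ARC : Prop := ∀ (Γ : HG) (a : Amb) (H : Subgroup (MM Γ a)) (l : ℕ → a.K) (D : a.K)
  (g x p q : MM Γ a), GC0 H → Desc l → Big D → x ∈ H → Ls (ln x) D → Ls D (ds p q) →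
  On D p g (g * x) → On D q g (g * x) →
  (∀ n, Ll (l n) D → g ∈ H ⊔ ball Γ (l n) → (∀ m, XArc D (H ⊔ ball Γ (l m)) p q) →
    ∃ G ∈ capS H l, Ls (ds g G) D ∧ On D p G (G * x) ∧ On D q G (G * x)) ∧
  ∀ X, Cg H l X → g ∈ capS H l → XArc D X p q → g ∈ X

-- deps: CVX GRAFT FC_AX FC_ARC
-- imports: Pool.Agent.P.MP_dba3d2_lc.F.TbC
def S_FC_NEAR : Prop := ∀ (Γ : HG) (a : Amb) (H : Subgroup (MM Γ a)) (l : ℕ → a.K) (D : a.K)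
  (γ u : MM Γ a) (n : ℕ), GC0 H → Desc l → Big D → Ll (l n) D → γ ∈ capS H l →
  ds u (γ * u) = md γ → Sim (md γ) D → (∀ m, ∃ z ∈ H ⊔ ball Γ (l m), Ls (ds u z) D) →
  ∃ G ∈ capS H l, Ls (ds u G) D ∧
    ∀ X, Cg H l X → γ ∈ X → (∃ z ∈ X, Ls (ds u z) D) → G ∈ X

-- deps: LINE CVX GRAFT FC_SM FC_EXPO FC_COSET FC_NEAR
-- imports: Pool.Agent.P.MP_dba3d2_lc.F.TbC
def S_FC_CEN1 : Prop := ∀ (Γ : HG) (a : Amb) (H : Subgroup (MM Γ a)) (l : ℕ → a.K) (c : MM Γ a),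
  GC0 H → Desc l → Prim c → c ∈ capS H l →
  ∃ G ∈ capS H l, Ls (ln G) (ln c) ∧ Ls (ds G (c * G)) (md c) ∧ ∀ X, Cg H l X → c ∈ X → G ∈ X

-- deps: FINM ELEM LINE PERC ROOT CVX GRAFT E_GEO FC_SM FC_NEAR FC_CEN1
-- imports: Pool.Agent.P.MP_dba3d2_lc.F.TbC
def S_FC_CEN : Prop := ∀ (Γ : HG) (a : Amb) (H : Subgroup (MM Γ a)) (l : ℕ → a.K)
  (c c' : MM Γ a), GC0 H → Desc l → c ∈ capS H l → c' ∈ capS H l → ¬ IsOfFinOrder c →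
  ¬ IsOfFinOrder c' → ∃ G ∈ capS H l, Ls (ln G) (ln c + ln c') ∧
    (∀ q : MM Γ a, Ls (ln (G⁻¹ * c * G) + ln (G⁻¹ * c' * G))
      (ln (q⁻¹ * c * q) + ln (q⁻¹ * c' * q))) ∧
    ∀ X, Cg H l X → c ∈ X → c' ∈ X → G ∈ X

-- deps: ELEM LINE CVX GRAFT FC_EXPO
-- imports: Pool.Agent.P.MP_dba3d2_lc.F.TbC Pool.Agent.P.MP_dba3d2_lc.C.C2_rx
def S_FC_EX : Prop := ∀ (Γ : HG) (a : Amb) (H : Subgroup (MM Γ a)) (l : ℕ → a.K) (μ : a.K)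
  (h c : MM Γ a), GC0 H → Desc l → Big μ → h ∈ capS H l → Ls (ln h) μ → c ∈ capS H l → Prim c →
  Ls (ln c) μ → Ll (md c) μ →
  ∃ f ∈ capS H l, f ∈ Ep c ∧ Ll (2 * ds f h - (ln c + ln (h⁻¹ * c * h))) μ

-- deps: ELEM PERC ROOT CVX GRAFT FC_SM FC_CEN FC_EX
-- imports: Pool.Agent.P.MP_dba3d2_lc.F.TbC
def S_FC_INF : Prop := ∀ (Γ : HG) (a : Amb) (H : Subgroup (MM Γ a)) (l : ℕ → a.K)
  (F : Set (Subgroup (MM Γ a))), GC0 H → Desc l → (∀ X ∈ F, Cg H l X) →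
  Cg H l (capS H l ⊓ sInf F)

-- deps: ELEM ROOT TRUNC GRAFT FC_SM FC_EXPO
-- imports: Pool.Agent.P.MP_dba3d2_lc.F.TbC
def S_FC_UP : Prop := ∀ (Γ : HG) (a : Amb) (H : Subgroup (MM Γ a)) (l : ℕ → a.K)
  (X : Subgroup (MM Γ a)) (n : ℕ), GC0 H → Desc l → Cg H l X → Cg H l (H ⊔ (X ⊓ ball Γ (l n)))

-- deps: FINM TRUNC GRAFT
-- imports: Pool.Agent.P.MP_dba3d2_lc.F.TbC
def S_FC_FIN : Prop := ∀ (Γ : HG) (a : Amb) (H : Subgroup (MM Γ a)) (l : ℕ → a.K)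
  (X : Subgroup (MM Γ a)), GC H → Desc l → Cg H l X → (∀ n, X = H ⊔ (X ⊓ ball Γ (l n))) → FinC X

-- deps: FC_INF FC_UP FC_FIN
-- imports: Pool.Agent.P.MP_dba3d2_lc.F.TbC
def S_FC_CAP : Prop := ∀ (Γ : HG) (a : Amb) (H : Subgroup (MM Γ a)) (l : ℕ → a.K)
  (Y : Set (MM Γ a)), GC H → (∀ n, Big (l n)) → (∀ n, Ll (l (n + 1)) (l n)) →
  (∀ n, ∀ y ∈ Y, y ∈ H ⊔ ((H ⊔ Subgroup.closure Y) ⊓ ball Γ (l n))) →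
  ∃ X, GC X ∧ Cg H l X ∧ (∀ y ∈ Y, y ∈ X) ∧ ∀ n, X = H ⊔ (X ⊓ ball Γ (l n))

end Pool.Agent.P.MP_dba3d2_lc
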