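import Pool.Agent.P.MP_dba3d2_lc.F.Iface
import Pool.Agent.P.MP_dba3d2_lc.F.IfaceC

/-! Step CAP of the stability project. -/

namespace Pool.Agent.P.MP_dba3d2_lc

open Filter

theorem p_CAP (hFC_CAP : S_FC_CAP) :
    S_CAP := by
  intro Γ a H l Y hH h1 h2 hY
  obtain ⟨X, g, c, y, e⟩ := hFC_CAP Γ a H l Y hH h1 h2 fun n y hy => hY n hy
  exact ⟨X, g, c.le, y, e⟩

end Pool.Agent.P.MP_dba3d2_lc
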