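import Pool.Agent.P.MP_dba3d2_lc.F.Iface
import Pool.Agent.P.MP_dba3d2_lc.A.Iface
import Pool.Agent.P.MP_dba3d2_lc.B.Iface
import Pool.Agent.P.MP_dba3d2_lc.E.Iface
import Pool.Agent.P.MP_dba3d2_lc.E.No1
import Pool.Agent.P.MP_dba3d2_lc.E.No2
import Pool.Agent.P.MP_dba3d2_lc.E.E_trl

/-! Step CUT of the stability project. -/

namespace Pool.Agent.P.MP_dba3d2_lc

open Filter ET

namespace CutA

variable {Γ : HG} {a : Amb} {μ : a.K} {c p q : MM Γ a}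

/-- a divisible exponent that carries `q` to `p` -/
theorem kappa (hL : S_LINE) (hμ : Big μ) (hc : ¬ IsOfFinOrder c) (h : Stab μ p q c) :
    ∃ κ : ℚ →+ a.Z, Ll (ds p (ipow c (κ 1) * q)) μ := by
  obtain ⟨z, hz⟩ := exists_md_ds c
  obtain ⟨L, hL1, hL2⟩ := exists_coord hL hc (Ls.of_le hz.le)
  obtain ⟨h1, -, h3⟩ := hL2 μ h.md
  have L0 : 0 < L := hL1.2.pos (one_pos.trans_le (one_le_md' hc))
  obtain ⟨i, hi⟩ := (h3 p).1 h.1
  obtain ⟨l, hl⟩ := (h3 q).1 h.2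
  have hν : Big (μ / L) := fun n => (le_div_iff₀ L0).2 (Ll.ls_left hL1.1 h.md n)
  obtain ⟨k, hk1, hk2⟩ := exists_divisible (zK i - zK l) (μ / L) hν
  have hk3 : Ll (|zK k - (zK i - zK l)| * L) μ := fun n => by
    have := (le_div_iff₀ L0).1 (hk2 n)
    rwa [mul_assoc] at this
  obtain ⟨κ, hκ⟩ := Etrl.exists_hom k hk1
  refine ⟨κ, ?_⟩
  obtain ⟨k1, -⟩ := h1 (κ 1 + l) i
  rw [zK_add, hκ, Rat.cast_one, one_mul, ipow_add, mul_assoc,
    show zK k + zK l - zK i = zK k - (zK i - zK l) by ring] at k1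
  have k2 := ds_tri p (ipow c i * z) (ipow c (κ 1) * q)
  have k3 := ds_tri (ipow c i * z) (ipow c (κ 1) * (ipow c l * z)) (ipow c (κ 1) * q)
  rw [ds_mul_left, ds_comm _ q, ds_comm _ (ipow c (κ 1) * (ipow c l * z))] at k3
  exact Ll.mono_left (by linarith) (((hi.add hl).add k1).add hk3)

end CutA

theorem p_CUT (hFINM : S_FINM) (hELEM : S_ELEM) (hLINE : S_LINE) (hPERC : S_PERC) (hFRAME : S_FRAME) (hCVX : S_CVX) (hMICL : S_MICL) (hMICE : S_MICE) :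
    S_CUT := by
  intro Γ a μ p q hμ hs E
  have hT : GC (⊤ : Subgroup (MM Γ a)) := hCVX Γ a ⊤ ⟨le_top, fun _ _ _ _ => trivial⟩
  by_cases hp : Per μ p q
  · obtain ⟨c, pc, st, hall⟩ := hPERC Γ a μ p q hμ hs.2 hp
    obtain ⟨κ, hκ⟩ := CutA.kappa hLINE hμ pc.1 st
    obtain ⟨-, k, -, g0, g1, hX, -, hmd, -, hretr⟩ := hMICE Γ a ⊤ c hT.toGC0 trivial pc
    have e0 : ∀ r, ipow (E.hom Γ c) ((E.zh.toAddMonoidHom.comp κ) r) = E.hom Γ (ipow c (κ r)) :=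
      fun r => (E.hom_ipow c (κ r)).symm
    have hκ' : ∀ r, ipow (E.hom Γ c) ((E.zh.toAddMonoidHom.comp κ) r) ∈
        (⊤ : Subgroup (MM Γ a)).map (E.hom Γ) := fun r => ⟨_, trivial, (e0 r).symm⟩
    obtain ⟨ρ, r1, r2⟩ := No2.rho E hX
    obtain ⟨σ, s1, s2, s3⟩ := No2.sig_bij hX hκ'
    have hfix : Ll (ds (E.hom Γ p) (ipow (E.hom Γ c) (k 1) * E.hom Γ p)) (E.kh μ) :=
      fix_of_fix hELEM hLINE (fun e => pc.1 (E.finOrder_iff.1 e)) (ipow_mem_Ep _ _)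
        (by rw [← map_mul, E.ds_hom, E.ll_iff]; exact st.1) (hmd 1 μ st.md)
    refine ⟨No2.TT _ (E.hom Γ c) k,
      (E.hom Γ).codRestrict _ fun g =>
        Subgroup.mem_sup_left (Subgroup.mem_map_of_mem _ (Subgroup.mem_top g)),
      No2.nu _ (E.hom Γ c) k (No2.mem_s _ _ k) (.ofAdd 1), ρ, σ, ⟨g0, g1 hT.finc⟩, fun _ => rfl,
      fun g => r1 _ g trivial rfl, r2 _ 1 rfl, hretr ρ (fun t g e => r1 t g trivial e) r2, s1,
      fun g => s2 _ ⟨g, trivial, rfl⟩,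
      fun g hg => Subtype.ext (commute_k k ((GT.memEp_hom E).2 (hall g hg)) 1).eq, hfix, ?_⟩
    rw [s3]
    show Ll (ds (E.hom Γ p) (ipow (E.hom Γ c) (k 1 + (E.zh.toAddMonoidHom.comp κ) 1) * E.hom Γ q)) _
    have e1 := E.ll_iff.2 hκ
    rw [← E.ds_hom, map_mul, ← ds_mul_left (ipow (E.hom Γ c) (k 1))] at e1
    rw [ipow_add, e0, mul_assoc]
    exact Ll.mono_left (ds_tri _ _ _) (hfix.add e1)
  · obtain ⟨z, z', hz, hz', K, hK, hc, hst⟩ := hFRAME Γ a μ (p⁻¹ * q) hμ hs.2 fun h =>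
      hp (by simpa using (per_mul_iff p).2 h)
    obtain ⟨u, M⟩ := No1.mic hMICL hμ hT (fun _ : Fin 1 => K) fun _ => hK
    obtain ⟨ρ, r1, r2⟩ := M.rho
    obtain ⟨σ, s0, s1, s2⟩ := M.sigma (fun _ => ⟨z⁻¹ * (p⁻¹ * q) * z', trivial⟩) fun _ => hc
    obtain ⟨j, hj⟩ : ∃ j : MM Γ a →* No1.TT E ⊤ u, ∀ g, j g = No1.emb E ⊤ u ⟨g, trivial⟩ :=
      ⟨(No1.emb E ⊤ u).comp Subgroup.topEquiv.symm.toMonoidHom, fun _ => rfl⟩
    have hj' : ∀ g, (j g : MM Γ (a.pow U0)) = E.hom Γ g := fun g => by rw [hj]; rfl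
    have sj : ∀ g, σ (j g) = j g := fun g => by rw [hj, s1]
    have rj : ∀ g, ρ (j g) = g := fun g => by rw [hj, r1]
    refine ⟨No1.TT E ⊤ u, j, j (p * z) * No1.uT E ⊤ u 0 * (j (p * z))⁻¹, ρ, σ, M.gc, hj', rj,
      by rw [map_mul, map_mul, r2, mul_one, map_inv, mul_inv_cancel], M.ret ρ (fun t g e => ?_) fun t i e => ?_, s0, sj, fun g hg => ?_, ?_, ?_⟩
    · obtain rfl : t = j g := Subtype.ext (e.trans (hj' g).symm)
      exact rj g
    · obtain rfl : t = No1.uT E ⊤ u i := Subtype.ext e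
      exact r2 i
    · have k1 := (hst (p⁻¹ * g * p)).1 ((stab_conj' p).2 (by simpa using hg))
      have k2 := (M.comm 0 (x := ⟨z⁻¹ * (p⁻¹ * g * p) * z, trivial⟩) k1).conj (j (p * z))
      rw [← hj] at k2
      simpa [mul_assoc] using k2.symm
    · have := M.small 0 (p := ⟨z, trivial⟩) (q := ⟨z, trivial⟩) hz hz
      rw [← hj] at this
      refine (congrArg (fun t => Ll (ln t) _) ?_).mp this
      simp [hj', mul_assoc]
      rfl
    · have := M.small 0 (p := ⟨z, trivial⟩) (q := ⟨z', trivial⟩) hz hz'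
      rw [← hj, ← hj] at this
      rw [map_mul, map_mul, map_inv, sj, s2, ← hj]
      refine (congrArg (fun t => Ll (ln t) _) ?_).mp this
      simp [hj', mul_assoc]

end Pool.Agent.P.MP_dba3d2_lc
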