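import Pool.Agent.P.MP_dba3d2_lc.A.Defs2

/-! Definitions for the limit of the grafts `H ⊔ ball (l n)`. -/

namespace Pool.Agent.P.MP_dba3d2_lc

open Filter

variable {Γ : HG} {a : Amb}

/-- a descending sequence of infinite scales -/
structure Desc (l : ℕ → a.K) : Prop where
  big : ∀ n, Big (l n)
  ll : ∀ n, Ll (l (n + 1)) (l n)

/-- the intersection of the grafts -/
def capS (H : Subgroup (MM Γ a)) (l : ℕ → a.K) : Subgroup (MM Γ a) := ⨅ n, H ⊔ ball Γ (l n)

/-- closed subgroups between `H` and the intersection of the grafts -/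
structure Cg (H : Subgroup (MM Γ a)) (l : ℕ → a.K) (X : Subgroup (MM Γ a)) : Prop where
  gc : GC0 X
  le : H ≤ X
  sub : X ≤ capS H l
  ex : ∀ c ∈ X, ¬ IsOfFinOrder c → ∀ f ∈ capS H l, f ∈ Ep c → f ∈ X
  cpl : ∀ (u : MM Γ a) (v : ℕ → MM Γ a), (∀ n, v n ∈ X) → (∀ n, Ls (ds u (v n)) (l n)) → u ∈ X

/-- `p` and `q` lie on a segment of scale at most `D` between two points of `X` -/
def XArc (D : a.K) (X : Subgroup (MM Γ a)) (p q : MM Γ a) : Prop :=
  ∃ x ∈ X, ∃ y ∈ X, Ls (ds x y) D ∧ On D p x y ∧ On D q x y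

end Pool.Agent.P.MP_dba3d2_lc
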