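import Pool.Agent.P.MP_dba3d2_lc.C.DefsP

/-! Definitions for the key lemma. -/

namespace Pool.Agent.P.MP_dba3d2_lc

open Filter

variable {Γ : HG} {a : Amb}

/-- sets of tuples defined over `H` by a predicate that transfers -/
def TD (H : Subgroup (MM Γ a)) {k : ℕ} (W : Set (Fin k → MM Γ a)) : Prop :=
  ∃ (m : ℕ) (Q : (Fin m ⊕ Fin k → Γ.G) → Prop) (h : Fin m → MM Γ a), Tr Q ∧ (∀ i, h i ∈ H) ∧
    ∀ z, z ∈ W ↔ St Q (Sum.elim h z)

/-- word maps with coefficients in `H` -/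
def WM (H : Subgroup (MM Γ a)) (k : ℕ) : Subgroup ((Fin k → MM Γ a) → MM Γ a) :=
  Subgroup.closure ({F | ∃ h ∈ H, F = fun _ => h} ∪ {F | ∃ i, F = fun z => z i})

/-- geometrically closed subgroups with countably many scales that admit no adjunction -/
structure Clo (H : Subgroup (MM Γ a)) : Prop where
  gc : GC H
  adj : ∀ (μ : a.K) (p h : MM Γ a), Big μ → h ∈ H → Sim (ln h) μ → On μ p 1 h →
    ∃ p' ∈ H, Ll (ds p p') μ
  lim : ∀ (l : ℕ → a.K) (u : MM Γ a), (∀ n, Big (l n)) → (∀ n, Ll (l (n + 1)) (l n)) →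
    (∀ n, ∃ v ∈ H, Ls (ds u v) (l n)) → ∃ u' ∈ H, ∀ n, Ls (ds u u') (l n)
  cnt : ∃ Λ : Set a.K, Λ.Countable ∧ ∀ h ∈ H, Big (ln h) → ∃ l ∈ Λ, Sim (ln h) l

/-- a tuple of least total length -/
def MinT {k : ℕ} (W : Set (Fin k → MM Γ a)) (x : Fin k → MM Γ a) : Prop :=
  x ∈ W ∧ ∀ y ∈ W, tl x ≤ tl y

/-- subgroups that contain a limit of each convergent sequence -/
def LimC (P : Subgroup (MM Γ a)) : Prop :=
  ∀ (l : ℕ → a.K) (u : MM Γ a), (∀ n, Big (l n)) → (∀ n, Ll (l (n + 1)) (l n)) →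
    (∀ n, ∃ v ∈ P, Ls (ds u v) (l n)) → ∃ u' ∈ P, ∀ n, Ls (ds u u') (l n)

/-- the elements of `H` of type `t` -/
def TG (H : Subgroup (MM Γ a)) (t : Option (MM Γ a)) : Subgroup (MM Γ a) := H ⊓ Ep (t.getD 1)

/-- multiplying the coordinates on both sides by elements of `H` does not lower the scale -/
def Irr (H : Subgroup (MM Γ a)) {k : ℕ} (ty : Fin k → Option (MM Γ a))
    (W : Set (Fin k → MM Γ a)) : Prop :=
  ∀ x, MinT W x → Big (tl x) → ∀ g g' z : Fin k → MM Γ a,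
    (∀ i, g i ∈ TG H (ty i) ∧ g' i ∈ TG H (ty i) ∧ Ls (ln (g i)) (tl x) ∧ Ls (ln (g' i)) (tl x)) →
    (fun i => g i * z i * g' i) ∈ W → ¬ Ll (tl z) (tl x)

/-- the substitution given by blocks -/
def upW {k : ℕ} (r : Fin k → ℕ) (h : (i : Fin k) → Fin (r i + 1) → MM Γ a)
    (z : Fin (∑ i, r i) → MM Γ a) : Fin k → MM Γ a :=
  fun i => weave (r i) (h i) fun j => z (finSigmaFinEquiv ⟨i, j⟩)

/-- one step of the descent from the set `W` with minimal element `x` -/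
structure Stp (H : Subgroup (MM Γ a)) {k : ℕ} (ty : Fin k → Option (MM Γ a))
    (W : Set (Fin k → MM Γ a)) (x : Fin k → MM Γ a) (r : Fin k → ℕ)
    (h : (i : Fin k) → Fin (r i + 1) → MM Γ a) (ty' : Fin (∑ i, r i) → Option (MM Γ a)) : Prop where
  mem : ∀ i j, h i j ∈ TG H (ty i)
  bd : ∀ i j, Ls (ln (h i j)) (tl x)
  add : Ll (∑ i, ∑ j, ln (h i j) - tl x) (tl x)
  ok : ∀ s, TyOk H (ty' s)
  one : ∀ i c, ty i = some c → r i ≤ 1 ∧ ∀ j, ty' (finSigmaFinEquiv ⟨i, j⟩) = some c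
  low : ∃ z, ((∀ s, HasT (ty' s) (z s)) ∧ upW r h z ∈ W) ∧ Ll (tl z) (tl x)
  irr : Irr H ty' {z | (∀ s, HasT (ty' s) (z s)) ∧ upW r h z ∈ W}
  opt : ∀ y ∈ W, Ll (tl y - tl x) (tl x) → ∀ (r' : Fin k → ℕ)
    (h' : (i : Fin k) → Fin (r' i + 1) → MM Γ a) (z' : (i : Fin k) → Fin (r' i) → MM Γ a)
    (t' : (i : Fin k) → Fin (r' i) → Option (MM Γ a)),
    (∀ i, TDec (tl x) H (ty i) (y i) (r' i) (h' i) (z' i) (t' i)) →
    nG ty' < ∑ i, nG (t' i) ∨ (nG ty' = ∑ i, nG (t' i) ∧ ∑ i, r i ≤ ∑ i, r' i)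

end Pool.Agent.P.MP_dba3d2_lc
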