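import Pool.Agent.P.MP_dba3d2_lc.F.DefsShr
import Pool.Agent.P.MP_dba3d2_lc.A.Bas2

/-! Definitions for the finiteness of branching: amalgams, walks, patterns, words. -/

namespace Pool.Agent.P.MP_dba3d2_lc.SW

open Filter

section amal
variable {G T : Type} [Group G] [Group T]

/-- reduced alternating words are not in `U` -/
def Am (U W : Subgroup G) : Prop := ∀ l : List (G × G), l ≠ [] →
  (∀ s ∈ l, s.1 ∈ U ∧ s.2 ∈ W ∧ s.2 ∉ U) → (∀ s ∈ l.tail, s.1 ∉ W) →
  (l.map fun s => s.1 * s.2).prod ∉ U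

/-- values of reduced words with `n` letters from `W`; the flag says that the first block is
not in `W` -/
inductive Rw (U W : Subgroup G) : ℕ → Bool → G → Prop
  | nil (b : Bool) (u : G) : u ∈ U → Rw U W 0 b u
  | cons (n : ℕ) (b : Bool) (u w x : G) : u ∈ U → (b = true → u ∉ W) → w ∈ W → w ∉ U →
      Rw U W n true x → Rw U W (n + 1) b (u * w * x)

/-- tails: what can follow a letter from `W` -/
def Tl (U W : Subgroup G) (x : G) : Prop := ∃ n, Rw U W n true x

/-- `u` is the first block of `x`, and `s` says whether a letter from `W` follows -/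
def En (U W : Subgroup G) (x : G) (s : Bool) (u : G) : Prop :=
  u ∈ U ∧ (s = false → x = u) ∧ (s = true → ∃ w t, w ∈ W ∧ w ∉ U ∧ Tl U W t ∧ x = u * w * t)

/-- a tripod with centre `U` -/
structure UC (U W : Subgroup G) (x : Fin 3 → G) (s : Fin 3 → Bool) (u : Fin 3 → G) : Prop where
  en : ∀ i, En U W (x i) (s i) (u i)
  ne : ∀ i j, i ≠ j → s i = true → s j = true → (u i)⁻¹ * u j ∉ W

/-- a tripod with centre `W` -/
def WC (U W : Subgroup G) (x : Fin 3 → G) : Prop := ∃ w t : Fin 3 → G,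
  (∀ i, w i ∈ W ∧ Tl U W (t i) ∧ x i = w i * t i) ∧ ∀ i j, i ≠ j → (w i)⁻¹ * w j ∉ U

/-- the modified block -/
def ph (j : G →* T) (n : Bool → G → T) (s t : Bool) (u : G) : T :=
  (if s then (n t u)⁻¹ else 1) * j u * (if t then n s u⁻¹ else 1)

/-- `ι` inserts the values of `n` next to the letters from `W` -/
structure IsI (U W : Subgroup G) (j : G →* T) (n ι : Bool → G → T) : Prop where
  nil : ∀ s, ∀ u ∈ U, ι s u = ph j n s false u
  cons : ∀ s, ∀ u ∈ U, ∀ w ∈ W, w ∉ U → ∀ x, Tl U W x →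
    ι s (u * w * x) = ph j n s true u * j w * ι true x

/-- the patterns at the centre of a tripod agree -/
def EqP (P : Bool → G → G → Prop) (s : Fin 3 → Bool) (u : Fin 3 → G) : Prop :=
  ∀ i j k, s i = true → j ≠ i → k ≠ i → ∀ m, P (s j) ((u i)⁻¹ * u j) m → P (s k) ((u i)⁻¹ * u k) m

/-- a triangle that is good for the pattern -/
def Gd (U W : Subgroup G) (P : Bool → G → G → Prop) (x : Fin 3 → G) : Prop :=
  ∃ g, WC U W (fun i => g * x i) ∨ ∃ s u, UC U W (fun i => g * x i) s u ∧ EqP P s u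

/-- group theoretic axioms for a pattern -/
structure Pt0 (U W : Subgroup G) (P : Bool → G → G → Prop) : Prop where
  mem : ∀ s u m, P s u m → m ∈ U ∧ m ∈ W
  left : ∀ s, ∀ u ∈ U, ∀ m, P s u m → ∀ m0 ∈ U, m0 ∈ W → P s (m0 * u) (m0 * m)
  right : ∀ u ∈ U, ∀ m, P true u m → ∀ m0 ∈ U, m0 ∈ W → P true (u * m0) m
  one : ∀ m, ¬ P false 1 m

/-- `n` is the conjugate of `ν⁻¹` selected by the pattern -/
structure IsN (U : Subgroup G) (P : Bool → G → G → Prop) (j : G →* T) (ν : T)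
    (n : Bool → G → T) : Prop where
  yes : ∀ s, ∀ u ∈ U, ∀ m, P s u m → n s u = j m * ν⁻¹ * (j m)⁻¹
  no : ∀ s u, (∀ m, ¬ P s u m) → n s u = 1

/-- the cut at one end of a block -/
def Hf (P : G → Prop) (s : Bool) (φ : G → G × Bool) (c : List (G × Bool)) : Prop :=
  (∃ m, s = true ∧ P m ∧ c = [φ m]) ∨ ((s = true → ∀ m, ¬ P m) ∧ c = [])

/-- the cuts of a block -/
def Bk (P : Bool → G → G → Prop) (s t : Bool) (u : G) (c : List (G × Bool)) : Prop :=
  ∃ c1 c2, Hf (P t u) s (fun m => (m, true)) c1 ∧ Hf (P s u⁻¹) t (fun m => (u * m, false)) c2 ∧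
    c = c1 ++ c2

/-- reduced words with their total weight and their list of cuts -/
inductive CL {K : Type} [Add K] (U W : Subgroup G) (f : G → K)
    (B : Bool → Bool → G → List (G × Bool) → Prop) : Bool → G → K → List (G × Bool) → Prop
  | nil (s : Bool) (u : G) (c : List (G × Bool)) : u ∈ U → B s false u c → CL U W f B s u (f u) c
  | cons (s : Bool) (u w x : G) (t : K) (c C : List (G × Bool)) : u ∈ U → (s = true → u ∉ W) →
      w ∈ W → w ∉ U → B s true u c → CL U W f B true x t C →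
      CL U W f B s (u * w * x) (f u + f w + t) (c ++ cutMv (u * w) C)

end amal

/-- blocks and joints as a list -/
def wl {α β : Type} : (r : ℕ) → (Fin (r + 1) → α) → (Fin r → β) → List (α ⊕ β)
  | 0, h, _ => [Sum.inl (h 0)]
  | r + 1, h, z => Sum.inl (h 0) :: Sum.inr (z 0) :: wl r (Fin.tail h) (Fin.tail z)

variable {Γ : HG} {a : Amb}

/-- the small elements of `X` -/
abbrev WW (X : Subgroup (MM Γ a)) (μ : a.K) : Subgroup (MM Γ a) := X ⊓ tiny Γ μ

/-- the structure of `X` at the scale `μ` -/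
structure Lv (H X : Subgroup (MM Γ a)) (μ : a.K) : Prop where
  big : Big μ
  gH : GC0 H
  le : H ≤ X
  sup : hatH H X ⊔ WW X μ = X
  am : Am (hatH H X) (WW X μ)
  hm : ∀ m ∈ hatH H X, m ∈ WW X μ → m ∈ hatM H (WW X μ)
  nf : AddNF X {g | g ∈ H ∨ g ∈ WW X μ}

/-- the structure of `X` at all scales -/
structure Env (H X : Subgroup (MM Γ a)) (l : ℕ → a.K) : Prop where
  gX : GC X
  lv : ∀ n, Lv H X (l n)
  dec : ∀ n, Ll (l (n + 1)) (l n)

/-- axioms for a pattern -/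
structure Pt (U W : Subgroup (MM Γ a)) (μ : a.K) (p : MM Γ a)
    (P : Bool → MM Γ a → MM Γ a → Prop) : Prop extends Pt0 U W P where
  stab : ∀ s, ∀ u ∈ U, ∀ m m', P s u m → P s u m' → Stab μ 1 p (m⁻¹ * m')

/-- walks from the coset of `x` that only use axes in `A` -/
inductive Wk (H X : Subgroup (MM Γ a)) (A : Set (Subgroup (MM Γ a))) (x : MM Γ a) : MM Γ a → Prop
  | refl : Wk H X A x x
  | hs (y h : MM Γ a) : Wk H X A x y → h ∈ H → Wk H X A x (y * h)
  | es (y c f : MM Γ a) : Wk H X A x y → c ∈ H → Prim c → f ∈ X → f ∈ Ep c →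
      Ep (y * c * y⁻¹) ∈ A → Wk H X A x (y * f)

/-- there is a walk that avoids the axis of `d` -/
def Cn (H X : Subgroup (MM Γ a)) (d x y : MM Γ a) : Prop := Wk H X {e | e ≠ Ep d} x y

/-- the axes at the edge `x` -/
def YA (H X : Subgroup (MM Γ a)) (μ : a.K) (x : MM Γ a) : Set (Subgroup (MM Γ a)) :=
  {e | ∃ m ∈ hatH H X, m ∈ WW X μ ∧ ∃ c ∈ H, c ∈ WW X μ ∧ Prim c ∧ e = Ep (x * m * c * (x * m)⁻¹)}

/-- the pattern of a block between two small letters -/
def Pat1 (H X : Subgroup (MM Γ a)) (μ : a.K) (u0 : MM Γ a) (s : Bool) (u m : MM Γ a) : Prop :=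
  s = true ∧ m ∈ hatH H X ∧ m ∈ WW X μ ∧ u0⁻¹ * (m⁻¹ * u) ∈ WW X μ

/-- the pattern of the first axis after a small letter -/
def Pat2 (H X : Subgroup (MM Γ a)) (μ : a.K) (d0 : MM Γ a) (s : Bool) (u m : MM Γ a) : Prop :=
  m ∈ hatH H X ∧ m ∈ WW X μ ∧ (s = true → Ep (m * d0 * m⁻¹) ∉ YA H X μ u) ∧
    ¬ Cn H X (m * d0 * m⁻¹) 1 u

/-- typed variables with a value -/
abbrev Vr (Γ : HG) (a : Amb) : Type := Option (MM Γ a) × MM Γ a
/-- letters: constants and variables -/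
abbrev Lt (Γ : HG) (a : Amb) : Type := MM Γ a ⊕ Vr Γ a
/-- letters together with an expansion of the variables -/
abbrev NL (Γ : HG) (a : Amb) : Type := MM Γ a ⊕ Vr Γ a × List (Lt Γ a)

/-- the value of a letter -/
def vL : Lt Γ a → MM Γ a := Sum.elim id Prod.snd
/-- the value of a word -/
def lv (L : List (Lt Γ a)) : MM Γ a := (L.map vL).prod
/-- the total length of the constants -/
def lc (L : List (Lt Γ a)) : a.K := (L.map (Sum.elim ln fun _ => 0)).sum
/-- general variables -/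
def isG : Lt Γ a → Bool := Sum.elim (fun _ => false) fun x => x.1.isNone
/-- the number of general variables -/
def cG (L : List (Lt Γ a)) : ℕ := L.countP isG
/-- the number of variables -/
def cV (L : List (Lt Γ a)) : ℕ := L.countP Sum.isRight
/-- no general variables -/
def NoG (L : List (Lt Γ a)) : Prop := ∀ v, Sum.inr (none, v) ∉ L
/-- no variables -/
def NoV (L : List (Lt Γ a)) : Prop := ∀ x, Sum.inr x ∉ L
/-- forget the value of a variable -/
def sk : Lt Γ a → MM Γ a ⊕ Option (MM Γ a) := Sum.map id Prod.fst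
/-- forget the expansion -/
def tp : NL Γ a → Lt Γ a := Sum.map id Prod.fst
/-- the expansion -/
def ex : NL Γ a → List (Lt Γ a) := Sum.elim (fun h => [Sum.inl h]) Prod.snd
/-- the expanded word -/
def fl (N : List (NL Γ a)) : List (Lt Γ a) := N.flatMap ex
/-- the total length of the constants inside the expansions -/
def nc (N : List (NL Γ a)) : a.K := (N.map (Sum.elim (fun _ => 0) fun x => lc x.2)).sum
/-- the inverse of a letter -/
def iL : Lt Γ a → Lt Γ a := Sum.map (fun h => h⁻¹) fun x => (x.1, x.2⁻¹)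
/-- the inverse of a word -/
def li (L : List (Lt Γ a)) : List (Lt Γ a) := (L.map iL).reverse
/-- the inverse of a letter with expansion -/
def iN : NL Γ a → NL Γ a := Sum.map (fun h => h⁻¹) fun x => ((x.1.1, x.1.2⁻¹), li x.2)
/-- the inverse of a word with expansions -/
def ni (N : List (NL Γ a)) : List (NL Γ a) := (N.map iN).reverse

/-- admissible letters of an expansion -/
def LOk (μ : a.K) (H : Subgroup (MM Γ a)) : Lt Γ a → Prop :=
  Sum.elim (fun h => h ∈ H ∧ Ls (ln h) μ) fun x => TyOk H x.1 ∧ HasT x.1 x.2 ∧ Ll (ln x.2) μ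
/-- expansions of a variable of exponent type -/
def TyL (c : MM Γ a) (D : List (Lt Γ a)) : Prop :=
  cV D ≤ 1 ∧ (∀ h, Sum.inl h ∈ D → h ∈ Ep c) ∧ ∀ x, Sum.inr x ∈ D → x.1 = some c
/-- admissible expansions -/
def WD (μ : a.K) (H : Subgroup (MM Γ a)) : NL Γ a → Prop :=
  Sum.elim (fun h => h ∈ H) fun x => lv x.2 = x.1.2 ∧ (∀ y ∈ x.2, LOk μ H y) ∧
    ∀ c, x.1.1 = some c → TyL c x.2
/-- `r` can replace the variable `x` -/
def Rp (μ : a.K) (H : Subgroup (MM Γ a)) (x : Vr Γ a) (r : List (Lt Γ a)) : Prop :=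
  (∀ y ∈ r, LOk μ H y ∧ Ll (ln (vL y)) μ) ∧ ∀ c, x.1 = some c → TyL c r

/-- additive words -/
def Ad (μ : a.K) (D : List (Lt Γ a)) : Prop :=
  (∀ x, Sum.inr x ∈ D → Ll (ln x.2) μ) ∧ Ll (lc D - ln (lv D)) μ

/-- a chain of expansions of one word -/
structure Cb (H X : Subgroup (MM Γ a)) (l : ℕ → a.K) (N : ℕ → List (NL Γ a)) : Prop where
  base : ∃ y D, N 0 = [Sum.inr ((none, y), D)]
  succ : ∀ n, (N (n + 1)).map tp = fl (N n)
  wd : ∀ n, ∀ s ∈ N n, WD (l n) H s
  mem : ∀ n, ∀ x ∈ fl (N n), vL x ∈ X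
  add : ∀ n e D, Sum.inr (e, D) ∈ N n → Ad (l n) D

/-- lexicographic optimality of the expansions -/
def Opt (H : Subgroup (MM Γ a)) (μ : a.K) (N : List (NL Γ a)) : Prop :=
  ∀ N' : List (NL Γ a), (N'.map fun s => sk (tp s)) = N.map (fun s => sk (tp s)) →
    lv (fl N') = lv (fl N) → (∀ s ∈ N', WD μ H s) → Ll (nc N' - nc N) μ →
    cG (fl N) < cG (fl N') ∨ (cG (fl N) = cG (fl N') ∧ cV (fl N) ≤ cV (fl N'))

/-- an optimal chain of expansions of one word -/
structure Ch0 (H X : Subgroup (MM Γ a)) (l : ℕ → a.K) (N : ℕ → List (NL Γ a)) : Prop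
    extends Cb H X l N where
  opt : ∀ n, Opt H (l n) (N n)

/-- coherent systems of cuts do not meet the variables -/
def Shr (H X : Subgroup (MM Γ a)) (l : ℕ → a.K) {k : ℕ} (N : ℕ → Fin k → List (NL Γ a)) : Prop :=
  ∃ A : Finset (MM Γ a), (∀ w ∈ A, w ∈ X) ∧ ∀ (n : ℕ) (p : MM Γ a)
    (C : MM Γ a → List (MM Γ a × Bool)) (D : NL Γ a → List (MM Γ a × Bool)),
    Sim (ln p) (l n) → (∀ w ∈ H, C w = []) →
    (∀ w ∈ X, C w ≠ [] → Ls (l n) (ln w) ∧ OrdOn (ln w) 1 (cutPts 1 1 (C w)) w) →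
    (∀ i, ∀ s ∈ N n i, isG (tp s) = false → D s = []) →
    (∀ i, ∀ s ∈ N n i, OrdOn (l n) 1 (cutPts 1 p (D s)) (vL (tp s))) →
    (∀ (G : Type) [Group G] (j : MM Γ a →* G) (ν : G), (∀ g, Stab (l n) 1 p g → Commute (j g) ν) →
      (∀ w ∈ A, ∀ w' ∈ A, cutEv j ν (C (w * w')) * j (w * w') =
        cutEv j ν (C w) * j w * (cutEv j ν (C w') * j w')) ∧
      ∀ i, cutEv j ν (C (lv (fl (N n i)))) * j (lv (fl (N n i))) =
        ((N n i).map fun s => cutEv j ν (D s) * j (vL (tp s))).prod) →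
    ∀ i, ∀ s ∈ N n i, D s = []

/-- the word of a top variable over the variables of level `n` -/
def fw (S : Shape Γ a) : (n : ℕ) → Fin (S.k 0) → List (MM Γ a ⊕ Fin (S.k n))
  | 0, i => [Sum.inr i]
  | n + 1, i => (fw S n i).flatMap (Sum.elim (fun h => [Sum.inl h])
      fun t => wl (S.r n t) (S.h n t) fun j => S.e n ⟨t, j⟩)

/-- the chain of words of a shape -/
def NS (S : Shape Γ a) (ty : (n : ℕ) → Fin (S.k n) → Option (MM Γ a))
    (y : (n : ℕ) → Fin (S.k n) → MM Γ a) (n : ℕ) (i : Fin (S.k 0)) : List (NL Γ a) :=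
  (fw S n i).map (Sum.map id fun t => ((ty n t, y n t), wl (S.r n t) (S.h n t)
    fun j => (ty (n + 1) (S.e n ⟨t, j⟩), y (n + 1) (S.e n ⟨t, j⟩))))

/-- the hypotheses on an optimal descending chain of decompositions -/
structure Sy (H : Subgroup (MM Γ a)) (l : ℕ → a.K) (S : Shape Γ a)
    (ty : (n : ℕ) → Fin (S.k n) → Option (MM Γ a)) {m : ℕ}
    (Q : (Fin m ⊕ Fin (S.k 0) → Γ.G) → Prop) (h : Fin m → MM Γ a)
    (y : (n : ℕ) → Fin (S.k n) → MM Γ a) : Prop where
  big : ∀ n, Big (l n)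
  ty0 : ∀ i, ty 0 i = none
  dec : ∀ n i, TDec (l n) H (ty n i) (y n i) (S.r n i) (S.h n i)
    (fun j => y (n + 1) (S.e n ⟨i, j⟩)) fun j => ty (n + 1) (S.e n ⟨i, j⟩)
  st : St Q (Sum.elim h (y 0))
  min : ∀ n z, (∀ i, HasT (ty n i) (z i)) → St Q (Sum.elim h (S.top n z)) →
    Ll (tl (y n) - tl z) (l n)
  opt : ∀ n z, (∀ i, HasT (ty n i) (z i)) → St Q (Sum.elim h (S.top n z)) →
    Ll (tl z - tl (y n)) (l n) →
    ∀ (r' : Fin (S.k n) → ℕ) (h' : (i : Fin (S.k n)) → Fin (r' i + 1) → MM Γ a)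
      (z' : (i : Fin (S.k n)) → Fin (r' i) → MM Γ a)
      (ty' : (i : Fin (S.k n)) → Fin (r' i) → Option (MM Γ a)),
      (∀ i, TDec (l n) H (ty n i) (z i) (r' i) (h' i) (z' i) (ty' i)) →
      nG (ty (n + 1)) < ∑ i, nG (ty' i) ∨
        (nG (ty (n + 1)) = ∑ i, nG (ty' i) ∧ S.k (n + 1) ≤ ∑ i, r' i)

/-- reduced letters -/
structure Fa (H X : Subgroup (MM Γ a)) (μ : a.K) (L : List (Lt Γ a)) : Prop where
  con : ∀ h, Sum.inl h ∈ L → h ∈ H
  gen : ∀ v, Sum.inr (none, v) ∈ L → v ∈ WW X μ ∧ v ∉ hatH H X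
  exp : ∀ c f, Sum.inr (some c, f) ∈ L →
    c ∈ H ∧ Prim c ∧ Ll (ln c) μ ∧ f ∈ X ∧ f ∈ Ep c ∧ f ∉ H ∧ Ll (ln f) μ

/-- neighbouring exponent variables have different axes -/
def F3 (L : List (Lt Γ a)) : Prop :=
  ∀ A c f β c' f' B, L = A ++ Sum.inr (some c, f) :: β ++ Sum.inr (some c', f') :: B →
    NoV β → ¬ Cj (lv β) c' c
/-- the axis after a general variable is far -/
def F4 (μ : a.K) (L : List (Lt Γ a)) : Prop :=
  ∀ A v β c f B, L = A ++ Sum.inr (none, v) :: β ++ Sum.inr (some c, f) :: B →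
    NoV β → ¬ Ll (ln (lv β * c * (lv β)⁻¹)) μ
/-- the axis before a general variable is far -/
def F4' (μ : a.K) (L : List (Lt Γ a)) : Prop :=
  ∀ A c f β v B, L = A ++ Sum.inr (some c, f) :: β ++ Sum.inr (none, v) :: B →
    NoV β → ¬ Ll (ln ((lv β)⁻¹ * c * lv β)) μ
/-- neighbouring general variables are far apart -/
def F5 (μ : a.K) (L : List (Lt Γ a)) : Prop :=
  ∀ A v P v' B, L = A ++ Sum.inr (none, v) :: P ++ Sum.inr (none, v') :: B →
    NoG P → ¬ Ll (ln (lv P)) μ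

/-- reduced words -/
structure F0 (H X : Subgroup (MM Γ a)) (μ : a.K) (L : List (Lt Γ a)) : Prop
    extends Fa H X μ L where
  f3 : F3 L
  f4 : F4 μ L
  f4' : F4' μ L
  f5 : F5 μ L

/-- every general variable has a general child, every exponent variable has one child -/
structure Kid (N : List (NL Γ a)) : Prop where
  ch : ∀ y D, Sum.inr ((none, y), D) ∈ N → ∃ v, Sum.inr (none, v) ∈ D
  ce : ∀ c y D, Sum.inr ((some c, y), D) ∈ N → ∃ β f β', D = β ++ Sum.inr (some c, f) :: β' ∧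
    NoV β ∧ NoV β' ∧ lv β ∈ Ep c ∧ lv β' ∈ Ep c

/-- general children of different variables are far apart -/
def Far5 (μ : a.K) (N : List (NL Γ a)) : Prop :=
  ∀ N1 e A v P Nm e' P' v' B N2, N = N1 ++ Sum.inr (e, A ++ Sum.inr (none, v) :: P) :: Nm ++
    Sum.inr (e', P' ++ Sum.inr (none, v') :: B) :: N2 → NoG P → NoG (fl Nm) → NoG P' →
    ¬ Ls (ln (lv (P ++ fl Nm ++ P'))) μ

/-- old axes are far from the neighbouring general child -/
def Far4 (μ : a.K) (N : List (NL Γ a)) : Prop :=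
  ∀ N1 e A v P Nm c y β f β' N2, N = N1 ++ Sum.inr (e, A ++ Sum.inr (none, v) :: P) :: Nm ++
    Sum.inr ((some c, y), β ++ Sum.inr (some c, f) :: β') :: N2 → NoV P → NoV (fl Nm) → NoV β →
    ¬ Ls (ln (lv (P ++ fl Nm ++ β) * c * (lv (P ++ fl Nm ++ β))⁻¹)) μ

/-- at most one general child -/
def Sg (N : List (NL Γ a)) : Prop := ∀ e D, Sum.inr (e, D) ∈ N → cG D ≤ 1

/-- no new exponent variable between neighbouring general variables -/
def Adj (N : List (NL Γ a)) : Prop :=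
  ∀ N1 e A v P Nm e' P' v' B N2, N = N1 ++ Sum.inr (e, A ++ Sum.inr (none, v) :: P) :: Nm ++
    Sum.inr (e', P' ++ Sum.inr (none, v') :: B) :: N2 → NoG P → NoV (fl Nm) → NoG P' →
    NoV P ∧ NoV P'

/-- the pattern after a general child is decided inside the expansion -/
def ExtP (Pa : Bool → MM Γ a → MM Γ a → Prop) (N : List (NL Γ a)) : Prop :=
  ∀ N1 e A v P N2 C R, N = N1 ++ Sum.inr (e, A ++ Sum.inr (none, v) :: P) :: N2 → NoG P →
    fl N2 = C ++ R → NoG C → (∀ m, Pa false (lv (P ++ C)) m ↔ Pa false (lv P) m) ∧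
      ∀ v' R', R = Sum.inr (none, v') :: R' → ∀ m, Pa true (lv (P ++ C)) m ↔ Pa false (lv P) m

/-- all properties of a level of an optimal chain -/
structure Ni (H X : Subgroup (MM Γ a)) (μ : a.K) (N : List (NL Γ a)) : Prop where
  f0 : F0 H X μ (fl N)
  far5 : Far5 μ N
  far4 : Far4 μ N
  kid : Kid N
  wd : ∀ s ∈ N, WD μ H s
  add : ∀ e D, Sum.inr (e, D) ∈ N → Ad μ D

/-- `P` is a block of `D`; the flags say whether a general variable precedes or follows -/
def Blk (D : List (Lt Γ a)) (s : Bool) (P : List (Lt Γ a)) (t : Bool) : Prop :=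
  ∃ A B, D = A ++ P ++ B ∧ NoG P ∧ (s = false → A = []) ∧
    (s = true → ∃ A' v, A = A' ++ [Sum.inr (none, v)]) ∧ (t = false → B = []) ∧
    (t = true → ∃ v B', B = Sum.inr (none, v) :: B')

/-- the pattern does not occur in `D` -/
def NoPat (Pa : Bool → MM Γ a → MM Γ a → Prop) (D : List (Lt Γ a)) : Prop :=
  (∀ P t, Blk D true P t → ∀ m, ¬ Pa t (lv P) m) ∧ ∀ s P, Blk D s P true → ∀ m, ¬ Pa s (lv P)⁻¹ m

/-- the cuts of the blocks of `D` are in the right order -/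
def OrdB (μ : a.K) (p : MM Γ a) (Pa : Bool → MM Γ a → MM Γ a → Prop) (D : List (Lt Γ a)) : Prop :=
  ∀ s P t c, Blk D s P t → Bk Pa s t (lv P) c → OrdOn μ 1 (cutPts 1 p c) (lv P)

end Pool.Agent.P.MP_dba3d2_lc.SW
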