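import Pool.Agent.P.MP_dba3d2_lc.C.DefsP

/-! Definitions for the shrinking step of the limit stage. -/

namespace Pool.Agent.P.MP_dba3d2_lc

open Filter

/-- the product of the conjugates of `ν` (sign `true`) and `ν⁻¹` (sign `false`) listed in `l` -/
def cutEv {M G : Type} [Group M] [Group G] (j : M →* G) (ν : G) (l : List (M × Bool)) : G :=
  (l.map fun s => j s.1 * cond s.2 ν ν⁻¹ * (j s.1)⁻¹).prod

/-- a list of cuts moved by `g` -/
def cutMv {M : Type} [Group M] (g : M) (l : List (M × Bool)) : List (M × Bool) :=
  l.map fun s => (g * s.1, s.2)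

/-- entry and exit points of a list of cuts -/
def cutPts {M : Type} [Group M] (p q : M) (l : List (M × Bool)) : List M :=
  l.flatMap fun s => [s.1 * cond s.2 p q, s.1 * cond s.2 q p]

variable {Γ : HG} {a : Amb}

/-- the points of the list lie in this order on the segment from `x` to `y` at scale `μ` -/
def OrdOn (μ : a.K) : MM Γ a → List (MM Γ a) → MM Γ a → Prop
  | _, [], _ => True
  | x, p :: l, y => On μ p x y ∧ OrdOn μ p l y

/-- one substitution step, evaluated in a group `G` -/
def Shape.upG (S : Shape Γ a) {G : Type} [Group G] (j : MM Γ a →* G) (n : ℕ)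
    (z : Fin (S.k (n + 1)) → G) : Fin (S.k n) → G :=
  fun i => weave (S.r n i) (fun t => j (S.h n i t)) fun t => z (S.e n ⟨i, t⟩)

/-- the composite substitution, evaluated in a group `G` -/
def Shape.topG (S : Shape Γ a) {G : Type} [Group G] (j : MM Γ a →* G) :
    (n : ℕ) → (Fin (S.k n) → G) → Fin (S.k 0) → G
  | 0, z => z
  | n + 1, z => S.topG j n (S.upG j n z)

end Pool.Agent.P.MP_dba3d2_lc
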