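import Pool.Agent.P.MP_dba3d2_lc.F.DefsC
import Pool.Agent.P.MP_dba3d2_lc.F.DefsShr

/-! Definitions for the words of the limit stage. -/

namespace Pool.Agent.P.MP_dba3d2_lc

open Filter

variable {Γ : HG} {a : Amb}

/-- The data of the limit stage; `V z` says that `z` is a witness. -/
structure Tow (H X : Subgroup (MM Γ a)) (l : ℕ → a.K) (S : Shape Γ a)
    (ty : (n : ℕ) → Fin (S.k n) → Option (MM Γ a)) (y : (n : ℕ) → Fin (S.k n) → MM Γ a)
    (V : (Fin (S.k 0) → MM Γ a) → Prop) : Prop where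
  gh : GC H
  gx : GC X
  le : H ≤ X
  desc : Desc l
  cap : ∀ n, X = H ⊔ (X ⊓ ball Γ (l n))
  mem : ∀ n i, y n i ∈ X
  ty0 : ∀ i, ty 0 i = none
  bd : ∀ n i, Ls (ln (y n i)) (l n)
  dec : ∀ n i, TDec (l n) H (ty n i) (y n i) (S.r n i) (S.h n i)
    (fun j => y (n + 1) (S.e n ⟨i, j⟩)) fun j => ty (n + 1) (S.e n ⟨i, j⟩)
  wit : V (y 0)
  near : ∀ n z, (∀ i, HasT (ty n i) (z i)) → V (S.top n z) → Ll (tl (y n) - tl z) (l n)
  lex : ∀ n z, (∀ i, HasT (ty n i) (z i)) → V (S.top n z) → Ll (tl z - tl (y n)) (l n) →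
    ∀ (r' : Fin (S.k n) → ℕ) (h' : (i : Fin (S.k n)) → Fin (r' i + 1) → MM Γ a)
      (z' : (i : Fin (S.k n)) → Fin (r' i) → MM Γ a)
      (ty' : (i : Fin (S.k n)) → Fin (r' i) → Option (MM Γ a)),
      (∀ i, TDec (l n) H (ty n i) (z i) (r' i) (h' i) (z' i) (ty' i)) →
      nG (ty (n + 1)) < ∑ i, nG (ty' i) ∨
        (nG (ty (n + 1)) = ∑ i, nG (ty' i) ∧ S.k (n + 1) ≤ ∑ i, r' i)

/-- the children of an entry, each with the block that follows it -/
def Shape.kids (S : Shape Γ a) (n : ℕ) (i : Fin (S.k n)) : List (Fin (S.k (n + 1)) × MM Γ a) :=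
  List.ofFn fun j : Fin (S.r n i) => (S.e n ⟨i, j⟩, S.h n i j.succ)

/-- the parent of a variable -/
def Shape.par (S : Shape Γ a) (n : ℕ) (t : Fin (S.k (n + 1))) : Fin (S.k n) := ((S.e n).symm t).1

/-- `s` and `t` are neighbours in a flattened word of level `n`, with the block `β` between them -/
def Shape.Adj (S : Shape Γ a) : (n : ℕ) → Fin (S.k n) → MM Γ a → Fin (S.k n) → Prop
  | 0, _, _, _ => False
  | n + 1, s, β, t => (∃ i β', ∃ L L' : List _, S.kids n i = L ++ (s, β) :: (t, β') :: L') ∨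
      ∃ s' β' t' β1 β2, ∃ L L' : List _, S.Adj n s' β' t' ∧ S.kids n s' = L ++ [(s, β1)] ∧
        S.kids n t' = (t, β2) :: L' ∧ β = β1 * β' * S.h n t' 0

/-- only typed variables lie between `s` and `t`; `b` is the product of what lies between them -/
inductive Shape.Run (S : Shape Γ a) (n : ℕ) (τ : Fin (S.k n) → Option (MM Γ a))
    (v : Fin (S.k n) → MM Γ a) (s : Fin (S.k n)) : MM Γ a → Fin (S.k n) → Prop
  | one {β t} : S.Adj n s β t → S.Run n τ v s β t
  | step {b u β t} : S.Run n τ v s b u → τ u ≠ none → S.Adj n u β t → S.Run n τ v s (b * v u * β) t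

/-- tokens: blocks (`none`) and joints with their type -/
abbrev Tok (Γ : HG) (a : Amb) := Option (Option (MM Γ a)) × MM Γ a

/-- the tokens of a list of children -/
def tks {ι : Type} (τ : ι → Option (MM Γ a)) (v : ι → MM Γ a) (L : List (ι × MM Γ a)) :
    List (Tok Γ a) :=
  L.flatMap fun p => [(some (τ p.1), v p.1), (none, p.2)]

end Pool.Agent.P.MP_dba3d2_lc
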