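import Pool.Agent.P.MP_dba3d2_lc.F.DefsC
import Pool.Agent.P.MP_dba3d2_lc.E.Bas
import Pool.Agent.P.MP_dba3d2_lc.C.LTb

/-! Toolbox for the limit of the grafts. -/

namespace Pool.Agent.P.MP_dba3d2_lc

open Filter

variable {Γ : HG} {a : Amb} {H X : Subgroup (MM Γ a)} {l : ℕ → a.K} {ν D : a.K}
  {c g x y u : MM Γ a} {m n : ℕ}

theorem mem_capS : g ∈ capS H l ↔ ∀ n, g ∈ H ⊔ ball Γ (l n) := Subgroup.mem_iInf

theorem capS_le (H : Subgroup (MM Γ a)) (l : ℕ → a.K) (n : ℕ) : capS H l ≤ H ⊔ ball Γ (l n) :=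
  iInf_le _ n

theorem le_capS (H : Subgroup (MM Γ a)) (l : ℕ → a.K) : H ≤ capS H l :=
  le_iInf fun _ => le_sup_left

theorem Desc.pos (h : Desc l) (n : ℕ) : 0 < l n := (h.big n).pos

theorem Desc.ls (h : Desc l) (k : m ≤ n) : Ls (l n) (l m) := by
  induction k with
  | refl => exact Ls.refl' _
  | step _ ih => exact (h.ll _).ls.trans' ih

theorem Desc.lt (h : Desc l) (k : m < n) : Ll (l n) (l m) := Ll.ls_left (h.ls k) (h.ll m)

theorem Desc.ball_le (h : Desc l) (k : m ≤ n) : ball Γ (l n) ≤ ball Γ (l m) := fun _ e =>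
  (mem_ball (h.pos m).le).2 (((mem_ball (h.pos n).le).1 e).trans' (h.ls k))

theorem Desc.sup_le (h : Desc l) (H : Subgroup (MM Γ a)) (k : m ≤ n) :
    H ⊔ ball Γ (l n) ≤ H ⊔ ball Γ (l m) := sup_le_sup_left (h.ball_le k) H

/-- membership in the intersection only depends on the tail -/
theorem Desc.mem_capS (h : Desc l) (n : ℕ) (k : ∀ m, n ≤ m → g ∈ H ⊔ ball Γ (l m)) :
    g ∈ capS H l := Pool.Agent.P.MP_dba3d2_lc.mem_capS.2 fun m =>
  (le_total n m).elim (k m) fun e => h.sup_le H e (k n le_rfl)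

/-- a length is below all scales or above some scale -/
theorem Desc.cases (h : Desc l) (D : a.K) : (∀ n, Ll D (l n)) ∨ ∃ n, Ll (l n) D ∧ Big D := by
  by_cases k : ∀ n, Ll D (l n)
  · exact Or.inl k
  obtain ⟨n, k⟩ := not_forall.1 k
  have e := (not_ll_iff' (h.pos n)).1 k
  have b := (h.big n).of_ls e
  exact Or.inr ⟨n + 1, (h.ll n).ls_right e b.pos.le, b⟩

theorem mem_of_near (h0 : 0 ≤ ν) (hX : ball Γ ν ≤ X) (hx : x ∈ X) (h : Ls (ds x y) ν) : y ∈ X := by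
  simpa using X.mul_mem hx (hX ((mem_ball h0).2 h))

theorem mem_sup_near (h0 : 0 ≤ ν) (hx : x ∈ H ⊔ ball Γ ν) (h : Ls (ds x y) ν) :
    y ∈ H ⊔ ball Γ ν := mem_of_near h0 le_sup_right hx h

theorem graft_ball (hC : S_CVX) (hG : S_GRAFT) (hH : GC0 H) (hν : Big ν) :
    TwoOut H (ball Γ ν) ∧ AddNF (H ⊔ ball Γ ν) {g | g ∈ H ∨ g ∈ ball Γ ν} :=
  hG Γ a H _ hH (ET.gc_ball hC hν).toGC0 (ET.sep_ball hν H)

theorem gc0_sup_ball (hC : S_CVX) (hG : S_GRAFT) (hH : GC0 H) (hν : Big ν) :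
    GC0 (H ⊔ ball Γ ν) := (graft_ball hC hG hH hν).1.gc

/-- points near a point of a closed subgroup at all scales -/
theorem Cg.near (h : Cg H l X) (hx : x ∈ X) (k : ∀ n, Ls (ds u x) (l n)) : u ∈ X :=
  h.cpl u (fun _ => x) (fun _ => hx) k

theorem capS_cpl (h : Desc l) {v : ℕ → MM Γ a} (h1 : ∀ n, v n ∈ H ⊔ ball Γ (l n))
    (h2 : ∀ n, Ls (ds u (v n)) (l n)) : u ∈ capS H l :=
  mem_capS.2 fun n => mem_sup_near (h.pos n).le (h1 n) (ds_comm u _ ▸ h2 n)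

theorem inf_of_big_md (hF : S_FINM) (h : Big (md c)) : ¬ IsOfFinOrder c := fun e => by
  obtain ⟨p, h1, -⟩ := hF Γ a (Subgroup.zpowers c) (finite_zpowers.2 e).to_subtype
  exact mem_std_iff.1 (h1 c (Subgroup.mem_zpowers c)) (h.of_ls (Ls.of_le (md_le c p)))

/-- Cauchy sequences have limits -/
theorem Desc.cauchy (h : Desc l) (g : ℕ → MM Γ a) (k : ∀ n, Ls (ds (g n) (g (n + 1))) (l n)) :
    ∃ u, ∀ n, Ls (ds u (g n)) (l n) := by
  choose N hN using k
  have key : ∀ d m, ds (g m) (g (m + d)) ≤ (N m + 1) * l m := by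
    intro d
    induction d with
    | zero => intro m; simpa using mul_nonneg (by positivity) (h.pos m).le
    | succ d ih =>
      intro m
      have h1 := ih (m + 1)
      have h2 := h.ll m (N (m + 1) + 1)
      have h3 := ds_tri (g m) (g (m + 1)) (g (m + 1 + d))
      rw [show m + (d + 1) = m + 1 + d by omega]
      push_cast at h2
      linarith [hN m]
  obtain ⟨u, hu⟩ := GT.sat_ball g (fun m => (N m + 1) * l m) fun n => ⟨g n, fun m e => by
    obtain ⟨d, rfl⟩ := Nat.exists_eq_add_of_le e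
    rw [ds_comm]; exact key d m⟩
  exact ⟨u, fun n => ⟨N n + 1, by push_cast; exact hu n⟩⟩

/-- the letters of an almost geodesic word -/
theorem AddNF.geo {P : Subgroup (MM Γ a)} {Y : Set (MM Γ a)} (h : AddNF P Y) (hg : g ∈ P)
    (hD : Big D) (s : Sim (ln g) D) :
    ∃ L : List (MM Γ a), (∀ x ∈ L, x ∈ Y ∧ Ls (ln x) D) ∧ L.prod = g ∧ Geo D L := by
  obtain ⟨L, h1, h2, h3, -⟩ := h g hg
  have k : Ll ((L.map ln).sum - ln g) D := (h3 (hD.of_ls s.2)).ls_right s.1 hD.pos.le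
  refine ⟨L, fun x hx => ⟨h1 x hx, Ls.mono_left ?_ (k.ls.add s.1)⟩, h2, by rwa [Geo, h2]⟩
  rw [sub_add_cancel]
  refine List.single_le_sum (fun z hz => ?_) _ (List.mem_map_of_mem hx)
  obtain ⟨w, -, rfl⟩ := List.mem_map.1 hz
  exact ln_nonneg w

/-- an element of scale at most `D` is a product of letters of scale at most `D` -/
theorem AddNF.mem {P Z : Subgroup (MM Γ a)} {Y : Set (MM Γ a)} (h : AddNF P Y) (hg : g ∈ P)
    (s : Ls (ln g) D) (k : ∀ x ∈ Y, Ls (ln x) D → x ∈ Z) : g ∈ Z := by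
  by_cases b : Big (ln g)
  · obtain ⟨L, h1, h2, -⟩ := h.geo hg b (Sim.refl' _)
    exact h2 ▸ Z.list_prod_mem fun x hx => k x (h1 x hx).1 ((h1 x hx).2.trans' s)
  · obtain ⟨L, h1, -, -, h4⟩ := h g hg
    exact k g (h1 g (by simp [h4 b])) s

end Pool.Agent.P.MP_dba3d2_lc
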