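import Pool.Agent.P.MP_dba3d2_lc.F.IfaceC
import Pool.Agent.P.MP_dba3d2_lc.A.Iface
import Pool.Agent.P.MP_dba3d2_lc.B.Iface
import Pool.Agent.P.MP_dba3d2_lc.C.Iface
import Pool.Agent.P.MP_dba3d2_lc.F.TbC

/-! Step FC_ARC of the stability project. -/

namespace Pool.Agent.P.MP_dba3d2_lc

open Filter

namespace Fc_arc

variable {Γ : HG} {a : Amb} {H : Subgroup (MM Γ a)} {D : a.K} {g x p q : MM Γ a}

theorem per (hELEM : S_ELEM) (hPERC : S_PERC) (hROOT : S_ROOT) (hH : GC0 H) (hD : Big D)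
    (hx : x ∈ H) (h1 : Ls (ln x) D) (hn : Ls D (ds p q)) (hp : On D p g (g * x))
    (hq : On D q g (g * x)) (hP : Per D p q) :
    ∃ c, Prim c ∧ Stab D p q c ∧ ∀ X : Subgroup (MM Γ a), GC0 X → H ≤ X → XArc D X p q →
      c ∈ X ∧ ∃ h ∈ X, g * h⁻¹ ∈ Ep c := by
  have tp := hp.mul g⁻¹
  have tq := hq.mul g⁻¹
  rw [inv_mul_cancel, inv_mul_cancel_left] at tp tq
  obtain ⟨d, hd, d1, d2⟩ := hH.g20' hD H.one_mem hx (by rwa [ds_one_left])
    (by rwa [ds_mul_left]) tp tq ((per_mul_iff g⁻¹).2 hP)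
  have s : Stab D p q (g * d * g⁻¹) := by
    have := (stab_conj g).2 d2
    rwa [mul_inv_cancel_left, mul_inv_cancel_left] at this
  refine ⟨g * d * g⁻¹, d1.conj g, s, fun X hX le ⟨u, hu, v, hv, k1, k2, k3⟩ => ?_⟩
  have m := hX.per_mem hELEM hPERC hROOT hD hu hv k1 hn k2 k3 (d1.conj g) s
  exact ⟨m, (hROOT Γ a X hX).2.2.2.2.2 _ m d (le hd) (d1.conj g).1 d1.1 g (Cj.self g d)⟩

theorem nper (hD : Big D) (hx : x ∈ H) (h1 : Ls (ln x) D) (hn : Ls D (ds p q))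
    (hp : On D p g (g * x)) (hq : On D q g (g * x)) (hP : ¬ Per D p q)
    (X : Subgroup (MM Γ a)) (hX : GC0 X) (le : H ≤ X) (k : XArc D X p q) : g ∈ X := by
  obtain ⟨u, hu, v, hv, k1, k2, k3⟩ := k
  exact hX.g2' hD hu hv X.one_mem (le hx) k1 (by rwa [ds_one_left])
    ⟨hn, k2, k3, by rwa [mul_one], by rwa [mul_one]⟩ hP

end Fc_arc

theorem p_FC_ARC (hELEM : S_ELEM) (hLINE : S_LINE) (hPERC : S_PERC) (hROOT : S_ROOT) (hCVX : S_CVX) (hGRAFT : S_GRAFT) (hFC_COSET : S_FC_COSET) :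
    S_FC_ARC := by
  intro Γ a H l D g x p q hH hl hD hx h1 hn hp hq
  have gm : ∀ m, GC0 (H ⊔ ball Γ (l m)) := fun m => gc0_sup_ball hCVX hGRAFT hH (hl.big m)
  have z : ∀ u : MM Γ a, Ll (ds u u) D := fun u => by rw [ds_self]; exact Ll.zero hD.pos.le
  by_cases hP : Per D p q
  · obtain ⟨c, c1, c2, c3⟩ := Fc_arc.per hELEM hPERC hROOT hH hD hx h1 hn hp hq hP
    refine ⟨fun n hn' hg hA => ?_, fun X hX hg hA => ?_⟩
    · obtain ⟨y, y1, y2, y3⟩ := hFC_COSET Γ a H l c g n hH hl c1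
        (mem_capS.2 fun m => (c3 _ (gm m) le_sup_left (hA m)).1) hg fun m => by
          obtain ⟨h, k1, k2⟩ := (c3 _ (gm m) le_sup_left (hA m)).2
          exact ⟨(g * h⁻¹)⁻¹, (Ep c).inv_mem k2, by simpa using k1⟩
      have my : Ll (md y) D := Ll.ls_left y2 (hn'.add c2.md)
      have fp := fix_of_fix hELEM hLINE c1.1 y1 c2.1 my
      have fq := fix_of_fix hELEM hLINE c1.1 y1 c2.2 my
      refine ⟨y * g, y3, Ls.mono_left (disp_le y g p)
        ((hp.ls_left (by rwa [ds_mul_right])).two.add fp.ls), ?_, ?_⟩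
      · rw [mul_assoc]
        exact (hp.mul y).congr (ds_comm p _ ▸ fp) (z _) (z _)
      · rw [mul_assoc]
        exact (hq.mul y).congr (ds_comm q _ ▸ fq) (z _) (z _)
    · obtain ⟨m, h, k1, k2⟩ := c3 X hX.gc hX.le hA
      have := hX.ex c m c1.1 _ ((capS H l).mul_mem hg ((capS H l).inv_mem (hX.sub k1))) k2
      simpa using X.mul_mem this k1
  · refine ⟨fun n _ _ hA => ⟨g, mem_capS.2 fun m =>
      Fc_arc.nper hD hx h1 hn hp hq hP _ (gm m) le_sup_left (hA m), (z g).ls, hp, hq⟩,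
      fun X hX _ hA => Fc_arc.nper hD hx h1 hn hp hq hP X hX.gc hX.le hA⟩

end Pool.Agent.P.MP_dba3d2_lc
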