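import Pool.Agent.P.MP_dba3d2_lc.F.IfaceC
import Pool.Agent.P.MP_dba3d2_lc.E.Iface2
import Pool.Agent.P.MP_dba3d2_lc.F.TbC

/-! Step FC_AX of the stability project. -/

namespace Pool.Agent.P.MP_dba3d2_lc

open Filter

namespace Fc_ax

variable {Γ : HG} {a : Amb} {D : a.K} {w : MM Γ a}

theorem loc (hD : Big D) (h1 : On D 1 w⁻¹ w) (h2 : Ls D (ln w)) :
    ∀ n, Loc D (List.replicate n w)
  | 0 => trivial
  | 1 => trivial
  | n + 2 => ⟨h1, fun k => (k.not_ls hD.pos h2).elim, loc hD h1 h2 (n + 1)⟩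

theorem geo (hE : S_E_GEO) (hD : Big D) (h1 : ln w = md w) (h2 : Ls D (ln w)) (n : ℕ) :
    Ll (n * ln w - ln (w ^ n)) D := by
  have k := (hE Γ a D hD).1 w
  rw [← h1] at k
  have k1 : On D 1 w⁻¹ w := by
    rw [on_one_iff]
    rcases le_total (ln (w * w) - ln w) 0 with e | e
    · rw [max_eq_right e, sub_zero] at k
      exact ((Ll.mono_left (le_abs_self _) k).not_ls hD.pos h2).elim
    · rw [max_eq_left e] at k
      exact Ll.mono_left (le_trans (by linarith) (le_abs_self _)) k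
  simpa [Geo] using (loc hD k1 h2 n).geo hD

end Fc_ax

theorem p_FC_AX (hE_GEO : S_E_GEO) :
    S_FC_AX := by
  intro Γ a D γ u z X hD h1 h2 h3 hγ hz
  have e1 : ln (u⁻¹ * γ * u) = md γ := (ds_conj γ u).symm.trans h1
  have e2 : ∀ n : ℕ, (u⁻¹ * γ * u) ^ n = u⁻¹ * γ ^ n * u := fun n => by
    simpa using conj_pow (a := u⁻¹) (b := γ) (i := n)
  have lo : ∀ n : ℕ, Ll (n * md γ - ln (u⁻¹ * γ ^ n * u)) D := fun n => by
    simpa only [e1, e2] using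
      Fc_ax.geo hE_GEO hD (e1.trans (md_conj γ u).symm) (by rw [e1]; exact h2.2) n
  have up : ∀ n : ℕ, ln (u⁻¹ * γ ^ n * u) ≤ n * md γ := fun n => by
    simpa only [e1, e2] using ln_pow_le (u⁻¹ * γ * u) n
  obtain ⟨N, hN⟩ := h3.trans' h2.2
  have m0 : 0 ≤ md γ := h1 ▸ ds_nonneg _ _
  have d1 : ds ((γ ^ (N + 1))⁻¹ * u) u = ln (u⁻¹ * γ ^ (N + 1) * u) := congrArg ln (by group)
  have d2 : ds u (γ ^ (N + 1) * u) = ln (u⁻¹ * γ ^ (N + 1) * u) := congrArg ln (by group)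
  have d3 : ds ((γ ^ (N + 1))⁻¹ * u) (γ * u) = ln (u⁻¹ * γ ^ (N + 2) * u) := congrArg ln (by group)
  have d4 : ds (γ * u) (γ ^ (N + 1) * u) = ln (u⁻¹ * γ ^ N * u) := congrArg ln (by group)
  have d5 : ds ((γ ^ (N + 1))⁻¹ * u) (γ ^ (N + 1) * u) = ln (u⁻¹ * γ ^ (2 * N + 2) * u) :=
    congrArg ln (by group)
  have d6 := ds_mul_left (γ ^ (N + 1))⁻¹ u z
  have d7 := ds_mul_left (γ ^ (N + 1)) u z
  have u0 := up N
  have u1 := up (N + 1)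
  have u2 := up (N + 2)
  have u3 := up (2 * N + 2)
  have l0 := lo N
  have l1 := lo (N + 1)
  have l2 := lo (N + 2)
  have l3 := lo (2 * N + 2)
  push_cast at u1 u2 u3 l1 l2 l3
  refine ⟨(γ ^ (N + 1))⁻¹ * z, mul_mem (inv_mem (pow_mem hγ _)) hz, γ ^ (N + 1) * z,
    mul_mem (pow_mem hγ _) hz, Ls.mono_left ?_ (h2.1.nat_mul (4 * N + 2)),
    On.shift hD (x := (γ ^ (N + 1))⁻¹ * u) (y := γ ^ (N + 1) * u) (Ll.mono_left ?_ l3)
      (Ll.mono_left ?_ l1) (Ll.mono_left ?_ l1),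
    On.shift hD (x := (γ ^ (N + 1))⁻¹ * u) (y := γ ^ (N + 1) * u) (Ll.mono_left ?_ l3)
      (Ll.mono_left ?_ l2) (Ll.mono_left ?_ l0)⟩
  · push_cast
    linarith [ds_tri ((γ ^ (N + 1))⁻¹ * z) ((γ ^ (N + 1))⁻¹ * u) (γ ^ (N + 1) * z),
      ds_tri ((γ ^ (N + 1))⁻¹ * u) (γ ^ (N + 1) * u) (γ ^ (N + 1) * z),
      ds_comm ((γ ^ (N + 1))⁻¹ * z) ((γ ^ (N + 1))⁻¹ * u)]
  all_goals linarith

end Pool.Agent.P.MP_dba3d2_lc
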