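import Pool.Agent.P.MP_dba3d2_lc.F.IfaceC
import Pool.Agent.P.MP_dba3d2_lc.F.TbC

/-! Step FC_CAP of the stability project. -/

namespace Pool.Agent.P.MP_dba3d2_lc

open Filter

theorem p_FC_CAP (hFC_INF : S_FC_INF) (hFC_UP : S_FC_UP) (hFC_FIN : S_FC_FIN) :
    S_FC_CAP := by
  intro Γ a H l Y hH h1 h2 hY
  have hl : Desc l := ⟨h1, h2⟩
  have g := hFC_INF Γ a H l {X | Cg H l X ∧ ∀ y ∈ Y, y ∈ X} hH.toGC0 hl fun X h => h.1
  set I := capS H l ⊓ sInf {X | Cg H l X ∧ ∀ y ∈ Y, y ∈ X} with hI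
  have y1 : ∀ y ∈ Y, y ∈ I := fun y hy =>
    ⟨mem_capS.2 fun n => sup_le_sup_left inf_le_right H (hY n y hy),
      Subgroup.mem_sInf.2 fun X h => h.2 y hy⟩
  have e : ∀ n, I = H ⊔ (I ⊓ ball Γ (l n)) := fun n => by
    refine le_antisymm (inf_le_right.trans (sInf_le ⟨hFC_UP Γ a H l I n hH.toGC0 hl g,
      fun y hy => ?_⟩)) (sup_le g.le inf_le_left)
    exact sup_le_sup_left (inf_le_inf_right _ (sup_le g.le ((Subgroup.closure_le _).2 y1))) H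
      (hY n y hy)
  exact ⟨I, ⟨g.gc, hFC_FIN Γ a H l I hH hl g e⟩, g, y1, e⟩

end Pool.Agent.P.MP_dba3d2_lc
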