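import Pool.Agent.P.MP_dba3d2_lc.F.IfaceC
import Pool.Agent.P.MP_dba3d2_lc.A.Iface
import Pool.Agent.P.MP_dba3d2_lc.B.Iface
import Pool.Agent.P.MP_dba3d2_lc.C.Iface
import Pool.Agent.P.MP_dba3d2_lc.E.Iface2
import Pool.Agent.P.MP_dba3d2_lc.F.TbC

/-! Step FC_CEN of the stability project. -/

namespace Pool.Agent.P.MP_dba3d2_lc

open Filter

theorem p_FC_CEN (hFINM : S_FINM) (hELEM : S_ELEM) (hLINE : S_LINE) (hPERC : S_PERC) (hROOT : S_ROOT) (hCVX : S_CVX) (hGRAFT : S_GRAFT) (hE_GEO : S_E_GEO) (hFC_SM : S_FC_SM) (hFC_NEAR : S_FC_NEAR) (hFC_CEN1 : S_FC_CEN1) :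
    S_FC_CEN := by
  intro Γ a H l c c' hH hl hc hc' ic ic'
  obtain ⟨q0, hq, -⟩ := exists_min_disp c c'
  obtain ⟨D, hD⟩ : ∃ D, D = ds q0 (c * q0) + ds q0 (c' * q0) := ⟨_, rfl⟩
  rw [← hD] at hq
  have D1 : 1 ≤ D := by
    linarith [one_le_md' ic, md_le_ds c q0, ds_nonneg q0 (c' * q0)]
  have D2 : Ls D (ln c + ln c') := Ls.of_le (by simpa only [ds_one_mul] using hq 1)
  have gm := fun n => gc0_sup_ball hCVX hGRAFT hH (hl.big n)
  suffices k : ∃ G ∈ capS H l, Ls (ln G) (ln c + ln c') ∧ Ls (ds G (c * G) + ds G (c' * G)) D ∧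
      ∀ X, Cg H l X → c ∈ X → c' ∈ X → G ∈ X by
    obtain ⟨G, a1, a2, a3, a4⟩ := k
    refine ⟨G, a1, a2, fun q => ?_, a4⟩
    simp only [← ds_conj]
    exact a3.mono_right (hq q)
  by_cases he : Ep c = Ep c'
  · obtain ⟨c0, pr, e0⟩ := (hELEM Γ a c ic).1
    have root : ∀ X : Subgroup (MM Γ a), GC0 X → c ∈ X → c0 ∈ X := fun X hX h =>
      (hROOT Γ a X hX).2.2.2.1 c h ic c0 pr e0
    obtain ⟨G, a1, a2, a3, a4⟩ := hFC_CEN1 Γ a H l c0 hH hl pr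
      (mem_capS.2 fun n => root _ (gm n) (capS_le H l n hc))
    have k : ∀ f, ¬ IsOfFinOrder f → Ep c0 = Ep f → Ls (ds G (f * G)) (ds q0 (f * q0)) :=
      fun f hf e => (((hFC_SM Γ a c0 pr).1 f (e ▸ self_mem_Ep f) G).trans'
        ((Ls.refl' _).add (a3.trans' (pr.md_ls hELEM hLINE hf e)))).mono_right (md_le_ds f q0)
    have b := pr.disp' hELEM hLINE ic e0 1
    rw [ds_one_mul, ds_one_mul] at b
    refine ⟨G, a1, (a2.trans' b).mono_right (le_add_of_nonneg_right (ln_nonneg _)),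
      ((k c ic e0).mono_right ?_).add ((k c' ic' (e0.trans he)).mono_right ?_),
      fun X hX h _ => a4 X hX (root X hX.gc h)⟩
    · linarith [ds_nonneg q0 (c' * q0)]
    · linarith [ds_nonneg q0 (c * q0)]
  have diam : ∀ p p', Ls (ds p (c * p) + ds p (c' * p)) D →
      Ls (ds p' (c * p') + ds p' (c' * p')) D → Ls (ds p p') D := fun p p' h h' =>
    ls_of_scale D1 fun B k => he (Ep_eq_of_stab hELEM hPERC B (Ls.refl' _) ic ic'
      ⟨Ll.mono_left (le_add_of_nonneg_right (ds_nonneg _ _)) (Ll.ls_left h k),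
        Ll.mono_left (le_add_of_nonneg_right (ds_nonneg _ _)) (Ll.ls_left h' k)⟩
      ⟨Ll.mono_left (le_add_of_nonneg_left (ds_nonneg _ _)) (Ll.ls_left h k),
        Ll.mono_left (le_add_of_nonneg_left (ds_nonneg _ _)) (Ll.ls_left h' k)⟩)
  have cen : ∀ X : Subgroup (MM Γ a), GC0 X → c ∈ X → c' ∈ X → ∃ p ∈ X,
      Ls (ln p) (ln c + ln c') ∧ Ls (ds p (c * p) + ds p (c' * p)) D := fun X hX h h' => by
    obtain ⟨p, a1, a2, a3⟩ := hX.cen c h c' h' ic ic'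
    refine ⟨p, a1, a2, ?_⟩
    simpa only [hD, ds_conj] using a3 q0
  choose p p1 p2 p3 using fun n => cen _ (gm n) (capS_le H l n hc) (capS_le H l n hc')
  rcases hl.cases D with k | ⟨n, k, B⟩
  · refine ⟨p 0, mem_capS.2 fun m => mem_sup_near (hl.pos m).le (p1 m)
      ((diam _ _ (p3 m) (p3 0)).trans' (k m).ls), p2 0, p3 0, fun X hX h h' => ?_⟩
    obtain ⟨z, a1, -, a3⟩ := cen X hX.gc h h'
    exact hX.near a1 fun m => (diam _ _ (p3 0) a3).trans' (k m).ls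
  obtain ⟨γ, g1, g2, g3⟩ : ∃ γ : MM Γ a, (∀ X : Subgroup (MM Γ a), c ∈ X → c' ∈ X → γ ∈ X) ∧
      (∀ x, ds x (γ * x) ≤ ds x (c * x) + ds x (c' * x)) ∧ Ls D (md γ) := by
    rcases ll_or_ls B.pos (md c) with e1 | e1
    swap
    · exact ⟨c, fun _ h _ => h, fun x => le_add_of_nonneg_right (ds_nonneg _ _), e1⟩
    rcases ll_or_ls B.pos (md c') with e2 | e2
    swap
    · exact ⟨c', fun _ _ h => h, fun x => le_add_of_nonneg_left (ds_nonneg _ _), e2⟩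
    rcases ll_or_ls B.pos (md (c * c')) with e3 | e3
    swap
    · exact ⟨c * c', fun _ h h' => mul_mem h h', disp_mul c c', e3⟩
    obtain ⟨z, z1, z2⟩ := (hE_GEO Γ a D B).2 c c' e1 e2 e3
    exact (ll_irrefl B.pos (Ll.mono_left (hq z) (z1.add z2))).elim
  obtain ⟨u, u1, u2⟩ := exists_centre hLINE (inf_of_big_md hFINM (B.of_ls g3)) (p 0)
  have u3 : Ls (ds (p 0) u) D := u2.trans' (Ls.mono_left (g2 _) (p3 0))
  have nr : ∀ z, Ls (ds z (c * z) + ds z (c' * z)) D → Ls (ds u z) D := fun z h =>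
    Ls.mono_left (by linarith [ds_tri u (p 0) z, ds_comm u (p 0)]) (u3.add (diam _ _ (p3 0) h))
  obtain ⟨G, a1, a2, a3⟩ := hFC_NEAR Γ a H l D γ u n hH hl B k (g1 _ hc hc') u1
    ⟨Ls.of_le ((md_le_ds γ q0).trans (hD ▸ g2 q0)), g3⟩ fun m => ⟨p m, p1 m, nr _ (p3 m)⟩
  have a4 : Ls (ds (p 0) G) D := Ls.mono_left (ds_tri _ u _) (u3.add a2)
  refine ⟨G, a1, Ls.mono_left ?_ ((p2 0).add (a4.trans' D2)),
    Ls.mono_left ?_ ((a4.two.add a4.two).add (p3 0)), fun X hX h h' => ?_⟩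
  · simpa using ds_tri 1 (p 0) G
  · linarith [disp_le c G (p 0), disp_le c' G (p 0), ds_comm G (p 0)]
  · obtain ⟨z, b1, -, b3⟩ := cen X hX.gc h h'
    exact a3 X hX (g1 X h h') ⟨z, b1, nr z b3⟩

end Pool.Agent.P.MP_dba3d2_lc
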