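import Pool.Agent.P.MP_dba3d2_lc.F.IfaceC
import Pool.Agent.P.MP_dba3d2_lc.A.Iface
import Pool.Agent.P.MP_dba3d2_lc.B.Iface
import Pool.Agent.P.MP_dba3d2_lc.C.Iface
import Pool.Agent.P.MP_dba3d2_lc.F.TbC

/-! Step FC_CEN1 of the stability project. -/

namespace Pool.Agent.P.MP_dba3d2_lc

open Filter

theorem p_FC_CEN1 (hLINE : S_LINE) (hCVX : S_CVX) (hGRAFT : S_GRAFT) (hFC_SM : S_FC_SM) (hFC_EXPO : S_FC_EXPO) (hFC_COSET : S_FC_COSET) (hFC_NEAR : S_FC_NEAR) :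
    S_FC_CEN1 := by
  intro Γ a H l c hH hl hc hS
  obtain ⟨s1, -, -, s4, -⟩ := hFC_SM Γ a c hc
  have hm : ∀ m, GC0 (H ⊔ ball Γ (l m)) := fun m => gc0_sup_ball hCVX hGRAFT hH (hl.big m)
  have cm : ∀ m, c ∈ H ⊔ ball Γ (l m) := mem_capS.1 hS
  have cen : ∀ X : Subgroup (MM Γ a), GC0 X → c ∈ X →
      ∃ z ∈ X, Ls (ln z) (ln c) ∧ Ls (ds z (c * z)) (md c) := fun X h1 h2 => by
    obtain ⟨z, k1, k2, k3⟩ := h1.cen1 h2 hc.1
    exact ⟨z, k1, k2, by rw [ds_conj, ← md_conj c z]; exact k3⟩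
  have common : ∀ G ∈ capS H l, Ls (ds G (c * G)) (md c) → ∀ X, Cg H l X → c ∈ X →
      ∃ z ∈ X, Ls (ds G z) (md c) := fun G h1 h2 X h3 h4 => by
    obtain ⟨z, k1, -, k3⟩ := cen X h3.gc h4
    obtain ⟨k, e1, e2⟩ := s4 G z h2 k3
    refine ⟨_, X.mul_mem (h3.ex c h4 hc.1 _ (mem_capS.2 fun m => ?_) (ipow_mem_Ep c k)) k1, e1⟩
    exact e2 _ (hm m) (cm m) (capS_le H l m h1) (capS_le H l m (h3.sub k1))
  have ml : Ls (md c) (ln c) := Ls.of_le (md_le_ln c)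
  rcases hl.cases (md c) with hA | ⟨n, hn, hD⟩
  · suffices h : ∃ G ∈ capS H l, Ls (ln G) (ln c) ∧ Ls (ds G (c * G)) (md c) by
      obtain ⟨G, h1, h2, h3⟩ := h
      refine ⟨G, h1, h2, h3, fun X k1 k2 => ?_⟩
      obtain ⟨z, e1, e2⟩ := common G h1 h3 X k1 k2
      exact k1.near e1 fun m => e2.trans' (hA m).ls
    rcases hl.cases (ln c) with hB | ⟨n, hn, -⟩
    · obtain ⟨z, -, k2, k3⟩ := cen _ (hm 0) (cm 0)
      exact ⟨z, mem_capS.2 fun m => Subgroup.mem_sup_right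
        ((mem_ball (hl.pos m).le).2 (k2.trans' (hB m).ls)), k2, k3⟩
    · obtain ⟨z, k1, k2, k3⟩ := cen _ (hm n) (cm n)
      obtain ⟨y, y1, y2, y3⟩ := hFC_COSET Γ a H l c z n hH hl hc hS k1 fun m => by
        obtain ⟨z', j1, -, j3⟩ := cen _ (hm m) (cm m)
        obtain ⟨k, e1, -⟩ := s4 z z' k3 j3
        refine ⟨(ipow c k)⁻¹, inv_mem (ipow_mem_Ep c k), mem_sup_near (hl.pos m).le j1 ?_⟩
        rw [← ds_mul_left (ipow c k), mul_inv_cancel_left, ds_comm]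
        exact e1.trans' (hA m).ls
      refine ⟨y * z, y3, ?_, ?_⟩
      · have t := ds_tri 1 z (y * z)
        rw [ds_one_left, ds_one_left] at t
        exact Ls.mono_left t (k2.add ((s1 y y1 z).trans'
          ((y2.trans' (hn.ls.add ml)).add (k3.trans' ml))))
      · rw [← disp_conj']
        refine (s1 _ (mul_mem (mul_mem (inv_mem y1) (self_mem_Ep c)) y1) z).trans' ?_
        rw [md_conj]
        exact (Ls.refl' _).add k3
  · obtain ⟨z, k1, k2, k3⟩ := cen _ (hm n) (cm n)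
    obtain ⟨u, u1, u2⟩ := exists_centre hLINE hc.1 z
    have u3 : Ls (ds u z) (md c) := ds_comm z u ▸ u2.trans' k3
    obtain ⟨G, g1, g2, g3⟩ := hFC_NEAR Γ a H l (md c) c u n hH hl hD hn hS u1 (Sim.refl' _)
      fun m => by
        rcases le_total m n with e | e
        · exact ⟨z, hl.sup_le H e k1, u3⟩
        obtain ⟨z', j1, -, j3⟩ := cen _ (hm m) (cm m)
        obtain ⟨k, e1, e2⟩ := s4 z z' k3 j3
        obtain ⟨f1, -, f2, b2, b3, b4, b5⟩ := hFC_EXPO Γ a H (l n) c (ipow c k) hH (hl.big n) hc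
          (cm n) (e2 _ (hm n) (cm n) k1 (hl.sup_le H e j1)) (ipow_mem_Ep c k)
        refine ⟨f1 * z', mul_mem (b5 _ (hm m) le_sup_left (cm m)) j1, ?_⟩
        have e3 : Ls (ds (ipow c k * z') (f1 * z')) (md c) := by
          rw [b3, mul_assoc, ds_mul_left, ds_comm]
          exact (s1 f2 b2 z').trans' ((b4.trans' hn.ls).add j3)
        exact Ls.mono_left (ds_tri u z _) (u3.add (Ls.mono_left (ds_tri z _ _) (e1.add e3)))
    have g4 : Ls (ds G (c * G)) (md c) := by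
      refine Ls.mono_left (disp_le c G u) (Ls.add (Ls.two ?_) (Ls.of_le u1.le))
      rw [ds_comm]
      exact g2
    refine ⟨G, g1, ?_, g4, fun X h1 h2 => g3 X h1 h2 ?_⟩
    · have t1 := ds_tri 1 z G
      rw [ds_one_left, ds_one_left] at t1
      exact Ls.mono_left t1 (k2.add (Ls.mono_left (ds_tri z u G)
        (((u2.trans' k3).add g2).trans' ml)))
    · obtain ⟨z', e1, e2⟩ := common G g1 g4 X h1 h2
      exact ⟨z', e1, Ls.mono_left (ds_tri u G z') (g2.add e2)⟩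

end Pool.Agent.P.MP_dba3d2_lc
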