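import Pool.Agent.P.MP_dba3d2_lc.F.IfaceC
import Pool.Agent.P.MP_dba3d2_lc.A.Iface
import Pool.Agent.P.MP_dba3d2_lc.B.Iface
import Pool.Agent.P.MP_dba3d2_lc.C.Iface
import Pool.Agent.P.MP_dba3d2_lc.F.TbC

/-! Step FC_COSET of the stability project. -/

namespace Pool.Agent.P.MP_dba3d2_lc

open Filter

theorem p_FC_COSET (hLINE : S_LINE) (hCVX : S_CVX) (hGRAFT : S_GRAFT) (hFC_SM : S_FC_SM) (hFC_EXPO : S_FC_EXPO) :
    S_FC_COSET := by
  intro Γ a H l c g n hH hl hc hcS hg he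
  obtain ⟨s1, s2, s3, -⟩ := hFC_SM Γ a c hc
  have gc : ∀ m, GC0 (H ⊔ ball Γ (l m)) := fun m => gc0_sup_ball hCVX hGRAFT hH (hl.big m)
  have hcm : ∀ m, c ∈ H ⊔ ball Γ (l m) := mem_capS.1 hcS
  have step : ∀ m m', m ≤ m' → ∀ y, y ∈ Ep c → y * g ∈ H ⊔ ball Γ (l m) →
      ∃ f, f ∈ Ep c ∧ Ls (md f) (l m) ∧ f * y * g ∈ H ⊔ ball Γ (l m') := by
    intro m m' hm y hy hyg
    obtain ⟨e, e1, e2⟩ := he m'
    have k : e * y⁻¹ ∈ H ⊔ ball Γ (l m) := by
      have := mul_mem (hl.sup_le H hm e2) (inv_mem hyg)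
      rwa [show e * g * (y * g)⁻¹ = e * y⁻¹ by group] at this
    obtain ⟨f1, -, f2, a2, a3, a4, a5⟩ := hFC_EXPO Γ a H (l m) c _ hH (hl.big m) hc (hcm m) k
      (mul_mem e1 (inv_mem hy))
    refine ⟨f2, a2, a4, ?_⟩
    have := mul_mem (inv_mem (a5 _ (gc m') le_sup_left (hcm m'))) e2
    rwa [show f1⁻¹ * (e * g) = f1⁻¹ * (e * y⁻¹) * y * g by group, a3, inv_mul_cancel_left] at this
  have up : ∀ {x : a.K} {m : ℕ}, Ls x (l m) → Ls x (l m + md c) := fun h =>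
    h.mono_right (le_add_of_nonneg_right (md_nonneg c))
  rcases hl.cases (md c) with hA | ⟨m0, hB, -⟩
  · choose! F hF using fun i => step (n + i) (n + (i + 1)) (by omega)
    obtain ⟨Y, Y0, YS⟩ : ∃ Y : ℕ → MM Γ a, Y 0 = 1 ∧ ∀ i, Y (i + 1) = F i (Y i) * Y i :=
      ⟨fun i => Nat.rec 1 (fun i y => F i y * y) i, rfl, fun _ => rfl⟩
    have hY : ∀ i, Y i ∈ Ep c ∧ Y i * g ∈ H ⊔ ball Γ (l (n + i)) := fun i => by
      induction i with
      | zero => rw [Y0, one_mul]; exact ⟨one_mem _, hg⟩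
      | succ i ih =>
        rw [YS]
        exact ⟨mul_mem (hF i _ ih.1 ih.2).1 ih.1, (hF i _ ih.1 ih.2).2.2⟩
    obtain ⟨z, hz⟩ := exists_md_ds c
    have dz : ∀ y ∈ Ep c, ∀ m, Ls (ds (y * z) (c * (y * z))) (l m) := fun y hy m => by
      have := s1 (y⁻¹ * c * y) (mul_mem (mul_mem (inv_mem hy) (self_mem_Ep c)) hy) z
      rw [disp_conj', md_conj, hz] at this
      exact this.trans' ((hA m).ls.add (hA m).ls)
    have hl' : Desc fun i => l (n + i) := ⟨fun i => hl.big _, fun i => hl.ll (n + i)⟩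
    obtain ⟨u, hu⟩ := hl'.cauchy (fun i => Y i * z) fun i => by
      have k := hF i _ (hY i).1 (hY i).2
      show Ls (ds (Y i * z) (Y (i + 1) * z)) (l (n + i))
      rw [YS, mul_assoc]
      exact (s1 _ k.1 _).trans' (k.2.1.add (dz _ (hY i).1 _))
    obtain ⟨k, hk⟩ := (hLINE Γ a c z hc.1 (Ls.of_le hz.le)).2.1 u
    have b : ∀ i, Ls (md (ipow c k * (Y i)⁻¹)) (l (n + i)) := fun i => by
      have h1 : Ls (ds u (Y i * z)) (l (n + i)) := hu i
      have h2 : Ls (ds u (c * u)) (l (n + i)) :=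
        Ls.mono_left (disp_le c u (Y i * z)) (h1.two.add (dz _ (hY i).1 _))
      refine Ls.mono_left (md_le_ds _ (Y i * z)) ?_
      rw [show ipow c k * (Y i)⁻¹ * (Y i * z) = ipow c k * z by group]
      refine Ls.mono_left (ds_tri _ u _) (Ls.add ?_ (hk.trans' h2))
      rwa [ds_comm]
    refine ⟨ipow c k, ipow_mem_Ep c k, up ?_, hl.mem_capS n fun m hm => ?_⟩
    · have := b 0
      rwa [Y0, inv_one, mul_one] at this
    · obtain ⟨i, rfl⟩ := Nat.exists_eq_add_of_le hm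
      have := mul_mem (s3 _ _ (gc (n + i)) (hl.pos _).le le_sup_right (hcm _) _
        (mul_mem (ipow_mem_Ep c k) (inv_mem (hY i).1)) (up (b i))) (hY i).2
      rwa [show ipow c k * (Y i)⁻¹ * (Y i * g) = ipow c k * g by group] at this
  · obtain ⟨y, y1, y2, y3⟩ := step n (max n m0) (le_max_left _ _) 1 (one_mem _) (by rwa [one_mul])
    rw [mul_one] at y3
    refine ⟨y, y1, up y2, hl.mem_capS (max n m0) fun m hm => ?_⟩
    obtain ⟨f, f1, f2, f3⟩ := step _ m hm y y1 y3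
    have := mul_mem (inv_mem (s2 _ (gc m) (hcm m) f f1
      ((f2.trans' (hl.ls (le_max_right _ _))).trans' hB.ls))) f3
    rwa [show f⁻¹ * (f * y * g) = y * g by group] at this

end Pool.Agent.P.MP_dba3d2_lc
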