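import Pool.Agent.P.MP_dba3d2_lc.F.IfaceC
import Pool.Agent.P.MP_dba3d2_lc.A.Iface
import Pool.Agent.P.MP_dba3d2_lc.B.Iface
import Pool.Agent.P.MP_dba3d2_lc.C.Iface
import Pool.Agent.P.MP_dba3d2_lc.F.TbC
import Pool.Agent.P.MP_dba3d2_lc.C.C2_rx

/-! Step FC_EX of the stability project. -/

namespace Pool.Agent.P.MP_dba3d2_lc

open Filter

open C2_rx in
theorem p_FC_EX (hELEM : S_ELEM) (hLINE : S_LINE) (hCVX : S_CVX) (hGRAFT : S_GRAFT) (hFC_EXPO : S_FC_EXPO) :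
    S_FC_EX := by
  intro Γ a H l μ h c hH hl hμ hh h1 hc pc h2 h3
  have g := fun m => gc0_sup_ball hCVX hGRAFT hH (hl.big m)
  have ex := fun m => (g m).ex μ hμ h (mem_capS.1 hh m) h1 c (mem_capS.1 hc m) pc h2 h3
  rcases hl.cases μ with k | ⟨n, k, -⟩
  · obtain ⟨f, -, f2, f3⟩ := ex 0
    refine ⟨f, mem_capS.2 fun m => mem_sup_near (hl.pos m).le (mem_capS.1 hh m)
      (Ls.trans' ?_ (k m).ls), f2, f3⟩
    refine Ls.mono_left ?_ (((f3.ls.add h2).add h2).add (h1.add h1))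
    have a1 := ln_mul_le (h⁻¹ * c) h
    have a2 := ln_mul_le h⁻¹ c
    rw [ln_inv] at a2
    linarith [ds_comm h f, ds_nonneg h f]
  obtain ⟨f, f1, f2, f3⟩ := ex n
  obtain ⟨u, u1, v, v1, rfl, v2, u2⟩ :=
    hFC_EXPO Γ a H (l n) c f hH (hl.big n) pc (mem_capS.1 hc n) f1 f2
  refine ⟨u, mem_capS.2 fun m => u2 _ (g m) le_sup_left (mem_capS.1 hc m), u1, ?_⟩
  obtain ⟨m, m1, -, m2, -⟩ := pj hμ h3 1
  have fx := fix_of_fix hELEM hLINE pc.1 v1 m2 (Ll.ls_left v2 k)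
  have c1 := lemC' hELEM hLINE hμ pc.1 h3 u1 1
  have c2 := lemC' hELEM hLINE hμ pc.1 h3 f2 1
  have c3 := lemC hELEM hLINE hμ pc.1 h3 u1 1
  rw [ds_one_mul] at m1
  rw [ds_one_mul, mul_one] at c1 c2 c3
  have e1 : E μ c u (u * v) := by
    refine Ll.mono_left ?_ ((fx.two.add c1).add c2)
    have a1 := ds_tri 1 m v
    have a2 := ds_tri m (v * m) v
    have a3 : ds (v * m) v = ds 1 m := by rw [ds_comm, ds_mul_right, ds_one_left]
    rw [ds_one_left v] at a1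
    rw [ds_mul_right]
    linarith
  have e2 : E μ c (u * v) h := Ll.mono_left (le_of_eq (by rw [ds_conj c h]; ring)) (f3.add c2)
  exact Ll.mono_left (le_of_eq (by rw [ds_conj c h]; ring)) (Ll.add (e1.trans hμ h3 e2) c3)

end Pool.Agent.P.MP_dba3d2_lc
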