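import Pool.Agent.P.MP_dba3d2_lc.F.IfaceC
import Pool.Agent.P.MP_dba3d2_lc.A.Iface
import Pool.Agent.P.MP_dba3d2_lc.B.Iface
import Pool.Agent.P.MP_dba3d2_lc.C.Iface
import Pool.Agent.P.MP_dba3d2_lc.F.TbC

/-! Step FC_EXPO of the stability project. -/

namespace Pool.Agent.P.MP_dba3d2_lc

open Filter

namespace Fc_expo

variable {Γ : HG} {a : Amb} {H W : Subgroup (MM Γ a)} {c f : MM Γ a}

theorem split (o : TwoOut H W) (hc : Prim c) (c1 : c ∈ H ⊔ W) (f1 : f ∈ H ⊔ W) (f2 : f ∈ Ep c)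
    (l : Ll (md c) (md f)) :
    ∃ p x y : MM Γ a, p⁻¹ * f * p = x * y ∧ y ∈ W ∧ y ∈ Ep (p⁻¹ * c * p) ∧
      (x = 1 ∨ (p⁻¹ * c * p ∈ H ∧ x ∈ H ∧ x ∈ Ep (p⁻¹ * c * p))) := by
  have k1 : ∀ p ∈ H ⊔ W, p⁻¹ * f * p ∈ H ⊔ W := fun p hp =>
    mul_mem (mul_mem (inv_mem hp) f1) hp
  have k2 : ∀ p : MM Γ a, p⁻¹ * f * p ∈ Ep (p⁻¹ * c * p) := fun p =>
    mem_Ep_conj'.2 (by simpa [mul_assoc] using f2)
  by_cases e : ∃ p ∈ H ⊔ W, p⁻¹ * c * p ∈ H ⊓ W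
  · obtain ⟨p, hp, e⟩ := e
    obtain ⟨x, hx, y, hy, x1, y1, e1⟩ := o.e1 _ e (hc.conj' p) _ (k1 p hp) (k2 p)
    exact ⟨p, x, y, e1, hy, y1, Or.inr ⟨e.1, hx, x1⟩⟩
  obtain ⟨p, hp, e1 | e1⟩ := o.per c c1 hc f f1 f2 l
  · refine ⟨p, p⁻¹ * f * p, 1, (mul_one _).symm, one_mem _, one_mem _, Or.inr ⟨e1, ?_, k2 p⟩⟩
    refine o.e2 _ e1 (hc.conj' p) (fun g hg n => e ⟨p * g,
      mul_mem hp (Subgroup.mem_sup_left hg), ?_⟩) _ (k1 p hp) (k2 p)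
    have : (p * g)⁻¹ * c * (p * g) = g⁻¹ * (p⁻¹ * c * p) * g := by group
    rw [this]
    exact ⟨H.mul_mem (H.mul_mem (H.inv_mem hg) e1) hg, n⟩
  · refine ⟨p, 1, p⁻¹ * f * p, (one_mul _).symm, ?_, k2 p, Or.inl rfl⟩
    refine o.e3 _ e1 (hc.conj' p) (fun g hg n => e ⟨p * g,
      mul_mem hp (Subgroup.mem_sup_right hg), ?_⟩) _ (k1 p hp) (k2 p)
    have : (p * g)⁻¹ * c * (p * g) = g⁻¹ * (p⁻¹ * c * p) * g := by group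
    rw [this]
    exact ⟨n, W.mul_mem (W.mul_mem (W.inv_mem hg) e1) hg⟩

end Fc_expo

theorem p_FC_EXPO (hELEM : S_ELEM) (hROOT : S_ROOT) (hCVX : S_CVX) (hGRAFT : S_GRAFT) (hFC_SM : S_FC_SM) :
    S_FC_EXPO := by
  intro Γ a H ν c f hH hν hc c1 f1 f2
  by_cases l : Ll (md c) (md f)
  swap
  · have s : Ls (md f) (md c) := (not_forall.1 l).imp fun _ b => (not_le.1 b).le
    refine ⟨f, f2, 1, one_mem _, (mul_one _).symm, ?_, fun X hX _ cX =>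
      (hFC_SM Γ a c hc).2.1 X hX cX f f2 s⟩
    exact Ls.of_le ((md_le_ln _).trans (ln_one.trans_le hν.pos.le))
  obtain ⟨p, x, y, e, y1, y2, hx⟩ :=
    Fc_expo.split (graft_ball hCVX hGRAFT hH hν).1 hc c1 f1 f2 l
  have x2 : x ∈ Ep (p⁻¹ * c * p) := by
    rcases hx with rfl | h
    exacts [one_mem _, h.2.2]
  have e' : f = p * x * p⁻¹ * (p * y * p⁻¹) := by
    have : f = p * (p⁻¹ * f * p) * p⁻¹ := by group
    rw [this, e]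
    group
  refine ⟨p * x * p⁻¹, mem_Ep_conj'.1 x2, p * y * p⁻¹, mem_Ep_conj'.1 y2, e', ?_, ?_⟩
  · rw [md_conj']
    exact Ls.mono_left (md_le_ln y) ((mem_ball hν.pos.le).1 y1)
  intro X hX HX cX
  rcases hx with rfl | ⟨c2, x1, -⟩
  · simp
  obtain ⟨-, -, R3, -, -, R6⟩ := hROOT Γ a X hX
  obtain ⟨h, hh, he⟩ := R6 c cX _ (HX c2) hc.1 (hc.conj' p).1 p (by
    have : p * (p⁻¹ * c * p) * p⁻¹ = c := by group
    rw [Cj, this])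
  have g1 : h * x * h⁻¹ ∈ X := mul_mem (mul_mem hh (HX x1)) (inv_mem hh)
  have g2 : h * x * h⁻¹ ∈ Ep c := by
    have : h * x * h⁻¹ = (p * h⁻¹)⁻¹ * (p * x * p⁻¹) * (p * h⁻¹) := by group
    rw [this]
    exact mul_mem (mul_mem (inv_mem he) (mem_Ep_conj'.1 x2)) he
  have t := (hELEM Γ a c hc.1).2.2.2.2.2.2.2.2.1 _ he _ g2
  have t2 := R3 c cX hc.1 _ (mul_mem (mul_mem (mul_mem he g2) (inv_mem he)) (inv_mem g2)) t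
  have : p * x * p⁻¹ =
      p * h⁻¹ * (h * x * h⁻¹) * (p * h⁻¹)⁻¹ * (h * x * h⁻¹)⁻¹ * (h * x * h⁻¹) := by group
  rw [this]
  exact mul_mem t2 g1

end Pool.Agent.P.MP_dba3d2_lc
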