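import Pool.Agent.P.MP_dba3d2_lc.F.IfaceC
import Pool.Agent.P.MP_dba3d2_lc.A.Iface
import Pool.Agent.P.MP_dba3d2_lc.B.Iface
import Pool.Agent.P.MP_dba3d2_lc.C.Iface
import Pool.Agent.P.MP_dba3d2_lc.F.TbC

/-! Step FC_FIN of the stability project. -/

namespace Pool.Agent.P.MP_dba3d2_lc

open Filter

namespace Fc_finA

variable {Γ : HG} {a : Amb} {K P A B H X : Subgroup (MM Γ a)} {g : MM Γ a} {l : ℕ → a.K}

/-- `g` conjugates `K` into `Y` -/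
def In (K : Subgroup (MM Γ a)) (g : MM Γ a) (Y : Subgroup (MM Γ a)) : Prop :=
  ∀ k ∈ K, g⁻¹ * k * g ∈ Y

theorem fin_conj (hK : Finite K) (g : MM Γ a) :
    Finite (K.map (MulAut.conj g⁻¹).toMonoidHom) :=
  Finite.of_equiv _ (K.equivMapOfInjective _ (MulAut.conj g⁻¹).injective).toEquiv

theorem in_of_map {p : MM Γ a}
    (h : ∀ k ∈ K.map (MulAut.conj g⁻¹).toMonoidHom, p⁻¹ * k * p ∈ A) : In K (g * p) A :=
  fun k hk => by simpa [mul_assoc] using h _ ⟨k, hk, rfl⟩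

theorem red (h : FinRed P A B) (hK : Finite K) (hg : In K g P) :
    ∃ p ∈ P, In K (g * p) A ∨ In K (g * p) B := by
  obtain ⟨p, hp, h2⟩ := h (K.map (MulAut.conj g⁻¹).toMonoidHom) (by
    rintro _ ⟨k, h1, rfl⟩
    simpa using hg k h1) (fin_conj hK g)
  exact ⟨p, hp, h2.imp in_of_map in_of_map⟩

theorem graft (hT : S_TRUNC) (hG : S_GRAFT) (hA : GC0 A) (hX : GC0 X) (hAX : A ≤ X) {ν : a.K}
    (hν : Big ν) : TwoOut A (X ⊓ ball Γ ν) ∧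
      AddNF (A ⊔ (X ⊓ ball Γ ν)) {g | g ∈ A ∨ g ∈ X ⊓ ball Γ ν} :=
  hG Γ a A _ hA (ET.gc0_trunc hT hν hX) (ET.sep_of_le hν (inf_le_inf_right _ hAX) inf_le_right)

theorem step (hT : S_TRUNC) (hG : S_GRAFT) (hH : GC0 H) (hl : Desc l) (hX : Cg H l X)
    (he : ∀ n, X = H ⊔ (X ⊓ ball Γ (l n))) (hK : Finite K) (hn : ∀ g ∈ X, ¬ In K g H) (n : ℕ)
    (hg : g ∈ X) (h : In K g (X ⊓ ball Γ (l n))) :
    ∃ g' ∈ X, In K g' (X ⊓ ball Γ (l (n + 1))) ∧ Ls (ds g g') (l n) := by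
  have h0 := (hl.pos n).le
  have h1 : X ⊓ ball Γ (l n) ≤ (H ⊓ ball Γ (l n)) ⊔ (X ⊓ ball Γ (l (n + 1))) := fun x hx =>
    (graft hT hG hH hX.gc hX.le (hl.big (n + 1))).2.mem (he (n + 1) ▸ hx.1)
      ((mem_ball h0).1 hx.2) fun y hy k => hy.elim
        (fun e => Subgroup.mem_sup_left ⟨e, (mem_ball h0).2 k⟩) Subgroup.mem_sup_right
  have h2 : (H ⊓ ball Γ (l n)) ⊔ (X ⊓ ball Γ (l (n + 1))) ≤ X ⊓ ball Γ (l n) :=
    sup_le (inf_le_inf_right _ hX.le) (inf_le_inf_left _ (hl.ball_le n.le_succ))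
  obtain ⟨p, hp, h3⟩ := red (graft hT hG (ET.gc0_trunc hT (hl.big n) hH) hX.gc
    (inf_le_left.trans hX.le) (hl.big (n + 1))).1.fin hK fun k hk => h1 (h k hk)
  have h4 := X.mul_mem hg (h2 hp).1
  refine ⟨g * p, h4, h3.resolve_left fun e => hn _ h4 fun k hk => (e k hk).1, ?_⟩
  rw [ds_mul_right]
  exact (mem_ball h0).1 (h2 hp).2

end Fc_finA

open Fc_finA

theorem p_FC_FIN (hFINM : S_FINM) (hTRUNC : S_TRUNC) (hGRAFT : S_GRAFT) :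
    S_FC_FIN := by
  intro Γ a H l X hH hl hX he K hKX hK
  by_cases hn : ∃ g ∈ X, In K g H
  · obtain ⟨g, hg, h1⟩ := hn
    obtain ⟨p, hp, h2⟩ := red (A := std Γ a) (B := std Γ a)
      (fun K' a b => (hH.finc K' a b).imp fun _ e => ⟨e.1, .inl e.2⟩) hK h1
    exact ⟨g * p, X.mul_mem hg (hX.le hp), h2.elim id id⟩
  have hn' : ∀ g ∈ X, ¬ In K g H := fun g a b => hn ⟨g, a, b⟩
  obtain ⟨p, hp, h1⟩ := red (g := 1) (graft hTRUNC hGRAFT hH.toGC0 hX.gc hX.le (hl.big 0)).1.fin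
    hK fun k hk => by
      rw [← he 0]
      simpa using hKX hk
  rw [← he 0] at hp
  have hp' := X.mul_mem X.one_mem hp
  have h2 := h1.resolve_left (hn' _ hp')
  have st : ∀ n (x : {g // g ∈ X ∧ In K g (X ⊓ ball Γ (l n))}),
      ∃ y : {g // g ∈ X ∧ In K g (X ⊓ ball Γ (l (n + 1)))}, Ls (ds x.1 y.1) (l n) := fun n x =>
    let ⟨g', a1, a2, a3⟩ := step hTRUNC hGRAFT hH.toGC0 hl hX he hK hn' n x.2.1 x.2.2
    ⟨⟨g', a1, a2⟩, a3⟩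
  choose f hf using st
  let g : ∀ n, {g // g ∈ X ∧ In K g (X ⊓ ball Γ (l n))} := fun n =>
    Nat.rec ⟨1 * p, hp', h2⟩ f n
  obtain ⟨u, hu⟩ := hl.cauchy (fun n => (g n).1) fun n => hf n (g n)
  have huX : u ∈ X := hX.cpl u _ (fun n => (g n).2.1) hu
  obtain ⟨q, h3, _, ⟨k, hk, rfl⟩, h4⟩ := hFINM Γ a _ (fin_conj hK u)
  refine ⟨u * q, hX.near huX fun n => ?_, in_of_map h3⟩
  rw [ds_comm, ds_mul_right]
  refine h4.trans' (Ls.add ?_ (big_iff_ll.1 (hl.big n)).ls)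
  have e : (MulAut.conj u⁻¹).toMonoidHom k = u⁻¹ * k * u := by simp
  rw [e, ← ds_conj]
  refine Ls.mono_left (disp_le k u (g n).1) ((hu n).two.add ?_)
  rw [ds_conj]
  exact (mem_ball (hl.pos n).le).1 ((g n).2.2 k hk).2

end Pool.Agent.P.MP_dba3d2_lc
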