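import Pool.Agent.P.MP_dba3d2_lc.F.IfaceC
import Pool.Agent.P.MP_dba3d2_lc.A.Iface
import Pool.Agent.P.MP_dba3d2_lc.B.Iface
import Pool.Agent.P.MP_dba3d2_lc.C.Iface
import Pool.Agent.P.MP_dba3d2_lc.F.TbC

/-! Step FC_INF of the stability project. -/

namespace Pool.Agent.P.MP_dba3d2_lc

open Filter

theorem p_FC_INF (hELEM : S_ELEM) (hPERC : S_PERC) (hROOT : S_ROOT) (hCVX : S_CVX) (hGRAFT : S_GRAFT) (hFC_SM : S_FC_SM) (hFC_CEN : S_FC_CEN) (hFC_EX : S_FC_EX) :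
    S_FC_INF := by
  intro Γ a H l F hH hl hF
  have mem : ∀ g, g ∈ capS H l ⊓ sInf F ↔
      (∀ m, g ∈ H ⊔ ball Γ (l m)) ∧ ∀ X ∈ F, g ∈ X := fun g => by
    rw [Subgroup.mem_inf, mem_capS, Subgroup.mem_sInf]
  have gc : ∀ m, GC0 (H ⊔ ball Γ (l m)) := fun m => gc0_sup_ball hCVX hGRAFT hH (hl.big m)
  have key : ∀ g, (∀ Z, GC0 Z → capS H l ⊓ sInf F ≤ Z → g ∈ Z) → g ∈ capS H l ⊓ sInf F :=
    fun g k => (mem g).2 ⟨fun m => k _ (gc m) (inf_le_left.trans (capS_le H l m)),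
      fun X hX => k X (hF X hX).gc (inf_le_right.trans (sInf_le hX))⟩
  have z0 : capS H l ⊓ sInf F ≤ H ⊔ ball Γ (l 0) := inf_le_left.trans (capS_le H l 0)
  have ex : ∀ c ∈ capS H l ⊓ sInf F, ¬ IsOfFinOrder c → ∀ f ∈ capS H l, f ∈ Ep c →
      f ∈ capS H l ⊓ sInf F := fun c hc h1 f hf h2 =>
    ⟨hf, Subgroup.mem_sInf.2 fun X hX => (hF X hX).ex c (((mem c).1 hc).2 X hX) h1 f hf h2⟩
  refine ⟨⟨fun g hg => key g fun Z hZ _ => hZ.base hg, ?_, ?_, ?_, ?_, ?_⟩,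
    le_inf (le_capS H l) (le_sInf fun X hX => (hF X hX).le), inf_le_left, ex, ?_⟩
  · intro μ hμ h hh h' hh' b1 b2 g p q ho hp
    exact key g fun Z hZ le => hZ.g2 μ hμ h (le hh) h' (le hh') b1 b2 g p q ho hp
  · intro μ hμ h hh b1 p q b2 o1 o2 hp
    obtain ⟨c, -, c1, c2⟩ := (gc 0).g20 μ hμ h (z0 hh) b1 p q b2 o1 o2 hp
    exact ⟨c, key c fun Z hZ le => hZ.per_mem hELEM hPERC hROOT hμ Z.one_mem (le hh)
      (by simpa [ds] using b1) b2 o1 o2 c1 c2, c1, c2⟩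
  · intro μ hμ h hh b1 c hc c1 b2 b3
    obtain ⟨f, f1, f2, f3⟩ := hFC_EX Γ a H l μ h c hH hl hμ hh.1 b1 hc.1 c1 b2 b3
    exact ⟨f, ex c hc c1.1 f f1 f2, f2, f3⟩
  · intro c hc c1 f hf f1 n hn
    obtain ⟨f', -, f2, r, f3⟩ := (gc 0).pur c (z0 hc) c1 f (z0 hf) f1 n hn
    exact ⟨f', key f' fun Z hZ le => (hFC_SM Γ a c c1).2.2.2.2 Z hZ (le hc) f (le hf) f1 f' f2
      n r hn f3, f2, r, f3⟩
  · intro c hc c' hc' c1 c2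
    obtain ⟨G, g1, g2, g3, g4⟩ := hFC_CEN Γ a H l c c' hH hl hc.1 hc'.1 c1 c2
    exact ⟨G, ⟨g1, Subgroup.mem_sInf.2 fun X hX => g4 X (hF X hX) (((mem c).1 hc).2 X hX)
      (((mem c').1 hc').2 X hX)⟩, g2, g3⟩
  · intro u v hv hu
    exact ⟨capS_cpl hl (fun n => ((mem _).1 (hv n)).1 n) hu, Subgroup.mem_sInf.2 fun X hX =>
      (hF X hX).cpl u v (fun n => ((mem _).1 (hv n)).2 X hX) hu⟩

end Pool.Agent.P.MP_dba3d2_lc
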