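import Pool.Agent.P.MP_dba3d2_lc.F.IfaceC
import Pool.Agent.P.MP_dba3d2_lc.B.Iface
import Pool.Agent.P.MP_dba3d2_lc.C.Iface
import Pool.Agent.P.MP_dba3d2_lc.F.TbC

/-! Step FC_NEAR of the stability project. -/

namespace Pool.Agent.P.MP_dba3d2_lc

open Filter

theorem p_FC_NEAR (hCVX : S_CVX) (hGRAFT : S_GRAFT) (hFC_AX : S_FC_AX) (hFC_ARC : S_FC_ARC) :
    S_FC_NEAR := by
  intro Γ a H l D γ u n hH hl hD hn hγ e s hz
  have h0 := hD.pos.le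
  have hu : Ls (ds u (γ * u)) D := e ▸ s.1
  have hu' : Ls D (ds u (γ * u)) := e ▸ s.2
  have ax : ∀ m, XArc D (H ⊔ ball Γ (l m)) u (γ * u) := fun m =>
    let ⟨z, z1, z2⟩ := hz m
    hFC_AX Γ a D γ u z _ hD e s z2 (capS_le H l m hγ) z1
  obtain ⟨x0, hx0, y0, hy0, b1, b2, b3⟩ := ax n
  obtain ⟨L, L1, L2, L3⟩ := (graft_ball hCVX hGRAFT hH (hl.big n)).2.geo
    (mul_mem (inv_mem hx0) hy0) hD ⟨b1, On.nondeg hD b2 b3 hu'⟩
  have e0 : x0 * L.prod = y0 := by rw [L2, mul_inv_cancel_left]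
  obtain ⟨L₁, x, L₂, p, q, rfl, ⟨n1, n2, n3⟩, o1, o2⟩ := (Geo.cut hD
    (fun p q => On D p u (γ * u) ∧ On D q u (γ * u) ∧ Ls D (ds p q)) False
    (fun _ _ k => k.2.2) (fun p q m k hm =>
      have om := On.conv hD k.1 k.2.1 hm
      (Ls.add_cases (k.2.2.mono_right (ds_tri p m q))).elim (fun x => Or.inl ⟨k.1, om, x⟩)
        fun x => Or.inr (Or.inl ⟨om, k.2.1, x⟩)) L x0 u (γ * u) L3 (e0 ▸ b2) (e0 ▸ b3)
    ⟨on_left h0 _ _, on_right h0 _ _, hu'⟩).resolve_left id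
  have hg : x0 * L₁.prod ∈ H ⊔ ball Γ (l n) :=
    mul_mem hx0 (Subgroup.list_prod_mem _ fun y hy =>
      (L1 y (by simp [hy])).1.elim Subgroup.mem_sup_left Subgroup.mem_sup_right)
  obtain ⟨x1, x2⟩ := L1 x (by simp)
  have hx : x ∈ H := x1.resolve_right fun k =>
    (Ll.ls_left ((mem_ball (hl.pos n).le).1 k) hn).not_ls hD.pos
      (ds_mul_right (x0 * L₁.prod) x ▸ On.nondeg hD o1 o2 n3)
  have sub : ∀ X : Subgroup (MM Γ a), XArc D X u (γ * u) → XArc D X p q :=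
    fun X ⟨x, hx, y, hy, k1, k2, k3⟩ =>
      ⟨x, hx, y, hy, k1, On.conv hD k2 k3 n1, On.conv hD k2 k3 n2⟩
  obtain ⟨G, hG, G1, G2, G3⟩ := (hFC_ARC Γ a H l D _ x p q hH hl hD hx x2 n3 o1 o2).1 n hn hg
    fun m => sub _ (ax m)
  refine ⟨G, hG, Ls.mono_left ?_ (((n1.ls_left hu).add
    (o1.ls_left (by rwa [ds_mul_right]))).add G1), fun X hX hγ' ⟨z, z1, z2⟩ =>
    (hFC_ARC Γ a H l D G x p q hH hl hD hx x2 n3 G2 G3).2 X hX hG
      (sub X (hFC_AX Γ a D γ u z X hD e s z2 hγ' z1))⟩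
  linarith [ds_tri u p G, ds_tri p (x0 * L₁.prod) G, ds_comm p (x0 * L₁.prod)]

end Pool.Agent.P.MP_dba3d2_lc
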