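import Pool.Agent.P.MP_dba3d2_lc.F.IfaceC
import Pool.Agent.P.MP_dba3d2_lc.A.Iface
import Pool.Agent.P.MP_dba3d2_lc.B.Iface
import Pool.Agent.P.MP_dba3d2_lc.E.Iface2
import Pool.Agent.P.MP_dba3d2_lc.F.TbC

/-! Step FC_SM of the stability project. -/

namespace Pool.Agent.P.MP_dba3d2_lc

open Filter

namespace Fc_sm

variable {Γ : HG} {a : Amb} {c f : MM Γ a} {X : Subgroup (MM Γ a)} {k : a.Z}

/-- elements with a standard exponent -/
theorem std_exp (hR : S_ROOT) (hX : GC0 X) (hc : c ∈ X) (h1 : ¬ IsOfFinOrder c) (hf : f ∈ Ep c)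
    (hk : IsOfFinOrder (f⁻¹ * ipow c k)) (hb : ¬ Big |zK k|) : f ∈ X := by
  obtain ⟨n, rfl⟩ := exists_int_of_not_big hb
  have h := (hR Γ a X hX).2.2.1 c hc h1 _ (mul_mem (inv_mem hf) (ipow_mem_Ep c _)) hk
  rw [ipow_intCast] at h
  exact X.inv_mem_iff.1 ((X.mul_mem_cancel_right (zpow_mem hc n)).1 h)

theorem one (hL : S_LINE) (hS : S_E_SZ) (hc : Prim c) (hf : f ∈ Ep c) (p : MM Γ a) :
    Ls (ds p (f * p)) (md f + ds p (c * p)) := by
  obtain ⟨k, hk⟩ := hc.2 f hf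
  obtain ⟨z, h1, h2⟩ := exists_centre hL hc.1 p
  obtain ⟨h3, h4⟩ := hS Γ a c f k hc.1 hf hk
  have h5 := (h4 z).2
  rw [h1, add_mul, one_mul] at h5
  have a1 := md_nonneg f
  have a2 := ds_nonneg p (c * p)
  have a3 := md_le_ds c p
  exact Ls.mono_left (disp_le f p z) ((h2.mono_right (by linarith)).two.add
    (h5.trans' ((h3.mono_right (by linarith)).add (Ls.of_le (by linarith)))))

theorem two (hR : S_ROOT) (hS : S_E_SZ) (hc : Prim c) (hX : GC0 X) (h : c ∈ X) (hf : f ∈ Ep c)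
    (hl : Ls (md f) (md c)) : f ∈ X := by
  obtain ⟨k, hk⟩ := hc.2 f hf
  obtain ⟨n, hn⟩ := (hS Γ a c f k hc.1 hf hk).1.trans' hl
  exact std_exp hR hX h hc.1 hf hk (Tre.nb_le (not_big_nat n)
    (le_of_mul_le_mul_right hn (one_pos.trans_le (one_le_md' hc.1))))

end Fc_sm

open Fc_sm

theorem p_FC_SM (hELEM : S_ELEM) (hLINE : S_LINE) (hROOT : S_ROOT) (hE_CHI : S_E_CHI) (hE_SZ : S_E_SZ) :
    S_FC_SM := by
  intro Γ a c hc
  refine ⟨fun f hf => one hLINE hE_SZ hc hf, fun X hX h f hf => two hROOT hE_SZ hc hX h hf,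
    fun X ν hX h0 hb h f hf hl => ?_, fun z z' hz hz' => ?_,
    fun X hX h f hf he f' hf' n r hn ht => ?_⟩
  · rcases le_total ν (md c) with e | e
    · exact two hROOT hE_SZ hc hX h hf (hl.trans' ((Ls.of_le e).add (Ls.refl' _)))
    · obtain ⟨p, hp, -, k⟩ := hX.cen1 h hc.1
      rw [Cen, md_conj, ← ds_conj] at k
      exact (X.mul_mem_cancel_right hp).1 (mem_of_near h0 hb hp ((one hLINE hE_SZ hc hf p).trans'
        ((hl.trans' ((Ls.refl' _).add (Ls.of_le e))).add (k.mono_right e))))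
  · obtain ⟨k, hk⟩ := (hLINE Γ a c z' hc.1 hz').2.1 z
    refine ⟨k, hk.trans' hz, fun X hX h h1 h2 => ?_⟩
    have m : ∀ y ∈ X, y⁻¹ * c * y ∈ X := fun y hy => mul_mem (mul_mem (inv_mem hy) h) hy
    have cen : ∀ y, Ls (ds y (c * y)) (md c) → Cen (y⁻¹ * c * y) := fun y hy => by
      rwa [Cen, md_conj, ← ds_conj]
    have := ((hROOT Γ a X hX).2.1 _ (m _ h2) _ (m _ h1) (hc.conj' _) (hc.conj' _) _
      ((Cj.of_mem (inv_mem (ipow_mem_Ep c k))).conj z' z)).2 (cen _ hz') (cen _ hz) (by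
        rw [md_conj, ← mul_inv_rev]
        exact (ds_comm z _ ▸ hk).trans' hz)
    exact X.inv_mem_iff.1 ((X.mul_mem_cancel_left (inv_mem h2)).1
      ((X.mul_mem_cancel_right h1).1 this))
  · obtain ⟨χ, x1, x2, x3, x4, x5, -, -, -, x9, -⟩ := hE_CHI Γ a c hc
    obtain ⟨g, hg, hg', s, hs⟩ := hX.pur c h hc f hf he n hn
    have key : ∀ y ∈ Ep c, ∀ m : ℕ, IsOfFinOrder (f⁻¹ * (y ^ n * c ^ m)) →
        -χ f + ((n : a.Z) * χ y + m) = 0 := fun y hy m e => by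
      have c1 := self_mem_Ep c
      have := (x4 _ (mul_mem (inv_mem he) (mul_mem (pow_mem hy n) (pow_mem c1 m)))).2 e
      rwa [x2 _ (inv_mem he) _ (mul_mem (pow_mem hy n) (pow_mem c1 m)),
        x2 _ (pow_mem hy n) _ (pow_mem c1 m), x3 _ he, x5 _ hy, x5 _ c1, x9, mul_one] at this
    have m1 : g⁻¹ * f' ∈ Ep c := mul_mem (inv_mem hg') hf'
    have e1 : (n : a.Z) * χ (g⁻¹ * f') = (s : a.Z) - r := by
      rw [x2 _ (inv_mem hg') _ hf', x3 _ hg']
      linear_combination key f' hf' r ht - key g hg' s hs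
    have e2 := congrArg (fun k => |zK k|) e1
    simp only [zK_mul, zK_sub, zK_natCast, abs_mul, Nat.abs_cast] at e2
    refine (X.mul_mem_cancel_left (inv_mem hg)).1
      (std_exp hROOT hX h hc.1 m1 ((x1 _ m1 _).1 rfl) (Tre.nb_le (not_big_nat (s + r)) ?_))
    have a1 : (1 : a.K) ≤ n := Nat.one_le_cast.2 hn
    have a2 := abs_sub (s : a.K) r
    rw [Nat.abs_cast, Nat.abs_cast, ← e2] at a2
    push_cast
    exact (le_mul_of_one_le_left (abs_nonneg _) a1).trans a2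

end Pool.Agent.P.MP_dba3d2_lc
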