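import Pool.Agent.P.MP_dba3d2_lc.F.IfaceC
import Pool.Agent.P.MP_dba3d2_lc.A.Iface
import Pool.Agent.P.MP_dba3d2_lc.B.Iface
import Pool.Agent.P.MP_dba3d2_lc.C.Iface
import Pool.Agent.P.MP_dba3d2_lc.F.TbC

/-! Step FC_UP of the stability project. -/

namespace Pool.Agent.P.MP_dba3d2_lc

open Filter

theorem p_FC_UP (hELEM : S_ELEM) (hROOT : S_ROOT) (hTRUNC : S_TRUNC) (hGRAFT : S_GRAFT) (hFC_SM : S_FC_SM) (hFC_EXPO : S_FC_EXPO) :
    S_FC_UP := by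
  have _h := hELEM
  intro Γ a H l X n hH hl hX
  have hb := hl.big n
  have h0 := (hl.pos n).le
  have hW : GC0 (X ⊓ ball Γ (l n)) := ET.gc0_trunc hTRUNC hb hX.gc
  have hs : Sep H (X ⊓ ball Γ (l n)) :=
    ET.sep_of_le hb (inf_le_inf_right _ hX.le) inf_le_right
  have hP : GC0 (H ⊔ (X ⊓ ball Γ (l n))) := (hGRAFT Γ a H _ hH hW hs).1.gc
  have hPX : H ⊔ (X ⊓ ball Γ (l n)) ≤ X := sup_le hX.le inf_le_left
  have hWP : ∀ g ∈ X, Ls (ln g) (l n) → g ∈ H ⊔ (X ⊓ ball Γ (l n)) := fun g h1 h2 =>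
    (le_sup_right : X ⊓ ball Γ (l n) ≤ H ⊔ (X ⊓ ball Γ (l n))) ⟨h1, (mem_ball h0).2 h2⟩
  refine ⟨hP, le_sup_left, hPX.trans hX.sub, ?_, ?_⟩
  · intro c hc hi f hf hfc
    have hfX : f ∈ X := hX.ex c (hPX hc) hi f hf hfc
    obtain ⟨c0, hc0, hp0, he0⟩ := (hROOT Γ a _ hP).1 c hc hi
    obtain ⟨p, hp, -, hcen⟩ := hP.cen1 hc0 hp0.1
    have hp1 : Prim (p⁻¹ * c0 * p) := hp0.conj' p
    have hc1 : p⁻¹ * c0 * p ∈ H ⊔ (X ⊓ ball Γ (l n)) :=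
      mul_mem (mul_mem (inv_mem hp) hc0) hp
    have hf1 : p⁻¹ * f * p ∈ X := mul_mem (mul_mem (inv_mem (hPX hp)) hfX) (hPX hp)
    have hf2 : p⁻¹ * f * p ∈ Ep (p⁻¹ * c0 * p) := by
      rw [mem_Ep_conj', he0]
      have e : p * (p⁻¹ * f * p) * p⁻¹ = f := by group
      rwa [e]
    have hXn : X ≤ H ⊔ ball Γ (l n) := hX.sub.trans (capS_le H l n)
    obtain ⟨f1, -, f2, a2, e, a3, a4⟩ :=
      hFC_EXPO Γ a H (l n) _ _ hH hb hp1 (hXn (hPX hc1)) (hXn hf1) hf2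
    have b1 := a4 _ hP le_sup_left hc1
    have b2 : f2 ∈ X := by
      have e' : f2 = f1⁻¹ * (p⁻¹ * f * p) := by rw [e]; group
      rw [e']
      exact mul_mem (inv_mem (hPX b1)) hf1
    have b3 : f2 ∈ H ⊔ (X ⊓ ball Γ (l n)) := by
      rcases le_total (md (p⁻¹ * c0 * p)) (l n) with k | k
      · have t := (hFC_SM Γ a _ hp1).1 f2 a2 1
        rw [ds_one_mul, ds_one_mul] at t
        exact hWP f2 b2 (t.trans' (a3.add (Ls.mono_right hcen k)))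
      · exact (hFC_SM Γ a _ hp1).2.1 _ hP hc1 f2 a2 (a3.mono_right k)
    have e2 : f = p * (f1 * f2) * p⁻¹ := by rw [← e]; group
    rw [e2]
    exact mul_mem (mul_mem hp (mul_mem b1 b3)) (inv_mem hp)
  · intro u v hv hu
    have huX : u ∈ X := hX.cpl u v (fun m => hPX (hv m)) hu
    have t : (v n)⁻¹ * u ∈ H ⊔ (X ⊓ ball Γ (l n)) := by
      refine hWP _ (mul_mem (inv_mem (hPX (hv n))) huX) ?_
      have t := hu n
      rwa [ds_comm] at t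
    have e : u = v n * ((v n)⁻¹ * u) := by group
    rw [e]
    exact mul_mem (hv n) t

end Pool.Agent.P.MP_dba3d2_lc
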