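import Pool.Agent.P.MP_dba3d2_lc.C.DefsP

/-! Interface, chapter F: adjunctions, the limit stage and the key lemma. -/

namespace Pool.Agent.P.MP_dba3d2_lc

open Filter

-- deps:
-- imports: Pool.Agent.P.MP_dba3d2_lc.F.TbA
def S_WC0 : Prop := ∀ (Γ : HG) (a : Amb) (H H' : Subgroup (MM Γ a))
  (θ : H' →* MM Γ (a.pow U0)), H ≤ H' → GC H' → GC θ.range → Function.Injective θ →
  (∀ x : H', (x : MM Γ a) ∈ H → θ x = (a.dg U0).hom Γ x) →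
  (∀ x : H', ∃ f : ℕ → MM Γ a, (∀ n, f n ∈ H) ∧ θ x = a.mk' U0 f) → Wc H H'

-- deps: TORS ELEM MICL
-- imports: Pool.Agent.P.MP_dba3d2_lc.F.AdjB
def S_WCL : Prop := ∀ (Γ : HG) (a : Amb) (H : Subgroup (MM Γ a)) (u : MM Γ a), GC H → u ∉ H →
  GC (H ⊔ Subgroup.closure (Set.range fun _ : Fin 1 => u)) → ExtL H (fun _ : Fin 1 => u) →
  (∀ x ∈ H, u⁻¹ * x * u ∈ H → u⁻¹ * x * u ∈ std Γ a ∧ IsOfFinOrder x) →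
  Wc H (H ⊔ Subgroup.closure (Set.range fun _ : Fin 1 => u))

-- deps: MICE
-- imports: Pool.Agent.P.MP_dba3d2_lc.F.AdjA
def S_WCE : Prop := ∀ (Γ : HG) (a : Amb) (H : Subgroup (MM Γ a)) (c : MM Γ a) (k : ℚ →+ a.Z),
  GC H → c ∈ H → Prim c → GC (H ⊔ Subgroup.closure (Set.range fun q => ipow c (k q))) →
  ExtE H c k → Wc H (H ⊔ Subgroup.closure (Set.range fun q => ipow c (k q)))

-- deps: TORS FINM ELEM LINE ROOT TRUNC GRAFT PT EXP MICL MICE E_CHI E_SZ E_GE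
-- imports: Pool.Agent.P.MP_dba3d2_lc.F.AdjA Pool.Agent.P.MP_dba3d2_lc.F.AdjB
def S_ADJ : Prop := ∀ (Γ : HG) (a : Amb) (H : Subgroup (MM Γ a)) (μ : a.K) (p h : MM Γ a),
  GC H → Big μ → h ∈ H → Sim (ln h) μ → On μ p 1 h →
  ∃ H' : Subgroup (MM Γ a), GC H' ∧ Wc H H' ∧ Sc H' H ∧ ∃ p' ∈ H', Ll (ds p p') μ

-- deps: TORS FINM ELEM LINE ROOT NORM PA EADJ WCL WCE
def S_LIM : Prop := ∀ (Γ : HG) (a : Amb) (H : Subgroup (MM Γ a)) (l : ℕ → a.K) (u : MM Γ a),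
  GC H → (∀ n, Big (l n)) → (∀ n, Ll (l (n + 1)) (l n)) → (∀ n, ∃ v ∈ H, Ls (ds u v) (l n)) →
  ∃ H' : Subgroup (MM Γ a), GC H' ∧ Wc H H' ∧ Sc H' H ∧ ∃ u' ∈ H', ∀ n, Ls (ds u u') (l n)

-- deps: ELEM ROOT GRAFT
def S_GT : Prop := ∀ (Γ : HG) (a : Amb) (H W : Subgroup (MM Γ a))
  (l : List (MM Γ a × MM Γ a)), GC0 H → GC0 W → Sep H W → l ≠ [] →
  (∀ s ∈ l, s.1 ∈ hatH H W ∧ s.2 ∈ W ∧ s.2 ∉ hatM H W) → (∀ s ∈ l.tail, s.1 ∉ hatM H W) →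
  (l.map fun s => s.1 * s.2).prod ∉ hatH H W

-- deps: FC_CAP
def S_CAP : Prop := ∀ (Γ : HG) (a : Amb) (H : Subgroup (MM Γ a)) (l : ℕ → a.K)
  (Y : Set (MM Γ a)), GC H → (∀ n, Big (l n)) → (∀ n, Ll (l (n + 1)) (l n)) →
  (∀ n, Y ⊆ (H ⊔ ((H ⊔ Subgroup.closure Y) ⊓ ball Γ (l n)) : Subgroup (MM Γ a))) →
  ∃ X : Subgroup (MM Γ a), GC X ∧ H ≤ X ∧ Y ⊆ X ∧ ∀ n, X = H ⊔ (X ⊓ ball Γ (l n))

-- deps: FINM ELEM LINE PERC FRAME CVX MICL MICE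
def S_CUT : Prop := ∀ (Γ : HG) (a : Amb) (μ : a.K) (p q : MM Γ a), Big μ → Sim (ds p q) μ →
  let E := a.dg U0
  ∃ (T : Subgroup (MM Γ (a.pow U0))) (j : MM Γ a →* T) (ν : T) (ρ : T →* MM Γ a) (σ : T →* T),
    GC T ∧ (∀ g, (j g : MM Γ (a.pow U0)) = E.hom Γ g) ∧ (∀ g, ρ (j g) = g) ∧ ρ ν = 1 ∧
    (∀ n, Retr E T ρ n) ∧ Function.Bijective σ ∧ (∀ g, σ (j g) = j g) ∧
    (∀ g, Stab μ p q g → Commute (j g) ν) ∧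
    Ll (ds (E.hom Γ p) ((ν : MM Γ (a.pow U0)) * E.hom Γ p)) (E.mp μ) ∧
    Ll (ds (E.hom Γ p) ((σ ν : MM Γ (a.pow U0)) * E.hom Γ q)) (E.mp μ)

-- deps: S2_ENV S2_TR0 S2_TR1 S2_TR2 S2_TR3 S2_PART1 S2_PART2
-- imports: Pool.Agent.P.MP_dba3d2_lc.F.TbS
def S_S2 : Prop := ∀ (Γ : HG) (a : Amb) (H : Subgroup (MM Γ a)) (l : ℕ → a.K) (S : Shape Γ a)
  (ty : (n : ℕ) → Fin (S.k n) → Option (MM Γ a))
  (m : ℕ) (Q : (Fin m ⊕ Fin (S.k 0) → Γ.G) → Prop) (h : Fin m → MM Γ a)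
  (y : (n : ℕ) → Fin (S.k n) → MM Γ a),
  GC H → (∀ n, Big (l n)) → (∀ n, Ll (l (n + 1)) (l n)) → Tr Q → (∀ i, h i ∈ H) →
  (∀ i, ty 0 i = none) → (∀ n i, Ls (ln (y n i)) (l n)) →
  (∀ n i, TDec (l n) H (ty n i) (y n i) (S.r n i) (S.h n i) (fun j => y (n + 1) (S.e n ⟨i, j⟩))
    fun j => ty (n + 1) (S.e n ⟨i, j⟩)) →
  St Q (Sum.elim h (y 0)) →
  (∀ n z, (∀ i, HasT (ty n i) (z i)) → St Q (Sum.elim h (S.top n z)) →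
    Ll (tl (y n) - tl z) (l n)) →
  (∀ n z, (∀ i, HasT (ty n i) (z i)) → St Q (Sum.elim h (S.top n z)) →
    Ll (tl z - tl (y n)) (l n) →
    ∀ (r' : Fin (S.k n) → ℕ) (h' : (i : Fin (S.k n)) → Fin (r' i + 1) → MM Γ a)
      (z' : (i : Fin (S.k n)) → Fin (r' i) → MM Γ a)
      (ty' : (i : Fin (S.k n)) → Fin (r' i) → Option (MM Γ a)),
      (∀ i, TDec (l n) H (ty n i) (z i) (r' i) (h' i) (z' i) (ty' i)) →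
      nG (ty (n + 1)) < ∑ i, nG (ty' i) ∨
        (nG (ty (n + 1)) = ∑ i, nG (ty' i) ∧ S.k (n + 1) ≤ ∑ i, r' i)) →
  ∃ n0, ∀ n ≥ n0, ∀ i, S.r n i ≤ 1

-- deps: COUNT FK_MAX FK_CORE
-- imports: Pool.Agent.P.MP_dba3d2_lc.F.TbK
def S_KEY : Prop := ∀ (Γ : HG) (a : Amb) (H : Subgroup (MM Γ a)), GC H → Wc H ⊤

end Pool.Agent.P.MP_dba3d2_lc
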