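import Pool.Agent.P.MP_dba3d2_lc.F.DefsK
import Pool.Agent.P.MP_dba3d2_lc.G.Tb
import Pool.Agent.P.MP_dba3d2_lc.B.Sc

/-! Toolbox for the key lemma: total length, products of blocks and joints, definable sets. -/

namespace Pool.Agent.P.MP_dba3d2_lc

open Filter

namespace FK

variable {Γ : HG} {a : Amb} {H : Subgroup (MM Γ a)} {k : ℕ} {μ : a.K}

theorem tl_nonneg (x : Fin k → MM Γ a) : 0 ≤ tl x := Finset.sum_nonneg fun _ _ => ln_nonneg _

theorem ln_le_tl (x : Fin k → MM Γ a) (i : Fin k) : ln (x i) ≤ tl x :=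
  Finset.single_le_sum (f := fun i => ln (x i)) (fun _ _ => ln_nonneg _) (Finset.mem_univ i)

theorem ll_tl (h0 : 0 ≤ μ) {x : Fin k → MM Γ a} (h : ∀ i, Ll (ln (x i)) μ) : Ll (tl x) μ :=
  ll_sum _ _ h0 fun i _ => h i

theorem ls_tl (h0 : 0 ≤ μ) {x : Fin k → MM Γ a} (h : ∀ i, Ls (ln (x i)) μ) : Ls (tl x) μ :=
  ls_sum _ _ h0 fun i _ => h i

theorem tl_sigma (r : Fin k → ℕ) (z : Fin (∑ i, r i) → MM Γ a) :
    ∑ i, ∑ j, ln (z (finSigmaFinEquiv ⟨i, j⟩)) = tl z := by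
  rw [tl, ← Equiv.sum_comp finSigmaFinEquiv, Fintype.sum_sigma]

theorem map_weave {G G' : Type} [Group G] [Group G'] (φ : G →* G') (r : ℕ) :
    ∀ (h : Fin (r + 1) → G) (z : Fin r → G),
      φ (weave r h z) = weave r (fun i => φ (h i)) fun i => φ (z i) := by
  induction r with
  | zero => exact fun _ _ => rfl
  | succ r ih =>
    intro h z
    rw [weave, weave, map_mul, map_mul, ih]
    rfl

theorem weave_mem {G : Type} [Group G] (S : Subgroup G) (r : ℕ) :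
    ∀ (h : Fin (r + 1) → G) (z : Fin r → G), (∀ i, h i ∈ S) → (∀ i, z i ∈ S) → weave r h z ∈ S := by
  induction r with
  | zero => exact fun _ _ h _ => h 0
  | succ r ih =>
    exact fun h z h1 h2 => S.mul_mem (S.mul_mem (h1 0) (h2 0)) (ih _ _ (fun _ => h1 _) fun _ => h2 _)

theorem ln_weave_le (r : ℕ) : ∀ (h : Fin (r + 1) → MM Γ a) (z : Fin r → MM Γ a),
    ln (weave r h z) ≤ ∑ i, ln (h i) + ∑ i, ln (z i) := by
  induction r with
  | zero => exact fun h z => by simp [weave]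
  | succ r ih =>
    intro h z
    have h1 := ih (Fin.tail h) (Fin.tail z)
    have h2 := ln_mul_le (h 0 * z 0) (weave r (Fin.tail h) (Fin.tail z))
    have h3 := ln_mul_le (h 0) (z 0)
    rw [weave, Fin.sum_univ_succ, Fin.sum_univ_succ (f := fun i => ln (z i))]
    simp only [Fin.tail] at h1 h2 ⊢
    linarith

theorem tl_upW_le (r : Fin k → ℕ) (h : (i : Fin k) → Fin (r i + 1) → MM Γ a)
    (z : Fin (∑ i, r i) → MM Γ a) : tl (upW r h z) ≤ ∑ i, ∑ j, ln (h i j) + tl z := by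
  rw [← tl_sigma r z, ← Finset.sum_add_distrib]
  exact Finset.sum_le_sum fun i _ => ln_weave_le _ _ _

/-- small factors next to the joints can be merged into the blocks -/
theorem weave_merge (r : ℕ) : ∀ (h : Fin (r + 1) → MM Γ a) (g g' : Fin r → MM Γ a)
    (u : MM Γ a), (∀ i, h i ∈ H) → (∀ i, g i ∈ H ∧ g' i ∈ H) → u ∈ H →
    (∀ i, Ll (ln (g i)) μ ∧ Ll (ln (g' i)) μ) → Ll (ln u) μ →
    ∃ h' : Fin (r + 1) → MM Γ a, (∀ i, h' i ∈ H ∧ Ll (ln (h' i) - ln (h i)) μ) ∧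
      ∀ z, weave r h' z = u * weave r h fun i => g i * z i * g' i := by
  induction r with
  | zero =>
    intro h g g' u h1 _ h3 _ h5
    refine ⟨fun i => u * h i, fun i => ⟨H.mul_mem h3 (h1 i), h5.mono_left ?_⟩, fun _ => rfl⟩
    linarith [ln_mul_le u (h i)]
  | succ r ih =>
    intro h g g' u h1 h2 h3 h4 h5
    obtain ⟨h', k1, k2⟩ := ih (Fin.tail h) (Fin.tail g) (Fin.tail g') (g' 0) (fun _ => h1 _)
      (fun _ => h2 _) (h2 0).2 (fun _ => h4 _) (h4 0).2
    refine ⟨Fin.cons (u * h 0 * g 0) h', fun i => ?_, fun z => ?_⟩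
    · refine Fin.cases ?_ (fun i => k1 i) i
      refine ⟨H.mul_mem (H.mul_mem h3 (h1 0)) (h2 0).1, (h5.add (h4 0).1).mono_left ?_⟩
      rw [Fin.cons_zero]
      linarith [ln_mul_le u (h 0), ln_mul_le (u * h 0) (g 0)]
    · rw [weave, weave, Fin.cons_zero, Fin.tail_cons, k2]
      simp only [mul_assoc]
      rfl

/-- a decomposition with at most one joint -/
theorem dec_le_one (h0 : 0 ≤ μ) {y : MM Γ a} {r : ℕ} {h : Fin (r + 1) → MM Γ a}
    {z : Fin r → MM Γ a} (hd : Dec μ H y r h z) (hr : r ≤ 1) : ∃ g g' w : MM Γ a,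
    (g ∈ H ∧ g' ∈ H ∧ Ls (ln g) μ ∧ Ls (ln g') μ) ∧ Ll (ln w) μ ∧ g * w * g' = y := by
  obtain rfl | rfl : r = 0 ∨ r = 1 := by omega
  · exact ⟨h 0, 1, 1, ⟨hd.mem 0, H.one_mem, hd.bd 0, by rw [ln_one]; exact Ls.zero h0⟩,
      by rw [ln_one]; exact Ll.zero h0, by rw [mul_one, mul_one]; exact hd.eq.symm⟩
  · exact ⟨h 0, h 1, z 0, ⟨hd.mem 0, hd.mem 1, hd.bd 0, hd.bd 1⟩, hd.tin 0, hd.eq.symm⟩

theorem const_mem_WM {h : MM Γ a} (hh : h ∈ H) : (fun _ => h) ∈ WM H k :=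
  Subgroup.subset_closure (Or.inl ⟨h, hh, rfl⟩)

theorem var_mem_WM (i : Fin k) : (fun z : Fin k → MM Γ a => z i) ∈ WM H k :=
  Subgroup.subset_closure (Or.inr ⟨i, rfl⟩)

theorem side_mem_WM {g g' : MM Γ a} (h : g ∈ H) (h' : g' ∈ H) (i : Fin k) :
    (fun z : Fin k → MM Γ a => g * z i * g') ∈ WM H k :=
  (WM H k).mul_mem ((WM H k).mul_mem (const_mem_WM h) (var_mem_WM i)) (const_mem_WM h')

theorem upW_mem_WM (r : Fin k → ℕ) {h : (i : Fin k) → Fin (r i + 1) → MM Γ a}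
    (hh : ∀ i j, h i j ∈ H) (i : Fin k) : (fun z => upW r h z i) ∈ WM H (∑ i, r i) := by
  have := weave_mem (WM H (∑ i, r i)) (r i) (fun j _ => h i j)
    (fun j z => z (finSigmaFinEquiv ⟨i, j⟩)) (fun j => const_mem_WM (hh i j)) fun j => var_mem_WM _
  convert this using 1
  funext z
  exact (map_weave (Pi.evalMonoidHom (fun _ => MM Γ a) z) (r i) (fun j _ => h i j)
    fun j z => z (finSigmaFinEquiv ⟨i, j⟩)).symm

theorem td_mono {H' : Subgroup (MM Γ a)} {W : Set (Fin k → MM Γ a)} (h : TD H W) (l : H ≤ H') :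
    TD H' W := by
  obtain ⟨m, Q, h, h1, h2, e⟩ := h
  exact ⟨m, Q, h, h1, fun i => l (h2 i), e⟩

theorem minT_eq {W : Set (Fin k → MM Γ a)} {x y : Fin k → MM Γ a} (hx : MinT W x) (hy : MinT W y) :
    tl x = tl y := le_antisymm (hx.2 y hy.1) (hy.2 x hx.1)

theorem td_intl {W : Set (Fin k → MM Γ a)} (h : TD H W) : Intl W := by
  obtain ⟨m, Q, h, -, -, e⟩ := h
  have := (intl_st (a := a) Q).comap (ι := Fin k)
    (Sum.elim (fun i => FreeGroup.of (Sum.inl (h i))) fun i => FreeGroup.of (Sum.inr i))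
  convert this using 1
  ext z
  rw [e, Set.mem_ofPred_eq, Set.mem_ofPred_eq]
  refine iff_of_eq (congrArg (St Q) (funext fun s => ?_))
  cases s <;> simp [wev]

theorem exists_minT {W : Set (Fin k → MM Γ a)} (h : TD H W) (hne : W.Nonempty) : ∃ x, MinT W x :=
  exists_min (td_intl h) hne

theorem mem_of_not_big (hH : Clo H) {x : Fin k → MM Γ a} (h : ¬ Big (tl x)) (i : Fin k) : x i ∈ H :=
  hH.gc.base (mem_std_iff.2 (not_big_of_ls (Ls.of_le (ln_le_tl x i)) h))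

theorem hasT_iff {t : Option (MM Γ a)} {x : MM Γ a} : HasT t x ↔ x ∈ Ep (t.getD 1) := by
  cases t with
  | none => exact iff_of_true (fun _ e => nomatch e) (mem_Ep.2 (by simp))
  | some c => exact ⟨fun h => h c rfl, fun h _ e => Option.some.inj e ▸ h⟩

theorem mem_TG {t : Option (MM Γ a)} {x : MM Γ a} : x ∈ TG H t ↔ x ∈ H ∧ HasT t x :=
  and_congr_right' hasT_iff.symm

theorem hasT_side {t : Option (MM Γ a)} {g g' z : MM Γ a} (h : g ∈ TG H t) (h' : g' ∈ TG H t) :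
    HasT t (g * z * g') ↔ HasT t z := by
  rw [hasT_iff, hasT_iff, Subgroup.mul_mem_cancel_right _ h'.2, Subgroup.mul_mem_cancel_left _ h.2]

theorem st_comm {ι : Type} [Finite ι] (i j : ι) (v : ι → MM Γ a) :
    St (fun z : ι → Γ.G => Commute (z i) (z j ^ Γ.e)) v ↔ v i ∈ Ep (v j) := by
  obtain ⟨f, rfl⟩ := Bas2A.rep v
  rw [st_coe, mem_Ep, commute_iff_eq, ← Germ.coe_pow, ← Germ.coe_mul, ← Germ.coe_mul]
  exact (Germ.coe_eq (f := f i * f j ^ Γ.e) (g := f j ^ Γ.e * f i)).symm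

theorem tr_comm {ι : Type} [Finite ι] (i j : ι) :
    Tr fun z : ι → Γ.G => Commute (z i) (z j ^ Γ.e) := fun a b H θ _ _ h3 v => by
  rw [st_comm, st_comm, mem_Ep, mem_Ep, ← map_pow]
  exact ⟨fun h => (show Commute (v i) (v j ^ Γ.e) from Subtype.ext h).map θ,
    fun h => (Commute.of_map h3 h).map H.subtype⟩

/-- typing conditions are definable -/
theorem td_ty {W : Set (Fin k → MM Γ a)} (h : TD H W) {ty : Fin k → Option (MM Γ a)}
    (ht : ∀ i, TyOk H (ty i)) : TD H {z | (∀ i, HasT (ty i) (z i)) ∧ z ∈ W} := by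
  obtain ⟨m, Q, h, h1, h2, e⟩ := h
  have key : ∀ (b : Amb) (v : Fin (m + k) ⊕ Fin k → MM Γ b),
      St (fun z => (∀ i, Commute (z (.inr i)) (z (.inl (Fin.natAdd m i)) ^ Γ.e)) ∧
        Q fun s => z (s.map (Fin.castAdd k) id)) v ↔
      (∀ i, St (fun z => Commute (z (.inr i)) (z (.inl (Fin.natAdd m i)) ^ Γ.e)) v) ∧
        St Q fun s => v (s.map (Fin.castAdd k) id) := fun b v =>
    eventually_and.trans (and_congr_left' eventually_all)
  refine ⟨m + k, _, Fin.append h fun i => (ty i).getD 1, fun b b' G θ g1 g2 g3 v => ?_,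
    fun i => ?_, fun z => Iff.trans ?_ (key a _).symm⟩
  · rw [key, key]
    exact and_congr (forall_congr' fun i => tr_comm _ _ b b' G θ g1 g2 g3 v)
      (h1 b b' G θ g1 g2 g3 fun s => v (s.map (Fin.castAdd k) id))
  · refine Fin.addCases (fun i => ?_) (fun i => ?_) i
    · rw [Fin.append_left]
      exact h2 i
    · rw [Fin.append_right]
      cases e : ty i with
      | none => exact H.one_mem
      | some c => exact (ht i c e).1
  · refine and_congr (forall_congr' fun i => ?_) ((e z).trans (iff_of_eq (congrArg (St Q)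
      (funext fun s => ?_))))
    · rw [st_comm, Sum.elim_inr, Sum.elim_inl, Fin.append_right, hasT_iff]
    · cases s <;> simp

theorem nG_sigma {X : Type} {r : Fin k → ℕ} {n : ℕ} (e : ((i : Fin k) × Fin (r i)) ≃ Fin n)
    (ty : Fin n → Option X) : ∑ i, nG (fun j => ty (e ⟨i, j⟩)) = nG ty := by
  simp only [nG, Finset.card_filter]
  rw [← Equiv.sum_comp e, Fintype.sum_sigma]

end FK

end Pool.Agent.P.MP_dba3d2_lc
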