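import Pool.Agent.P.MP_dba3d2_lc.F.IfaceK
import Pool.Agent.P.MP_dba3d2_lc.F.Iface
import Pool.Agent.P.MP_dba3d2_lc.F.TbK

/-! Step FK_CORE of the stability project. -/

namespace Pool.Agent.P.MP_dba3d2_lc

open Filter

namespace Fk_core
open FK

variable {Γ : HG} {a : Amb} {H : Subgroup (MM Γ a)}

theorem sum_e (S : Shape Γ a) (n : ℕ) (z : Fin (S.k (n + 1)) → MM Γ a) :
    ∑ i, ∑ j, ln (z (S.e n ⟨i, j⟩)) = tl z := by
  rw [tl, ← Equiv.sum_comp (S.e n), Fintype.sum_sigma]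

theorem tl_up (S : Shape Γ a) (n : ℕ) (z : Fin (S.k (n + 1)) → MM Γ a) :
    tl (S.up n z) ≤ ∑ i, ∑ j, ln (S.h n i j) + tl z := by
  rw [← sum_e S n z, ← Finset.sum_add_distrib]
  exact Finset.sum_le_sum fun i _ => ln_weave_le _ _ _

/-- an infinite descent -/
structure Chain (H : Subgroup (MM Γ a)) (S : Shape Γ a)
    (ty : (n : ℕ) → Fin (S.k n) → Option (MM Γ a)) (W : (n : ℕ) → Set (Fin (S.k n) → MM Γ a))
    (x : (n : ℕ) → Fin (S.k n) → MM Γ a) : Prop where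
  td : ∀ n, TD H (W n)
  ty0 : ∀ i, ty 0 i = none
  up : ∀ n z, z ∈ W (n + 1) ↔ (∀ s, HasT (ty (n + 1) s) (z s)) ∧ S.up n z ∈ W n
  ok : ∀ n s, TyOk H (ty (n + 1) s)
  one : ∀ n i c, ty n i = some c → S.r n i ≤ 1 ∧ ∀ j, ty (n + 1) (S.e n ⟨i, j⟩) = some c
  min : ∀ n, MinT (W n) (x n)
  big : ∀ n, Big (tl (x n))
  mem : ∀ n i j, S.h n i j ∈ TG H (ty n i)
  bd : ∀ n i j, Ls (ln (S.h n i j)) (tl (x n))
  add : ∀ n, Ll (∑ i, ∑ j, ln (S.h n i j) - tl (x n)) (tl (x n))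
  low : ∀ n, Ll (tl (x (n + 1))) (tl (x n))
  irr : ∀ n, Irr H (ty (n + 1)) (W (n + 1))
  opt : ∀ n, ∀ y ∈ W n, Ll (tl y - tl (x n)) (tl (x n)) → ∀ (r' : Fin (S.k n) → ℕ)
    (h' : (i : Fin (S.k n)) → Fin (r' i + 1) → MM Γ a)
    (z' : (i : Fin (S.k n)) → Fin (r' i) → MM Γ a)
    (t' : (i : Fin (S.k n)) → Fin (r' i) → Option (MM Γ a)),
    (∀ i, TDec (tl (x n)) H (ty n i) (y i) (r' i) (h' i) (z' i) (t' i)) →
    nG (ty (n + 1)) < ∑ i, nG (t' i) ∨ (nG (ty (n + 1)) = ∑ i, nG (t' i) ∧ S.k (n + 1) ≤ ∑ i, r' i)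

variable {S : Shape Γ a} {ty : (n : ℕ) → Fin (S.k n) → Option (MM Γ a)}
  {W : (n : ℕ) → Set (Fin (S.k n) → MM Γ a)} {x : (n : ℕ) → Fin (S.k n) → MM Γ a}

theorem fin_sat (C : Chain H S ty W x) (d : ℕ) : ∀ n, ∃ y : (m : ℕ) → Fin (S.k m) → MM Γ a,
    y n ∈ W n ∧ tl (y n) ≤ 2 * tl (x n) ∧
      ∀ m, n ≤ m → m < n + d →
        y m = S.up m (y (m + 1)) ∧ y m ∈ W m ∧ tl (y m) ≤ 2 * tl (x m) := by
  induction d with
  | zero =>
    exact fun n => ⟨x, (C.min n).1, by linarith [tl_nonneg (x n)], fun m h1 h2 => by omega⟩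
  | succ d ih =>
    intro n
    obtain ⟨y, h1, h2, h3⟩ := ih (n + 1)
    have e : tl (S.up n (y (n + 1))) ≤ 2 * tl (x n) := by
      have k1 := tl_up S n (y (n + 1))
      have k2 := ((C.add n).add (C.low n).two) 1
      rw [Nat.cast_one, one_mul] at k2
      linarith
    refine ⟨Function.update y n (S.up n (y (n + 1))), ?_, ?_, fun m k1 k2 => ?_⟩
    · rw [Function.update_self]
      exact ((C.up n _).1 h1).2
    · rw [Function.update_self]
      exact e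
    · rw [Function.update_of_ne (show m + 1 ≠ n by omega)]
      obtain rfl | k3 := k1.eq_or_lt
      · rw [Function.update_self]
        exact ⟨rfl, ((C.up n _).1 h1).2, e⟩
      · rw [Function.update_of_ne k3.ne']
        exact h3 m k3 (by omega)

theorem exists_lim (C : Chain H S ty W x) : ∃ y : (m : ℕ) → Fin (S.k m) → MM Γ a,
    ∀ m, y m ∈ W m ∧ y m = S.up m (y (m + 1)) ∧ ∀ i, ln (y m i) ≤ 2 * tl (x m) := by
  let ι := (m : ℕ) × Fin (S.k m)
  let V : ι → FreeGroup (MM Γ a ⊕ ι) := fun s => FreeGroup.of (Sum.inr s)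
  have hV : ∀ (s : ι) (v : ι → MM Γ a), wev (V s) v = v s := fun s v => by simp [wev, V]
  let w : (m : ℕ) → Fin (S.k m) → FreeGroup (MM Γ a ⊕ ι) := fun m i => (V ⟨m, i⟩)⁻¹ *
    weave (S.r m i) (fun j => FreeGroup.of (Sum.inl (S.h m i j))) fun j => V ⟨m + 1, S.e m ⟨i, j⟩⟩
  have hw : ∀ m i (v : ι → MM Γ a), wev (w m i) v = 1 ↔
      v ⟨m, i⟩ = S.up m (fun j => v ⟨m + 1, j⟩) i := fun m i v => by
    rw [wev, map_mul, map_inv, map_weave, inv_mul_eq_one]
    simp [V, Shape.up]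
  obtain ⟨v, hv⟩ := sat (fun m => {v : ι → MM Γ a | (fun i => wev (V ⟨m, i⟩) v) ∈ W m} ∩
      ⋂ i ∈ (Finset.univ : Finset (Fin (S.k m))),
        {v | wev (w m i) v = 1} ∩ {v | ln (wev (V ⟨m, i⟩) v) ≤ 2 * tl (x m)})
    (fun m => ((td_intl (C.td m)).comap _).inter
      (Intl.biInter _ _ fun i _ => (intl_eq_one _).inter (intl_ln_le _ _)))
    fun n => by
      obtain ⟨y, -, -, h3⟩ := fin_sat C (n + 1) 0
      refine ⟨fun s => y s.1 s.2, fun m hm => ⟨?_, Set.mem_iInter₂.2 fun i _ => ⟨?_, ?_⟩⟩⟩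
      · simpa only [Set.mem_ofPred_eq, hV] using (h3 m m.zero_le (by omega)).2.1
      · rw [Set.mem_ofPred_eq, hw]
        exact congrFun (h3 m m.zero_le (by omega)).1 i
      · rw [Set.mem_ofPred_eq, hV]
        exact (ln_le_tl _ i).trans (h3 m m.zero_le (by omega)).2.2
  refine ⟨fun m i => v ⟨m, i⟩, fun m => ⟨?_, funext fun i => ?_, fun i => ?_⟩⟩
  · simpa only [Set.mem_ofPred_eq, hV] using (hv m).1
  · exact (hw m i v).1 (Set.mem_iInter₂.1 (hv m).2 i (Finset.mem_univ i)).1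
  · have := (Set.mem_iInter₂.1 (hv m).2 i (Finset.mem_univ i)).2
    rwa [Set.mem_ofPred_eq, hV] at this

theorem typed (C : Chain H S ty W x) (n : ℕ) : ∀ z ∈ W n, ∀ i, HasT (ty n i) (z i) := by
  cases n with
  | zero => exact fun z _ i c e => nomatch (C.ty0 i).symm.trans e
  | succ n => exact fun z h => ((C.up n z).1 h).1

theorem of_top (C : Chain H S ty W x) (n : ℕ) :
    ∀ z, (∀ i, HasT (ty n i) (z i)) → S.top n z ∈ W 0 → z ∈ W n := by
  induction n with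
  | zero => exact fun _ _ h => h
  | succ n ih =>
    exact fun z h1 h2 => (C.up n z).2 ⟨h1, ih _ (fun i c e => weave_mem (Ep c) _ _ _
      (fun j => (mem_TG.1 (C.mem n i j)).2 c e) fun j => h1 _ c ((C.one n i c e).2 j)) h2⟩

theorem no_chain (hS2 : S_S2) (hH : GC H) (C : Chain H S ty W x) : False := by
  obtain ⟨y, hy⟩ := exists_lim C
  have p : ∀ n, 0 ≤ tl (x n) := fun n => tl_nonneg _
  have mem : ∀ n, y n ∈ W n := fun n => (hy n).1
  have tin : ∀ n i, Ll (ln (y (n + 1) i)) (tl (x n)) := fun n i =>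
    (C.low n).two.mono_left ((hy (n + 1)).2.2 i)
  have near : ∀ n, Ll (tl (y n) - tl (x n)) (tl (x n)) := fun n => by
    refine ((C.add n).add (ll_tl (p n) (tin n))).mono_left ?_
    have := tl_up S n (y (n + 1))
    rw [← (hy n).2.1] at this
    linarith
  have dec : ∀ n i, Dec (tl (x n)) (TG H (ty n i)) (y n i) (S.r n i) (S.h n i)
      fun j => y (n + 1) (S.e n ⟨i, j⟩) := fun n i => by
    refine ⟨C.mem n i, C.bd n i, fun j => tin n _, congrFun (hy n).2.1 i, ?_⟩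
    refine ((C.add n).add (ll_tl (p n) (tin n))).mono_left ?_
    have k1 : ∀ i', 0 ≤ ∑ j, ln (S.h n i' j) + ∑ j, ln (y (n + 1) (S.e n ⟨i', j⟩)) - ln (y n i') :=
      fun i' => sub_nonneg.2 ((congrArg ln (congrFun (hy n).2.1 i')).trans_le (ln_weave_le _ _ _))
    have k2 := Finset.single_le_sum (fun i' _ => k1 i') (Finset.mem_univ i)
    rw [Finset.sum_sub_distrib, Finset.sum_add_distrib, sum_e] at k2
    have k3 : tl (x n) ≤ ∑ i', ln (y n i') := (C.min n).2 _ (mem n)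
    have k4 : 0 ≤ ∑ j, ln (y (n + 1) (S.e n ⟨i, j⟩)) := Finset.sum_nonneg fun _ _ => ln_nonneg _
    linarith
  obtain ⟨m, Q, h, q1, q2, q3⟩ := C.td 0
  obtain ⟨n, hn⟩ := hS2 Γ a H (fun n => tl (x n)) S ty m Q h y hH C.big C.low q1 q2 C.ty0
    (fun n i => ⟨2, by exact_mod_cast (hy n).2.2 i⟩)
    (fun n i => ⟨⟨fun j => ((dec n i).mem j).1, (dec n i).bd, (dec n i).tin, (dec n i).eq,
      (dec n i).add⟩, fun j => C.ok n _, fun j => typed C _ _ (mem _) _, fun c e =>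
      ⟨(C.one n i c e).1, (C.one n i c e).2, fun j => (mem_TG.1 (C.mem n i j)).2 c e⟩⟩)
    ((q3 _).1 (mem 0)) (fun n z ht hz => by
      refine (near n).mono_left ?_
      have := (C.min n).2 z (of_top C n z ht ((q3 _).2 hz))
      linarith)
    fun n z ht hz hl => C.opt n z (of_top C n z ht ((q3 _).2 hz))
      ((hl.add (near n)).mono_left (by linarith))
  choose g g' w k1 k2 k3 using fun i => dec_le_one (p _) (dec (n + 1) i) (hn (n + 1) n.le_succ i)
  refine C.irr n _ (C.min _) (C.big _) g g' w k1 ?_ (ll_tl (p _) k2)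
  rw [funext k3]
  exact mem _

/-- a state of the descent -/
structure Sta (H : Subgroup (MM Γ a)) where
  k : ℕ
  ty : Fin k → Option (MM Γ a)
  W : Set (Fin k → MM Γ a)
  ok : ∀ i, TyOk H (ty i)
  has : ∀ y ∈ W, ∀ i, HasT (ty i) (y i)
  td : TD H W
  ne : W.Nonempty
  no : ∀ y ∈ W, ¬ ∀ i, y i ∈ H

end Fk_core

open FK Fk_core in
theorem p_FK_CORE (hS2 : S_S2) (hFK_SUB : S_FK_SUB) (hFK_STEP : S_FK_STEP) :
    S_FK_CORE := by
  intro Γ a H k W hH h1 h2
  by_contra h3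
  have hx : ∀ s : Sta H, ∃ x, MinT s.W x ∧ Big (tl x) := fun s => by
    obtain ⟨x, hx⟩ := exists_minT s.td s.ne
    exact ⟨x, hx, by_contra fun e => s.no x hx.1 (mem_of_not_big hH e)⟩
  choose X hX hB using hx
  choose R B T hS using fun s : Sta H => hFK_STEP Γ a H s.k s.ty s.W (X s) hH s.ok
    (s.has _ (hX s).1) s.td (hX s) (hB s)
  let next : Sta H → Sta H := fun s =>
    { k := ∑ i, R s i
      ty := T s
      W := {z | (∀ i, HasT (T s i) (z i)) ∧ upW (R s) (B s) z ∈ s.W}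
      ok := (hS s).ok
      has := fun _ h => h.1
      td := td_ty (hFK_SUB Γ a H _ _ s.W (fun i z => upW (R s) (B s) z i) s.td
        (upW_mem_WM _ fun i j => ((hS s).mem i j).1)) (hS s).ok
      ne := (hS s).low.imp fun _ h => h.1
      no := fun y hy e => s.no _ hy.2 fun i =>
        weave_mem H _ _ _ (fun j => ((hS s).mem i j).1) fun _ => e _ }
  let q : ℕ → Sta H := Nat.rec ⟨k, fun _ => none, W, fun _ _ e => (nomatch e),
    fun _ _ _ _ e => (nomatch e), h1, h2, fun y hy e => h3 ⟨y, hy, e⟩⟩ fun _ s => next s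
  let S : Shape Γ a := ⟨fun n => (q n).k, fun n => R (q n), fun n => B (q n),
    fun _ => finSigmaFinEquiv⟩
  refine no_chain (S := S) (ty := fun n => (q n).ty) (W := fun n => (q n).W)
    (x := fun n => X (q n)) hS2 hH.gc
    ⟨fun n => (q n).td, fun _ => rfl, fun _ _ => Iff.rfl, fun n => (hS (q n)).ok,
      fun n => (hS (q n)).one, fun n => hX _, fun n => hB _, fun n => (hS _).mem,
      fun n => (hS _).bd, fun n => (hS _).add, fun n => ?_, fun n => (hS (q n)).irr,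
      fun n => (hS (q n)).opt⟩
  obtain ⟨z, k1, k2⟩ := (hS (q n)).low
  exact k2.mono_left ((hX (q (n + 1))).2 z k1)

end Pool.Agent.P.MP_dba3d2_lc
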