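import Pool.Agent.P.MP_dba3d2_lc.F.IfaceK
import Pool.Agent.P.MP_dba3d2_lc.E.Iface
import Pool.Agent.P.MP_dba3d2_lc.F.TbK
import Pool.Agent.P.MP_dba3d2_lc.B.Tre

/-! Step FK_DEC of the stability project. -/

namespace Pool.Agent.P.MP_dba3d2_lc

open Filter

namespace Fk_dec

variable {Γ : HG} {a : Amb} {H : Subgroup (MM Γ a)} {μ s s' : a.K} {y p q : MM Γ a}

/-- products of blocks and joints whose blocks have total length at most about `s` -/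
def Dw (μ : a.K) (H : Subgroup (MM Γ a)) (y : MM Γ a) (s : a.K) : Prop :=
  ∃ (r : ℕ) (h : Fin (r + 1) → MM Γ a) (z : Fin r → MM Γ a), (∀ i, h i ∈ H) ∧
    (∀ i, Ls (ln (h i)) μ) ∧ (∀ i, Ll (ln (z i)) μ) ∧ y = weave r h z ∧ Ll (∑ i, ln (h i) - s) μ

theorem Dw.cons (d : Dw μ H y s) {h0 t : MM Γ a} (m : h0 ∈ H) (b : Ls (ln h0) μ)
    (c : Ll (ln t) μ) : Dw μ H (h0 * t * y) (ln h0 + s) := by
  obtain ⟨r, h, z, a1, a2, a3, a4, a5⟩ := d
  refine ⟨r + 1, Fin.cons h0 h, Fin.cons t z, fun i => Fin.cases m a1 i, fun i => Fin.cases b a2 i,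
    fun i => Fin.cases c a3 i, ?_, a5.mono_left ?_⟩
  · rw [weave, Fin.tail_cons, Fin.tail_cons, Fin.cons_zero, Fin.cons_zero, a4]
  · rw [Fin.sum_univ_succ]
    simp

theorem Dw.mono (d : Dw μ H y s) (e : Ll (s - s') μ) : Dw μ H y s' := by
  obtain ⟨r, h, z, a1, a2, a3, a4, a5⟩ := d
  exact ⟨r, h, z, a1, a2, a3, a4, (a5.add e).mono_left (by linarith)⟩

theorem piece (hH : Clo H) (hμ : Big μ) (d : HArc μ H p q) : ∃ t t' h : MM Γ a, h ∈ H ∧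
    Ls (ln h) μ ∧ Ll (ln t) μ ∧ Ll (ln t') μ ∧ p⁻¹ * q = t * h * t' ∧ Ll (ln h - ds p q) μ := by
  obtain ⟨g, h0, m, b, hp, hq⟩ := d
  have h1 := hμ.pos
  have e := ds_mul_right g h0
  have tr : ds p q ≤ ds g p + ds g q := by linarith [ds_tri p g q, ds_comm p g]
  rcases ll_or_ls h1 (ln h0) with c | c
  · refine ⟨p⁻¹ * q, 1, 1, H.one_mem, ?_, ?_, ?_, by simp, ?_⟩
    · rw [ln_one]
      exact Ls.zero h1.le
    · refine ((hp.le_left.add hq.le_left).add c.two).mono_left ?_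
      change ds p q ≤ _
      linarith
    · rw [ln_one]
      exact Ll.zero h1.le
    · exact Ll.of_nonpos (by linarith [ln_one (Γ := Γ) (a := a), ds_nonneg p q]) h1.le
  · obtain ⟨u, hu, cu⟩ := hH.adj μ (g⁻¹ * p) h0 hμ m ⟨b, c⟩ (by simpa using hp.mul g⁻¹)
    obtain ⟨v, hv, cv⟩ := hH.adj μ (g⁻¹ * q) h0 hμ m ⟨b, c⟩ (by simpa using hq.mul g⁻¹)
    have k : Ll (ln (u⁻¹ * v) - ds p q) μ := by
      refine (cu.add cv).mono_left ?_
      change ds u v - _ ≤ _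
      linarith [ds_tri u (g⁻¹ * p) v, ds_tri (g⁻¹ * p) (g⁻¹ * q) v, ds_comm u (g⁻¹ * p),
        ds_mul_left g⁻¹ p q]
    refine ⟨(g⁻¹ * p)⁻¹ * u, v⁻¹ * (g⁻¹ * q), u⁻¹ * v, H.mul_mem (H.inv_mem hu) hv, ?_, cu, ?_,
      by group, k⟩
    · exact (k.ls.add ((hp.ls_left (e ▸ b)).add (hq.ls_left (e ▸ b)))).mono_left (by linarith)
    · rw [ds_comm] at cv
      exact cv

theorem chain (hH : Clo H) (hμ : Big μ) (n : ℕ) : ∀ p : ℕ → MM Γ a,
    (∀ i < n, HArc μ H (p i) (p (i + 1))) →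
    Dw μ H ((p 0)⁻¹ * p n) (∑ i ∈ Finset.range n, ds (p i) (p (i + 1))) := by
  have h1 := hμ.pos.le
  have o : Ls (ln (1 : MM Γ a)) μ := by
    rw [ln_one]
    exact Ls.zero h1
  induction n with
  | zero =>
    intro p _
    refine ⟨0, fun _ => 1, Fin.elim0, fun _ => H.one_mem, fun _ => o, fun i => i.elim0,
      inv_mul_cancel _, Ll.of_nonpos ?_ h1⟩
    simp [ln_one]
  | succ n ih =>
    intro p hp
    obtain ⟨t, t', h, a1, a2, a3, a4, a5, a6⟩ := piece hH hμ (hp 0 n.succ_pos)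
    have d := ((ih (fun i => p (i + 1)) fun i hi => hp (i + 1) (by omega)).cons a1 a2 a4).cons
      H.one_mem o a3
    have e : (p 0)⁻¹ * p (n + 1) = 1 * t * (h * t' * ((p (0 + 1))⁻¹ * p (n + 1))) := by
      rw [one_mul, ← mul_assoc, ← mul_assoc t, ← a5]
      group
    rw [e]
    refine d.mono (a6.mono_left ?_)
    rw [Finset.sum_range_succ', ln_one]
    linarith

end Fk_dec

open Fk_dec in
theorem p_FK_DEC (hS1 : S_S1) :
    S_FK_DEC := by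
  intro Γ a H k W x hH hT hx hμ
  obtain ⟨m, Q, h, t1, t2, t3⟩ := hT
  have h1 := hμ.pos
  have cov := hS1 Γ a H (tl x) m k Q h x hH.gc hμ t1 t2
    (fun i => (mem_ball h1.le).2 (Ls.of_le (FK.ln_le_tl x i)))
    ⟨(t3 x).1 hx.1, fun y hy => Ll.of_nonpos (sub_nonpos.2 (hx.2 y ((t3 y).2 hy))) h1.le⟩
  have dec : ∀ i, ∃ r h z, Dec (tl x) H (x i) r h z := fun i => by
    obtain ⟨n, p, p0, pn, c, d⟩ := cov i
    obtain ⟨r, h, z, a1, a2, a3, a4, a5⟩ := (chain hH hμ n p d).mono c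
    rw [p0, pn, inv_one, one_mul] at a4
    exact ⟨r, h, z, a1, a2, a3, a4, a5⟩
  refine ⟨dec, ?_⟩
  by_contra hn
  refine ll_irrefl h1 (FK.ll_tl h1.le fun i => ?_)
  obtain ⟨r, g, z, d⟩ := dec i
  have s : ∀ j, Ll (ln (g j)) (tl x) := fun j =>
    (ll_or_ls h1 _).resolve_right fun c => hn ⟨g j, d.mem j, d.bd j, c⟩
  rw [d.eq]
  exact ((ll_sum _ _ h1.le fun j _ => s j).add (ll_sum _ _ h1.le fun j _ => d.tin j)).mono_left
    (FK.ln_weave_le r g z)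

end Pool.Agent.P.MP_dba3d2_lc
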