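import Pool.Agent.P.MP_dba3d2_lc.F.IfaceK
import Pool.Agent.P.MP_dba3d2_lc.A.Iface
import Pool.Agent.P.MP_dba3d2_lc.B.Iface
import Pool.Agent.P.MP_dba3d2_lc.F.TbK
import Pool.Agent.P.MP_dba3d2_lc.B.Axis2

/-! Step FK_ELIM of the stability project. -/

namespace Pool.Agent.P.MP_dba3d2_lc

open Filter

theorem p_FK_ELIM (hTORS : S_TORS) (hELEM : S_ELEM) (hLINE : S_LINE) (hNORM : S_NORM) :
    S_FK_ELIM := by
  intro Γ a H t hH ht l u h1 h2 h3
  obtain ⟨w, w1, w2⟩ := hH.lim l u h1 h2 fun n => (h3 n).imp fun _ e => ⟨e.1.1, e.2⟩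
  cases t with
  | none => exact ⟨w, FK.mem_TG.2 ⟨w1, fun _ e => nomatch e⟩, w2⟩
  | some c =>
    obtain ⟨c1, c2, c3⟩ := ht c rfl
    choose v v1 v2 using h3
    have mono : ∀ {m n}, m ≤ n → Ls (l n) (l m) := fun {m n} k => by
      induction k with
      | refl => exact Ls.refl' _
      | step _ ih => exact (h2 _).ls.trans' ih
    by_cases e : ∀ n, Ls (md c) (l n)
    · obtain ⟨f, f1, f2, f3, -⟩ := (hNORM Γ a H hH.gc.toGC0).1 c c1 c2 c3 w⁻¹ (H.inv_mem w1)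
      refine ⟨f, ⟨f1, f2⟩, fun n => Ls.mono_left (ds_tri u w f) ((w2 n).add (f3.trans' ?_))⟩
      rw [inv_inv, ← ds_conj]
      refine Ls.mono_left (disp_le c w (v n)) (Ls.add (Ls.two ?_) ?_)
      · exact Ls.mono_left (ds_tri w u (v n)) (Ls.add (ds_comm u w ▸ w2 n) (v2 n))
      · refine (pow_disp hELEM hLINE c2.1 Γ.good.pos.ne' (v n)).trans' ?_
        have k := disp_comm (mem_Ep.1 (v1 n).2) 1
        rw [mul_one, ds_one_mul] at k
        exact Ls.mono_left (k.trans_le (ln_pow_le c _)) ((c3.trans' (e n)).nat_mul _)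
    obtain ⟨N, hN⟩ := not_forall.1 e
    let K : Subgroup (MM Γ a) :=
      { carrier := {t | t ∈ Ep c ∧ IsOfFinOrder t}
        mul_mem' := fun x y => ⟨mul_mem x.1 y.1, tors_mul hELEM c2.1 x.1 y.1 x.2 y.2⟩
        one_mem' := ⟨one_mem _, IsOfFinOrder.one⟩
        inv_mem' := fun x => ⟨inv_mem x.1, x.2.inv⟩ }
    haveI := (hTORS Γ a K fun _ x => x.2).1
    have mem : ∀ m, (v N)⁻¹ * v (N + m) ∈ K := fun m => by
      have k : (v N)⁻¹ * v (N + m) ∈ Ep c := mul_mem (inv_mem (v1 N).2) (v1 _).2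
      refine ⟨k, by_contra fun b => hN ((c2.md_ls hELEM hLINE b
        (Ep_eq hELEM c2.1 k b).symm).trans' (Ls.mono_left (md_le_ln _) ?_))⟩
      exact Ls.mono_left (ds_tri (v N) u _)
        (Ls.add (ds_comm u (v N) ▸ v2 N) ((v2 _).trans' (mono (Nat.le_add_right N m))))
    obtain ⟨y, hy⟩ := Finite.exists_infinite_fiber fun m => (⟨_, mem m⟩ : K)
    have hy' := Set.infinite_coe_iff.1 hy
    obtain ⟨m, hm⟩ := hy'.nonempty
    refine ⟨v (N + m), v1 _, fun n => ?_⟩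
    obtain ⟨m', k1, k2⟩ := hy'.exists_gt n
    rw [mul_left_cancel (congrArg Subtype.val (Eq.trans hm (Eq.symm k1)))]
    exact (v2 _).trans' (mono (by omega))

end Pool.Agent.P.MP_dba3d2_lc
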