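import Pool.Agent.P.MP_dba3d2_lc.F.IfaceK
import Pool.Agent.P.MP_dba3d2_lc.B.Iface
import Pool.Agent.P.MP_dba3d2_lc.C.Iface
import Pool.Agent.P.MP_dba3d2_lc.F.TbK
import Pool.Agent.P.MP_dba3d2_lc.F.TbC

/-! Step FK_EXP of the stability project. -/

namespace Pool.Agent.P.MP_dba3d2_lc

open Filter

theorem p_FK_EXP (hCVX : S_CVX) (hROOT : S_ROOT) (hGRAFT : S_GRAFT) :
    S_FK_EXP := by
  rintro Γ a H μ t y hH hμ ht hy hl ⟨r, h, z, d⟩
  cases t with
  | none => exact ⟨r, h, z, fun _ => none, d, fun _ _ e => (nomatch e), fun _ _ e => (nomatch e),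
      fun _ e => nomatch e⟩
  | some c =>
    obtain ⟨c1, c2, c3⟩ := ht c rfl
    have y1 := hy c rfl
    have h0 := hμ.pos
    have key : ∃ f ∈ H, f ∈ Ep c ∧ Ll (ds f y) μ := by
      have self : y ∈ H → ∃ f ∈ H, f ∈ Ep c ∧ Ll (ds f y) μ := fun e =>
        ⟨y, e, y1, by rw [ds_self]; exact Ll.zero h0.le⟩
      rcases ll_or_ls h0 (md c) with e | e
      swap
      · exact self (((hROOT Γ a H hH.toGC0).2.1 c c1 c c1 c2 c2 y (Cj.of_mem y1)).2 c3 c3
          (hl.trans' e))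
      have k1 : ∀ j, ln (z j) ≤ tl z + ln c := fun j => by
        linarith [FK.ln_le_tl z j, ln_nonneg c]
      by_cases b : Big (tl z + ln c)
      swap
      · exact self (d.eq ▸ FK.weave_mem H r h z d.mem fun j =>
          hH.toGC0.of_not_big (not_big_of_ls (Ls.of_le (k1 j)) b))
      obtain ⟨f, f1, w, w1, f2, -, rfl⟩ := (graft_ball hCVX hGRAFT hH.toGC0 b).1.e1 c
        ⟨c1, (mem_ball b.pos.le).2 (Ls.of_le (by linarith [FK.tl_nonneg z]))⟩ c2 y
        (d.eq ▸ FK.weave_mem _ r h z (fun j => Subgroup.mem_sup_left (d.mem j)) fun j =>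
          Subgroup.mem_sup_right ((mem_ball b.pos.le).2 (Ls.of_le (k1 j)))) y1
      refine ⟨f, f1, f2, ?_⟩
      rw [ds_mul_right]
      exact Ll.ls_left ((mem_ball b.pos.le).1 w1) ((FK.ll_tl h0.le d.tin).add (Ll.ls_left c3 e))
    obtain ⟨f, f1, f2, f3⟩ := key
    have k : ln f ≤ ln y + ds f y := by
      have := ds_tri 1 y f
      rwa [ds_one_left, ds_one_left, ds_comm] at this
    refine ⟨1, ![f, 1], fun _ => f⁻¹ * y, fun _ => some c, ⟨?_, ?_, fun _ => f3, ?_, ?_⟩,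
      fun _ => ht, fun _ _ e => Option.some.inj e ▸ mul_mem (inv_mem f2) y1,
      fun _ e => Option.some.inj e ▸ ⟨le_rfl, fun _ => rfl, ?_⟩⟩
    · exact Fin.forall_fin_two.2 ⟨f1, H.one_mem⟩
    · exact Fin.forall_fin_two.2 ⟨Ls.mono_left k (hl.add f3.ls), Ls.of_le (ln_one.trans_le h0.le)⟩
    · simp [weave, Fin.tail]
    · refine f3.mono_left ?_
      rw [Fin.sum_univ_two]
      change ln f + ln 1 - ln y ≤ _
      rw [ln_one]
      linarith
    · exact Fin.forall_fin_two.2 ⟨f2, one_mem _⟩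

end Pool.Agent.P.MP_dba3d2_lc
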