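import Pool.Agent.P.MP_dba3d2_lc.F.IfaceK
import Pool.Agent.P.MP_dba3d2_lc.B.Iface
import Pool.Agent.P.MP_dba3d2_lc.F.Iface
import Pool.Agent.P.MP_dba3d2_lc.F.TbK
import Pool.Agent.P.MP_dba3d2_lc.B.Sc

/-! Step FK_MAX of the stability project. -/

namespace Pool.Agent.P.MP_dba3d2_lc

open Filter

namespace Fk_max

variable {Γ : HG} {a : Amb} {H H' H'' : Subgroup (MM Γ a)}

theorem wc_trans (h : Wc H H') (h' : Wc H' H'') : Wc H H'' := by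
  refine ⟨h.1.trans h'.1, fun m k Q hQ p hp x hx s => ?_⟩
  obtain ⟨y, hy, s'⟩ := h'.2 m k Q hQ p (fun i => h.1 (hp i)) x hx s
  exact h.2 m k Q hQ p hp y hy s'

theorem sc_trans (h : Sc H'' H') (h' : Sc H' H) : Sc H'' H := by
  intro x hx hb
  obtain ⟨y, hy, s⟩ := h x hx hb
  obtain ⟨z, hz, s'⟩ := h' y hy (s.big_iff.1 hb)
  exact ⟨z, hz, s.trans' s'⟩

end Fk_max

open Fk_max in
theorem p_FK_MAX (hUNION : S_UNION) (hADJ : S_ADJ) (hLIM : S_LIM) :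
    S_FK_MAX := by
  intro Γ a H hH hc
  have h0 : H ∈ {H' : Subgroup (MM Γ a) | GC H' ∧ Wc H H' ∧ Sc H' H} :=
    ⟨hH, ⟨le_rfl, fun _ _ _ _ _ _ x hx s => ⟨x, hx, s⟩⟩, fun x hx _ => ⟨x, hx, Sim.refl' _⟩⟩
  obtain ⟨H', -, ⟨g, w, s⟩, hmax⟩ := zorn_le_nonempty₀
    {H' : Subgroup (MM Γ a) | GC H' ∧ Wc H H' ∧ Sc H' H} (fun c hcS hch y hy => by
      haveI : Nonempty c := ⟨⟨y, hy⟩⟩
      have hd : Directed (· ≤ ·) fun i : c => (i : Subgroup (MM Γ a)) := hch.directed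
      refine ⟨⨆ i : c, (i : Subgroup (MM Γ a)), ⟨(hUNION Γ a c _ hd).2 fun i => (hcS i.2).1,
        ⟨(hcS hy).2.1.1.trans (le_iSup (fun i : c => (i : Subgroup (MM Γ a))) ⟨y, hy⟩),
          fun m k Q hQ p hp x hx s => ?_⟩, fun x hx hb => ?_⟩,
        fun z hz => le_iSup (fun i : c => (i : Subgroup (MM Γ a))) ⟨z, hz⟩⟩
      · choose f hf using fun i => (Subgroup.mem_iSup_of_directed hd).1 (hx i)
        obtain ⟨j, hj⟩ := hd.finite_le f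
        exact (hcS j.2).2.1.2 m k Q hQ p hp x (fun i => hj i (hf i)) s
      · obtain ⟨j, hj⟩ := (Subgroup.mem_iSup_of_directed hd).1 hx
        exact (hcS j.2).2.2 x hj hb) H h0
  refine ⟨H', ⟨g, fun μ p h h1 h2 h3 h4 => ?_, fun l u h1 h2 h3 => ?_,
    ln '' (H : Set (MM Γ a)), hc.image _, fun h h1 h2 => ?_⟩, w⟩
  · obtain ⟨H'', g', w', s', p', hp', e⟩ := hADJ Γ a H' μ p h g h1 h2 h3 h4
    exact ⟨p', hmax ⟨g', wc_trans w w', sc_trans s' s⟩ w'.1 hp', e⟩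
  · obtain ⟨H'', g', w', s', p', hp', e⟩ := hLIM Γ a H' l u g h1 h2 h3
    exact ⟨p', hmax ⟨g', wc_trans w w', sc_trans s' s⟩ w'.1 hp', e⟩
  · obtain ⟨y, hy, e⟩ := s h h1 h2
    exact ⟨_, ⟨y, hy, rfl⟩, e⟩

end Pool.Agent.P.MP_dba3d2_lc
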