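import Pool.Agent.P.MP_dba3d2_lc.F.IfaceK
import Pool.Agent.P.MP_dba3d2_lc.F.TbK

/-! Step FK_NB of the stability project. -/

namespace Pool.Agent.P.MP_dba3d2_lc

open Filter

theorem p_FK_NB (hFK_SUB : S_FK_SUB) (hFK_DEC : S_FK_DEC) (hFK_ELIM : S_FK_ELIM)
    (hFK_ZORN : S_FK_ZORN) :
    S_FK_NB := by
  intro Γ a H k ty W x hH ht hW hx
  let V : (Fin k ⊕ Fin k → MM Γ a) → Set (Fin k → MM Γ a) := fun v =>
    {z | (fun i => v (.inl i) * z i * (v (.inr i))⁻¹) ∈ W}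
  have td : ∀ (K : Subgroup (MM Γ a)) v, TD K W → (∀ i, v i ∈ K) → TD K (V v) := fun K v h hv =>
    hFK_SUB Γ a K k k W _ h fun i => FK.side_mem_WM (hv _) (K.inv_mem (hv _)) i
  have ex : ∀ v, ∃ m, MinT (V v) m := fun v =>
    FK.exists_minT (td ⊤ v (FK.td_mono hW le_top) fun _ => trivial)
      ⟨fun i => (v (.inl i))⁻¹ * x i * v (.inr i), by simpa [V, mul_assoc] using hx.1⟩
  choose m hm using ex
  obtain ⟨v, h1, h2, h3⟩ := hFK_ZORN Γ a H _ (fun s => TG H (ty (s.elim id id)))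
    (fun v => tl (m v)) 1 hH (fun _ => hFK_ELIM Γ a H _ hH (ht _)) (fun _ => one_mem _)
    (fun _ => FK.tl_nonneg _)
    (fun v hv hb => (hFK_DEC Γ a H k _ _ hH (td H v hW fun i => (hv i).1) (hm v) hb).2)
    fun v w h => by
      refine Ls.mono_left ((hm v).2 (fun i => (v (.inl i))⁻¹ * w (.inl i) * m w i *
        ((w (.inr i))⁻¹ * v (.inr i))) (by simpa [V, mul_assoc] using (hm w).1))
        (FK.ls_tl (FK.tl_nonneg _) fun i => ?_)
      exact Ls.mono_left ((ln_mul_le _ _).trans (add_le_add (ln_mul_le _ _) le_rfl))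
        (((h (.inl i)).add (Ls.of_le (FK.ln_le_tl _ i))).add (ds_comm (w _) _ ▸ h (.inr i) :
          Ls (ds (w (.inr i)) (v (.inr i))) _))
  have e : tl (m 1) = tl x := FK.minT_eq (hm 1) (by
    simp only [V, Pi.one_apply, one_mul, inv_one, mul_one]
    exact hx)
  refine ⟨fun i => v (.inl i), fun i => (v (.inr i))⁻¹, fun i => ⟨h1 (.inl i), inv_mem (h1 (.inr i)),
    by simpa [e] using h2 (.inl i), by simpa [e] using h2 (.inr i)⟩, fun y hy hb u u' z hu hz hl => ?_⟩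
  rw [FK.minT_eq hy (hm v)] at hb hu hl
  refine h3 (Sum.elim (fun i => v (.inl i) * u i) fun i => v (.inr i) * (u' i)⁻¹) ?_ hb ?_
    (hl.mono_left ((hm _).2 z (by simpa [V, mul_assoc] using hz)))
  · rintro (i | i)
    · exact mul_mem (h1 (.inl i)) (hu i).1
    · exact mul_mem (h1 (.inr i)) (inv_mem (hu i).2.1)
  · rintro (i | i)
    · simpa [ds] using (hu i).2.2.1
    · simpa [ds] using (hu i).2.2.2

end Pool.Agent.P.MP_dba3d2_lc
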