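import Pool.Agent.P.MP_dba3d2_lc.F.IfaceK
import Pool.Agent.P.MP_dba3d2_lc.F.TbK

/-! Step FK_STEP of the stability project. -/

namespace Pool.Agent.P.MP_dba3d2_lc

open Filter

namespace Fk_step

variable {Γ : HG} {a : Amb}

/-- the numbers of joints `r` and the types `t` occur for an almost minimal element -/
def Occ (H : Subgroup (MM Γ a)) {k : ℕ} (ty : Fin k → Option (MM Γ a)) (W : Set (Fin k → MM Γ a))
    (μ : a.K) (p : (r : Fin k → ℕ) × ((i : Fin k) → Fin (r i) → Option (MM Γ a))) : Prop :=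
  ∃ y ∈ W, Ll (tl y - μ) μ ∧ ∀ i, ∃ h z, TDec μ H (ty i) (y i) (p.1 i) h z (p.2 i)

end Fk_step

theorem p_FK_STEP (hFK_SUB : S_FK_SUB) (hFK_DEC : S_FK_DEC) (hFK_EXP : S_FK_EXP)
    (hFK_NB : S_FK_NB) :
    S_FK_STEP := by
  intro Γ a H k ty W x hH ht hxt hW hx hb
  have μ0 := hb.pos.le
  choose r0 h00 z00 t0 hr0 using fun i => hFK_EXP Γ a H (tl x) (ty i) (x i) hH.gc hb (ht i) (hxt i)
    (Ls.of_le (FK.ln_le_tl x i)) ((hFK_DEC Γ a H k W x hH hW hx hb).1 i)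
  obtain ⟨⟨r, t⟩, ⟨y0, y1, y2, y3⟩, opt⟩ := exists_minimalFor_of_wellFoundedLT
    (Fk_step.Occ H ty W (tl x)) (fun p => toLex (∑ i, nG (p.2 i), ∑ i, p.1 i))
    ⟨⟨r0, t0⟩, x, hx.1, Ll.of_nonpos (sub_self _).le μ0, fun i => ⟨_, _, hr0 i⟩⟩
  choose h0 zz hd using y3
  let z0 : Fin (∑ i, r i) → MM Γ a := fun s =>
    zz (finSigmaFinEquiv.symm s).1 (finSigmaFinEquiv.symm s).2
  let ty' : Fin (∑ i, r i) → Option (MM Γ a) := fun s =>
    t (finSigmaFinEquiv.symm s).1 (finSigmaFinEquiv.symm s).2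
  have et : ∀ i j, ty' (finSigmaFinEquiv ⟨i, j⟩) = t i j := fun i j =>
    congrArg (fun p : (i : Fin k) × Fin (r i) => t p.1 p.2)
      (finSigmaFinEquiv.symm_apply_apply ⟨i, j⟩)
  have e0 : upW r h0 z0 = y0 := funext fun i => by
    rw [(hd i).eq]
    refine congrArg (weave (r i) (h0 i)) (funext fun j => ?_)
    exact congrArg (fun p : (i : Fin k) × Fin (r i) => zz p.1 p.2)
      (finSigmaFinEquiv.symm_apply_apply ⟨i, j⟩)
  have t0 : ∀ s, Ll (ln (z0 s)) (tl x) := fun s => (hd _).tin _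
  have ok : ∀ s, TyOk H (ty' s) := fun s => (hd _).ok _
  have hW0 := FK.td_ty (hFK_SUB Γ a H k _ W _ hW (FK.upW_mem_WM r fun i => (hd i).mem)) ok
  have m0 : (∀ s, HasT (ty' s) (z0 s)) ∧ upW r h0 z0 ∈ W := ⟨fun s => (hd _).has _, e0.symm ▸ y1⟩
  obtain ⟨x0, hx0⟩ := FK.exists_minT hW0 ⟨z0, m0⟩
  have t1 : Ll (tl x0) (tl x) := Ll.mono_left (hx0.2 z0 m0) (FK.ll_tl μ0 t0)
  obtain ⟨g, g', hg, irr⟩ := hFK_NB Γ a H _ ty' _ x0 hH ok hW0 hx0
  have t2 : ∀ s, Ll (ln (g s)) (tl x) ∧ Ll (ln (g' s)) (tl x) := fun s =>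
    ⟨Ll.ls_left (hg s).2.2.1 t1, Ll.ls_left (hg s).2.2.2 t1⟩
  have up : ∀ i j, TG H (ty' (finSigmaFinEquiv ⟨i, j⟩)) ≤ TG H (ty i) := fun i j w hw =>
    FK.mem_TG.2 ⟨hw.1, fun c e => (FK.mem_TG.1 hw).2 c ((et i j).trans (((hd i).one c e).2.1 j))⟩
  choose h k1 k2 using fun i => FK.weave_merge (H := TG H (ty i)) (μ := tl x) (r i) (h0 i)
    (fun j => g (finSigmaFinEquiv ⟨i, j⟩)) (fun j => g' (finSigmaFinEquiv ⟨i, j⟩)) 1
    (fun j => FK.mem_TG.2 ⟨(hd i).mem j, fun c e => ((hd i).one c e).2.2 j⟩)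
    (fun j => ⟨up i j (hg _).1, up i j (hg _).2.1⟩) (one_mem _) (fun j => t2 _)
    (Ll.of_nonpos ln_one.le μ0)
  have e1 : ∀ z, upW r h z = upW r h0 fun s => g s * z s * g' s := fun z =>
    funext fun i => (k2 i _).trans (one_mul _)
  refine ⟨r, h, ty', fun i j => (k1 i j).1, fun i j => ?_, ?_, ok, fun i c e =>
    ⟨((hd i).one c e).1, fun j => (et i j).trans (((hd i).one c e).2.1 j)⟩,
    ⟨fun s => (g s)⁻¹ * z0 s * (g' s)⁻¹, ⟨fun s => (FK.hasT_side (inv_mem (hg s).1)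
      (inv_mem (hg s).2.1)).2 (m0.1 s), ?_⟩, FK.ll_tl μ0 fun s => ?_⟩, ?_,
    fun y hy hl r' h' z' t' hd' => ?_⟩
  · exact Ls.mono_left (by linarith) ((k1 i j).2.ls.add ((hd i).bd j))
  · have a1 := ll_sum Finset.univ _ μ0 fun i _ => ll_sum Finset.univ _ μ0 fun j _ => (k1 i j).2
    have a2 := ll_sum Finset.univ _ μ0 fun i _ => (hd i).add
    simp only [Finset.sum_sub_distrib] at a1 a2
    refine Ll.mono_left ?_ ((a1.add a2).add y2)
    rw [show tl y0 = ∑ i, ln (y0 i) from rfl]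
    linarith
  · rw [e1]
    simpa only [mul_assoc, mul_inv_cancel_left, inv_mul_cancel, mul_one] using m0.2
  · refine Ll.mono_left ?_ (((t2 s).1.add (t0 s)).add (t2 s).2)
    have a1 := ln_mul_le ((g s)⁻¹ * z0 s) (g' s)⁻¹
    have a2 := ln_mul_le (g s)⁻¹ (z0 s)
    rw [ln_inv] at a1 a2
    linarith
  · convert irr using 1
    ext z
    exact and_congr (forall_congr' fun s => (FK.hasT_side (hg s).1 (hg s).2.1).symm)
      (by rw [e1]; rfl)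
  · have := Prod.Lex.toLex_le_toLex.1 ((le_total _ _).elim id
      (opt (j := ⟨r', t'⟩) ⟨y, hy, hl, fun i => ⟨_, _, hd' i⟩⟩))
    rw [← FK.nG_sigma finSigmaFinEquiv ty']
    simp only [et]
    exact this

end Pool.Agent.P.MP_dba3d2_lc
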