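import Pool.Agent.P.MP_dba3d2_lc.F.IfaceK
import Pool.Agent.P.MP_dba3d2_lc.F.TbK

/-! Step FK_SUB of the stability project. -/

namespace Pool.Agent.P.MP_dba3d2_lc

open Filter

namespace Fk_sub

theorem lift_map {α β G : Type} [Group G] (f : β → G) (g : α → β) (w : FreeGroup α) :
    FreeGroup.lift f (FreeGroup.map g w) = FreeGroup.lift (fun x => f (g x)) w := by
  have : (FreeGroup.lift f).comp (FreeGroup.map g) = FreeGroup.lift fun x => f (g x) := by
    ext x
    simp
  exact DFunLike.congr_fun this w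

theorem word {Γ : HG} {a : Amb} {H : Subgroup (MM Γ a)} {k : ℕ} {F : (Fin k → MM Γ a) → MM Γ a}
    (hF : F ∈ WM H k) : ∃ (ι : Type) (_ : Finite ι) (h : ι → MM Γ a) (w : FreeGroup (ι ⊕ Fin k)),
      (∀ i, h i ∈ H) ∧ ∀ z, F z = FreeGroup.lift (Sum.elim h z) w := by
  induction hF using Subgroup.closure_induction with
  | mem F hF =>
    rcases hF with ⟨h, hh, rfl⟩ | ⟨i, rfl⟩
    · exact ⟨Unit, inferInstance, fun _ => h, .of (.inl ()), fun _ => hh, fun z => by simp⟩
    · exact ⟨Empty, inferInstance, Empty.elim, .of (.inr i), fun x => x.elim, fun z => by simp⟩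
  | one => exact ⟨Empty, inferInstance, Empty.elim, 1, fun x => x.elim, fun z => by simp⟩
  | inv F _ ih =>
    obtain ⟨ι, _, h, w, h1, h2⟩ := ih
    exact ⟨ι, inferInstance, h, w⁻¹, h1, fun z => by rw [map_inv, ← h2]; rfl⟩
  | mul F F' _ _ ih ih' =>
    obtain ⟨ι, _, h, w, h1, h2⟩ := ih
    obtain ⟨ι', _, h', w', h1', h2'⟩ := ih'
    refine ⟨ι ⊕ ι', inferInstance, Sum.elim h h',
      FreeGroup.map (Sum.map Sum.inl id) w * FreeGroup.map (Sum.map Sum.inr id) w',
      fun i => by cases i; exacts [h1 _, h1' _], fun z => ?_⟩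
    rw [map_mul, lift_map, lift_map, Pi.mul_apply, h2, h2']
    congr 3 <;> funext x <;> cases x <;> rfl

end Fk_sub

open Fk_sub in
theorem p_FK_SUB :
    S_FK_SUB := by
  intro Γ a H k k' W F ⟨m, Q, h0, hQ, hh0, hW⟩ hF
  choose ι hι h w h1 h2 using fun i => word (hF i)
  obtain ⟨m', ⟨e⟩⟩ := Finite.exists_equiv_fin (Fin m ⊕ Σ i, ι i)
  let v : Fin m ⊕ Fin k → FreeGroup (Fin m' ⊕ Fin k') :=
    Sum.elim (fun i => .of (.inl (e (.inl i))))
      fun i => FreeGroup.map (Sum.map (fun t => e (.inr ⟨i, t⟩)) id) (w i)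
  refine ⟨m', fun z => Q fun s => FreeGroup.lift z (v s),
    fun j => Sum.elim h0 (fun s => h s.1 s.2) (e.symm j), hQ.word v, fun j => ?_, fun z => ?_⟩
  · beta_reduce
    cases e.symm j with
    | inl i => exact hh0 i
    | inr s => exact h1 _ _
  · rw [st_word, Set.mem_ofPred_eq, hW]
    refine iff_of_eq (congrArg (St Q) (funext fun s => ?_))
    cases s with
    | inl i => simp [v]
    | inr i =>
      simp only [v, Sum.elim_inr]
      rw [lift_map, h2]
      congr 2
      funext x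
      cases x <;> simp

end Pool.Agent.P.MP_dba3d2_lc
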