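import Pool.Agent.P.MP_dba3d2_lc.F.IfaceK
import Pool.Agent.P.MP_dba3d2_lc.F.TbK

/-! Step FK_ZORN of the stability project. -/

namespace Pool.Agent.P.MP_dba3d2_lc

open Filter

namespace Fk_zorn

/-- Zorn lemma for a strict order whose chains without top are countable -/
theorem zorn_cnt {P : Type} (x0 : P) (S : P → P → Prop) (tr : ∀ x y z, S x y → S y z → S x z)
    (cnt : ∀ c : Set P, (∀ x ∈ c, ∀ y ∈ c, x ≠ y → S x y ∨ S y x) → (∀ x ∈ c, ∃ y, S x y) →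
      c.Countable)
    (seq : ∀ p : ℕ → P, (∀ n, S (p n) (p (n + 1))) → ∃ q, ∀ n, S (p n) q) :
    ∃ m, ∀ y, S m y → y = m ∨ S y m := by
  have trl : ∀ x y z, (x = y ∨ S x y) → S y z → S x z := fun x y z h h' =>
    h.elim (fun e => e ▸ h') fun h => tr _ _ _ h h'
  obtain ⟨m, hm⟩ := exists_maximal_of_chains_bounded (r := fun x y : P => x = y ∨ S x y)
    (fun c hc => by
      by_cases h1 : ∃ m ∈ c, ∀ y ∈ c, y = m ∨ S y m
      · obtain ⟨m, -, h⟩ := h1
        exact ⟨m, h⟩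
      rcases c.eq_empty_or_nonempty with rfl | hne
      · exact ⟨x0, fun a ha => ha.elim⟩
      have ch : ∀ x ∈ c, ∀ y ∈ c, x ≠ y → S x y ∨ S y x := fun x hx y hy ne =>
        (hc hx hy ne).imp (fun h => h.resolve_left ne) fun h => h.resolve_left ne.symm
      have su : ∀ x ∈ c, ∃ y ∈ c, S x y := fun x hx => by
        by_contra e
        refine h1 ⟨x, hx, fun y hy => (eq_or_ne y x).imp_right fun ne => ?_⟩
        exact (ch y hy x hx ne).resolve_right fun h => e ⟨y, hy, h⟩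
      obtain ⟨f, hf⟩ := (cnt c ch fun x hx => (su x hx).imp fun y h => h.2).exists_eq_range hne
      have fm : ∀ n, f n ∈ c := fun n => hf ▸ Set.mem_range_self n
      have nx : ∀ (x : c) (n : ℕ), ∃ y : c, S x y ∧ S (f n) y := fun x n => by
        rcases eq_or_ne x.1 (f n) with e | ne
        · obtain ⟨y, hy, h⟩ := su x x.2
          exact ⟨⟨y, hy⟩, h, e ▸ h⟩
        rcases ch x x.2 (f n) (fm n) ne with h' | h'
        · obtain ⟨y, hy, h⟩ := su (f n) (fm n)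
          exact ⟨⟨y, hy⟩, tr _ _ _ h' h, h⟩
        · obtain ⟨y, hy, h⟩ := su x x.2
          exact ⟨⟨y, hy⟩, h, tr _ _ _ h' h⟩
      choose g g1 g2 using nx
      let p : ℕ → c := fun n => Nat.rec ⟨f 0, fm 0⟩ (fun n x => g x n) n
      obtain ⟨q, hq⟩ := seq (fun n => (p n).1) fun n => g1 (p n) n
      refine ⟨q, fun y hy => Or.inr ?_⟩
      rw [hf] at hy
      obtain ⟨n, rfl⟩ := hy
      exact tr _ _ _ (g2 (p n) n) (hq (n + 1)))
    (fun {x y z} h h' => h'.elim (fun e => e ▸ h) fun h' => Or.inr (trl _ _ _ h h'))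
  exact ⟨m, fun y h => hm y (Or.inr h)⟩

variable {Γ : HG} {a : Amb} {ι : Type}

/-- the strict descent relation -/
def Sr (D : (ι → MM Γ a) → a.K) (x y : ι → MM Γ a) : Prop :=
  Big (D x) ∧ (∀ i, Ls (ds (x i) (y i)) (D x)) ∧ Ll (D y) (D x)

theorem Sr.tr {D : (ι → MM Γ a) → a.K} {x y z : ι → MM Γ a} (h : Sr D x y) (h' : Sr D y z) :
    Sr D x z :=
  ⟨h.1, fun i => Ls.mono_left (ds_tri (x i) (y i) (z i))
    ((h.2.1 i).add ((h'.2.1 i).trans' h.2.2.ls)), Ll.ls_left h'.2.2.ls h.2.2⟩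

theorem lim {H : ι → Subgroup (MM Γ a)} {D : (ι → MM Γ a) → a.K} (hH : ∀ i, LimC (H i))
    (h4 : ∀ x y, (∀ i, Ls (ds (x i) (y i)) (D y)) → Ls (D x) (D y)) (p : ℕ → ι → MM Γ a)
    (hp : ∀ n i, p n i ∈ H i) (hs : ∀ n, Sr D (p n) (p (n + 1))) :
    ∃ q : ι → MM Γ a, (∀ i, q i ∈ H i) ∧ ∀ n, Sr D (p n) q := by
  have lt : ∀ n N, n < N → Sr D (p n) (p N) := fun n N h => by
    induction N, h using Nat.le_induction with
    | base => exact hs n
    | succ N _ ih => exact ih.tr (hs N)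
  have key : ∀ i, ∃ q ∈ H i, ∀ n, Ls (ds q (p n i)) (D (p n)) := fun i => by
    choose c hc using fun n => (hs n).2.1 i
    obtain ⟨u, hu⟩ := GT.sat_ball (fun m => p m i) (fun m => ((c m + 1 : ℕ) : a.K) * D (p m))
      fun n => ⟨p (n + 2) i, fun m hm => by
        have k1 := Ll.ls_left ((lt (m + 1) (n + 2) (by omega)).2.1 i) (hs m).2.2 1
        have k2 := ds_tri (p m i) (p (m + 1) i) (p (n + 2) i)
        have k3 := hc m
        rw [ds_comm]
        push_cast at k1 ⊢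
        linarith⟩
    obtain ⟨q, hq, e⟩ := hH i (fun n => D (p n)) u (fun n => (hs n).1) (fun n => (hs n).2.2)
      fun n => ⟨p n i, hp n i, _, hu n⟩
    exact ⟨q, hq, fun n => Ls.mono_left (ds_tri q u (p n i))
      (Ls.add (ds_comm u q ▸ e n) ⟨_, hu n⟩)⟩
  choose q q1 q2 using key
  exact ⟨q, q1, fun n => ⟨(hs n).1, fun i => ds_comm (q i) (p n i) ▸ q2 i n,
    Ll.ls_left (h4 q (p (n + 1)) fun i => q2 i (n + 1)) (hs n).2.2⟩⟩

end Fk_zorn

open Fk_zorn in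
theorem p_FK_ZORN :
    S_FK_ZORN := by
  intro Γ a H ι P D x0 hH hP h0 h2 h3 h4
  obtain ⟨Λ, hΛ, hc⟩ := hH.cnt
  obtain ⟨m, hm⟩ := zorn_cnt (P := {y : ι → MM Γ a // (∀ i, y i ∈ P i) ∧ (x0 = y ∨ Sr D x0 y)})
    ⟨x0, h0, Or.inl rfl⟩ (fun x y => Sr D x.1 y.1) (fun _ _ _ h h' => h.tr h')
    (fun c ch su => by
      have : ∀ y : {y : ι → MM Γ a // (∀ i, y i ∈ P i) ∧ (x0 = y ∨ Sr D x0 y)},
          ∃ l, y ∈ c → l ∈ Λ ∧ Sim (D y.1) l := fun y => by
        by_cases hy : y ∈ c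
        · obtain ⟨z, hz⟩ := su y hy
          obtain ⟨h, hh, e⟩ := h3 y.1 y.2.1 hz.1
          obtain ⟨l, hl, e'⟩ := hc h hh (hz.1.of_ls e.2)
          exact ⟨l, fun _ => ⟨hl, e.symm'.trans' e'⟩⟩
        · exact ⟨0, fun h => (hy h).elim⟩
      choose l hl using this
      refine Set.MapsTo.countable_of_injOn (f := l) (fun y hy => (hl y hy).1)
        (fun x hx y hy e => ?_) hΛ
      by_contra ne
      have s : Sim (D x.1) (D y.1) := (hl x hx).2.trans' (e ▸ (hl y hy).2.symm')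
      rcases ch x hx y hy ne with h | h
      · exact h.2.2.not_ls h.1.pos s.1
      · exact h.2.2.not_ls h.1.pos s.2)
    (fun p hp => by
      obtain ⟨q, q1, q2⟩ := lim hP h4 (fun n => (p n).1) (fun n => (p n).2.1) hp
      exact ⟨⟨q, q1, Or.inr ((p 0).2.2.elim (fun e => e ▸ q2 0) fun h => h.tr (q2 0))⟩, q2⟩)
  refine ⟨m.1, m.2.1, fun i => ?_, fun y hy b1 b2 b3 => ?_⟩
  · rcases m.2.2 with e | h
    · rw [← e, ds_self]
      exact Ls.zero (h2 x0)
    · exact h.2.1 i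
  · have s : Sr D m.1 y := ⟨b1, b2, b3⟩
    rcases hm ⟨y, hy, Or.inr (m.2.2.elim (fun e => e ▸ s) fun h => h.tr s)⟩ s with e | h
    · rw [show y = m.1 from congrArg Subtype.val e] at b3
      exact ll_irrefl b1.pos b3
    · exact b3.not_ls b1.pos h.2.2.ls

end Pool.Agent.P.MP_dba3d2_lc
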