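import Pool.Agent.P.MP_dba3d2_lc.F.DefsShr
import Pool.Agent.P.MP_dba3d2_lc.B.Axis2

/-! Basic lemmas on lists of cuts. -/

namespace Pool.Agent.P.MP_dba3d2_lc

open Filter

section cuts
variable {M G G' : Type} [Group M] [Group G] [Group G'] (j : M →* G) (ν : G)

theorem cutEv_nil : cutEv j ν [] = 1 := rfl

theorem cutEv_cons (s : M × Bool) (l : List (M × Bool)) :
    cutEv j ν (s :: l) = j s.1 * cond s.2 ν ν⁻¹ * (j s.1)⁻¹ * cutEv j ν l := by
  simp [cutEv]

theorem cutEv_append (l l' : List (M × Bool)) :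
    cutEv j ν (l ++ l') = cutEv j ν l * cutEv j ν l' := by
  simp [cutEv]

theorem map_cutEv (φ : G →* G') (l : List (M × Bool)) :
    φ (cutEv j ν l) = cutEv (φ.comp j) (φ ν) l := by
  induction l with
  | nil => exact map_one φ
  | cons s l ih =>
    rw [cutEv_cons, cutEv_cons, map_mul, ih]
    cases s.2 <;> simp

theorem cutEv_one (l : List (M × Bool)) : cutEv j 1 l = 1 := by
  induction l with
  | nil => rfl
  | cons s l ih => rw [cutEv_cons, ih]; simp

theorem cutEv_mv (g : M) (l : List (M × Bool)) :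
    cutEv j ν (cutMv g l) = j g * cutEv j ν l * (j g)⁻¹ := by
  induction l with
  | nil => simp [cutMv, cutEv]
  | cons s l ih =>
    rw [cutEv_cons, show cutMv g (s :: l) = (g * s.1, s.2) :: cutMv g l from rfl, cutEv_cons, ih,
      map_mul]
    group

theorem cutMv_append (g : M) (l l' : List (M × Bool)) :
    cutMv g (l ++ l') = cutMv g l ++ cutMv g l' := List.map_append

theorem cutMv_mul (g g' : M) (l : List (M × Bool)) : cutMv (g * g') l = cutMv g (cutMv g' l) := by
  simp [cutMv, mul_assoc]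

theorem cutMv_one (l : List (M × Bool)) : cutMv 1 l = l := by
  simp [cutMv]

theorem cutPts_append (p q : M) (l l' : List (M × Bool)) :
    cutPts p q (l ++ l') = cutPts p q l ++ cutPts p q l' := List.flatMap_append

theorem cutPts_mv (p q g : M) (l : List (M × Bool)) :
    cutPts p q (cutMv g l) = (cutPts p q l).map fun x => g * x := by
  simp [cutPts, cutMv, List.flatMap_map, List.map_flatMap, mul_assoc]

theorem Shr.map_weave (φ : G →* G') : ∀ (r : ℕ) (h : Fin (r + 1) → G) (z : Fin r → G),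
    φ (weave r h z) = weave r (fun i => φ (h i)) fun i => φ (z i)
  | 0, _, _ => rfl
  | r + 1, h, z => by
    rw [weave, weave, map_mul, map_mul, Shr.map_weave φ r]
    rfl

end cuts

variable {Γ : HG} {a : Amb}

theorem Shape.map_topG (S : Shape Γ a) {G G' : Type} [Group G] [Group G'] (j : MM Γ a →* G)
    (φ : G →* G') : ∀ (n : ℕ) (z : Fin (S.k n) → G) (i : Fin (S.k 0)),
    φ (S.topG j n z i) = S.topG (φ.comp j) n (fun t => φ (z t)) i
  | 0, _, _ => rfl
  | n + 1, z, i => by
    rw [Shape.topG, Shape.topG, S.map_topG j φ n]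
    congr 1
    funext t
    exact Shr.map_weave φ _ _ _

theorem Shape.topG_id (S : Shape Γ a) : ∀ (n : ℕ) (z : Fin (S.k n) → MM Γ a),
    S.topG (MonoidHom.id _) n z = S.top n z
  | 0, _ => rfl
  | n + 1, z => by
    rw [Shape.topG, Shape.top, S.topG_id n]
    rfl

theorem OrdOn.mul {μ : a.K} (g : MM Γ a) {y : MM Γ a} : ∀ {l : List (MM Γ a)} {x : MM Γ a},
    OrdOn μ x l y → OrdOn μ (g * x) (l.map fun t => g * t) (g * y)
  | [], _, _ => trivial
  | _ :: _, _, h => ⟨h.1.mul g, OrdOn.mul g h.2⟩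

/-- moving the end point further along the segment -/
theorem OrdOn.extend {μ : a.K} {y y' : MM Γ a} : ∀ {l : List (MM Γ a)} {x : MM Γ a},
    OrdOn μ x l y → On μ y x y' → OrdOn μ x l y'
  | [], _, _, _ => trivial
  | _ :: _, _, h, k => ⟨(k.sub h.1).1, OrdOn.extend h.2 (k.sub h.1).2⟩

/-- moving the starting point back along the segment -/
theorem OrdOn.back {μ : a.K} {x x' y : MM Γ a} : ∀ {l : List (MM Γ a)},
    OrdOn μ x l y → On μ x x' y → OrdOn μ x' l y
  | [], _, _ => trivial
  | _ :: _, h, k => ⟨(k.sub' h.1).1, h.2⟩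

theorem OrdOn.append {μ : a.K} {z y : MM Γ a} {l' : List (MM Γ a)} (h' : OrdOn μ z l' y) :
    ∀ {l : List (MM Γ a)} {x : MM Γ a}, OrdOn μ x l z → On μ z x y → OrdOn μ x (l ++ l') y
  | [], _, _, k => h'.back k
  | _ :: _, _, h, k => ⟨(k.sub h.1).1, h'.append h.2 (k.sub h.1).2⟩

end Pool.Agent.P.MP_dba3d2_lc
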