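import Pool.Agent.P.MP_dba3d2_lc.F.IfaceShr
import Pool.Agent.P.MP_dba3d2_lc.E.Iface
import Pool.Agent.P.MP_dba3d2_lc.F.Iface
import Pool.Agent.P.MP_dba3d2_lc.E.Bas
import Pool.Agent.P.MP_dba3d2_lc.F.TbShr

/-! Step FS_SHR of the stability project. -/

namespace Pool.Agent.P.MP_dba3d2_lc

open Filter

namespace Shr

variable {Γ : HG} {a b : Amb}

/-- the length of the broken line that jumps over the cuts -/
def skip (p q : MM Γ a) : MM Γ a → List (MM Γ a × Bool) → MM Γ a → a.K
  | x, [], y => ds x y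
  | x, s :: l, y => ds x (s.1 * cond s.2 p q) + skip p q (s.1 * cond s.2 q p) l y

theorem skip_le {μ : a.K} (h0 : 0 ≤ μ) (p q y : MM Γ a) : ∀ (l : List (MM Γ a × Bool)) (x : MM Γ a),
    OrdOn μ x (cutPts p q l) y → Ll (skip p q x l y + l.length * ds p q - ds x y) μ
  | [], x, _ => by simpa [skip] using Ll.zero h0
  | s :: l, x, h => by
    obtain ⟨h1, h2, h3⟩ : On μ (s.1 * cond s.2 p q) x y ∧
      On μ (s.1 * cond s.2 q p) (s.1 * cond s.2 p q) y ∧
      OrdOn μ (s.1 * cond s.2 q p) (cutPts p q l) y := h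
    have e : ds (s.1 * cond s.2 p q) (s.1 * cond s.2 q p) = ds p q := by
      rw [ds_mul_left]
      cases s.2
      · exact ds_comm _ _
      · rfl
    have h4 := skip_le h0 p q y l _ h3
    unfold On at h1 h2
    rw [e] at h2
    refine Ll.mono_left (le_of_eq ?_) ((h1.add h2).add h4)
    simp only [skip, List.length_cons]
    push_cast
    ring

theorem skip_same {μ : a.K} (h0 : 0 ≤ μ) (p y : MM Γ a) : ∀ (l : List (MM Γ a × Bool)) (x : MM Γ a),
    OrdOn μ x (l.map fun s => s.1 * p) y → Ll (skip p p x l y - ds x y) μ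
  | [], x, _ => by simpa [skip] using Ll.zero h0
  | s :: l, x, h => by
    obtain ⟨h1, h3⟩ : On μ (s.1 * p) x y ∧
      OrdOn μ (s.1 * p) (l.map fun s : MM Γ a × Bool => s.1 * p) y := h
    have h4 := skip_same h0 p y l _ h3
    unfold On at h1
    refine Ll.mono_left (le_of_eq ?_) (h1.add h4)
    simp only [skip, Bool.cond_self]
    ring

theorem len_le (E : Ext a b) (ν : MM Γ b) (p q y : MM Γ a) :
    ∀ (l : List (MM Γ a × Bool)) (x : MM Γ a),
    ds (E.hom Γ x) (cutEv (E.hom Γ) ν l * E.hom Γ y) ≤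
      E.kh (skip p q x l y) + l.length * ds (E.hom Γ p) (ν * E.hom Γ q)
  | [], x => by simp [skip, cutEv, E.ds_hom]
  | s :: l, x => by
    have h := len_le E ν p q y l (s.1 * cond s.2 q p)
    set t := E.hom Γ s.1 * cond s.2 ν ν⁻¹ * (E.hom Γ s.1)⁻¹ with ht
    have e : ds (E.hom Γ (s.1 * cond s.2 p q)) (t * E.hom Γ (s.1 * cond s.2 q p)) =
        ds (E.hom Γ p) (ν * E.hom Γ q) := by
      rw [ht, map_mul, map_mul, mul_assoc, inv_mul_cancel_left, mul_assoc, ds_mul_left]
      cases s.2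
      · rw [← ds_mul_left ν, ds_comm]
        simp
      · rfl
    have k1 := ds_tri (E.hom Γ x) (E.hom Γ (s.1 * cond s.2 p q)) (t * (cutEv (E.hom Γ) ν l * E.hom Γ y))
    have k2 := ds_tri (E.hom Γ (s.1 * cond s.2 p q)) (t * E.hom Γ (s.1 * cond s.2 q p))
      (t * (cutEv (E.hom Γ) ν l * E.hom Γ y))
    rw [ds_mul_left, e] at k2
    rw [E.ds_hom] at k1
    rw [cutEv_cons, ← ht, mul_assoc]
    simp only [skip, List.length_cons, map_add]
    push_cast
    linarith

/-- the class map of the ultrapower as a homomorphism -/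
noncomputable def mkH (Γ : HG) (a : Amb) : (ℕ → MM Γ a) →* MM Γ (a.pow U0) :=
  MonoidHom.mk' (fun f => a.mk' U0 f) fun f g => mk'_mul U0 f g

theorem tl_mk' {k : ℕ} (f : Fin k → ℕ → MM Γ a) :
    tl (a := a.pow U0) (fun i => a.mk' U0 (f i)) = a.mk' U0 fun n => tl fun i => f i n := by
  have : ∀ s : Finset (Fin k), ∑ i ∈ s, ln (a := a.pow U0) (a.mk' U0 (f i)) =
      a.mk' U0 fun n => ∑ i ∈ s, ln (f i n) := fun s => by
    induction s using Finset.induction_on with
    | empty => exact (map_zero (a.dg U0).kh).symm.trans (mk'_kh U0 0).symm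
    | insert i s hi ih =>
      simp only [Finset.sum_insert hi, mk'_add]
      rw [ih, ln_mk']
  exact this _

/-- near minimality passes to the ultrapower -/
theorem pass (S : Shape Γ a) {m n : ℕ} (Q : (Fin m ⊕ Fin (S.k 0) → Γ.G) → Prop)
    (h : Fin m → MM Γ a) {μ : a.K} (ty : Fin (S.k n) → Option (MM Γ a)) (y : Fin (S.k n) → MM Γ a)
    (hy : ∀ i, HasT (ty i) (y i))
    (hm : ∀ z, (∀ i, HasT (ty i) (z i)) → St Q (Sum.elim h (S.top n z)) → Ll (tl y - tl z) μ)
    (z : Fin (S.k n) → MM Γ (a.pow U0)) (hz : ∀ i, ty i ≠ none → z i = (a.dg U0).hom Γ (y i))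
    (hs : St Q (Sum.elim (fun i => (a.dg U0).hom Γ (h i)) (S.topG ((a.dg U0).hom Γ) n z))) :
    Ll ((a.dg U0).kh (tl y) - tl z) ((a.dg U0).kh μ) := by
  have ex : ∀ i, ∃ f : ℕ → MM Γ a, a.mk' U0 f = z i ∧ ∀ t, HasT (ty i) (f t) := fun i => by
    by_cases e : ty i = none
    · obtain ⟨f, hf⟩ := mk'_surjective U0 (z i)
      exact ⟨f, hf, fun t c hc => by simp [e] at hc⟩
    · exact ⟨fun _ => y i, (mk'_hom U0 _).trans (hz i e).symm, fun _ => hy i⟩
  choose f hf ht using ex
  obtain rfl : z = fun i => a.mk' U0 (f i) := funext fun i => (hf i).symm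
  have e1 : (mkH Γ a).comp (Pi.constMonoidHom ℕ (MM Γ a)) = (a.dg U0).hom Γ :=
    MonoidHom.ext fun g => mk'_hom U0 g
  have e2 : Sum.elim (fun i => (a.dg U0).hom Γ (h i))
      (S.topG ((a.dg U0).hom Γ) n fun i => a.mk' U0 (f i)) =
      fun i => a.mk' U0 fun t => Sum.elim h (S.top n fun i => f i t) i := by
    funext i
    rcases i with i | i
    · exact (mk'_hom U0 _).symm
    · have k := S.map_topG (Pi.constMonoidHom ℕ (MM Γ a)) (mkH Γ a) n f i
      rw [e1] at k
      refine k.symm.trans (congrArg (a.mk' U0) (funext fun t => ?_))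
      have k2 := S.map_topG (Pi.constMonoidHom ℕ (MM Γ a)) (Pi.evalMonoidHom (fun _ => MM Γ a) t) n f i
      exact k2.trans (congrFun (S.topG_id n _) i)
  rw [e2, st_mk'] at hs
  rw [tl_mk', ← mk'_kh, ← mk'_sub]
  exact ET.ll_mk'_kh U0 (hs.mono fun t k => hm _ (fun i => ht i t) k)

end Shr

open Shr in
theorem p_FS_SHR (hREFL2 : S_REFL2) (hCUT : S_CUT) :
    S_FS_SHR := by
  intro Γ a X S m Q h x hX hQ hh hx hs
  obtain ⟨A, n0, a1, a2, hA⟩ := hREFL2 Γ a _ (a.dg U0) X m _ Q h x hX hQ hh hx hs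
  refine ⟨A, a1, a2, ?_⟩
  intro n μ p q ty y C D hμ hpq hy hm hD hC hni hord hmul
  obtain ⟨T, j, ν, ρ, σ, gT, hj, hρ, ρν, hr, bσ, sj, com, l1, l2⟩ := hCUT Γ a μ p q hμ hpq
  have pas := pass S Q h ty y hy hm
  change Ll _ ((a.dg U0).kh μ) at l1 l2
  generalize a.dg U0 = E at *
  generalize a.pow U0 = b at *
  obtain ⟨m1, m2⟩ := hmul T j ν com
  have ej : T.subtype.comp j = E.hom Γ := MonoidHom.ext hj
  have coe : ∀ (ν : T) l g, ((cutEv j ν l * j g : T) : MM Γ b) =
      cutEv (E.hom Γ) (ν : MM Γ b) l * E.hom Γ g := fun ν l g => by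
    rw [Subgroup.coe_mul, hj, ← ej, ← Subgroup.subtype_apply ν, ← map_cutEv]
    rfl
  have st := hA T (fun w => cutEv j ν (C w) * j w) ρ ⟨gT.toGC0, hr n0, fun w hw w' hw' hww => ?_,
    fun w hw e => ?_, fun w _ => ?_, fun w hw => ?_⟩
  · have eσ : σ.comp j = j := MonoidHom.ext sj
    have r1 : (T.subtype.comp σ).range = T := by
      rw [MonoidHom.range_comp, MonoidHom.range_eq_top.2 bσ.2, ← MonoidHom.range_eq_map,
        Subgroup.range_subtype]
    have tr := hQ b b T (T.subtype.comp σ) gT (by rw [r1]; exact gT)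
      ((Subgroup.subtype_injective _).comp bσ.1)
      (Sum.elim (fun i => j (h i)) fun i => cutEv j ν (C (x i)) * j (x i))
    have k := pas (fun t => cutEv (E.hom Γ) (σ ν : MM Γ b) (D t) * E.hom Γ (y t))
      (fun i e => by simp [hD i e, cutEv]) (by
      convert tr.1 ?_ using 2 with i
      · rcases i with i | i
        · exact ((congrArg Subtype.val (sj (h i))).trans (hj _)).symm
        · rw [Sum.elim_inr, Sum.elim_inr, m2, S.map_topG, MonoidHom.comp_assoc, eσ, ej]
          congr 1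
          funext t
          rw [← coe, MonoidHom.comp_apply, map_mul, map_cutEv, eσ, sj]
          rfl
      · convert st using 2 with i
        rcases i with i | i
        · exact hj _
        · rfl)
    have hν : Big (E.kh μ) := E.big_iff.2 hμ
    have k1 : ∀ t, Ll (ln (cutEv (E.hom Γ) (σ ν : MM Γ b) (D t) * E.hom Γ (y t)) +
        (D t).length * E.kh (ds p q) - E.kh (ln (y t))) (E.kh μ) := fun t => by
      have b1 := len_le E (σ ν : MM Γ b) p q (y t) (D t) 1
      have b2 := E.ll_iff.2 (skip_le hμ.pos.le p q (y t) (D t) 1 (hord t))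
      rw [map_one, ds_one_left] at b1
      rw [ds_one_left, map_sub, map_add, map_mul, map_natCast] at b2
      exact Ll.mono_left (by linarith) (b2.add (l2.nat_mul (D t).length))
    have k2 := ll_sum Finset.univ _ hν.pos.le fun t _ => k1 t
    rw [Finset.sum_sub_distrib, Finset.sum_add_distrib] at k2
    rw [tl, tl, map_sum] at k
    have k3 : Ll (∑ t, ((D t).length : b.K) * E.kh (ds p q)) (E.kh μ) :=
      Ll.mono_left (le_of_eq (by ring)) (k.add k2)
    have p0 : 0 ≤ E.kh (ds p q) := by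
      rw [← E.ds_hom]
      exact ds_nonneg _ _
    intro i
    by_contra e
    have k4 : E.kh (ds p q) ≤ ∑ t, ((D t).length : b.K) * E.kh (ds p q) :=
      le_trans (le_mul_of_one_le_left p0 (by exact_mod_cast List.length_pos_iff.2 e))
        (Finset.single_le_sum (f := fun t => ((D t).length : b.K) * E.kh (ds p q))
          (fun t _ => mul_nonneg (Nat.cast_nonneg _) p0) (Finset.mem_univ i))
    exact (Ll.mono_left k4 k3).not_ls hν.pos (E.ls_iff.2 hpq.2)
  · rw [m1 w hw w' hw' hww, cutEv_mv, map_mul]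
    group
  · rw [hC w hw e]
    simpa [cutEv] using hj w
  · rw [map_mul, map_cutEv, ρν, cutEv_one, one_mul, hρ]
  · refine Tre.nb_le (not_big_nat 0) ?_
    rw [Nat.cast_zero, coe]
    change _ - _ * E.kh _ ≤ _
    have p0 : 0 ≤ E.kh (ln w) := by
      rw [← E.ln_hom]
      exact ln_nonneg _
    by_cases e : C w = []
    · rw [e, show cutEv (E.hom Γ) (ν : MM Γ b) [] = 1 from rfl, one_mul, E.ln_hom]
      linarith
    · obtain ⟨c1, c2⟩ := hni w hw e
      have b1 := len_le E (ν : MM Γ b) p p w (C w) 1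
      have b2 := E.ll_iff.2 (skip_same (ln_nonneg w) p w (C w) 1 c2)
      rw [map_one, ds_one_left] at b1
      rw [ds_one_left, map_sub] at b2
      have b3 := (b2.add ((l1.nat_mul (C w).length).ls_right (E.ls_iff.2 c1) p0)) n0
      have b4 := mul_le_mul_of_nonneg_left b1 (Nat.cast_nonneg (α := b.K) n0)
      linarith

end Pool.Agent.P.MP_dba3d2_lc
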