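import Pool.Agent.P.MP_dba3d2_lc.F.Iface
import Pool.Agent.P.MP_dba3d2_lc.A.Iface
import Pool.Agent.P.MP_dba3d2_lc.B.Iface
import Pool.Agent.P.MP_dba3d2_lc.C.Iface
import Pool.Agent.P.MP_dba3d2_lc.C.C_am1

/-! Step GT of the stability project. -/

namespace Pool.Agent.P.MP_dba3d2_lc

open Filter

namespace GtA

variable {Γ : HG} {a : Amb} {H W : Subgroup (MM Γ a)}

theorem exp_le : expW H W ≤ W := (Subgroup.closure_le _).2 fun _ h => h.1

theorem M_le_H : hatM H W ≤ hatH H W := sup_le_sup_right inf_le_left _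

theorem M_le_W : hatM H W ≤ W := sup_le inf_le_right exp_le

theorem univ (hE : S_ELEM) (hR : S_ROOT) (hH : GC0 H) (hW : GC0 W) (hx : Ext2 H W) :
    UnivP (hatH H W) W (hatM H W) := by
  intro G _ θ0 θ1 hag
  have h1 : H ≤ hatH H W := le_sup_left
  obtain ⟨θ, e0, e1⟩ := hx G (θ0.comp (Subgroup.inclusion h1)) θ1
    (fun x y h => hag ⟨x, h1 x.2⟩ y (Subgroup.mem_sup_left ⟨x.2, h ▸ y.2⟩) h) (by
      intro c hc hi x y hx hy
      obtain ⟨c0, k0, kp, ke⟩ := (hR Γ a H hH).1 c hc.1 hi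
      have k1 : c0 ∈ W := (hR Γ a W hW).2.2.2.1 c hc.2 hi c0 kp ke
      have k2 : (y : MM Γ a) ∈ hatM H W :=
        Subgroup.mem_sup_right (Subgroup.subset_closure ⟨y.2, c0, ⟨k0, k1⟩, kp, ke ▸ hy⟩)
      rw [← hag ⟨y, M_le_H k2⟩ y k2 rfl, MonoidHom.comp_apply, ← map_pow]
      refine Commute.map (Subtype.ext ?_) θ0
      exact ((hE Γ a c hi).2.2.2.2.2.2.2.1 x hx y hy).eq)
  have hj : hatH H W ⊔ W ≤ H ⊔ W :=
    sup_le (sup_le le_sup_left (exp_le.trans le_sup_right)) le_sup_right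
  refine ⟨θ.comp (Subgroup.inclusion hj), ?_, fun y => e1 y⟩
  have key : ∀ x (hx : x ∈ hatH H W), θ ⟨x, hj (Subgroup.mem_sup_left hx)⟩ = θ0 ⟨x, hx⟩ := by
    intro x hx
    have hx' : x ∈ Subgroup.closure ((H : Set (MM Γ a)) ∪ expW H W) := by
      rwa [← Subgroup.sup_eq_closure]
    have hm : ∀ {y}, y ∈ Subgroup.closure ((H : Set (MM Γ a)) ∪ expW H W) → y ∈ hatH H W := by
      intro y hy
      rwa [← Subgroup.sup_eq_closure] at hy
    induction hx' using Subgroup.closure_induction with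
    | mem y hy =>
      rcases hy with hy | hy
      · exact e0 ⟨y, hy⟩
      · exact (e1 ⟨y, exp_le hy⟩).trans
          (hag ⟨y, hx⟩ ⟨y, exp_le hy⟩ (Subgroup.mem_sup_right hy) rfl).symm
    | one => exact (map_one θ).trans (map_one θ0).symm
    | mul y z hy hz iy iz =>
      have := congrArg₂ (· * ·) (iy (hm hy)) (iz (hm hz))
      simp only [← map_mul] at this
      exact this
    | inv y hy iy =>
      have := congrArg (·⁻¹) (iy (hm hy))
      simp only [← map_inv] at this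
      exact this
  exact fun x => key x x.2

/-- the alternating word of a list of pairs -/
def alt {G : Type} : List (G × G) → List (Bool × G)
  | [] => []
  | s :: l => (false, s.1) :: (true, s.2) :: alt l

theorem alt_prod {G : Type} [Group G] (l : List (G × G)) :
    ((alt l).map Prod.snd).prod = (l.map fun s => s.1 * s.2).prod := by
  induction l with
  | nil => rfl
  | cons s l ih => simp only [alt, List.map_cons, List.prod_cons, ih, mul_assoc]

theorem alt_chain {G : Type} (l : List (G × G)) (x : G) :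
    ((true, x) :: alt l).IsChain fun s s' => s.1 ≠ s'.1 := by
  induction l generalizing x with
  | nil => exact List.IsChain.singleton _
  | cons s l ih =>
    exact List.IsChain.cons_cons (by simp) (List.IsChain.cons_cons (by simp) (ih s.2))

theorem alt_mem {G : Type} {P : Bool × G → Prop} (l : List (G × G))
    (h : ∀ s ∈ l, P (false, s.1) ∧ P (true, s.2)) : ∀ t ∈ alt l, P t := by
  induction l with
  | nil => intro t ht; cases ht
  | cons s l ih =>
    intro t ht
    simp only [alt, List.mem_cons] at ht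
    rcases ht with rfl | rfl | ht
    · exact (h s List.mem_cons_self).1
    · exact (h s List.mem_cons_self).2
    · exact ih (fun u hu => h u (List.mem_cons_of_mem _ hu)) t ht

theorem red {G : Type} [Group G] {X Y C : Subgroup G}
    (h : RedNT (fun i => bif i then Y else X) C) (l : List (G × G)) (hl : l ≠ [])
    (h1 : ∀ s ∈ l, s.1 ∈ X ∧ s.2 ∈ Y ∧ s.2 ∉ C) (h2 : ∀ s ∈ l.tail, s.1 ∉ C) :
    (l.map fun s => s.1 * s.2).prod ∉ X := by
  obtain ⟨s, l, rfl⟩ := List.exists_cons_of_ne_nil hl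
  intro hg
  obtain ⟨a1, a2, a3⟩ := h1 s List.mem_cons_self
  have hm : ∀ t ∈ alt l, t.2 ∈ (bif t.1 then Y else X) ∧ t.2 ∉ C :=
    alt_mem l fun u hu =>
      ⟨⟨(h1 u (List.mem_cons_of_mem _ hu)).1, h2 u hu⟩, (h1 u (List.mem_cons_of_mem _ hu)).2⟩
  rw [List.map_cons, List.prod_cons] at hg
  generalize hb : (l.map fun s => s.1 * s.2).prod = b at hg
  have hx : (s.2 * b)⁻¹ ∈ X := by
    have := X.mul_mem (X.inv_mem hg) a1
    convert this using 1
    group
  by_cases hc : (s.2 * b)⁻¹ ∈ C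
  · refine h ((true, s.2) :: alt l) (List.cons_ne_nil _ _) ?_ (alt_chain l _) ?_
    · exact List.forall_mem_cons.2 ⟨⟨a2, a3⟩, hm⟩
    · rw [List.map_cons, List.prod_cons, alt_prod, hb]
      exact (C.inv_mem_iff).1 hc
  · refine h ((false, (s.2 * b)⁻¹) :: (true, s.2) :: alt l) (List.cons_ne_nil _ _) ?_
      (List.IsChain.cons_cons (by simp) (alt_chain l _)) ?_
    · exact List.forall_mem_cons.2 ⟨⟨hx, hc⟩, List.forall_mem_cons.2 ⟨⟨a2, a3⟩, hm⟩⟩
    · rw [List.map_cons, List.prod_cons, List.map_cons, List.prod_cons, alt_prod, hb,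
        inv_mul_cancel]
      exact C.one_mem

end GtA

theorem p_GT (hELEM : S_ELEM) (hROOT : S_ROOT) (hGRAFT : S_GRAFT) :
    S_GT := by
  intro Γ a H W l hH hW hS hl h1 h2
  exact GtA.red (p_C_AM1 _ _ _ _ GtA.M_le_H GtA.M_le_W
    (GtA.univ hELEM hROOT hH hW (hGRAFT Γ a H W hH hW hS).1.ext)) l hl h1 h2

end Pool.Agent.P.MP_dba3d2_lc
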