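import Pool.Agent.P.MP_dba3d2_lc.F.DefsK

/-! Interface, chapter F, the steps of the key lemma. -/

namespace Pool.Agent.P.MP_dba3d2_lc

open Filter

-- deps: UNION ADJ LIM
-- imports: Pool.Agent.P.MP_dba3d2_lc.F.TbK
def S_FK_MAX : Prop := ∀ (Γ : HG) (a : Amb) (H : Subgroup (MM Γ a)), GC H →
  (H : Set (MM Γ a)).Countable → ∃ H', Clo H' ∧ Wc H H'

-- deps:
-- imports: Pool.Agent.P.MP_dba3d2_lc.F.TbK
def S_FK_SUB : Prop := ∀ (Γ : HG) (a : Amb) (H : Subgroup (MM Γ a)) (k k' : ℕ)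
  (W : Set (Fin k → MM Γ a)) (F : Fin k → (Fin k' → MM Γ a) → MM Γ a), TD H W →
  (∀ i, F i ∈ WM H k') → TD H {z | (fun i => F i z) ∈ W}

-- deps: S1
-- imports: Pool.Agent.P.MP_dba3d2_lc.F.TbK Pool.Agent.P.MP_dba3d2_lc.B.Tre
def S_FK_DEC : Prop := ∀ (Γ : HG) (a : Amb) (H : Subgroup (MM Γ a)) (k : ℕ)
  (W : Set (Fin k → MM Γ a)) (x : Fin k → MM Γ a), Clo H → TD H W → MinT W x → Big (tl x) →
  (∀ i, ∃ r h z, Dec (tl x) H (x i) r h z) ∧ ∃ h ∈ H, Sim (ln h) (tl x)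

-- deps: CVX ROOT GRAFT
-- imports: Pool.Agent.P.MP_dba3d2_lc.F.TbK Pool.Agent.P.MP_dba3d2_lc.F.TbC
def S_FK_EXP : Prop := ∀ (Γ : HG) (a : Amb) (H : Subgroup (MM Γ a)) (μ : a.K)
  (t : Option (MM Γ a)) (y : MM Γ a), GC H → Big μ → TyOk H t → HasT t y → Ls (ln y) μ →
  (∃ r h z, Dec μ H y r h z) → ∃ r h z ty, TDec μ H t y r h z ty

-- deps: TORS ELEM LINE NORM
-- imports: Pool.Agent.P.MP_dba3d2_lc.F.TbK Pool.Agent.P.MP_dba3d2_lc.B.Axis2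
def S_FK_ELIM : Prop := ∀ (Γ : HG) (a : Amb) (H : Subgroup (MM Γ a)) (t : Option (MM Γ a)),
  Clo H → TyOk H t → LimC (TG H t)

-- deps:
-- imports: Pool.Agent.P.MP_dba3d2_lc.F.TbK
def S_FK_ZORN : Prop := ∀ (Γ : HG) (a : Amb) (H : Subgroup (MM Γ a)) (ι : Type)
  (P : ι → Subgroup (MM Γ a)) (D : (ι → MM Γ a) → a.K) (x0 : ι → MM Γ a), Clo H →
  (∀ i, LimC (P i)) → (∀ i, x0 i ∈ P i) → (∀ x, 0 ≤ D x) →
  (∀ x, (∀ i, x i ∈ P i) → Big (D x) → ∃ h ∈ H, Sim (ln h) (D x)) →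
  (∀ x y, (∀ i, Ls (ds (x i) (y i)) (D y)) → Ls (D x) (D y)) →
  ∃ x, (∀ i, x i ∈ P i) ∧ (∀ i, Ls (ds (x0 i) (x i)) (D x0)) ∧
    ∀ y, (∀ i, y i ∈ P i) → Big (D x) → (∀ i, Ls (ds (x i) (y i)) (D x)) → ¬ Ll (D y) (D x)

-- deps: FK_SUB FK_DEC FK_ELIM FK_ZORN
-- imports: Pool.Agent.P.MP_dba3d2_lc.F.TbK
def S_FK_NB : Prop := ∀ (Γ : HG) (a : Amb) (H : Subgroup (MM Γ a)) (k : ℕ)
  (ty : Fin k → Option (MM Γ a)) (W : Set (Fin k → MM Γ a)) (x : Fin k → MM Γ a), Clo H →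
  (∀ i, TyOk H (ty i)) → TD H W → MinT W x → ∃ g g' : Fin k → MM Γ a,
    (∀ i, g i ∈ TG H (ty i) ∧ g' i ∈ TG H (ty i) ∧ Ls (ln (g i)) (tl x) ∧ Ls (ln (g' i)) (tl x)) ∧
    Irr H ty {z : Fin k → MM Γ a | (fun i => g i * z i * g' i) ∈ W}

-- deps: FK_SUB FK_DEC FK_EXP FK_NB
-- imports: Pool.Agent.P.MP_dba3d2_lc.F.TbK
def S_FK_STEP : Prop := ∀ (Γ : HG) (a : Amb) (H : Subgroup (MM Γ a)) (k : ℕ)
  (ty : Fin k → Option (MM Γ a)) (W : Set (Fin k → MM Γ a)) (x : Fin k → MM Γ a), Clo H →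
  (∀ i, TyOk H (ty i)) → (∀ i, HasT (ty i) (x i)) → TD H W → MinT W x → Big (tl x) →
  ∃ r h ty', Stp H ty W x r h ty'

-- deps: S2 FK_SUB FK_STEP
-- imports: Pool.Agent.P.MP_dba3d2_lc.F.TbK
def S_FK_CORE : Prop := ∀ (Γ : HG) (a : Amb) (H : Subgroup (MM Γ a)) (k : ℕ)
  (W : Set (Fin k → MM Γ a)), Clo H → TD H W → W.Nonempty → ∃ y ∈ W, ∀ i, y i ∈ H

end Pool.Agent.P.MP_dba3d2_lc
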