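import Pool.Agent.P.MP_dba3d2_lc.F.DefsS

/-! Interface, chapter F: finiteness of branching. -/

namespace Pool.Agent.P.MP_dba3d2_lc

open Filter
open SW

-- deps:
def S_S2_NT : Prop := ∀ (G : Type) [Group G] (U W : Subgroup G), Am U W →
  (∀ x y w, Tl U W x → Tl U W y → w ∈ W → w ∉ U → x⁻¹ * w * y ∉ U) ∧
  ∀ u ∈ U, ∀ u' ∈ U, ∀ w ∈ W, ∀ w' ∈ W, w ∉ U → w' ∉ U → ∀ x x', Tl U W x → Tl U W x' →
    u * w * x = u' * w' * x' → u⁻¹ * u' ∈ W ∧ w⁻¹ * (u⁻¹ * u') * w' ∈ U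

-- deps:
def S_S2_RED : Prop := ∀ (G : Type) [Group G] (U W : Subgroup G),
  (∀ x ∈ U ⊔ W, ∃ n, Rw U W n false x) ∧
  (∀ n x, Rw U W n false x → ∀ g ∈ W, ∃ n' ≤ n + 1, Rw U W n' false (g * x)) ∧
  ∀ (K : Type) [Field K] [LinearOrder K] [IsStrictOrderedRing K] (f : G → K)
    (B : Bool → Bool → G → List (G × Bool) → Prop), f 1 = 0 → (∀ x y, f (x * y) ≤ f x + f y) →
    (∀ s t u, ∃ c, B s t u c) → ∀ L : List G, (∀ g ∈ L, g ∈ U ∨ g ∈ W) →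
    ∃ t C, CL U W f B false L.prod t C ∧ t ≤ (L.map f).sum

-- deps: S2_NT S2_RED
def S_S2_IO : Prop := ∀ (G T : Type) [Group G] [Group T] (U W : Subgroup G)
  (P : Bool → G → G → Prop) (j : G →* T) (ν : T), Am U W → Pt0 U W P →
  (∀ s, ∀ u ∈ U, ∀ m m', P s u m → P s u m' → Commute (j (m⁻¹ * m')) ν) →
  ∃ n ι, IsN U P j ν n ∧ IsI U W j n ι

-- deps:
-- imports: Pool.Agent.P.MP_dba3d2_lc.F.TbShr
def S_S2_COC : Prop := ∀ (G T : Type) [Group G] [Group T] (U W : Subgroup G)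
  (P : Bool → G → G → Prop) (j : G →* T) (ν : T) (n ι : Bool → G → T), IsN U P j ν n →
  IsI U W j n ι →
  (∀ x y w, Tl U W x → Tl U W y → w ∈ W → w ∉ U →
    ι false (x⁻¹ * w * y) = (ι true x)⁻¹ * j w * ι true y) ∧
  (∀ x y, Gd U W P ![1, x, x * y] → ι false (x * y) = ι false x * ι false y) ∧
  ∀ (K : Type) [Add K] (f : G → K) s x t C, CL U W f (Bk P) s x t C → cutEv j ν C * j x = ι s x

-- deps: S2_RED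
def S_S2_TRI : Prop := ∀ (G : Type) [Group G] (U W : Subgroup G) (x : Fin 3 → G),
  (∀ i, x i ∈ U ⊔ W) → ∃ g ∈ U ⊔ W, WC U W (fun i => g * x i) ∨
    ∃ s u, UC U W (fun i => g * x i) s u

-- deps: S2_NT S2_RED
def S_S2_PERS : Prop := ∀ (G : Type) [Group G] (U W W' : Subgroup G), Am U W → Am U W' →
  W' ≤ W → U ⊔ W ≤ U ⊔ W' →
  (∀ x u u', En U W x true u → En U W' x true u' → u⁻¹ * u' ∈ W) ∧
  ∀ x s u, UC U W x s u → ∃ u', UC U W' x s u' ∧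
    ∀ i, (u i)⁻¹ * u' i ∈ W ∧ (s i = false → u' i = u i)

-- deps: ROOT
def S_S2_WK : Prop := ∀ (Γ : HG) (a : Amb) (H X : Subgroup (MM Γ a)), GC0 H → H ≤ X →
  (∀ A x y z, Wk H X A x y → Wk H X A y z → Wk H X A x z) ∧
  (∀ A x y, Wk H X A x y → Wk H X A y x) ∧
  (∀ A A' x y, A ⊆ A' → Wk H X A x y → Wk H X A' x y) ∧
  (∀ g d x y, Cn H X (g * d * g⁻¹) (g * x) (g * y) ↔ Cn H X d x y) ∧
  (∀ u ∈ hatH H X, ∀ x, ∃ A : Set (Subgroup (MM Γ a)), A.Finite ∧ Wk H X A x (x * u)) ∧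
  (∀ μ, Lv H X μ → ∀ m ∈ hatH H X, m ∈ WW X μ → ∀ x,
    YA H X μ (x * m) = YA H X μ x ∧ Wk H X (YA H X μ x) x (x * m)) ∧
  ∀ x y, x⁻¹ * y ∈ X → ∀ c ∈ H, ∀ c' ∈ H, Prim c → Prim c' →
    Ep (x * c * x⁻¹) = Ep (y * c' * y⁻¹) → Wk H X {Ep (x * c * x⁻¹)} x y

-- deps: ELEM LINE S2_WK
-- imports: Pool.Agent.P.MP_dba3d2_lc.B.Axis2
def S_S2_UQ : Prop := ∀ (Γ : HG) (a : Amb) (H X : Subgroup (MM Γ a)) (μ : a.K), Lv H X μ →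
  (∀ x d, Prim d → Ep d ∈ YA H X μ x → Ll (ds x (d * x)) μ) ∧
  ∀ u ∈ hatH H X, ∀ m ∈ hatH H X, ∀ m' ∈ hatH H X, m ∈ WW X μ → m' ∈ WW X μ →
    ∀ d ∈ H, ∀ d' ∈ H, Prim d → Prim d' → ¬ Ll (ln d) μ → ¬ Ll (ln d') μ →
    ¬ Cn H X (m * d * m⁻¹) 1 u → ¬ Cn H X (m' * d' * m'⁻¹) 1 u →
    Ep (m * d * m⁻¹) = Ep (m' * d' * m'⁻¹)

-- deps: STAR
-- imports: Pool.Agent.P.MP_dba3d2_lc.F.TbS Pool.Agent.P.MP_dba3d2_lc.B.Axis2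
def S_S2_FIRST : Prop := ∀ (Γ : HG) (a : Amb) (H X : Subgroup (MM Γ a)) (μ : a.K)
  (β R : List (Lt Γ a)) (c f : MM Γ a), GC0 H → NoV β → NoG R →
  Fa H X μ (β ++ Sum.inr (some c, f) :: R) → F3 (β ++ Sum.inr (some c, f) :: R) →
  ¬ Cn H X (lv β * c * (lv β)⁻¹) 1 (lv (β ++ Sum.inr (some c, f) :: R))

-- deps: ELEM LINE S2_WK S2_UQ S2_FIRST
-- imports: Pool.Agent.P.MP_dba3d2_lc.F.TbS Pool.Agent.P.MP_dba3d2_lc.B.Axis2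
def S_S2_PC : Prop := ∀ (Γ : HG) (a : Amb) (H X : Subgroup (MM Γ a)) (μ : a.K) (d0 : MM Γ a)
  (D P : List (Lt Γ a)) (t : Bool), Lv H X μ → d0 ∈ H → Prim d0 → ¬ Ll (ln d0) μ →
  F0 H X μ D → Blk D true P t →
  (NoV P → ∀ m, ¬ Pat2 H X μ d0 t (lv P) m) ∧
  ∀ β c f P', P = β ++ Sum.inr (some c, f) :: P' → NoV β → ∀ m, Pat2 H X μ d0 t (lv P) m ↔
    m ∈ hatH H X ∧ m ∈ WW X μ ∧ Ep (m * d0 * m⁻¹) = Ep (lv β * c * (lv β)⁻¹)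

-- deps:
-- imports: Pool.Agent.P.MP_dba3d2_lc.F.TbShr Pool.Agent.P.MP_dba3d2_lc.B.Axis2
def S_S2_PT1 : Prop := ∀ (Γ : HG) (a : Amb) (H X : Subgroup (MM Γ a)) (μ : a.K) (u0 : MM Γ a),
  Big μ → Sim (ln u0) μ → ∃ p, Sim (ln p) μ ∧ Pt (hatH H X) (WW X μ) μ p (Pat1 H X μ u0) ∧
    ∀ s t u c, Bk (Pat1 H X μ u0) s t u c → OrdOn μ 1 (cutPts 1 p c) u

-- deps: ELEM LINE S2_WK S2_UQ
-- imports: Pool.Agent.P.MP_dba3d2_lc.B.Axis2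
def S_S2_PT2 : Prop := ∀ (Γ : HG) (a : Amb) (H X : Subgroup (MM Γ a)) (μ : a.K) (d0 : MM Γ a),
  Lv H X μ → d0 ∈ H → Prim d0 → Sim (ln d0) μ → Ll (md d0) μ →
  ∃ p, Sim (ln p) μ ∧ Pt (hatH H X) (WW X μ) μ p (Pat2 H X μ d0) ∧
    ∀ z, Ll (ds z (d0 * z)) μ → On μ p 1 z

-- deps: ELEM LINE S2_PC
-- imports: Pool.Agent.P.MP_dba3d2_lc.F.TbS Pool.Agent.P.MP_dba3d2_lc.B.Axis2
def S_S2_OB2 : Prop := ∀ (Γ : HG) (a : Amb) (H X : Subgroup (MM Γ a)) (μ : a.K) (d0 p : MM Γ a)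
  (D : List (Lt Γ a)), Lv H X μ → d0 ∈ H → Prim d0 → ¬ Ll (ln d0) μ →
  (∀ z, Ll (ds z (d0 * z)) μ → On μ p 1 z) → F0 H X μ D → Ad μ D → cG D ≤ 1 →
  OrdB μ p (Pat2 H X μ d0) D

-- deps: S2_TRI S2_PERS
-- imports: Pool.Agent.P.MP_dba3d2_lc.B.Axis2
def S_S2_BAD1 : Prop := ∀ (Γ : HG) (a : Amb) (H X : Subgroup (MM Γ a)) (l : ℕ → a.K)
  (x : Fin 3 → MM Γ a), Env H X l → (∀ i, x i ∈ X) → ∀ᶠ n in atTop, ∀ u0, Ls (ln u0) (l n) →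
  Gd (hatH H X) (WW X (l n)) (Pat1 H X (l n) u0) x

-- deps: ELEM LINE PERC S2_TRI S2_PERS S2_WK S2_UQ
-- imports: Pool.Agent.P.MP_dba3d2_lc.B.Axis2
def S_S2_BAD2 : Prop := ∀ (Γ : HG) (a : Amb) (H X : Subgroup (MM Γ a)) (l : ℕ → a.K)
  (x : Fin 3 → MM Γ a), Env H X l → (∀ i, x i ∈ X) → ∀ᶠ n in atTop, ∀ d0 ∈ H, Prim d0 →
  Sim (ln d0) (l n) → Gd (hatH H X) (WW X (l n)) (Pat2 H X (l n) d0) x

-- deps: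
-- imports: Pool.Agent.P.MP_dba3d2_lc.F.TbShr
def S_S2_TR0 : Prop := ∀ (Γ : HG) (a : Amb) (S : Shape Γ a) (n : ℕ),
  (∀ t, ∃ i, Sum.inr t ∈ fw S n i) ∧
  (∀ t i i', Sum.inr t ∈ fw S n i → Sum.inr t ∈ fw S n i' → i = i') ∧
  (∀ i, ((fw S n i).filterMap Sum.getRight?).Nodup) ∧
  ∀ (G : Type) [Group G] (j : MM Γ a →* G) (z : Fin (S.k n) → G) (i : Fin (S.k 0)),
    S.topG j n z i = ((fw S n i).map (Sum.elim j z)).prod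

-- deps:
-- imports: Pool.Agent.P.MP_dba3d2_lc.F.TbS
def S_S2_TR1 : Prop := ∀ (Γ : HG) (a : Amb) (H X : Subgroup (MM Γ a)) (l : ℕ → a.K)
  (S : Shape Γ a) (ty : (n : ℕ) → Fin (S.k n) → Option (MM Γ a)) (m : ℕ)
  (Q : (Fin m ⊕ Fin (S.k 0) → Γ.G) → Prop) (h : Fin m → MM Γ a)
  (y : (n : ℕ) → Fin (S.k n) → MM Γ a), Sy H l S ty Q h y → H ≤ X → (∀ n t, y n t ∈ X) →
  ∀ i, Cb H X l (fun n => NS S ty y n i) ∧ ∀ n, lv (fl (NS S ty y n i)) = y 0 i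

-- deps: S2_TR0 S2_TR1
-- imports: Pool.Agent.P.MP_dba3d2_lc.F.TbS
def S_S2_TR2 : Prop := ∀ (Γ : HG) (a : Amb) (H : Subgroup (MM Γ a)) (l : ℕ → a.K)
  (S : Shape Γ a) (ty : (n : ℕ) → Fin (S.k n) → Option (MM Γ a)) (m : ℕ)
  (Q : (Fin m ⊕ Fin (S.k 0) → Γ.G) → Prop) (h : Fin m → MM Γ a)
  (y : (n : ℕ) → Fin (S.k n) → MM Γ a), Sy H l S ty Q h y →
  ∀ n i, Opt H (l n) (NS S ty y n i)

-- deps: FS_SHR S2_TR0 S2_TR1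
-- imports: Pool.Agent.P.MP_dba3d2_lc.F.TbS
def S_S2_TR3 : Prop := ∀ (Γ : HG) (a : Amb) (H X : Subgroup (MM Γ a)) (l : ℕ → a.K)
  (S : Shape Γ a) (ty : (n : ℕ) → Fin (S.k n) → Option (MM Γ a)) (m : ℕ)
  (Q : (Fin m ⊕ Fin (S.k 0) → Γ.G) → Prop) (h : Fin m → MM Γ a)
  (y : (n : ℕ) → Fin (S.k n) → MM Γ a), Sy H l S ty Q h y → GC0 H → GC X → H ≤ X → Tr Q →
  (∀ i, h i ∈ H) → (∀ n t, y n t ∈ X) → Shr H X l (NS S ty y)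

-- deps:
-- imports: Pool.Agent.P.MP_dba3d2_lc.F.TbS
def S_S2_INV : Prop := ∀ (Γ : HG) (a : Amb) (H X : Subgroup (MM Γ a)) (l : ℕ → a.K)
  (N : ℕ → List (NL Γ a)), Ch0 H X l N → Ch0 H X l fun n => ni (N n)

-- deps:
-- imports: Pool.Agent.P.MP_dba3d2_lc.F.TbS
def S_S2_REPL : Prop := ∀ (Γ : HG) (a : Amb) (H : Subgroup (MM Γ a)) (μ : a.K)
  (N : List (NL Γ a)) (A B r : List (Lt Γ a)) (x : Vr Γ a), 0 ≤ μ → (∀ s ∈ N, WD μ H s) →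
  fl N = A ++ Sum.inr x :: B → Rp μ H x r →
  ∃ N' : List (NL Γ a), (N'.map fun s => sk (tp s)) = N.map (fun s => sk (tp s)) ∧
    (∀ s ∈ N', WD μ H s) ∧ Ll (nc N' - nc N) μ ∧ fl N' = A ++ r ++ B

-- deps: S2_REPL
-- imports: Pool.Agent.P.MP_dba3d2_lc.F.TbS
def S_S2_OPT : Prop := ∀ (Γ : HG) (a : Amb) (H : Subgroup (MM Γ a)) (μ : a.K)
  (N : List (NL Γ a)), 0 ≤ μ → (∀ s ∈ N, WD μ H s) → Opt H μ N →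
  (∀ (A B r : List (Lt Γ a)) x, fl N = A ++ Sum.inr x :: B → Rp μ H x r → lv r = x.2 →
    cG [Sum.inr x] < cG r ∨ (cG [Sum.inr x] = cG r ∧ 1 ≤ cV r)) ∧
  (∀ (A β B : List (Lt Γ a)) x x' v, fl N = A ++ Sum.inr x :: β ++ Sum.inr x' :: B →
    HasT x.1 v → Ll (ln v) μ → v * lv β ≠ x.2 * lv β * x'.2) ∧
  ∀ (N1 N2 : List (NL Γ a)) (y : MM Γ a) (A D B : List (Lt Γ a)),
    N = N1 ++ Sum.inr ((none, y), A ++ D ++ B) :: N2 → Ll (ln (lv D)) μ → cG D ≤ 1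

-- deps: ELEM LINE ROOT S2_OPT
-- imports: Pool.Agent.P.MP_dba3d2_lc.F.TbS Pool.Agent.P.MP_dba3d2_lc.B.Axis2
def S_S2_F12 : Prop := ∀ (Γ : HG) (a : Amb) (H X : Subgroup (MM Γ a)) (μ : a.K)
  (N : List (NL Γ a)), Lv H X μ → (∀ s ∈ N, WD μ H s) → (∀ x ∈ fl N, vL x ∈ X) → Opt H μ N →
  Fa H X μ (fl N)

-- deps: ELEM LINE S2_OPT
-- imports: Pool.Agent.P.MP_dba3d2_lc.F.TbS Pool.Agent.P.MP_dba3d2_lc.B.Axis2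
def S_S2_F34 : Prop := ∀ (Γ : HG) (a : Amb) (H X : Subgroup (MM Γ a)) (μ : a.K)
  (N : List (NL Γ a)), 0 ≤ μ → (∀ s ∈ N, WD μ H s) → Opt H μ N → Fa H X μ (fl N) →
  F3 (fl N) ∧ F4 μ (fl N)

-- deps:
-- imports: Pool.Agent.P.MP_dba3d2_lc.F.TbS
def S_S2_KID : Prop := ∀ (Γ : HG) (a : Amb) (H X : Subgroup (MM Γ a)) (μ ν : a.K)
  (N : List (NL Γ a)), H ≤ X → (∀ s ∈ N, WD ν H s) → Fa H X ν (fl N) → Fa H X μ (N.map tp) → Kid N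

-- deps:
-- imports: Pool.Agent.P.MP_dba3d2_lc.F.TbS Pool.Agent.P.MP_dba3d2_lc.B.Axis2
def S_S2_FAR5 : Prop := ∀ (Γ : HG) (a : Amb) (H : Subgroup (MM Γ a)) (μ ν : a.K)
  (N : List (NL Γ a)), Big ν → Ll ν μ → (∀ s ∈ N, WD ν H s) → Kid N → F5 μ (N.map tp) → Far5 ν N

-- deps: S2_OPT
-- imports: Pool.Agent.P.MP_dba3d2_lc.F.TbS Pool.Agent.P.MP_dba3d2_lc.B.Axis2
def S_S2_F5 : Prop := ∀ (Γ : HG) (a : Amb) (H : Subgroup (MM Γ a)) (μ : a.K)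
  (N : List (NL Γ a)), 0 ≤ μ → (∀ s ∈ N, WD μ H s) → Opt H μ N → Far5 μ N → F5 μ (fl N)

-- deps: ELEM LINE
-- imports: Pool.Agent.P.MP_dba3d2_lc.F.TbS Pool.Agent.P.MP_dba3d2_lc.B.Axis2
def S_S2_FAR4 : Prop := ∀ (Γ : HG) (a : Amb) (H : Subgroup (MM Γ a)) (μ ν : a.K)
  (N : List (NL Γ a)), Big ν → Ll ν μ → (∀ s ∈ N, WD ν H s) → Kid N → F4 μ (N.map tp) → Far4 ν N

-- deps: S2_INV S2_F12 S2_F34 S2_KID S2_FAR5 S2_F5 S2_FAR4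
-- imports: Pool.Agent.P.MP_dba3d2_lc.F.TbS
def S_S2_F0 : Prop := ∀ (Γ : HG) (a : Amb) (H X : Subgroup (MM Γ a)) (l : ℕ → a.K)
  (N : ℕ → List (NL Γ a)), Env H X l → Ch0 H X l N → ∀ n, Ni H X (l (n + 1)) (N (n + 1))

-- deps: TRUNC GRAFT GT
-- imports: Pool.Agent.P.MP_dba3d2_lc.B.Axis2
def S_S2_LV : Prop := ∀ (Γ : HG) (a : Amb) (H X : Subgroup (MM Γ a)) (μ : a.K), Big μ → GC0 H →
  GC0 X → X = H ⊔ WW X μ → Lv H X μ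

-- deps: CAP S2_LV
-- imports: Pool.Agent.P.MP_dba3d2_lc.B.Axis2
def S_S2_ENV : Prop := ∀ (Γ : HG) (a : Amb) (H : Subgroup (MM Γ a)) (l : ℕ → a.K) (S : Shape Γ a)
  (y : (n : ℕ) → Fin (S.k n) → MM Γ a), GC H → (∀ n, Big (l n)) → (∀ n, Ll (l (n + 1)) (l n)) →
  (∀ n i, Ls (ln (y n i)) (l n)) → (∀ n i j, S.h n i j ∈ H) → (∀ n, y n = S.up n (y (n + 1))) →
  ∃ X, Env H X l ∧ ∀ n t, y n t ∈ X

-- deps: S2_COC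
-- imports: Pool.Agent.P.MP_dba3d2_lc.F.TbS
def S_S2_MULT : Prop := ∀ (Γ : HG) (a : Amb) (H X : Subgroup (MM Γ a)) (μ : a.K) (T : Type)
  [Group T] (P : Bool → MM Γ a → MM Γ a → Prop) (j : MM Γ a →* T) (ν : T)
  (n ι : Bool → MM Γ a → T) (N : List (NL Γ a)), 0 ≤ μ → H ≤ X → IsN (hatH H X) P j ν n →
  IsI (hatH H X) (WW X μ) j n ι → F0 H X μ (fl N) → ExtP P N → ExtP P (ni N) →
  ι false (lv (fl N)) = (N.map fun s => ι false (lv (ex s))).prod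

-- deps:
-- imports: Pool.Agent.P.MP_dba3d2_lc.F.TbS
def S_S2_EXT1 : Prop := ∀ (Γ : HG) (a : Amb) (H X : Subgroup (MM Γ a)) (μ : a.K) (u0 : MM Γ a)
  (N : List (NL Γ a)), 0 ≤ μ → Ls (ln u0) μ → Far5 μ N → ExtP (Pat1 H X μ u0) N

-- deps: ELEM LINE S2_PC
-- imports: Pool.Agent.P.MP_dba3d2_lc.F.TbS Pool.Agent.P.MP_dba3d2_lc.B.Axis2
def S_S2_EXT2 : Prop := ∀ (Γ : HG) (a : Amb) (H X : Subgroup (MM Γ a)) (μ : a.K) (d0 : MM Γ a)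
  (N : List (NL Γ a)), Lv H X μ → d0 ∈ H → Prim d0 → Sim (ln d0) μ → Ni H X μ N → Adj N →
  ExtP (Pat2 H X μ d0) N

-- deps:
-- imports: Pool.Agent.P.MP_dba3d2_lc.F.TbS
def S_S2_ADJ : Prop := ∀ (Γ : HG) (a : Amb) (N : ℕ → List (NL Γ a)),
  (∀ n, (N (n + 1)).map tp = fl (N n)) →
  (∀ᶠ n in atTop, Sg (N n) ∧ Kid (N n)) → ∀ᶠ n in atTop, Adj (N n)

-- deps:
-- imports: Pool.Agent.P.MP_dba3d2_lc.F.TbShr Pool.Agent.P.MP_dba3d2_lc.B.Axis2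
def S_S2_ORD : Prop := ∀ (Γ : HG) (a : Amb) (U W : Subgroup (MM Γ a)) (μ : a.K) (p q : MM Γ a)
  (B : Bool → Bool → MM Γ a → List (MM Γ a × Bool) → Prop),
  (∀ s t u c, B s t u c → OrdOn μ 1 (cutPts p q c) u) →
  ∀ s x t C, CL U W ln B s x t C → Ll (t - ln x) μ → OrdOn μ 1 (cutPts p q C) x

-- deps: S2_RED S2_ORD
-- imports: Pool.Agent.P.MP_dba3d2_lc.F.TbShr Pool.Agent.P.MP_dba3d2_lc.B.Axis2
def S_S2_CW : Prop := ∀ (Γ : HG) (a : Amb) (H X : Subgroup (MM Γ a)) (μ : a.K)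
  (P : Bool → MM Γ a → MM Γ a → Prop), Lv H X μ → Pt0 (hatH H X) (WW X μ) P →
  ∃ C : MM Γ a → List (MM Γ a × Bool),
    (∀ w ∈ X, ∃ t, CL (hatH H X) (WW X μ) ln (Bk P) false w t (C w)) ∧ (∀ w ∈ H, C w = []) ∧
    ∀ w ∈ X, C w ≠ [] → Ls μ (ln w) ∧ OrdOn (ln w) 1 (cutPts 1 1 (C w)) w

-- deps: S2_ORD
-- imports: Pool.Agent.P.MP_dba3d2_lc.F.TbS Pool.Agent.P.MP_dba3d2_lc.F.TbShr
def S_S2_ENT : Prop := ∀ (Γ : HG) (a : Amb) (H X : Subgroup (MM Γ a)) (μ : a.K) (p : MM Γ a)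
  (P : Bool → MM Γ a → MM Γ a → Prop) (D : List (Lt Γ a)), 0 ≤ μ → H ≤ X → F0 H X μ D → Ad μ D →
  OrdB μ p P D → ∃ C t, CL (hatH H X) (WW X μ) ln (Bk P) false (lv D) t C ∧
    OrdOn μ 1 (cutPts 1 p C) (lv D) ∧ (C = [] → NoPat P D) ∧ (NoG D → C = [])

-- deps: S2_IO S2_COC S2_MULT S2_CW S2_ENT
-- imports: Pool.Agent.P.MP_dba3d2_lc.F.TbS
def S_S2_MACH : Prop := ∀ (Γ : HG) (a : Amb) (H X : Subgroup (MM Γ a)) (l : ℕ → a.K) (k : ℕ)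
  (N : ℕ → Fin k → List (NL Γ a)), Env H X l → Shr H X l N →
  ∃ A : Finset (MM Γ a), (∀ w ∈ A, w ∈ X) ∧ ∀ (n : ℕ) (p : MM Γ a)
    (P : Bool → MM Γ a → MM Γ a → Prop), Sim (ln p) (l n) →
    Pt (hatH H X) (WW X (l n)) (l n) p P →
    (∀ w ∈ A, ∀ w' ∈ A, Gd (hatH H X) (WW X (l n)) P ![1, w, w * w']) →
    (∀ i, Ni H X (l n) (N n i) ∧ ExtP P (N n i) ∧ ExtP P (ni (N n i)) ∧
      ∀ e D, Sum.inr (e, D) ∈ N n i → OrdB (l n) p P D) →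
    ∀ i e D, Sum.inr (e, D) ∈ N n i → NoPat P D

-- deps: S2_INV S2_F0 S2_PT1 S2_BAD1 S2_EXT1 S2_MACH
-- imports: Pool.Agent.P.MP_dba3d2_lc.F.TbS
def S_S2_PART1 : Prop := ∀ (Γ : HG) (a : Amb) (H X : Subgroup (MM Γ a)) (l : ℕ → a.K) (k : ℕ)
  (N : ℕ → Fin k → List (NL Γ a)), Env H X l → (∀ i, Ch0 H X l fun n => N n i) → Shr H X l N →
  ∀ᶠ n in atTop, ∀ i, Sg (N n i)

-- deps: S2_INV S2_F0 S2_PC S2_PT2 S2_OB2 S2_BAD2 S2_EXT2 S2_ADJ S2_MACH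
-- imports: Pool.Agent.P.MP_dba3d2_lc.F.TbS Pool.Agent.P.MP_dba3d2_lc.B.Axis2
def S_S2_PART2 : Prop := ∀ (Γ : HG) (a : Amb) (H X : Subgroup (MM Γ a)) (l : ℕ → a.K) (k : ℕ)
  (N : ℕ → Fin k → List (NL Γ a)), Env H X l → (∀ i, Ch0 H X l fun n => N n i) → Shr H X l N →
  (∀ᶠ n in atTop, ∀ i, Sg (N n i)) →
  ∀ᶠ n in atTop, ∀ i e D, Sum.inr (e, D) ∈ N n i → cV D ≤ 1

end Pool.Agent.P.MP_dba3d2_lc
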