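import Pool.Agent.P.MP_dba3d2_lc.F.DefsShr

/-! Interface, chapter F: the shrinking step of the limit stage. -/

namespace Pool.Agent.P.MP_dba3d2_lc

open Filter

-- deps: REFL2 CUT
def S_FS_SHR : Prop := ∀ (Γ : HG) (a : Amb) (X : Subgroup (MM Γ a)) (S : Shape Γ a) (m : ℕ)
  (Q : (Fin m ⊕ Fin (S.k 0) → Γ.G) → Prop) (h : Fin m → MM Γ a) (x : Fin (S.k 0) → MM Γ a),
  GC X → Tr Q → (∀ i, h i ∈ X) → (∀ i, x i ∈ X) → St Q (Sum.elim h x) →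
  ∃ A : Finset (MM Γ a), (∀ w ∈ A, w ∈ X) ∧ (∀ i, x i ∈ A) ∧
    ∀ (n : ℕ) (μ : a.K) (p q : MM Γ a) (ty : Fin (S.k n) → Option (MM Γ a))
      (y : Fin (S.k n) → MM Γ a) (C : MM Γ a → List (MM Γ a × Bool))
      (D : Fin (S.k n) → List (MM Γ a × Bool)),
      Big μ → Sim (ds p q) μ → (∀ i, HasT (ty i) (y i)) →
      (∀ z, (∀ i, HasT (ty i) (z i)) → St Q (Sum.elim h (S.top n z)) → Ll (tl y - tl z) μ) →
      (∀ i, ty i ≠ none → D i = []) →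
      (∀ w ∈ A, w ∈ Set.range h ∨ w ∈ std Γ a → C w = []) →
      (∀ w ∈ A, C w ≠ [] → Ls μ (ln w) ∧ OrdOn (ln w) 1 ((C w).map fun s => s.1 * p) w) →
      (∀ i, OrdOn μ 1 (cutPts p q (D i)) (y i)) →
      (∀ (G : Type) [Group G] (j : MM Γ a →* G) (ν : G),
        (∀ g, Stab μ p q g → Commute (j g) ν) →
        (∀ w ∈ A, ∀ w' ∈ A, w * w' ∈ A → cutEv j ν (C (w * w')) =
          cutEv j ν (C w) * cutEv j ν (cutMv w (C w'))) ∧
        ∀ i, cutEv j ν (C (x i)) * j (x i) =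
          S.topG j n (fun t => cutEv j ν (D t) * j (y t)) i) →
      ∀ i, D i = []

end Pool.Agent.P.MP_dba3d2_lc
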