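import Pool.Agent.P.MP_dba3d2_lc.F.Iface
import Pool.Agent.P.MP_dba3d2_lc.B.Iface
import Pool.Agent.P.MP_dba3d2_lc.F.IfaceK
import Pool.Agent.P.MP_dba3d2_lc.F.TbK

/-! Step KEY of the stability project. -/

namespace Pool.Agent.P.MP_dba3d2_lc

open Filter

theorem p_KEY (hCOUNT : S_COUNT) (hFK_MAX : S_FK_MAX) (hFK_CORE : S_FK_CORE) :
    S_KEY := by
  intro Γ a H hH
  refine ⟨le_top, fun m k Q hQ h hh x _ hx => ?_⟩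
  obtain ⟨H0, l0, l1, l2, l3⟩ := hCOUNT Γ a H (Set.range h) hH (Set.countable_range h)
    (Set.range_subset_iff.2 hh)
  obtain ⟨H1, k1, k2⟩ := hFK_MAX Γ a H0 l3 l2
  have e : ∀ i, h i ∈ H0 := fun i => l1 ⟨i, rfl⟩
  obtain ⟨y, m1, m2⟩ := hFK_CORE Γ a H1 k {z | St Q (Sum.elim h z)} k1
    ⟨m, Q, h, hQ, fun i => k2.1 (e i), fun _ => Iff.rfl⟩ ⟨x, hx⟩
  obtain ⟨z, n1, n2⟩ := k2.2 m k Q hQ h e y m2 m1
  exact ⟨z, fun i => l0 (n1 i), n2⟩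

end Pool.Agent.P.MP_dba3d2_lc
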