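import Pool.Agent.P.MP_dba3d2_lc.F.TbC
import Pool.Agent.P.MP_dba3d2_lc.A.A_fr2
import Pool.Agent.P.MP_dba3d2_lc.A.Frame
import Pool.Agent.P.MP_dba3d2_lc.E.E_ge
import Pool.Agent.P.MP_dba3d2_lc.E.E_trl

/-! Toolbox for adjunctions. -/

namespace Pool.Agent.P.MP_dba3d2_lc

open Filter

namespace FA

/-- two homomorphisms that are inverse on generators -/
theorem iso {M M' ι : Type} [Group M] [Group M'] {B : Subgroup M} (φ : M →* M') {u z w : ι → M}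
    {u' : ι → M'} (hz : ∀ i, z i ∈ B) (hw : ∀ i, w i ∈ B)
    (θ : ↥(B ⊔ Subgroup.closure (Set.range u)) →* M')
    (ρ : ↥(B.map φ ⊔ Subgroup.closure (Set.range u')) →* M)
    (h1 : ∀ t : ↥(B ⊔ Subgroup.closure (Set.range u)), (t : M) ∈ B → θ t = φ t)
    (h2 : ∀ (t : ↥(B ⊔ Subgroup.closure (Set.range u))) i, (t : M) = u i →
      θ t = φ (z i) * u' i * φ (w i))
    (h3 : ∀ (t : ↥(B.map φ ⊔ Subgroup.closure (Set.range u'))) x, x ∈ B → (t : M') = φ x → ρ t = x)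
    (h4 : ∀ (t : ↥(B.map φ ⊔ Subgroup.closure (Set.range u'))) i, (t : M') = u' i →
      ρ t = (z i)⁻¹ * u i * (w i)⁻¹) :
    Function.Injective θ ∧ θ.range = B.map φ ⊔ Subgroup.closure (Set.range u') := by
  have m1 : ∀ x ∈ B, φ x ∈ B.map φ ⊔ Subgroup.closure (Set.range u') := fun x hx =>
    Subgroup.mem_sup_left ⟨x, hx, rfl⟩
  have m2 : ∀ i, u' i ∈ B.map φ ⊔ Subgroup.closure (Set.range u') := fun i =>
    Subgroup.mem_sup_right (Subgroup.subset_closure ⟨i, rfl⟩)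
  have m3 : ∀ i, u i ∈ B ⊔ Subgroup.closure (Set.range u) := fun i =>
    Subgroup.mem_sup_right (Subgroup.subset_closure ⟨i, rfl⟩)
  have mem : ∀ t, θ t ∈ B.map φ ⊔ Subgroup.closure (Set.range u') := by
    have : B ⊔ Subgroup.closure (Set.range u) ≤
        ((B.map φ ⊔ Subgroup.closure (Set.range u')).comap θ).map (Subgroup.subtype _) := by
      refine sup_le (fun x hx => ⟨⟨x, Subgroup.mem_sup_left hx⟩, ?_, rfl⟩)
        ((Subgroup.closure_le _).2 ?_)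
      · exact Subgroup.mem_comap.2 (h1 ⟨x, _⟩ hx ▸ m1 x hx)
      · rintro _ ⟨i, rfl⟩
        exact ⟨⟨u i, m3 i⟩, Subgroup.mem_comap.2
          (h2 ⟨u i, _⟩ i rfl ▸ mul_mem (mul_mem (m1 _ (hz i)) (m2 i)) (m1 _ (hw i))), rfl⟩
    intro t
    obtain ⟨s, hs, e⟩ := this t.2
    exact (Subtype.ext e : s = t) ▸ hs
  have e : ρ.comp (θ.codRestrict _ mem) = Subgroup.subtype _ := by
    refine ET.hom_ext_sup (fun t ht => h3 _ _ ht (h1 t ht)) fun t i ht => ?_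
    have : θ.codRestrict _ mem t = ⟨_, m1 _ (hz i)⟩ * ⟨_, m2 i⟩ * ⟨_, m1 _ (hw i)⟩ :=
      Subtype.ext (h2 t i ht)
    rw [MonoidHom.comp_apply, this, map_mul, map_mul, h3 _ _ (hz i) rfl, h4 _ i rfl,
      h3 _ _ (hw i) rfl, Subgroup.coe_subtype, ht]
    group
  refine ⟨fun s t h => Subtype.ext ?_, le_antisymm ?_ (sup_le ?_ ((Subgroup.closure_le _).2 ?_))⟩
  · have : θ.codRestrict _ mem s = θ.codRestrict _ mem t := Subtype.ext h
    exact (DFunLike.congr_fun e s).symm.trans ((congrArg ρ this).trans (DFunLike.congr_fun e t))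
  · rintro _ ⟨t, rfl⟩
    exact mem t
  · rintro _ ⟨x, hx, rfl⟩
    exact ⟨⟨x, Subgroup.mem_sup_left hx⟩, h1 _ hx⟩
  · rintro _ ⟨i, rfl⟩
    refine ⟨(⟨z i, Subgroup.mem_sup_left (hz i)⟩ : ↥(B ⊔ Subgroup.closure (Set.range u)))⁻¹ *
      ⟨u i, m3 i⟩ *
      (⟨w i, Subgroup.mem_sup_left (hw i)⟩ : ↥(B ⊔ Subgroup.closure (Set.range u)))⁻¹, ?_⟩
    rw [map_mul, map_mul, map_inv, map_inv, h1 _ (hz i), h2 _ i rfl, h1 _ (hw i)]
    group

variable {Γ : HG} {a : Amb} {μ : a.K} {H H' W P : Subgroup (MM Γ a)} {c h y : MM Γ a}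

/-- an embedding over `H` into the ultrapower of `H` shows that `H` is witness closed -/
theorem wc_of_hom (hle : H ≤ H') (hG : GC H') (θ : H' →* MM Γ (a.pow U0))
    (hi : Function.Injective θ) (hr : GC θ.range)
    (h1 : ∀ x : H', (x : MM Γ a) ∈ H → θ x = (a.dg U0).hom Γ x)
    (h2 : θ.range ≤ UT U0 fun _ => H) : Wc H H' := by
  refine ⟨hle, fun m k Q hQ h hh x hx hs => ?_⟩
  choose y hy ey using fun i => h2 ⟨⟨x i, hx i⟩, rfl⟩
  have k := (hQ a _ H' θ hG hr hi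
    (Sum.elim (fun i => ⟨h i, hle (hh i)⟩) fun i => ⟨x i, hx i⟩)).1 (by
      convert hs using 2 with i
      cases i <;> rfl)
  have e : (fun i => θ (Sum.elim (fun i => ⟨h i, hle (hh i)⟩) (fun i => ⟨x i, hx i⟩) i)) =
      fun i => a.mk' U0 fun j => Sum.elim h (fun i => y i j) i := by
    funext i
    cases i with
    | inl i => exact (h1 _ (hh i)).trans (mk'_hom U0 _).symm
    | inr i => exact ey i
  rw [e, st_mk'] at k
  obtain ⟨j, hj⟩ := k.exists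
  exact ⟨fun i => y i j, fun i => hy i j, hj⟩

theorem map_le_UT (H : Subgroup (MM Γ a)) : H.map ((a.dg U0).hom Γ) ≤ UT U0 fun _ => H := by
  rintro _ ⟨x, hx, rfl⟩
  exact ⟨fun _ => x, fun _ => hx, (mk'_hom U0 x).symm⟩

theorem sc_of (hμ : Big μ) (nf : AddNF P {g | g ∈ H ∨ g ∈ W}) (top : TopOut μ (H ⊓ ball Γ μ) W)
    (hh : h ∈ H) (hs : Sim (ln h) μ) : Sc P H := by
  intro g hg hb
  obtain ⟨l, l1, l2, l3, -⟩ := nf g hg
  obtain ⟨x, hx, s⟩ := E_geA.letter hb l l2 (l3 hb)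
  by_cases e : x ∈ H
  · exact ⟨x, e, s⟩
  have w := (l1 x hx).resolve_left e
  exact ⟨h, hh, s.trans' (Sim.trans' ⟨ball_ls hμ top.bd w, top.top x w fun k => e k.1⟩ hs.symm')⟩

/-- the exponents as a homomorphism -/
def expH (c : MM Γ a) (k : ℚ →+ a.Z) : Multiplicative ℚ →* MM Γ a :=
  MonoidHom.mk' (fun q => ipow c (k q.toAdd)) fun q r => es_add c k q.toAdd r.toAdd

open A_fr2 in
theorem legal (hT : S_TORS) (hE : S_ELEM) {K : Subgroup Γ.G} (hy : y ∉ std Γ a) (hK : Finite K)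
    (hc : ∀ k ∈ K, Commute y (cst Γ a k))
    (hs : ∀ g ∈ std Γ a, y⁻¹ * g * y ∈ std Γ a → g ∈ K.map (cst Γ a)) : Legal Γ K := by
  induction y using Germ.inductionOn with | h f => ?_
  have hZ : ∀ᶠ j in (a.V : Filter a.I), f j ∈ Subgroup.centralizer (K : Set Γ.G) := by
    have h1 : ∀ᶠ j in (a.V : Filter a.I), ∀ k ∈ (K : Set Γ.G), k * f j = f j * k :=
      (eventually_all_finite (Set.toFinite _)).2 fun k hk => Germ.coe_eq.1 (hc k hk).symm.eq
    exact h1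
  refine ⟨hK, ?_, fun R hR hn r hr => ?_⟩
  · obtain ⟨x, hx, hxi⟩ : ∃ x ∈ Subgroup.centralizer (K : Set Γ.G), ¬ IsOfFinOrder x := by
      by_contra hne
      push Not at hne
      have h1 := (hT Γ a ((Subgroup.centralizer (K : Set Γ.G)).map (cst Γ a)) (by
        rintro _ ⟨x, hx, rfl⟩
        exact fin_cst.2 (hne x hx))).1
      have h2 : (cst Γ a '' (Subgroup.centralizer (K : Set Γ.G) : Set Γ.G)).Finite :=
        Set.toFinite ((Subgroup.centralizer (K : Set Γ.G)).map (cst Γ a) : Set (MM Γ a))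
      exact hy (std_of_fin (h2.of_finite_image cst_injective.injOn) hZ)
    by_contra hne
    have h1 : ∀ γ ∈ Subgroup.centralizer (K : Set Γ.G),
        Commute (x ^ Γ.e) ((γ * x * γ⁻¹) ^ Γ.e) := fun γ hγ => by
      by_contra h
      exact hne ⟨x, hx, γ * x * γ⁻¹, mul_mem (mul_mem hγ hx) (inv_mem hγ), hxi,
        fun h' => hxi (by simpa [mul_assoc] using (MulAut.conj γ⁻¹).toMonoidHom.isOfFinOrder h'), h⟩
    have h2 : Commute (cst Γ a x ^ Γ.e)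
        (((Germ.ofFun f : MM Γ a) * cst Γ a x * (Germ.ofFun f : MM Γ a)⁻¹) ^ Γ.e) :=
      Germ.coe_eq.2 (hZ.mono fun j hj => (h1 _ hj).eq)
    generalize (Germ.ofFun f : MM Γ a) = y at *
    have hc1 : ¬ IsOfFinOrder (cst Γ a x) := fun h => hxi (fin_cst.1 h)
    have hc2 : ¬ IsOfFinOrder (y * cst Γ a x * y⁻¹) := mt (finOrder_conj _ _).1 hc1
    obtain ⟨hc3, e2⟩ := Ep_pow hE hc2 Γ.good.pos.ne'
    have e1 := Ep_eq hE hc1 (mem_Ep.2 h2.symm) hc3
    have h3 : InE (cst Γ a x) y := ((hE Γ a _ hc1).2.2.2.1 y).2 (e2.symm.trans e1)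
    have h4 : cst Γ a x ^ Γ.e ∈ std Γ a := ⟨x ^ Γ.e, map_pow _ _ _⟩
    have h5 : y⁻¹ * cst Γ a x ^ Γ.e * y ∈ std Γ a := by
      have := h3.inv
      rw [InE, inv_inv] at this
      rcases this with h | h <;> rw [h]
      exacts [h4, inv_mem h4]
    obtain ⟨k, hk, e⟩ := hs _ h4 h5
    refine (Ep_pow hE hc1 Γ.good.pos.ne').1 ?_
    rw [← e]
    exact fin_cst.2 (K.subtype.isOfFinOrder (isOfFinOrder_of_finite (⟨k, hk⟩ : K)))
  · have h1 : (Germ.ofFun f : MM Γ a)⁻¹ * cst Γ a r * Germ.ofFun f ∈ std Γ a :=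
      std_of_fin (s := R) (f := fun j => (f j)⁻¹ * r * f j) (Set.toFinite _)
        (hZ.mono fun j hj => by simpa using hn _ (inv_mem hj) r hr)
    obtain ⟨k, hk, e⟩ := hs _ ⟨r, rfl⟩ h1
    rwa [← cst_injective e]

end FA

end Pool.Agent.P.MP_dba3d2_lc
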