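import Pool.Agent.P.MP_dba3d2_lc.F.Iface
import Pool.Agent.P.MP_dba3d2_lc.A.Iface
import Pool.Agent.P.MP_dba3d2_lc.B.Iface
import Pool.Agent.P.MP_dba3d2_lc.C.IfaceP
import Pool.Agent.P.MP_dba3d2_lc.F.TbA
import Pool.Agent.P.MP_dba3d2_lc.E.E_chi
import Pool.Agent.P.MP_dba3d2_lc.E.E_sz

/-! Step LIM of the stability project. -/

namespace Pool.Agent.P.MP_dba3d2_lc

open Filter ET

namespace LimA

variable {Γ : HG} {a : Amb} {H : Subgroup (MM Γ a)} {c f g u x y : MM Γ a} {χ : MM Γ a → a.Z}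
  {P : a.K → Prop} {j : a.Z} {l : ℕ → a.K}

/-- the exponent map of a primitive element -/
structure Chi (c : MM Γ a) (χ : MM Γ a → a.Z) : Prop where
  pr : Prim c
  tor : ∀ f ∈ Ep c, IsOfFinOrder (f⁻¹ * ipow c (χ f))
  mul : ∀ f ∈ Ep c, ∀ g ∈ Ep c, χ (f * g) = χ f + χ g
  inv : ∀ f ∈ Ep c, χ f⁻¹ = - χ f
  zero : ∀ f ∈ Ep c, χ f = 0 ↔ IsOfFinOrder f
  pow : ∀ f ∈ Ep c, ∀ n : ℕ, χ (f ^ n) = (n : a.Z) * χ f
  zpow : ∀ f ∈ Ep c, ∀ n : ℤ, χ (f ^ n) = (n : a.Z) * χ f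
  ipow : ∀ k, χ (ipow c k) = k
  one : χ c = 1

/-- classes of small lengths -/
structure Sm (P : a.K → Prop) : Prop where
  add : ∀ {s t}, P s → P t → P (s + t)
  ls : ∀ {s t}, Ls s t → P t → P s

theorem Sm.le (h : Sm P) {s t : a.K} (e : s ≤ t) (k : P t) : P s := h.ls (Ls.of_le e) k

theorem sm_ls (μ : a.K) : Sm fun s : a.K => Ls s μ := ⟨Ls.add, Ls.trans'⟩

theorem sm_all (l : ℕ → a.K) : Sm fun s : a.K => ∀ n, Ls s (l n) :=
  ⟨fun h k n => (h n).add (k n), fun h k n => h.trans' (k n)⟩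

/-- `j` is near an exponent of `H` -/
def Nr (H : Subgroup (MM Γ a)) (c : MM Γ a) (χ : MM Γ a → a.Z) (P : a.K → Prop) (j : a.Z) : Prop :=
  ∃ f ∈ H, f ∈ Ep c ∧ P (|zK j - zK (χ f)| * md c)

theorem Nr.zmul (C : Chi c χ) (S : Sm P) (h : Nr H c χ P j) (s : ℤ) :
    Nr H c χ P ((s : a.Z) * j) := by
  obtain ⟨f, h1, h2, h3⟩ := h
  refine ⟨f ^ s, zpow_mem h1 s, zpow_mem h2 s, S.ls ⟨s.natAbs, le_of_eq ?_⟩ h3⟩
  rw [C.zpow f h2, zK_mul, zK_mul, zK_intCast, ← mul_sub, abs_mul, Nat.cast_natAbs, Int.cast_abs,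
    mul_assoc]

theorem Nr.pure (C : Chi c χ) (S : Sm P) (hH : GC0 H) (hc : c ∈ H) (hm : P (md c)) {N : ℕ}
    (hN : 0 < N) (h : Nr H c χ P ((N : a.Z) * j)) : Nr H c χ P j := by
  obtain ⟨f, h1, h2, h3⟩ := h
  obtain ⟨g, hg, eg, r, t⟩ := hH.pur c hc C.pr f h1 h2 N hN
  have e2 := pow_mem eg N
  have e3 := pow_mem (self_mem_Ep c) r
  have t1 := congrArg zK ((C.zero _ (mul_mem (inv_mem h2) (mul_mem e2 e3))).2 t)
  rw [C.mul _ (inv_mem h2) _ (mul_mem e2 e3), C.mul _ e2 _ e3, C.inv _ h2, C.pow _ eg,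
    C.pow _ (self_mem_Ep c), C.one, mul_one, zK_add, zK_add, zK_neg, zK_mul, zK_natCast,
    zK_natCast, zK_zero] at t1
  rw [zK_mul, zK_natCast] at h3
  refine ⟨g, hg, eg, S.le ?_ (S.add h3 (S.ls ⟨r, le_rfl⟩ hm))⟩
  have u1 : (1 : a.K) ≤ N := by exact_mod_cast hN
  have u2 : (N : a.K) * (zK j - zK (χ g)) = (N * zK j - zK (χ f)) + r := by linear_combination -t1
  have u3 := abs_add_le ((N : a.K) * zK j - zK (χ f)) r
  rw [← u2, abs_mul, Nat.abs_cast, Nat.abs_cast] at u3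
  have u4 := mul_le_mul_of_nonneg_right u1 (abs_nonneg (zK j - zK (χ g)))
  nlinarith [mul_le_mul_of_nonneg_right (u4.trans u3) (md_nonneg c)]

theorem Nr.line (C : Chi c χ) (S : Sm P) (hH : GC0 H) (hc : c ∈ H) (hm : P (md c))
    {k : ℚ →+ a.Z} {q : ℚ} (hq : q ≠ 0) (h : Nr H c χ P (k q)) (q' : ℚ) : Nr H c χ P (k q') := by
  refine Nr.pure C S hH hc hm (q' / q).den_pos ?_
  have e : (((q' / q).den : ℕ) : a.Z) * k q' = ((q' / q).num : a.Z) * k q := by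
    rw [← nsmul_eq_mul, ← zsmul_eq_mul, ← map_nsmul, ← map_zsmul, nsmul_eq_mul, zsmul_eq_mul,
      ← Rat.den_mul_eq_num, mul_assoc, div_mul_cancel₀ _ hq]
  exact e ▸ h.zmul C S _

/-- displacement on the axis -/
theorem Chi.up (C : Chi c χ) (hS : S_E_SZ) (hg : g ∈ Ep c) (cy : Ls (ds y (c * y)) (md c)) :
    Ls (ds y (g * y)) (|zK (χ g)| * md c + md c) := by
  obtain ⟨n, e⟩ := cy
  refine ((hS Γ a c g _ C.pr.1 hg (C.tor g hg)).2 y).2.trans' ⟨n, ?_⟩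
  nlinarith [mul_le_mul_of_nonneg_left e (abs_nonneg (zK (χ g)))]

theorem Chi.low (C : Chi c χ) (hS : S_E_SZ) (hg : g ∈ Ep c) : Ls (|zK (χ g)| * md c) (md g) :=
  (hS Γ a c g _ C.pr.1 hg (C.tor g hg)).1

theorem Chi.sub (C : Chi c χ) (hf : f ∈ Ep c) (j : a.Z) :
    zK (χ (f⁻¹ * MP_dba3d2_lc.ipow c j)) = zK j - zK (χ f) := by
  rw [C.mul _ (inv_mem hf) _ (ipow_mem_Ep c j), C.inv _ hf, C.ipow, zK_add, zK_neg]
  ring

theorem limA (hE : S_ELEM) (hL : S_LINE) (hR : S_ROOT) (hN : S_NORM) (hX : S_EADJ) (hW : S_WCE)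
    (hH : GC H) (hu : PLim H l u) {γ : MM Γ a} (hγ : γ ∈ H) (inf : ¬ IsOfFinOrder γ)
    (fx : ∀ n, Ls (ds u (γ * u)) (l n)) :
    ∃ H' : Subgroup (MM Γ a), GC H' ∧ Wc H H' ∧ Sc H' H ∧ ∃ u' ∈ H', ∀ n, Ls (ds u u') (l n) := by
  have hS := p_E_SZ hE hL
  obtain ⟨c, hc, pc, ec⟩ := (hR Γ a H hH.toGC0).1 γ hγ inf
  obtain ⟨χ, c1, c2, c3, c4, c5, c6, -, c8, c9, -⟩ := p_E_CHI hE Γ a c pc
  have C : Chi c χ := ⟨pc, fun f hf => (c1 f hf _).1 rfl, c2, c3, c4, c5, c6, c8, c9⟩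
  have fc : ∀ n, Ls (ds u (c * u)) (l n) := fun n => (pc.disp' hE hL inf ec u).trans' (fx n)
  have hm : ∀ n, Ls (md c) (l n) := fun n => Ls.mono_left (md_le_ds c u) (fc n)
  obtain ⟨x, hx, -, cx0⟩ := hH.cen1 hc pc.1
  have cx := cx0
  rw [Cen, md_conj, ← ds_conj] at cx
  obtain ⟨k0, hk0⟩ := (hL Γ a c x pc.1 cx).2.1 u
  have d0 : 0 < ds x (c * x) := one_pos.trans_le ((one_le_md' pc.1).trans (md_le_ds c x))
  obtain ⟨M, hM⟩ := sat_K (fun n => (n : a.K)) (fun n => l n / ds x (c * x)) fun m n =>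
    (le_div_iff₀ d0).2 (Ll.ls_left (cx.trans' (hm (n + 1))) (hu.dec n) m)
  obtain ⟨k1, dv, hk1⟩ := exists_divisible (zK k0) M fun n => (hM n).1
  obtain ⟨k, hk⟩ := Etrl.exists_hom k1 dv
  have near : ∀ n, Ls (ds u (ipow c (k 1) * x)) (l n) := fun n => by
    refine Ls.mono_left (ds_tri _ (ipow c k0 * x) _) ((hk0.trans' (fc n)).add (Ls.of_le ?_))
    have u1 := ((hS Γ a c _ (k 1 - k0) pc.1 (ipow_mem_Ep c (k 1 - k0)) (by simp)).2 x).1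
    rw [← ds_ipow, zK_sub, hk, Rat.cast_one, one_mul] at u1
    have u2 := (le_div_iff₀ d0).1 (hM n).2
    have u3 := hk1 1
    rw [Nat.cast_one, one_mul] at u3
    exact u1.trans ((mul_le_mul_of_nonneg_right u3 d0.le).trans u2)
  have N1 : ∀ q, q ≠ 0 → ¬ Nr H c χ (fun s => ∀ n, Ls s (l n)) (k q) := fun q hq h => by
    obtain ⟨f, h1, h2, h3⟩ := h.line C (sm_all l) hH.toGC0 hc hm hq 1
    obtain ⟨n, hn⟩ := hu.new _ (mul_mem h1 hx)
    have t := C.up hS (mul_mem (inv_mem h2) (ipow_mem_Ep c (k 1))) cx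
    rw [C.sub h2, ← ds_mul_left f, mul_assoc, mul_inv_cancel_left, ds_comm] at t
    exact hn (Ls.mono_left (ds_tri _ _ _) ((near n).add (t.trans' ((h3 n).add (hm n)))))
  have N2 : ∀ n q, Nr H c χ (fun s => Ls s (l n)) (k q) := fun n q => by
    refine Nr.line C (sm_ls _) hH.toGC0 hc (hm n) one_ne_zero ?_ q
    obtain ⟨v, hv, nv⟩ := hu.apx n
    obtain ⟨f, h1, h2, h3, -⟩ := (hN Γ a H hH.toGC0).1 _ (mul_mem (mul_mem (inv_mem hx) hc) hx)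
      (by simpa using pc.conj x⁻¹) cx0 _ (mul_mem (inv_mem hv) hx)
    have h4 : x * f * x⁻¹ ∈ Ep c := mem_Ep_conj'.1 h2
    refine ⟨_, mul_mem (mul_mem hx h1) (inv_mem hx), h4, ?_⟩
    have t := C.low hS (mul_mem (inv_mem h4) (ipow_mem_Ep c (k 1)))
    rw [C.sub h4] at t
    have e1 : v⁻¹ * x * (x⁻¹ * c * x) * (v⁻¹ * x)⁻¹ = v⁻¹ * c * v := by group
    rw [e1, ← ds_conj, mul_assoc] at h3
    have h5 : Ls (ds v (x * f)) (l n) := h3.trans' (Ls.mono_left ?_ (nv.two.add (fc n)))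
    · refine t.trans' (Ls.mono_left ?_ ((h5.add nv).add (near n)))
      have u1 := md_le_ds ((x * f * x⁻¹)⁻¹ * ipow c (k 1)) x
      rw [← ds_mul_left (x * f * x⁻¹), mul_assoc _ (ipow c _), mul_inv_cancel_left,
        inv_mul_cancel_right] at u1
      linarith [ds_tri (x * f) v (ipow c (k 1) * x), ds_tri v u (ipow c (k 1) * x),
        ds_comm v (x * f), ds_comm u v]
    · linarith [disp_le c v u, ds_comm u v]
  obtain ⟨g0, fr, ext, nf⟩ := hX Γ a H c k hH.toGC0 hc pc fun q hq h =>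
    N1 q hq ⟨_, h, ipow_mem_Ep c _, fun n => by
      rw [C.ipow, sub_self, abs_zero, zero_mul]; exact Ls.zero (hu.big n).pos.le⟩
  have hG : GC _ := ⟨g0, finC_of_finRed fr le_sup_left le_sup_left hH.finc hH.finc⟩
  refine ⟨_, hG, hW Γ a H c k hH hc pc hG ext, fun g hg hb => ?_, _,
    mul_mem (Subgroup.mem_sup_right (Subgroup.subset_closure ⟨1, rfl⟩)) (Subgroup.mem_sup_left hx),
    near⟩
  obtain ⟨L, l1, l2, l3, -⟩ := nf g hg
  obtain ⟨s, hs, ss⟩ := E_geA.letter hb L l2 (l3 hb)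
  by_cases e : s ∈ H
  · exact ⟨s, e, ss⟩
  obtain ⟨y, hy, f, hf, ef, cy, q, rfl⟩ := (l1 s hs).resolve_left e
  rw [Cen, md_conj, ← ds_conj] at cy
  have hq : q ≠ 0 := fun h0 => e (by
    rw [h0, map_zero, ipow_zero, mul_one]; exact mul_mem (mul_mem (inv_mem hy) hf) hy)
  obtain ⟨n, hn⟩ : ∃ n, ¬ Ls (ln (y⁻¹ * (f * ipow c (k q)) * y)) (l n) := by
    by_contra hn
    push Not at hn
    refine N1 q hq ⟨f⁻¹, inv_mem hf, inv_mem ef, fun n => ?_⟩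
    rw [← C.sub (inv_mem ef), inv_inv]
    exact (C.low hS (mul_mem ef (ipow_mem_Ep c _))).trans' (Ls.mono_left (md_le _ y) (hn n))
  obtain ⟨f', h1, h2, h3⟩ := N2 n q
  refine ⟨y⁻¹ * (f * f') * y, mul_mem (mul_mem (inv_mem hy) (mul_mem hf h1)) hy, ss.trans' ?_⟩
  have t := C.up hS (mul_mem (inv_mem h2) (ipow_mem_Ep c (k q))) cy
  rw [C.sub h2, ← ds_mul_left (f * f'), show f * f' * (f'⁻¹ * ipow c (k q) * y) =
    f * ipow c (k q) * y by group] at t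
  rw [← ds_conj] at hn ⊢
  rw [← ds_conj]
  have p0 : 0 < ds y (f * ipow c (k q) * y) :=
    (hu.big n).pos.trans_le (not_lt.1 fun h => hn (Ls.of_le h.le))
  have t2 := Ll.ls_left (t.trans' (h3.add (hm n))) ((ll_or_ls p0 _).resolve_right hn)
  have t3 := t2 2
  push_cast at t3
  have t4 := ds_tri y (f * f' * y) (f * ipow c (k q) * y)
  have t5 := ds_tri y (f * ipow c (k q) * y) (f * f' * y)
  rw [ds_comm (f * ipow c (k q) * y)] at t5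
  exact ⟨⟨2, by push_cast; linarith⟩, ⟨2, by push_cast; linarith⟩⟩

theorem limB (hT : S_TORS) (hF : S_FINM) (hP : S_PA) (hW : S_WCL) (hH : GC H) (hu : PLim H l u)
    (tor : ∀ γ ∈ H, (∀ n, Ls (ds u (γ * u)) (l n)) → IsOfFinOrder γ) :
    ∃ H' : Subgroup (MM Γ a), GC H' ∧ Wc H H' ∧ Sc H' H ∧ ∃ u' ∈ H', ∀ n, Ls (ds u u') (l n) := by
  let K : Subgroup (MM Γ a) := H.comap (MulAut.conj u).toMonoidHom ⊓ ⨅ n, ball Γ (l n)
  have mem : ∀ z, z ∈ K ↔ u * z * u⁻¹ ∈ H ∧ ∀ n, Ls (ln z) (l n) := fun z => by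
    rw [Subgroup.mem_inf, Subgroup.mem_iInf]
    exact and_congr Iff.rfl (forall_congr' fun n => mem_ball (hu.big n).pos.le)
  have f0 : Finite K := (hT Γ a _ fun z hz => by
    have := tor _ ((mem z).1 hz).1 fun n => by
      rw [inv_mul_cancel_right, ds_mul_right]; exact ((mem z).1 hz).2 n
    simpa [mul_assoc] using (MulAut.conj u⁻¹).toMonoidHom.isOfFinOrder this).1
  obtain ⟨w, e1, z, hz, e2⟩ := hF Γ a K f0
  have near : ∀ n, Ls (ds u (u * w)) (l n) := fun n => by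
    rw [ds_mul_right]
    exact e2.trans' ((((mem z).1 hz).2 n).add (hu.big n).ll_one.ls)
  have hu' : PLim H l (u * w) := ⟨hu.big, hu.dec, fun n => ?_, fun v hv => ?_⟩
  · have cl : ∀ x ∈ H, (∀ n, Ls (ln ((u * w)⁻¹ * x * (u * w))) (l n)) →
        (u * w)⁻¹ * x * (u * w) ∈ std Γ a ∧ IsOfFinOrder x := fun x hx h => by
      have h1 : ∀ n, Ls (ds u (x * u)) (l n) := fun n =>
        Ls.mono_left (disp_le x u (u * w)) ((near n).two.add (by rw [ds_conj]; exact h n))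
      refine ⟨?_, tor x hx h1⟩
      have := e1 (u⁻¹ * x * u) ((mem _).2 ⟨by simpa [mul_assoc] using hx, fun n => ds_conj x u ▸ h1 n⟩)
      simpa [mul_assoc] using this
    obtain ⟨g0, fr, ext, c4, sc⟩ := hP Γ a H l _ hH.toGC0 hu' cl
    have hG : GC _ := ⟨g0, finC_of_finRed fr le_sup_left le_sup_left hH.finc hH.finc⟩
    refine ⟨_, hG, hW Γ a H _ hH (fun e => ?_) hG ext fun x hx e => cl x hx (c4 x hx e), sc, _,
      Subgroup.mem_sup_right (Subgroup.subset_closure ⟨0, rfl⟩), near⟩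
    obtain ⟨n, hn⟩ := hu.new _ e
    exact hn (near n)
  · obtain ⟨v, hv, e⟩ := hu.apx n
    exact ⟨v, hv, Ls.mono_left (ds_tri _ u _) ((ds_comm u _ ▸ near n).add e)⟩
  · obtain ⟨n, hn⟩ := hu.new v hv
    exact ⟨n, fun e => hn (Ls.mono_left (ds_tri _ (u * w) _) ((near n).add e))⟩

end LimA

theorem p_LIM (hTORS : S_TORS) (hFINM : S_FINM) (hELEM : S_ELEM) (hLINE : S_LINE) (hROOT : S_ROOT) (hNORM : S_NORM) (hPA : S_PA) (hEADJ : S_EADJ) (hWCL : S_WCL) (hWCE : S_WCE) :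
    S_LIM := by
  intro Γ a H l u hH hb hd ha
  by_cases near : ∃ v ∈ H, ∀ n, Ls (ds u v) (l n)
  · exact ⟨H, hH, ⟨le_rfl, fun _ _ _ _ _ _ x hx k => ⟨x, hx, k⟩⟩,
      fun g hg _ => ⟨g, hg, Sim.refl' _⟩, near⟩
  push Not at near
  have hu : PLim H l u := ⟨hb, hd, ha, near⟩
  by_cases tor : ∀ γ ∈ H, (∀ n, Ls (ds u (γ * u)) (l n)) → IsOfFinOrder γ
  · exact LimA.limB hTORS hFINM hPA hWCL hH hu tor
  push Not at tor
  obtain ⟨γ, h1, h2, h3⟩ := tor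
  exact LimA.limA hELEM hLINE hROOT hNORM hEADJ hWCE hH hu h1 h3 h2

end Pool.Agent.P.MP_dba3d2_lc
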