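import Pool.Agent.P.MP_dba3d2_lc.F.DefsS
import Pool.Agent.P.MP_dba3d2_lc.F.TbShr
import Pool.Agent.P.MP_dba3d2_lc.B.Axis2

/-! Basic lemmas on words. -/

namespace Pool.Agent.P.MP_dba3d2_lc.SW

variable {Γ : HG} {a : Amb} {H X : Subgroup (MM Γ a)} {μ : a.K}
  {L L' A B D P β : List (Lt Γ a)} {N N' : List (NL Γ a)}

@[simp] theorem vL_inl (h : MM Γ a) : vL (Sum.inl h : Lt Γ a) = h := rfl
@[simp] theorem vL_inr (x : Vr Γ a) : vL (Sum.inr x : Lt Γ a) = x.2 := rfl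
@[simp] theorem lv_nil : lv ([] : List (Lt Γ a)) = 1 := rfl
@[simp] theorem lv_cons (x : Lt Γ a) (L : List (Lt Γ a)) : lv (x :: L) = vL x * lv L := by
  simp [lv]
@[simp] theorem lv_append (L L' : List (Lt Γ a)) : lv (L ++ L') = lv L * lv L' := by simp [lv]
@[simp] theorem lc_nil : lc ([] : List (Lt Γ a)) = 0 := rfl
@[simp] theorem lc_inl (h : MM Γ a) (L : List (Lt Γ a)) : lc (Sum.inl h :: L) = ln h + lc L := by
  simp [lc]
@[simp] theorem lc_inr (x : Vr Γ a) (L : List (Lt Γ a)) : lc (Sum.inr x :: L) = lc L := by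
  simp [lc]
@[simp] theorem lc_append (L L' : List (Lt Γ a)) : lc (L ++ L') = lc L + lc L' := by simp [lc]
theorem lc_nonneg : ∀ L : List (Lt Γ a), 0 ≤ lc L
  | [] => le_rfl
  | Sum.inl h :: L => by rw [lc_inl]; exact add_nonneg (ln_nonneg h) (lc_nonneg L)
  | Sum.inr x :: L => by rw [lc_inr]; exact lc_nonneg L
@[simp] theorem isG_inl (h : MM Γ a) : isG (Sum.inl h : Lt Γ a) = false := rfl
@[simp] theorem isG_none (v : MM Γ a) : isG (Sum.inr (none, v) : Lt Γ a) = true := rfl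
@[simp] theorem isG_some (c v : MM Γ a) : isG (Sum.inr (some c, v) : Lt Γ a) = false := rfl
@[simp] theorem cG_nil : cG ([] : List (Lt Γ a)) = 0 := rfl
@[simp] theorem cG_append (L L' : List (Lt Γ a)) : cG (L ++ L') = cG L + cG L' :=
  List.countP_append
@[simp] theorem cG_inl (h : MM Γ a) (L : List (Lt Γ a)) : cG (Sum.inl h :: L) = cG L := by
  simp [cG]
@[simp] theorem cG_none (v : MM Γ a) (L : List (Lt Γ a)) :
    cG (Sum.inr (none, v) :: L) = cG L + 1 := by simp [cG]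
@[simp] theorem cG_some (c v : MM Γ a) (L : List (Lt Γ a)) :
    cG (Sum.inr (some c, v) :: L) = cG L := by simp [cG]
@[simp] theorem cV_nil : cV ([] : List (Lt Γ a)) = 0 := rfl
@[simp] theorem cV_append (L L' : List (Lt Γ a)) : cV (L ++ L') = cV L + cV L' :=
  List.countP_append
@[simp] theorem cV_inl (h : MM Γ a) (L : List (Lt Γ a)) : cV (Sum.inl h :: L) = cV L := by
  simp [cV]
@[simp] theorem cV_inr (x : Vr Γ a) (L : List (Lt Γ a)) : cV (Sum.inr x :: L) = cV L + 1 := by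
  simp [cV]

@[simp] theorem noG_nil : NoG ([] : List (Lt Γ a)) := fun _ => List.not_mem_nil
@[simp] theorem noV_nil : NoV ([] : List (Lt Γ a)) := fun _ => List.not_mem_nil
@[simp] theorem noG_append : NoG (L ++ L') ↔ NoG L ∧ NoG L' := by
  simp [NoG, forall_and]
@[simp] theorem noV_append : NoV (L ++ L') ↔ NoV L ∧ NoV L' := by
  simp only [NoV, List.mem_append, not_or, forall_and]
@[simp] theorem noG_inl (h : MM Γ a) : NoG (Sum.inl h :: L) ↔ NoG L := by simp [NoG]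
@[simp] theorem noG_some (c f : MM Γ a) : NoG (Sum.inr (some c, f) :: L) ↔ NoG L := by simp [NoG]
@[simp] theorem noG_none (v : MM Γ a) : ¬ NoG (Sum.inr (none, v) :: L) :=
  fun h => h v List.mem_cons_self
@[simp] theorem noV_inl (h : MM Γ a) : NoV (Sum.inl h :: L) ↔ NoV L := by
  simp only [NoV, List.mem_cons, reduceCtorEq, false_or]
@[simp] theorem noV_inr (x : Vr Γ a) : ¬ NoV (Sum.inr x :: L) := fun h => h x List.mem_cons_self
theorem NoV.noG (h : NoV L) : NoG L := fun _ => h _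
theorem noG_iff : ∀ {L : List (Lt Γ a)}, NoG L ↔ cG L = 0
  | [] => by simp
  | Sum.inl h :: L => by simpa using noG_iff
  | Sum.inr (none, v) :: L => by simp
  | Sum.inr (some c, v) :: L => by simpa using noG_iff
theorem noV_iff : ∀ {L : List (Lt Γ a)}, NoV L ↔ cV L = 0
  | [] => by simp
  | Sum.inl h :: L => by simpa using noV_iff
  | Sum.inr x :: L => by simp
theorem cG_le_cV : ∀ L : List (Lt Γ a), cG L ≤ cV L
  | [] => le_rfl
  | Sum.inl h :: L => by simpa using cG_le_cV L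
  | Sum.inr (none, v) :: L => by simpa using cG_le_cV L
  | Sum.inr (some c, v) :: L => by have := cG_le_cV L; simp; omega

/-- split at the first general variable -/
theorem split_G : ∀ L : List (Lt Γ a),
    NoG L ∨ ∃ P v R, L = P ++ Sum.inr (none, v) :: R ∧ NoG P
  | [] => Or.inl noG_nil
  | Sum.inr (none, v) :: L => Or.inr ⟨[], v, L, rfl, noG_nil⟩
  | Sum.inl h :: L => (split_G L).imp (noG_inl h).2
      fun ⟨P, v, R, e, k⟩ => ⟨Sum.inl h :: P, v, R, by rw [e]; rfl, (noG_inl h).2 k⟩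
  | Sum.inr (some c, f) :: L => (split_G L).imp (noG_some c f).2
      fun ⟨P, v, R, e, k⟩ => ⟨Sum.inr (some c, f) :: P, v, R, by rw [e]; rfl, (noG_some c f).2 k⟩
/-- split at the first variable -/
theorem split_V : ∀ L : List (Lt Γ a), NoV L ∨ ∃ β x R, L = β ++ Sum.inr x :: R ∧ NoV β
  | [] => Or.inl noV_nil
  | Sum.inr x :: L => Or.inr ⟨[], x, L, rfl, noV_nil⟩
  | Sum.inl h :: L => (split_V L).imp (noV_inl h).2
      fun ⟨P, v, R, e, k⟩ => ⟨Sum.inl h :: P, v, R, by rw [e]; rfl, (noV_inl h).2 k⟩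
/-- split a word without general variables at the first variable -/
theorem NoG.split (h : NoG L) :
    NoV L ∨ ∃ β c f R, L = β ++ Sum.inr (some c, f) :: R ∧ NoV β ∧ NoG R := by
  rcases split_V L with k | ⟨β, ⟨_ | c, f⟩, R, rfl, k⟩
  · exact Or.inl k
  · exact absurd (noG_append.1 h).2 (noG_none f)
  · exact Or.inr ⟨β, c, f, R, rfl, k, (noG_some c f).1 (noG_append.1 h).2⟩

@[simp] theorem iL_inl (h : MM Γ a) : iL (Sum.inl h : Lt Γ a) = Sum.inl h⁻¹ := rfl
@[simp] theorem iL_inr (x : Vr Γ a) : iL (Sum.inr x : Lt Γ a) = Sum.inr (x.1, x.2⁻¹) := rfl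
@[simp] theorem iL_iL : ∀ x : Lt Γ a, iL (iL x) = x
  | Sum.inl h => by simp
  | Sum.inr x => by simp
@[simp] theorem vL_iL : ∀ x : Lt Γ a, vL (iL x) = (vL x)⁻¹
  | Sum.inl _ => rfl
  | Sum.inr _ => rfl
@[simp] theorem li_nil : li ([] : List (Lt Γ a)) = [] := rfl
@[simp] theorem li_cons (x : Lt Γ a) (L : List (Lt Γ a)) : li (x :: L) = li L ++ [iL x] := by
  simp [li]
@[simp] theorem li_append (L L' : List (Lt Γ a)) : li (L ++ L') = li L' ++ li L := by simp [li]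
@[simp] theorem li_li (L : List (Lt Γ a)) : li (li L) = L := by
  simp [li, Function.comp_def]
theorem li_eq (h : li L = L') : L = li L' := by rw [← h, li_li]
theorem mem_li {x : Lt Γ a} : x ∈ li L ↔ iL x ∈ L := by
  simp only [li, List.mem_reverse, List.mem_map]
  exact ⟨fun ⟨y, h, e⟩ => by rwa [← e, iL_iL], fun h => ⟨_, h, iL_iL x⟩⟩
@[simp] theorem lv_li : ∀ L : List (Lt Γ a), lv (li L) = (lv L)⁻¹
  | [] => inv_one.symm
  | x :: L => by simp [lv_li L]
@[simp] theorem lc_li : ∀ L : List (Lt Γ a), lc (li L) = lc L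
  | [] => rfl
  | Sum.inl h :: L => by simp [lc_li L, ln_inv, add_comm]
  | Sum.inr x :: L => by simp [lc_li L]
@[simp] theorem cG_li : ∀ L : List (Lt Γ a), cG (li L) = cG L
  | [] => rfl
  | Sum.inl h :: L => by simp [cG_li L]
  | Sum.inr (none, v) :: L => by simp [cG_li L]
  | Sum.inr (some c, v) :: L => by simp [cG_li L]
@[simp] theorem cV_li : ∀ L : List (Lt Γ a), cV (li L) = cV L
  | [] => rfl
  | Sum.inl h :: L => by simp [cV_li L]
  | Sum.inr x :: L => by simp [cV_li L]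
@[simp] theorem noG_li : NoG (li L) ↔ NoG L := by rw [noG_iff, noG_iff, cG_li]
@[simp] theorem noV_li : NoV (li L) ↔ NoV L := by rw [noV_iff, noV_iff, cV_li]
/-- split at the last general variable -/
theorem split_G' (L : List (Lt Γ a)) :
    NoG L ∨ ∃ A v P, L = A ++ Sum.inr (none, v) :: P ∧ NoG P :=
  (split_G (li L)).imp noG_li.1 fun ⟨P, v, R, e, k⟩ =>
    ⟨li R, v⁻¹, li P, by rw [li_eq e]; simp, noG_li.2 k⟩
/-- split at the last variable -/
theorem split_V' (L : List (Lt Γ a)) : NoV L ∨ ∃ A x β, L = A ++ Sum.inr x :: β ∧ NoV β :=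
  (split_V (li L)).imp noV_li.1 fun ⟨P, x, R, e, k⟩ =>
    ⟨li R, (x.1, x.2⁻¹), li P, by rw [li_eq e]; simp, noV_li.2 k⟩

@[simp] theorem ex_inl (h : MM Γ a) : ex (Sum.inl h : NL Γ a) = [Sum.inl h] := rfl
@[simp] theorem ex_inr (x : Vr Γ a × List (Lt Γ a)) : ex (Sum.inr x : NL Γ a) = x.2 := rfl
@[simp] theorem tp_inl (h : MM Γ a) : tp (Sum.inl h : NL Γ a) = Sum.inl h := rfl
@[simp] theorem tp_inr (x : Vr Γ a × List (Lt Γ a)) : tp (Sum.inr x : NL Γ a) = Sum.inr x.1 := rfl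
@[simp] theorem fl_nil : fl ([] : List (NL Γ a)) = [] := rfl
@[simp] theorem fl_cons (s : NL Γ a) (N : List (NL Γ a)) : fl (s :: N) = ex s ++ fl N := by
  simp [fl]
@[simp] theorem fl_append (N N' : List (NL Γ a)) : fl (N ++ N') = fl N ++ fl N' := by simp [fl]
theorem mem_fl {x : Lt Γ a} : x ∈ fl N ↔ ∃ s ∈ N, x ∈ ex s := List.mem_flatMap
@[simp] theorem nc_nil : nc ([] : List (NL Γ a)) = 0 := rfl
@[simp] theorem nc_inl (h : MM Γ a) (N : List (NL Γ a)) : nc (Sum.inl h :: N) = nc N := by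
  simp [nc]
@[simp] theorem nc_inr (x : Vr Γ a × List (Lt Γ a)) (N : List (NL Γ a)) :
    nc (Sum.inr x :: N) = lc x.2 + nc N := by simp [nc]
@[simp] theorem nc_append (N N' : List (NL Γ a)) : nc (N ++ N') = nc N + nc N' := by simp [nc]
@[simp] theorem iN_inl (h : MM Γ a) : iN (Sum.inl h : NL Γ a) = Sum.inl h⁻¹ := rfl
@[simp] theorem iN_inr (x : Vr Γ a × List (Lt Γ a)) :
    iN (Sum.inr x : NL Γ a) = Sum.inr ((x.1.1, x.1.2⁻¹), li x.2) := rfl
@[simp] theorem iN_iN : ∀ x : NL Γ a, iN (iN x) = x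
  | Sum.inl h => by simp
  | Sum.inr x => by simp
@[simp] theorem ex_iN : ∀ x : NL Γ a, ex (iN x) = li (ex x)
  | Sum.inl _ => rfl
  | Sum.inr _ => rfl
@[simp] theorem tp_iN : ∀ x : NL Γ a, tp (iN x) = iL (tp x)
  | Sum.inl _ => rfl
  | Sum.inr _ => rfl
@[simp] theorem ni_nil : ni ([] : List (NL Γ a)) = [] := rfl
@[simp] theorem ni_cons (x : NL Γ a) (N : List (NL Γ a)) : ni (x :: N) = ni N ++ [iN x] := by
  simp [ni]
@[simp] theorem ni_append (N N' : List (NL Γ a)) : ni (N ++ N') = ni N' ++ ni N := by simp [ni]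
@[simp] theorem ni_ni (N : List (NL Γ a)) : ni (ni N) = N := by simp [ni, Function.comp_def]
theorem ni_eq (h : ni N = N') : N = ni N' := by rw [← h, ni_ni]
theorem mem_ni {x : NL Γ a} : x ∈ ni N ↔ iN x ∈ N := by
  simp only [ni, List.mem_reverse, List.mem_map]
  exact ⟨fun ⟨y, h, e⟩ => by rwa [← e, iN_iN], fun h => ⟨_, h, iN_iN x⟩⟩
@[simp] theorem fl_ni : ∀ N : List (NL Γ a), fl (ni N) = li (fl N)
  | [] => rfl
  | s :: N => by simp [fl_ni N]
@[simp] theorem map_tp_ni : ∀ N : List (NL Γ a), (ni N).map tp = li (N.map tp)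
  | [] => rfl
  | s :: N => by simp [map_tp_ni N]
@[simp] theorem nc_ni : ∀ N : List (NL Γ a), nc (ni N) = nc N
  | [] => rfl
  | Sum.inl h :: N => by simp [nc_ni N]
  | Sum.inr x :: N => by simp [nc_ni N, add_comm]

/-- locate a variable of the expanded word -/
theorem fl_split1 {x : Vr Γ a} : ∀ {N : List (NL Γ a)} {C R : List (Lt Γ a)},
    fl N = C ++ Sum.inr x :: R → ∃ Nm e P B N3, N = Nm ++ Sum.inr (e, P ++ Sum.inr x :: B) :: N3 ∧
      C = fl Nm ++ P ∧ R = B ++ fl N3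
  | [], C, R, h => by simp at h
  | s :: N, C, R, h => by
    rw [fl_cons] at h
    have key : ∀ C', C = ex s ++ C' → fl N = C' ++ Sum.inr x :: R → ∃ Nm e P B N3,
        s :: N = Nm ++ Sum.inr (e, P ++ Sum.inr x :: B) :: N3 ∧ C = fl Nm ++ P ∧
          R = B ++ fl N3 := by
      intro C' e1 e2
      obtain ⟨Nm, e, P, B, N3, rfl, rfl, rfl⟩ := fl_split1 e2
      exact ⟨s :: Nm, e, P, B, N3, rfl, by rw [e1]; simp, rfl⟩
    rcases List.append_eq_append_iff.1 h with ⟨C', e1, e2⟩ | ⟨_ | ⟨y, B⟩, e1, e2⟩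
    · exact key C' e1 e2
    · exact key [] (by simpa using e1.symm) e2.symm
    · obtain ⟨rfl, rfl⟩ := List.cons.inj e2
      rcases s with g | ⟨e, D⟩
      · exact absurd (e1 ▸ List.mem_append_right C List.mem_cons_self :
          Sum.inr x ∈ ex (Sum.inl g : NL Γ a)) (by simp)
      · obtain rfl : D = _ := e1
        exact ⟨[], e, C, B, N, rfl, rfl, rfl⟩
/-- locate two variables of the expanded word -/
theorem fl_split2 {x x' : Vr Γ a} {C R : List (Lt Γ a)}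
    (h : fl N = C ++ Sum.inr x :: P ++ Sum.inr x' :: R) :
    (∃ N1 e A B N2, N = N1 ++ Sum.inr (e, A ++ Sum.inr x :: P ++ Sum.inr x' :: B) :: N2) ∨
    ∃ N1 e A P1 Nm e' P2 B N2, N = N1 ++ Sum.inr (e, A ++ Sum.inr x :: P1) :: Nm ++
      Sum.inr (e', P2 ++ Sum.inr x' :: B) :: N2 ∧ P = P1 ++ fl Nm ++ P2 := by
  rw [List.append_assoc, List.cons_append] at h
  obtain ⟨N1, e, A, B, N3, rfl, -, e2⟩ := fl_split1 h
  have key : ∀ C', P = B ++ C' → fl N3 = C' ++ Sum.inr x' :: R → ∃ N1' e0 A' P1 Nm e' P2 B' N2,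
      N1 ++ Sum.inr (e, A ++ Sum.inr x :: B) :: N3 = N1' ++ Sum.inr (e0, A' ++ Sum.inr x :: P1) ::
        Nm ++ Sum.inr (e', P2 ++ Sum.inr x' :: B') :: N2 ∧ P = P1 ++ fl Nm ++ P2 := by
    intro C' e1 e3
    obtain ⟨Nm, e', P2, B', N2, rfl, rfl, -⟩ := fl_split1 e3
    exact ⟨N1, e, A, B, Nm, e', P2, B', N2, by simp, by rw [e1]; simp⟩
  rcases List.append_eq_append_iff.1 e2.symm with ⟨C', e1, e3⟩ | ⟨_ | ⟨y, B'⟩, e1, e3⟩
  · exact Or.inr (key C' e1 e3)
  · exact Or.inr (key [] (by simpa using e1.symm) e3.symm)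
  · obtain ⟨rfl, -⟩ := List.cons.inj e3
    exact Or.inl ⟨N1, e, A, B', N3, by rw [e1]; simp⟩

theorem lv_mem (S : Subgroup (MM Γ a)) (h : ∀ x ∈ L, vL x ∈ S) : lv L ∈ S :=
  S.list_prod_mem fun _ k => by
    obtain ⟨x, k', rfl⟩ := List.mem_map.1 k
    exact h x k'
theorem ln_lv_ls (h0 : 0 ≤ μ) : ∀ {L : List (Lt Γ a)}, (∀ x ∈ L, Ls (ln (vL x)) μ) →
    Ls (ln (lv L)) μ
  | [], _ => by rw [lv_nil, ln_one]; exact Ls.of_le h0
  | x :: L, h => by
    rw [lv_cons]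
    exact Ls.mono_left (ln_mul_le _ _) ((h x List.mem_cons_self).add
      (ln_lv_ls h0 fun y k => h y (List.mem_cons_of_mem _ k)))
theorem LOk.ls : ∀ {x : Lt Γ a}, LOk μ H x → Ls (ln (vL x)) μ
  | Sum.inl _, h => h.2
  | Sum.inr _, h => h.2.2.ls
theorem ln_lv_le (h0 : 0 ≤ μ) : ∀ {L : List (Lt Γ a)}, (∀ x, Sum.inr x ∈ L → Ll (ln x.2) μ) →
    Ll (ln (lv L) - lc L) μ
  | [], _ => by simpa [ln_one] using Ll.zero h0
  | Sum.inl g :: L, h => by
    refine Ll.mono_left ?_ (ln_lv_le h0 fun y k => h y (List.mem_cons_of_mem _ k))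
    have := ln_mul_le g (lv L)
    simp only [lv_cons, vL_inl, lc_inl]; linarith
  | Sum.inr x :: L, h => by
    refine Ll.mono_left ?_ ((h x List.mem_cons_self).add
      (ln_lv_le h0 fun y k => h y (List.mem_cons_of_mem _ k)))
    have := ln_mul_le x.2 (lv L)
    simp only [lv_cons, vL_inr, lc_inr]; linarith
theorem Ad.left (h : Ad μ (L ++ L')) : Ad μ L := by
  refine ⟨fun x k => h.1 x (List.mem_append_left _ k), Ll.mono_left ?_
    (h.2.add (ln_lv_le h.2.nonneg fun x k => h.1 x (List.mem_append_right _ k)))⟩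
  have := ln_mul_le (lv L) (lv L')
  simp only [lv_append, lc_append]; linarith
theorem Ad.right (h : Ad μ (L ++ L')) : Ad μ L' := by
  refine ⟨fun x k => h.1 x (List.mem_append_right _ k), Ll.mono_left ?_
    (h.2.add (ln_lv_le h.2.nonneg fun x k => h.1 x (List.mem_append_left _ k)))⟩
  have := ln_mul_le (lv L) (lv L')
  simp only [lv_append, lc_append]; linarith
theorem Ad.on (h : Ad μ (L ++ L')) : On μ (lv L) 1 (lv (L ++ L')) := by
  refine Ll.mono_left ?_ ((h.2.add (ln_lv_le h.2.nonneg fun x k => h.1 x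
    (List.mem_append_left _ k))).add (ln_lv_le h.2.nonneg fun x k => h.1 x
    (List.mem_append_right _ k)))
  simp only [ds, lv_append, lc_append, inv_one, one_mul, inv_mul_cancel_left]; linarith
theorem Ad.li (h : Ad μ L) : Ad μ (li L) :=
  ⟨fun x k => by simpa [ln_inv] using h.1 _ (mem_li.1 k), by simpa [ln_inv] using h.2⟩

theorem Fa.mono (h : Fa H X μ L) (k : ∀ x ∈ L', x ∈ L) : Fa H X μ L' :=
  ⟨fun g e => h.con g (k _ e), fun v e => h.gen v (k _ e), fun c f e => h.exp c f (k _ e)⟩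
theorem Fa.li (h : Fa H X μ L) : Fa H X μ (li L) := by
  refine ⟨fun g e => by simpa using h.con _ (mem_li.1 e),
    fun v e => by simpa using h.gen _ (mem_li.1 e), fun c f e => ?_⟩
  simpa [ln_inv] using h.exp c _ (mem_li.1 e)
theorem Fa.memH (h : Fa H X μ L) (k : NoV L) : lv L ∈ H :=
  lv_mem H fun
    | Sum.inl g, e => h.con g e
    | Sum.inr x, e => absurd e (k x)
theorem Fa.memU (h : Fa H X μ L) (hX : H ≤ X) (k : NoG L) : lv L ∈ hatH H X :=
  lv_mem _ fun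
    | Sum.inl g, e => Subgroup.mem_sup_left (h.con g e)
    | Sum.inr (none, v), e => absurd e (k v)
    | Sum.inr (some c, f), e =>
      let ⟨a1, a2, _, a4, a5, _⟩ := h.exp c f e
      Subgroup.mem_sup_right (Subgroup.subset_closure ⟨a4, c, ⟨a1, hX a1⟩, a2, a5⟩)
theorem Fa.memX (h : Fa H X μ L) (hX : H ≤ X) : lv L ∈ X :=
  lv_mem _ fun
    | Sum.inl g, e => hX (h.con g e)
    | Sum.inr (none, v), e => (h.gen v e).1.1
    | Sum.inr (some c, f), e => (h.exp c f e).2.2.2.1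
theorem F3.sub (h : F3 (A ++ L ++ B)) : F3 L := fun A' c f β c' f' B' e =>
  h (A ++ A') c f β c' f' (B' ++ B) (by rw [e]; simp)
theorem F4.sub (h : F4 μ (A ++ L ++ B)) : F4 μ L := fun A' v β c f B' e =>
  h (A ++ A') v β c f (B' ++ B) (by rw [e]; simp)
theorem F4'.sub (h : F4' μ (A ++ L ++ B)) : F4' μ L := fun A' c f β v B' e =>
  h (A ++ A') c f β v (B' ++ B) (by rw [e]; simp)
theorem F5.sub (h : F5 μ (A ++ L ++ B)) : F5 μ L := fun A' v P v' B' e =>
  h (A ++ A') v P v' (B' ++ B) (by rw [e]; simp)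
theorem F0.sub (h : F0 H X μ (A ++ L ++ B)) : F0 H X μ L :=
  ⟨h.toFa.mono fun x k => by simp [k], h.f3.sub, h.f4.sub, h.f4'.sub, h.f5.sub⟩
theorem F0.left (h : F0 H X μ (L ++ B)) : F0 H X μ L := F0.sub (A := []) h
theorem F0.right (h : F0 H X μ (A ++ L)) : F0 H X μ L :=
  F0.sub (A := A) (B := []) (by rwa [List.append_nil])
theorem F3.li (h : F3 L) : F3 (li L) := fun A c f β c' f' B e k j =>
  h (SW.li B) c' f'⁻¹ (SW.li β) c f⁻¹ (SW.li A) (by rw [li_eq e]; simp) (noV_li.2 k)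
    (by rw [lv_li]; exact j.inv)
theorem F4.li (h : F4 μ L) : F4' μ (li L) := fun A c f β v B e k => by
  simpa using h (SW.li B) v⁻¹ (SW.li β) c f⁻¹ (SW.li A) (by rw [li_eq e]; simp) (noV_li.2 k)
theorem F4'.li (h : F4' μ L) : F4 μ (li L) := fun A v β c f B e k => by
  simpa using h (SW.li B) c f⁻¹ (SW.li β) v⁻¹ (SW.li A) (by rw [li_eq e]; simp) (noV_li.2 k)
theorem F5.li (h : F5 μ L) : F5 μ (li L) := fun A v P v' B e k => by
  simpa [ln_inv] using
    h (SW.li B) v'⁻¹ (SW.li P) v⁻¹ (SW.li A) (by rw [li_eq e]; simp) (noG_li.2 k)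
theorem F0.li (h : F0 H X μ L) : F0 H X μ (li L) :=
  ⟨h.toFa.li, h.f3.li, h.f4'.li, h.f4.li, h.f5.li⟩
theorem Blk.li {s t : Bool} (h : Blk D s P t) : Blk (li D) t (li P) s := by
  obtain ⟨A, B, rfl, k, a1, a2, a3, a4⟩ := h
  refine ⟨SW.li B, SW.li A, by simp, noG_li.2 k, fun e => by simp [a3 e], fun e => ?_,
    fun e => by simp [a1 e], fun e => ?_⟩
  · obtain ⟨v, B', rfl⟩ := a4 e
    exact ⟨SW.li B', v⁻¹, by simp⟩
  · obtain ⟨A', v, rfl⟩ := a2 e
    exact ⟨v⁻¹, SW.li A', by simp⟩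

/-- what follows a general variable in a reduced word is a tail -/
theorem F0.tl (h0 : 0 ≤ μ) (hX : H ≤ X) : ∀ (n : ℕ) {R : List (Lt Γ a)} {v : MM Γ a},
    R.length < n → F0 H X μ (Sum.inr (none, v) :: R) → Tl (hatH H X) (WW X μ) (lv R)
  | 0, _, _, h, _ => absurd h (Nat.not_lt_zero _)
  | n + 1, R, v, hn, h => by
    have hR : F0 H X μ R := F0.right (A := [_]) h
    rcases split_G R with k | ⟨P, v', R', rfl, k⟩
    · exact ⟨0, Rw.nil _ _ (hR.toFa.memU hX k)⟩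
    · obtain ⟨m, hm⟩ := F0.tl h0 hX n (R := R') (by simp at hn; omega) hR.right
      have g := hR.gen v' (by simp)
      refine ⟨m + 1, ?_⟩
      rw [lv_append, lv_cons, ← mul_assoc]
      exact Rw.cons _ _ _ _ _ (hR.left.toFa.memU hX k)
        (fun _ e => h.f5 [] v P v' R' rfl k ((mem_tiny h0).1 e.2)) g.1 g.2 hm

theorem WD.val : ∀ {s : NL Γ a}, WD μ H s → lv (ex s) = vL (tp s)
  | Sum.inl _, _ => by simp
  | Sum.inr _, h => h.1
theorem lv_fl : ∀ {N : List (NL Γ a)}, (∀ s ∈ N, WD μ H s) → lv (fl N) = lv (N.map tp)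
  | [], _ => rfl
  | s :: N, h => by
    rw [fl_cons, lv_append, List.map_cons, lv_cons, (h s List.mem_cons_self).val,
      lv_fl fun y k => h y (List.mem_cons_of_mem _ k)]
/-- an expansion with a general variable belongs to a general variable -/
theorem WD.gen {e : Vr Γ a} {v : MM Γ a} (h : WD μ H (Sum.inr (e, D))) (k : Sum.inr (none, v) ∈ D) :
    e.1 = none := by
  rcases he : e.1 with _ | c
  · rfl
  · exact absurd ((h.2.2 c he).2.2 _ k) (by simp)
theorem WD.lok (h : ∀ s ∈ N, WD μ H s) {x : Vr Γ a} (k : Sum.inr x ∈ fl N) :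
    LOk μ H (Sum.inr x) := by
  obtain ⟨g | y, hs, k⟩ := mem_fl.1 k
  · simp at k
  · exact (h _ hs).2.1 _ k
theorem Sg.ni (h : Sg N) : Sg (ni N) := fun e D k => by
  simpa using h _ _ (mem_ni.1 k)
theorem bk_total {G : Type} [Group G] (P : Bool → G → G → Prop) (s t : Bool) (u : G) :
    ∃ c, Bk P s t u c := by
  have k : ∀ (Q : G → Prop) (s : Bool) (φ : G → G × Bool), ∃ c, Hf Q s φ c := fun Q s φ => by
    by_cases h : ∃ m, s = true ∧ Q m
    · obtain ⟨m, a1, a2⟩ := h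
      exact ⟨_, Or.inl ⟨m, a1, a2, rfl⟩⟩
    · exact ⟨_, Or.inr ⟨fun e m q => h ⟨m, e, q⟩, rfl⟩⟩
  obtain ⟨c1, h1⟩ := k (P t u) s fun m => (m, true)
  obtain ⟨c2, h2⟩ := k (P s u⁻¹) t fun m => (u * m, false)
  exact ⟨_, c1, c2, h1, h2, rfl⟩

end Pool.Agent.P.MP_dba3d2_lc.SW
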