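import Pool.Agent.P.MP_dba3d2_lc.F.Iface
import Pool.Agent.P.MP_dba3d2_lc.F.IfaceS
import Pool.Agent.P.MP_dba3d2_lc.F.TbS

/-! Step S2 of the stability project. -/

namespace Pool.Agent.P.MP_dba3d2_lc

open Filter
open SW

theorem S2Glue.cV_wl {Γ : HG} {a : Amb} : ∀ (r : ℕ) (h : Fin (r + 1) → MM Γ a)
    (z : Fin r → Vr Γ a), cV (wl r h z) = r
  | 0, _, _ => by simp [wl]
  | r + 1, h, z => by rw [wl, cV_inl, cV_inr, S2Glue.cV_wl r]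

theorem p_S2 (hS2_ENV : S_S2_ENV) (hS2_TR0 : S_S2_TR0) (hS2_TR1 : S_S2_TR1) (hS2_TR2 : S_S2_TR2) (hS2_TR3 : S_S2_TR3) (hS2_PART1 : S_S2_PART1) (hS2_PART2 : S_S2_PART2) :
    S_S2 := by
  intro Γ a H l S ty m Q h y hH h1 h2 hQ h3 h4 h5 h6 h7 h8 h9
  have Y : Sy H l S ty Q h y := ⟨h1, h4, h6, h7, h8, h9⟩
  obtain ⟨X, E, hy⟩ := hS2_ENV Γ a H l S y hH h1 h2 h5 (fun n i j => (h6 n i).mem j)
    fun n => funext fun i => (h6 n i).eq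
  have L := E.lv 0
  have c : ∀ i, Ch0 H X l fun n => NS S ty y n i := fun i =>
    ⟨(hS2_TR1 Γ a H X l S ty m Q h y Y L.le hy i).1, fun n => hS2_TR2 Γ a H l S ty m Q h y Y n i⟩
  have s := hS2_TR3 Γ a H X l S ty m Q h y Y L.gH E.gX L.le hQ h3 hy
  obtain ⟨n0, k⟩ := eventually_atTop.1
    (hS2_PART2 Γ a H X l _ _ E c s (hS2_PART1 Γ a H X l _ _ E c s))
  refine ⟨n0, fun n hn t => ?_⟩
  obtain ⟨i, hi⟩ := (hS2_TR0 Γ a S n).1 t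
  exact S2Glue.cV_wl (S.r n t) _ _ ▸ k n hn i _ _ (List.mem_map_of_mem hi)

end Pool.Agent.P.MP_dba3d2_lc
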