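import Pool.Agent.P.MP_dba3d2_lc.F.TbS9

/-! Step S2_ADJ of the stability project. -/

namespace Pool.Agent.P.MP_dba3d2_lc

open Filter
open SW T9

namespace S2adj

variable {Γ : HG} {a : Amb} {L L' : List (Lt Γ a)} {N : List (NL Γ a)}

/-- the number of general variables whose predecessor among the variables is general -/
def gg : Bool → List (Lt Γ a) → ℕ
  | _, [] => 0
  | s, .inl _ :: L => gg s L
  | s, .inr x :: L => (if s && x.1.isNone then 1 else 0) + gg x.1.isNone L

/-- the kind of the last variable -/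
def ls : Bool → List (Lt Γ a) → Bool
  | s, [] => s
  | s, .inl _ :: L => ls s L
  | _, .inr x :: L => ls x.1.isNone L

theorem gg_append (s : Bool) (L L' : List (Lt Γ a)) :
    gg s (L ++ L') = gg s L + gg (ls s L) L' := by
  induction L generalizing s with
  | nil => simp [gg, ls]
  | cons x L ih => rcases x with g | x <;> simp [gg, ls, ih, add_assoc]

theorem ls_append (s : Bool) (L L' : List (Lt Γ a)) : ls s (L ++ L') = ls (ls s L) L' := by
  induction L generalizing s with
  | nil => rfl
  | cons x L ih => rcases x with g | x <;> simp [ls, ih]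

theorem ggV (h : NoV L) (s : Bool) : gg s L = 0 ∧ ls s L = s := by
  induction L with
  | nil => exact ⟨rfl, rfl⟩
  | cons x L ih =>
    rcases x with g | x
    · exact ih fun y hy => h y (List.mem_cons_of_mem _ hy)
    · exact (h x List.mem_cons_self).elim

theorem ggG (h : NoG L) (s : Bool) : gg s L = 0 ∧ ls s L ≤ s ∧ (¬ NoV L → ls s L = false) := by
  induction L generalizing s with
  | nil => exact ⟨rfl, le_rfl, fun k => (k noV_nil).elim⟩
  | cons x L ih =>
    have i := fun s => ih (fun y hy => h y (List.mem_cons_of_mem _ hy)) s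
    rcases x with g | ⟨_ | c, x⟩
    · exact ⟨(i s).1, (i s).2.1, fun k => (i s).2.2 fun k' => k fun y hy => k' y (by simpa using hy)⟩
    · exact (h x List.mem_cons_self).elim
    · have := (i false).2.1
      have e : ls false L = false := le_bot_iff.1 this
      exact ⟨by simp [gg, (i false).1], by simp [ls, e], fun _ => e⟩

/-- one expansion: the potential does not grow -/
theorem gg_fl (hk : Kid N) (ho : Sg N) {s s' : Bool} (h : s' ≤ s) :
    gg s' (fl N) ≤ gg s (N.map tp) ∧ ls s' (fl N) ≤ ls s (N.map tp) := by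
  induction N generalizing s s' with
  | nil => exact ⟨le_rfl, h⟩
  | cons x N ih =>
    have i := fun {s s'} => ih (s := s) (s' := s') (kid_sub hk (List.subset_cons_self _ _))
      (sg_sub ho (List.subset_cons_self _ _))
    rcases x with g | ⟨⟨_ | c, y⟩, D⟩
    · exact i h
    · obtain ⟨v, hv⟩ := hk.ch y D List.mem_cons_self
      obtain ⟨A, B, rfl⟩ := List.append_of_mem hv
      obtain ⟨h1, h2⟩ := noG_of_cG (ho _ _ List.mem_cons_self)
      have := i (s := true) (s' := ls true B) le_top
      have k := (ggG h1 s').2.1.trans h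
      simp only [fl_cons, ex, Sum.elim_inr, List.map_cons, tp, Sum.map_inr, gg_append, ls_append, gg, ls,
        (ggG h1 _).1, (ggG h2 _).1, Option.isNone_none, Bool.and_true] at this ⊢
      refine ⟨?_, this.2⟩
      have : (if ls s' A = true then 1 else 0) ≤ if s = true then 1 else 0 := by
        revert k; cases ls s' A <;> cases s <;> simp
      omega
    · obtain ⟨β, f, β', rfl, h1, h2, -⟩ := hk.ce c y D List.mem_cons_self
      have := i (s := false) (s' := false) le_rfl
      simpa [fl_cons, ex, tp, gg_append, ls_append, gg, ls, (ggV h1 _).1, (ggV h2 _).1, (ggV h2 _).2]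
        using this

theorem gg_lt (hk : Kid N) (ho : Sg N) (h : ¬ Adj N) : gg false (fl N) < gg false (N.map tp) := by
  simp only [Adj, not_forall] at h
  obtain ⟨N1, e, A, v, P, Nm, e', P', v', B, N2, rfl, h1, h2, h3, h4⟩ := h
  have k1 := kid_gen hk (e := e) (D := A ++ .inr (none, v) :: P) (v := v) (by simp) (by simp)
  have k2 := kid_gen hk (e := e') (D := P' ++ .inr (none, v') :: B) (v := v') (by simp) (by simp)
  have k3 := kid_noV (kid_sub hk (N' := Nm) fun _ m => by simp [m]) h2
  have k4 := (noG_of_cG (ho e' (P' ++ .inr (none, v') :: B) (by simp))).2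
  have s1 : N1 ++ [Sum.inr (e, A ++ Sum.inr (none, v) :: P)] ⊆ _ := List.subset_append_left _ (Nm ++
    Sum.inr (e', P' ++ Sum.inr (none, v') :: B) :: N2)
  simp only [List.append_assoc, List.cons_append, List.nil_append] at s1 hk ho
  have i1 := (gg_fl (kid_sub hk s1) (sg_sub ho s1) (le_refl false)).1
  have i2 := (gg_fl (kid_sub hk (N' := N2) fun _ m => by simp [m]) (sg_sub ho fun _ m => by simp [m])
    (s := true) (s' := ls true B) le_top).1
  have k5 : ls (ls true P) P' = false := by
    rw [← ls_append]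
    exact (ggG (noG_append.2 ⟨h1, h3⟩) true).2.2 (by rwa [noV_append])
  simp only [fl_cons, fl_append, fl_nil, ex, Sum.elim_inr, List.map_cons, List.map_append, tp,
    Sum.map_inr, gg_append, ls_append, gg, ls, List.map_nil, List.append_nil, k1, k2,
    Option.isNone_none, Bool.and_true] at i1 i2 k3 ⊢
  simp only [(ggV h2 _).1, (ggV h2 _).2, (ggV k3 _).1, (ggV k3 _).2, (ggG h3 _).1, k5, (ggG k4 _).1]
  simp only [if_true, Bool.false_eq_true, if_false]
  omega

theorem adj_ev {N : ℕ → List (NL Γ a)} (hs : ∀ n, (N (n + 1)).map tp = fl (N n)) {n0 : ℕ}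
    (h : ∀ n ≥ n0, Kid (N n) ∧ Sg (N n)) : ∃ n1, ∀ n ≥ n1, Adj (N n) := by
  obtain ⟨⟨m, hm⟩, k⟩ := Sc.argmin (X := {n // n0 ≤ n}) fun n => gg false ((N n.1).map tp)
  have le : ∀ n, m ≤ n → gg false ((N n).map tp) ≤ gg false ((N m).map tp) := by
    intro n hn
    induction hn with
    | refl => exact le_rfl
    | step e ih => exact hs _ ▸ (gg_fl (h _ (hm.trans e)).1 (h _ (hm.trans e)).2 le_rfl).1.trans ih
  refine ⟨m, fun n hn => by_contra fun e => ?_⟩
  have h1 := gg_lt (h n (hm.trans hn)).1 (h n (hm.trans hn)).2 e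
  have h2 := k ⟨n + 1, by omega⟩
  have h3 := le n hn
  rw [← hs] at h1
  exact absurd (h1.trans_le h3) (not_lt.2 h2)

end S2adj

theorem p_S2_ADJ :
    S_S2_ADJ := by
  intro Γ a N hs h
  obtain ⟨n0, h⟩ := eventually_atTop.1 h
  exact eventually_atTop.2 (S2adj.adj_ev hs fun n hn => (h n hn).symm)

end Pool.Agent.P.MP_dba3d2_lc
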