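import Pool.Agent.P.MP_dba3d2_lc.F.IfaceS
import Pool.Agent.P.MP_dba3d2_lc.B.Axis2

/-! Step S2_BAD1 of the stability project. -/

namespace Pool.Agent.P.MP_dba3d2_lc

open Filter
open SW

theorem S2_bad1.ll_lt {Γ : HG} {a : Amb} {H X : Subgroup (MM Γ a)} {l : ℕ → a.K}
    (E : Env H X l) {m n : ℕ} (h : m < n) : Ll (l n) (l m) := by
  induction n, h using Nat.le_induction with
  | base => exact E.dec m
  | succ n _ ih => exact Ll.ls_left (E.dec n).ls ih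

theorem p_S2_BAD1 (hS2_TRI : S_S2_TRI) (hS2_PERS : S_S2_PERS) :
    S_S2_BAD1 := by
  intro Γ a H X l x E hx
  by_cases h : ∃ m g s u, UC (hatH H X) (WW X (l m)) (fun i => g * x i) s u
  · obtain ⟨m, g, s, u, hu⟩ := h
    refine (eventually_gt_atTop m).mono fun n hn u0 h0 => ?_
    have hm := (E.lv m).big.pos.le
    have hn' := (E.lv n).big.pos.le
    have lt := S2_bad1.ll_lt E hn
    have le : WW X (l n) ≤ WW X (l m) := fun y hy =>
      ⟨hy.1, (mem_tiny hm).2 (Ll.ls_left ((mem_tiny hn').1 hy.2).ls lt)⟩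
    obtain ⟨u', hu', k⟩ := (hS2_PERS _ _ _ _ (E.lv m).am (E.lv n).am le
      ((E.lv m).sup.trans (E.lv n).sup.symm).le).2 _ s u hu
    refine ⟨g, Or.inr ⟨s, u', hu', fun i j _ hi hj _ m0 hp => (hu.ne i j hj.symm hi hp.1 ?_).elim⟩⟩
    obtain ⟨-, -, h2, h3⟩ := hp
    have hU : hatH H X ≤ X := le_sup_left.trans (E.lv m).sup.le
    have hv : (u' i)⁻¹ * u' j ∈ WW X (l m) := by
      refine ⟨hU (mul_mem (inv_mem (hu'.en i).1) (hu'.en j).1), (mem_tiny hm).2 ?_⟩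
      have e : (u' i)⁻¹ * u' j = m0 * (u0 * (u0⁻¹ * (m0⁻¹ * ((u' i)⁻¹ * u' j)))) := by group
      rw [e]
      refine Ll.ls_left (Ls.mono_left (ln_mul_le _ _) (((mem_tiny hn').1 h2.2).ls.add
        (Ls.mono_left (ln_mul_le _ _) (h0.add ((mem_tiny hn').1 h3.2).ls)))) lt
    have e : (u i)⁻¹ * u j = (u i)⁻¹ * u' i * ((u' i)⁻¹ * u' j) * ((u j)⁻¹ * u' j)⁻¹ := by group
    rw [e]
    exact mul_mem (mul_mem (k i).1 hv) (inv_mem (k j).1)
  · refine Eventually.of_forall fun n u0 _ => ?_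
    obtain ⟨g, -, k | ⟨s, u, k⟩⟩ := hS2_TRI _ (hatH H X) (WW X (l n)) x
      fun i => (E.lv n).sup.symm ▸ hx i
    · exact ⟨g, Or.inl k⟩
    · exact (h ⟨n, g, s, u, k⟩).elim

end Pool.Agent.P.MP_dba3d2_lc
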