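import Pool.Agent.P.MP_dba3d2_lc.F.TbFo
import Pool.Agent.P.MP_dba3d2_lc.F.IfaceS

/-! Nested tripods: only finitely many levels are bad. -/

namespace Pool.Agent.P.MP_dba3d2_lc.SW

open Filter

variable {Γ : HG} {a : Amb} {H X : Subgroup (MM Γ a)} {l : ℕ → a.K} {s : Fin 3 → Bool}
  {u : ℕ → Fin 3 → MM Γ a} {m n k : ℕ}

theorem Env.ll (E : Env H X l) (h : m < n) : Ll (l n) (l m) := by
  induction h with
  | refl => exact E.dec _
  | step _ ih => exact Ll.ls_left (E.dec _).ls ih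

theorem Env.ls (E : Env H X l) (h : m ≤ n) : Ls (l n) (l m) := by
  rcases h.eq_or_lt with rfl | h
  · exact Ls.refl' _
  · exact (E.ll h).ls

theorem Env.ww (E : Env H X l) (h : m ≤ n) : WW X (l n) ≤ WW X (l m) :=
  ww_mono (E.lv m).big (E.lv n).big (E.ls h)

/-- first blocks of a tripod at all levels from `m` on -/
structure Nest (H X : Subgroup (MM Γ a)) (l : ℕ → a.K) (m : ℕ) (s : Fin 3 → Bool)
    (u : ℕ → Fin 3 → MM Γ a) : Prop where
  mem : ∀ n i, u n i ∈ hatH H X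
  ne : ∀ i j, i ≠ j → s i = true → s j = true → (u m i)⁻¹ * u m j ∉ WW X (l m)
  f : ∀ n k i, m ≤ n → n ≤ k → s i = false → u k i = u n i
  t : ∀ n k i, m ≤ n → n ≤ k → s i = true → (u n i)⁻¹ * u k i ∈ WW X (l n)

theorem Nest.far (E : Env H X l) (N : Nest H X l m s u) {i j : Fin 3} (h : i ≠ j)
    (hi : s i = true) (hj : s j = true) : Ls (l m) (ds (u m i) (u m j)) :=
  ww_ls (E.lv m).big (hat_le (E.lv m).le (mul_mem (inv_mem (N.mem m i)) (N.mem m j)))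
    (N.ne i j h hi hj)

theorem Nest.one (E : Env H X l) (N : Nest H X l m s u) (h : m < n) {u0 : MM Γ a}
    (h0 : Ls (ln u0) (l n)) : EqP (Pat1 H X (l n) u0) s (u n) := by
  rintro i j - hi hj - g ⟨k1, -, k3, k4⟩
  refine absurd ?_ (N.ne i j hj.symm hi k1)
  have w := E.ww h.le
  have h1 : u0 ∈ X := by
    have := mul_mem (mul_mem (X.inv_mem k3.1) (hat_le (E.lv n).le
      (mul_mem (inv_mem (N.mem n i)) (N.mem n j)))) (X.inv_mem k4.1)
    simpa [mul_assoc] using this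
  have := mul_mem (mul_mem (N.t m n i le_rfl h.le hi) (mul_mem (w k3) (mul_mem
    (ww_of_ls (E.lv m).big (E.ll h) h1 h0) (w k4)))) (inv_mem (N.t m n j le_rfl h.le k1))
  simpa [mul_assoc] using this

theorem Nest.cn (E : Env H X l) (N : Nest H X l m s u) (h : m ≤ n) {d : MM Γ a} {j : Fin 3}
    (k : s j = true → Ep d ∉ YA H X (l m) (u m j)) : Cn H X d (u m j) (u n j) := by
  cases e : s j
  · rw [N.f m n j le_rfl h e]
    exact .refl
  · simpa using (E.lv m).cn_of (mul_mem (inv_mem (N.mem m j)) (N.mem n j))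
      (N.t m n j le_rfl h e) (k e)

theorem Nest.ya (E : Env H X l) (N : Nest H X l m s u) (h : m ≤ n) {j : Fin 3} (e : s j = true) :
    YA H X (l n) (u n j) ⊆ YA H X (l m) (u m j) := by
  simpa using YA_mono (x := u m j) (E.ww h) (mul_mem (inv_mem (N.mem m j)) (N.mem n j))
    (N.t m n j le_rfl h e)

theorem Nest.two (hE : S_ELEM) (hL : S_LINE) (hP : S_PERC) (E : Env H X l)
    (N : Nest H X l m s u) : {n | ∃ d ∈ H, Prim d ∧ Sim (ln d) (l n) ∧
      ¬ EqP (Pat2 H X (l n) d) s (u n)}.Finite := by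
  choose B b1 b2 b3 using fun j k : Fin 3 =>
    (wk_univ (mul_mem (inv_mem (N.mem m j)) (N.mem m k))).fin
  let Z : Fin 3 → Fin 3 → Set (Subgroup (MM Γ a)) := fun i j =>
    {e | i ≠ j ∧ s i = true ∧ s j = true ∧ e ∈ YA H X (l m) (u m i) ∩ YA H X (l m) (u m j)}
  have z : ∀ i j, (Z i j).Finite := fun i j => Set.Subsingleton.finite fun e he e' he' =>
    YA_sub hE hL hP (E.lv m).big (N.far E he.1 he.2.1 he.2.2.1) he.2.2.2 he'.2.2.2
  let F : Set (Subgroup (MM Γ a)) := (⋃ j, ⋃ k, B j k) ∪ ⋃ j, ⋃ k, Z j k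
  have hF : F.Finite := (Set.finite_iUnion fun j => Set.finite_iUnion fun k => b2 j k).union
    (Set.finite_iUnion fun j => Set.finite_iUnion fun k => z j k)
  let R : ℕ → Fin 3 × Subgroup (MM Γ a) → Prop := fun n p => m < n ∧ s p.1 = true ∧ p.2 ∈ F ∧
    ∃ d, Prim d ∧ p.2 = Ep d ∧ Sim (ds (u n p.1) (d * u n p.1)) (l n)
  have key : ∀ n n' p, R n p → R n' p → ¬ n < n' := by
    rintro n n' ⟨i, e⟩ ⟨h1, h2, -, d, h4, h5, h6⟩ ⟨-, -, -, d', k4, k5, k6⟩ lt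
    have k7 := Prim.fix hE hL h4 k4.1 (h5.symm.trans k5) (Ll.ls_left k6.1 (E.ll lt))
    have k8 : Ll (ds (u n i) (u n' i)) (l n) := ww_ll (E.lv n).big (N.t n n' i h1.le lt.le h2)
    exact (fix_congr k7 (FixA.ll_comm k8)).not_ls (E.lv n).big.pos h6.2
  have fin : {n | ∃ p, R n p}.Finite := by
    refine ((Set.finite_univ.prod hF).biUnion (t := fun p => {n | R n p}) fun p _ =>
      Set.Subsingleton.finite fun n h n' h' =>
        le_antisymm (not_lt.1 (key _ _ p h' h)) (not_lt.1 (key _ _ p h h'))).subset ?_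
    rintro n ⟨p, h⟩
    exact Set.mem_biUnion (show p ∈ Set.univ ×ˢ F from ⟨trivial, h.2.2.1⟩) h
  refine (fin.union (Set.finite_le_nat m)).subset ?_
  rintro n ⟨d, h1, h2, h3, h4⟩
  refine (lt_or_ge m n).imp (fun lt => ?_) id
  simp only [EqP, not_forall] at h4
  obtain ⟨i, j, k, hi, hj, hk, g, ⟨p1, p2, p3, p4⟩, q⟩ := h4
  have big := (E.lv n).big
  have c1 : ∀ t, Cn H X (g * d * g⁻¹) 1 ((u n i)⁻¹ * u n t) ↔
      Cn H X (u n i * (g * d * g⁻¹) * (u n i)⁻¹) (u n i) (u n t) := fun t => by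
    rw [← cn_mv (u n i), mul_one, mul_inv_cancel_left]
  have c2 : ∀ t, Ep (g * d * g⁻¹) ∈ YA H X (l n) ((u n i)⁻¹ * u n t) ↔
      Ep (u n i * (g * d * g⁻¹) * (u n i)⁻¹) ∈ YA H X (l n) (u n t) := fun t => by
    rw [← YA_mv (u n i), mul_inv_cancel_left]
  set D := u n i * (g * d * g⁻¹) * (u n i)⁻¹ with hD
  have y0 : Ep D ∈ YA H X (l m) (u m i) :=
    ⟨(u m i)⁻¹ * u n i * g, mul_mem (mul_mem (inv_mem (N.mem m i)) (N.mem n i)) p1,
      mul_mem (N.t m n i le_rfl lt.le hi) (E.ww lt.le p2), d, h1,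
      ww_of_ls (E.lv m).big (E.ll lt) ((E.lv m).le h1) h3.1, h2, by rw [hD]; congr 1; group⟩
  refine ⟨(i, Ep D), lt, hi, ?_, D, (h2.conj g).conj _, rfl, ?_⟩
  · by_contra nF
    have nz : ∀ t, t ≠ i → s t = true → Ep D ∉ YA H X (l m) (u m t) := fun t ht st e =>
      nF (.inr (Set.mem_iUnion₂.2 ⟨i, t, ht.symm, hi, st, y0, e⟩))
    have w : Cn H X D (u m j) (u m k) := (b3 j k).mono fun e he e' =>
      nF (.inl (Set.mem_iUnion₂.2 ⟨j, k, e' ▸ he⟩))
    refine q ⟨p1, p2, fun e e' => nz k hk e (N.ya E lt.le e ((c2 k).1 e')), fun e => p4 ?_⟩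
    exact (c1 j).2 (((c1 k).1 e).trans ((Wk.symm (N.cn E lt.le (nz k hk))).trans
      ((Wk.symm w).trans (N.cn E lt.le (nz j hj)))))
  · have e : ds (u n i) (D * u n i) = ln (g * d * g⁻¹) := by
      rw [ds_conj, hD]
      congr 1
      group
    have g1 := ww_ll big p2
    have t1 := ln_mul_le (g * d) g⁻¹
    have t2 := ln_mul_le g d
    have t3 := ln_mul_le (g⁻¹ * (g * d * g⁻¹)) g
    have t4 := ln_mul_le g⁻¹ (g * d * g⁻¹)
    rw [show g⁻¹ * (g * d * g⁻¹) * g = d by group] at t3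
    rw [ln_inv] at t1 t4
    show Sim (ds (u n i) (D * u n i)) (l n)
    rw [e]
    exact ⟨Ls.mono_left (by linarith) ((g1.add g1).ls.add h3.1),
      h3.2.of_le_add (g1.add g1) big.pos 1 (by push_cast; linarith)⟩

theorem exists_nest (hT : S_S2_TRI) (hP : S_S2_PERS) (E : Env H X l) {x : Fin 3 → MM Γ a}
    (hx : ∀ i, x i ∈ X) : (∀ n, ∃ g, WC (hatH H X) (WW X (l n)) fun i => g * x i) ∨
      ∃ g m s u, Nest H X l m s u ∧
        ∀ n, m ≤ n → UC (hatH H X) (WW X (l n)) (fun i => g * x i) s (u n) := by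
  refine or_iff_not_imp_left.2 fun h => ?_
  obtain ⟨m, hm⟩ := not_forall.1 h
  obtain ⟨g, -, k⟩ := hT _ (hatH H X) (WW X (l m)) x fun i => by rw [(E.lv m).sup]; exact hx i
  obtain ⟨s, u0, k⟩ := k.resolve_left fun e => hm ⟨g, e⟩
  have P := fun n n' (e : n ≤ n') => hP _ (hatH H X) (WW X (l n)) (WW X (l n')) (E.lv n).am
    (E.lv n').am (E.ww e) (by rw [(E.lv n).sup, (E.lv n').sup])
  have ex : ∀ n, ∃ u, (∀ i, u i ∈ hatH H X) ∧
      (m ≤ n → UC (hatH H X) (WW X (l n)) (fun i => g * x i) s u) := fun n => by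
    by_cases e : m ≤ n
    · obtain ⟨u, k1, -⟩ := (P m n e).2 _ s u0 k
      exact ⟨u, fun i => (k1.en i).1, fun _ => k1⟩
    · exact ⟨u0, fun i => (k.en i).1, fun e' => absurd e' e⟩
  choose u h1 h2 using ex
  refine ⟨g, m, s, u, ⟨h1, (h2 m le_rfl).ne, fun n n' i e e' f => ?_, fun n n' i e e' f => ?_⟩, h2⟩
  · exact (((h2 n' (e.trans e')).en i).2.1 f).symm.trans (((h2 n e).en i).2.1 f)
  · exact (P n n' e').1 _ _ _ (f ▸ (h2 n e).en i) (f ▸ (h2 n' (e.trans e')).en i)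

end Pool.Agent.P.MP_dba3d2_lc.SW
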