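import Pool.Agent.P.MP_dba3d2_lc.F.IfaceS
import Pool.Agent.P.MP_dba3d2_lc.A.Iface
import Pool.Agent.P.MP_dba3d2_lc.B.Axis2
import Pool.Agent.P.MP_dba3d2_lc.F.TbBad

/-! Step S2_BAD2 of the stability project. -/

namespace Pool.Agent.P.MP_dba3d2_lc

open Filter
open SW

theorem p_S2_BAD2 (hELEM : S_ELEM) (hLINE : S_LINE) (hPERC : S_PERC) (hS2_TRI : S_S2_TRI) (hS2_PERS : S_S2_PERS) (hS2_WK : S_S2_WK) (hS2_UQ : S_S2_UQ) :
    S_S2_BAD2 := by
  intro Γ a H X l x E hx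
  rcases exists_nest hS2_TRI hS2_PERS E hx with h | ⟨g, m, s, u, N, h⟩
  · exact Eventually.of_forall fun n d0 _ _ _ => (h n).imp fun g k => .inl k
  · have k := (N.two hELEM hLINE hPERC E).eventually_cofinite_notMem
    rw [Nat.cofinite_eq_atTop] at k
    filter_upwards [eventually_ge_atTop m, k] with n hn k d0 h1 h2 h3
    exact ⟨g, .inr ⟨s, u n, h n hn, by_contra fun e => k ⟨d0, h1, h2, h3, e⟩⟩⟩

end Pool.Agent.P.MP_dba3d2_lc
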