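import Pool.Agent.P.MP_dba3d2_lc.F.IfaceS
import Pool.Agent.P.MP_dba3d2_lc.F.TbShr

/-! Step S2_COC of the stability project. -/

namespace Pool.Agent.P.MP_dba3d2_lc

open Filter
open SW

namespace S2_coc

variable {G T : Type} [Group G] [Group T] {U W : Subgroup G} {P : Bool → G → G → Prop}
  {j : G →* T} {ν : T} {n ι : Bool → G → T}

theorem inv_mul (hI : IsI U W j n ι) {k : ℕ} {b : Bool} {x : G} (hx : Rw U W k b x) :
    b = true → ∀ y w, Tl U W y → w ∈ W → w ∉ U →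
      ι false (x⁻¹ * w * y) = (ι true x)⁻¹ * j w * ι true y := by
  induction hx with
  | nil b u hu =>
    intro _ y w hy hw hw'
    rw [hI.cons false _ (U.inv_mem hu) w hw hw' y hy, hI.nil true u hu]
    simp [ph]
  | cons k b u w' x hu hb h1 h2 hx ih =>
    intro e y w hy hw hw'
    obtain ⟨m, hm⟩ := hy
    have h3 : Tl U W (u⁻¹ * w * y) :=
      ⟨_, Rw.cons m true _ w y (U.inv_mem hu) (fun _ h => hb e (W.inv_mem_iff.1 h)) hw hw' hm⟩
    have h4 := ih rfl _ w'⁻¹ h3 (W.inv_mem h1) fun h => h2 (U.inv_mem_iff.1 h)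
    rw [show (u * w' * x)⁻¹ * w * y = x⁻¹ * w'⁻¹ * (u⁻¹ * w * y) by group, h4,
      hI.cons true _ (U.inv_mem hu) w hw hw' y ⟨m, hm⟩, hI.cons true u hu w' h1 h2 x ⟨k, hx⟩]
    simp [ph, mul_assoc]

theorem one (hI : IsI U W j n ι) (x y w : G) (hx : Tl U W x) (hy : Tl U W y) (hw : w ∈ W)
    (hw' : w ∉ U) : ι false (x⁻¹ * w * y) = (ι true x)⁻¹ * j w * ι true y :=
  let ⟨_, h⟩ := hx
  inv_mul hI h rfl y w hy hw hw'

theorem wc (hI : IsI U W j n ι) {z : Fin 3 → G} (h : WC U W z) :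
    ι false ((z 0)⁻¹ * z 2) = ι false ((z 0)⁻¹ * z 1) * ι false ((z 1)⁻¹ * z 2) := by
  obtain ⟨w, t, h1, h2⟩ := h
  have key : ∀ i k, i ≠ k → ι false ((z i)⁻¹ * z k) =
      (ι true (t i))⁻¹ * j ((w i)⁻¹ * w k) * ι true (t k) := fun i k e => by
    rw [← one hI _ _ _ (h1 i).2.1 (h1 k).2.1 (W.mul_mem (W.inv_mem (h1 i).1) (h1 k).1)
      (h2 i k e), (h1 i).2.2, (h1 k).2.2]
    congr 1
    group
  rw [key 0 2 (by decide), key 0 1 (by decide), key 1 2 (by decide)]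
  simp [mul_assoc]

theorem n_eq (hN : IsN U P j ν n) {s s' : Bool} {u u' : G} (hu : u ∈ U) (hu' : u' ∈ U)
    (h : ∀ m, P s u m → P s' u' m) (h' : ∀ m, P s' u' m → P s u m) : n s u = n s' u' := by
  by_cases e : ∃ m, P s u m
  · obtain ⟨m, hm⟩ := e
    rw [hN.yes s u hu m hm, hN.yes s' u' hu' m (h m hm)]
  · rw [hN.no s u fun m hm => e ⟨m, hm⟩, hN.no s' u' fun m hm => e ⟨m, h' m hm⟩]

theorem uc (hN : IsN U P j ν n) (hI : IsI U W j n ι) {z u : Fin 3 → G} {s : Fin 3 → Bool}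
    (h : UC U W z s u) (hP : EqP P s u) :
    ι false ((z 0)⁻¹ * z 2) = ι false ((z 0)⁻¹ * z 1) * ι false ((z 1)⁻¹ * z 2) := by
  have hA : ∀ i, ∃ A : T, (s i = false ∧ z i = u i ∧ A = 1) ∨ (s i = true ∧ ∃ w t, w ∈ W ∧
      w ∉ U ∧ Tl U W t ∧ z i = u i * w * t ∧ A = j w * ι true t) := fun i => by
    cases e : s i
    · exact ⟨1, Or.inl ⟨rfl, (h.en i).2.1 e, rfl⟩⟩
    · obtain ⟨w, t, a1, a2, a3, a4⟩ := (h.en i).2.2 e
      exact ⟨_, Or.inr ⟨rfl, w, t, a1, a2, a3, a4, rfl⟩⟩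
  choose A hA using hA
  have hU : ∀ i k, (u i)⁻¹ * u k ∈ U := fun i k => U.mul_mem (U.inv_mem (h.en i).1) (h.en k).1
  have key : ∀ i k, i ≠ k → ι false ((z i)⁻¹ * z k) =
      (A i)⁻¹ * ph j n (s i) (s k) ((u i)⁻¹ * u k) * A k := fun i k e => by
    rcases hA i with ⟨a1, a2, a3⟩ | ⟨a1, w, t, a2, a3, a4, a5, a6⟩ <;>
      rcases hA k with ⟨b1, b2, b3⟩ | ⟨b1, w', t', b2, b3, b4, b5, b6⟩
    · rw [a1, b1, a2, b2, a3, b3, hI.nil false _ (hU i k)]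
      simp
    · rw [a1, b1, a2, b5, a3, b6, show (u i)⁻¹ * (u k * w' * t') = (u i)⁻¹ * u k * w' * t' by group,
        hI.cons false _ (hU i k) w' b2 b3 t' b4]
      simp [mul_assoc]
    · rw [a1, b1, a5, b2, a6, b3, show (u i * w * t)⁻¹ * u k = t⁻¹ * w⁻¹ * ((u i)⁻¹ * u k) by group,
        one hI _ _ _ a4 ⟨0, Rw.nil true _ (hU i k)⟩ (W.inv_mem a2)
          fun h => a3 (U.inv_mem_iff.1 h), hI.nil true _ (hU i k)]
      simp
    · obtain ⟨m, hm⟩ := b4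
      rw [a1, b1, a5, b5, a6, b6, show (u i * w * t)⁻¹ * (u k * w' * t') =
        t⁻¹ * w⁻¹ * ((u i)⁻¹ * u k * w' * t') by group,
        one hI _ _ _ a4 ⟨_, Rw.cons m true _ w' t' (hU i k) (fun _ => h.ne i k e a1 b1) b2 b3 hm⟩
          (W.inv_mem a2) fun h => a3 (U.inv_mem_iff.1 h),
        hI.cons true _ (hU i k) w' b2 b3 t' ⟨m, hm⟩]
      simp [mul_assoc]
  have hn : ∀ i k l, s i = true → k ≠ i → l ≠ i →
      n (s k) ((u i)⁻¹ * u k) = n (s l) ((u i)⁻¹ * u l) := fun i k l e e1 e2 =>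
    n_eq hN (hU i k) (hU i l) (hP i k l e e1 e2) (hP i l k e e2 e1)
  have h0 := fun e => hn 0 1 2 e (by decide) (by decide)
  have h1 := fun e => hn 1 0 2 e (by decide) (by decide)
  have h2 := fun e => hn 2 1 0 e (by decide) (by decide)
  rw [key 0 2 (by decide), key 0 1 (by decide), key 1 2 (by decide)]
  simp only [ph, mul_inv_rev, inv_inv]
  cases e0 : s 0 <;> cases e1 : s 1 <;> cases e2 : s 2 <;>
    simp only [e0, e1, e2, forall_const, Bool.false_eq_true, false_imp_iff] at h0 h1 h2 <;>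
    simp [h0, h1, h2, mul_assoc]

theorem blk (hN : IsN U P j ν n) {s t : Bool} {u : G} (hu : u ∈ U) {c : List (G × Bool)}
    (h : Bk P s t u c) : cutEv j ν c * j u = ph j n s t u := by
  obtain ⟨c1, c2, h1, h2, rfl⟩ := h
  have e1 : cutEv j ν c1 = if s then (n t u)⁻¹ else 1 := by
    rcases h1 with ⟨m, a1, a2, rfl⟩ | ⟨a1, rfl⟩
    · rw [if_pos a1, hN.yes t u hu m a2]
      simp [cutEv, mul_assoc]
    · split_ifs with e
      · rw [hN.no t u (a1 e), inv_one]; rfl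
      · rfl
  have e2 : cutEv j ν c2 * j u = j u * if t then n s u⁻¹ else 1 := by
    rcases h2 with ⟨m, a1, a2, rfl⟩ | ⟨a1, rfl⟩
    · rw [if_pos a1, hN.yes s _ (U.inv_mem hu) m a2]
      simp [cutEv, mul_assoc]
    · split_ifs with e
      · rw [hN.no s _ (a1 e)]; simp [cutEv]
      · simp [cutEv]
  rw [cutEv_append, mul_assoc, e1, e2, ph, mul_assoc]

theorem cl (hN : IsN U P j ν n) (hI : IsI U W j n ι) {K : Type} [Add K] {f : G → K} {s : Bool}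
    {x : G} {t : K} {C : List (G × Bool)} (h : CL U W f (Bk P) s x t C) :
    (∃ k, Rw U W k s x) ∧ cutEv j ν C * j x = ι s x := by
  induction h with
  | nil s u c hu hc => exact ⟨⟨0, Rw.nil s u hu⟩, by rw [blk hN hu hc, hI.nil s u hu]⟩
  | cons s u w x t c C hu hs hw hw' hc _ ih =>
    obtain ⟨⟨k, hk⟩, e⟩ := ih
    refine ⟨⟨_, Rw.cons k s u w x hu hs hw hw' hk⟩, ?_⟩
    rw [hI.cons s u hu w hw hw' x ⟨k, hk⟩, ← e, ← blk hN hu hc, cutEv_append, cutEv_mv]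
    simp [mul_assoc]

end S2_coc

theorem p_S2_COC :
    S_S2_COC := by
  intro G T _ _ U W P j ν n ι hN hI
  refine ⟨S2_coc.one hI, fun x y ⟨g, h⟩ => ?_, fun K _ f s x t C h => (S2_coc.cl hN hI h).2⟩
  have key := h.elim (S2_coc.wc hI) fun ⟨_, _, h1, h2⟩ => S2_coc.uc hN hI h1 h2
  simpa [mul_assoc] using key

end Pool.Agent.P.MP_dba3d2_lc
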