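import Pool.Agent.P.MP_dba3d2_lc.F.IfaceS
import Pool.Agent.P.MP_dba3d2_lc.F.TbShr
import Pool.Agent.P.MP_dba3d2_lc.B.Axis2

/-! Step S2_CW of the stability project. -/

namespace Pool.Agent.P.MP_dba3d2_lc

open Filter
open SW

namespace S2_cw

theorem hf_total {G : Type} (P : G → Prop) (s : Bool) (φ : G → G × Bool) : ∃ c, Hf P s φ c := by
  by_cases h : ∃ m, s = true ∧ P m
  · obtain ⟨m, h1, h2⟩ := h
    exact ⟨_, Or.inl ⟨m, h1, h2, rfl⟩⟩
  · exact ⟨[], Or.inr ⟨fun h1 m h2 => h ⟨m, h1, h2⟩, rfl⟩⟩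

theorem bk_total {G : Type} [Group G] (P : Bool → G → G → Prop) (s t : Bool) (u : G) :
    ∃ c, Bk P s t u c := by
  obtain ⟨c1, h1⟩ := hf_total (P t u) s fun m => (m, true)
  obtain ⟨c2, h2⟩ := hf_total (P s u⁻¹) t fun m => (u * m, false)
  exact ⟨_, c1, c2, h1, h2, rfl⟩

theorem hf_false {G : Type} (P : G → Prop) (φ : G → G × Bool) : Hf P false φ [] :=
  Or.inr ⟨fun h => absurd h Bool.false_ne_true, rfl⟩

variable {Γ : HG} {a : Amb}

theorem bk_ord {ν : a.K} (h0 : 0 ≤ ν) {P : Bool → MM Γ a → MM Γ a → Prop}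
    (hP : ∀ s u m, P s u m → Ll (ln m) ν) (s t : Bool) (u : MM Γ a) (c : List (MM Γ a × Bool))
    (h : Bk P s t u c) : OrdOn ν 1 (cutPts 1 1 c) u := by
  obtain ⟨c1, c2, h1, h2, rfl⟩ := h
  rw [cutPts_append]
  refine OrdOn.append (z := 1) ?_ ?_ (on_left h0 _ _)
  · rcases h2 with ⟨m, -, hm, rfl⟩ | ⟨-, rfl⟩
    · refine ⟨(On.of_near (x := u) ?_ 1).symm, on_left h0 _ _, trivial⟩
      simpa only [cond_false, mul_one, ds_mul_right] using hP _ _ _ hm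
    · trivial
  · rcases h1 with ⟨m, -, hm, rfl⟩ | ⟨-, rfl⟩
    · refine ⟨On.of_near ?_ 1, on_left h0 _ _, trivial⟩
      simpa only [cond_true, mul_one, ds_one_left] using hP _ _ _ hm
    · trivial

end S2_cw

open S2_cw in
theorem p_S2_CW (hS2_RED : S_S2_RED) (hS2_ORD : S_S2_ORD) :
    S_S2_CW := by
  intro Γ a H X μ P hL hP
  have hμ := hL.big
  have key : ∀ w, ∃ c, (w ∈ X → ∃ t, CL (hatH H X) (WW X μ) ln (Bk P) false w t c) ∧
      (w ∈ H → c = []) ∧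
      (w ∈ X → c ≠ [] → Ls μ (ln w) ∧ OrdOn (ln w) 1 (cutPts 1 1 c) w) := by
    intro w
    by_cases hU : w ∈ hatH H X
    · exact ⟨[], fun _ => ⟨_, CL.nil false w [] hU ⟨[], [], hf_false _ _, hf_false _ _, rfl⟩⟩,
        fun _ => rfl, fun _ e => absurd rfl e⟩
    by_cases hX : w ∈ X
    swap
    · exact ⟨[], fun e => absurd e hX, fun _ => rfl, fun e => absurd e hX⟩
    rcases ll_or_ls hμ.pos (ln w) with e | e
    · refine ⟨[], fun _ => ⟨ln (1 : MM Γ a) + ln w + ln (1 : MM Γ a), ?_⟩, fun _ => rfl,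
        fun _ e => absurd rfl e⟩
      have k := CL.cons (f := ln) (B := Bk P) false 1 w 1 _ [] [] (one_mem (hatH H X))
        (fun h => absurd h Bool.false_ne_true)
        (show w ∈ WW X μ from ⟨hX, (mem_tiny hμ.pos.le).2 e⟩) hU
        ⟨[], [], hf_false _ _, Or.inr ⟨fun _ => by simpa using hP.one, rfl⟩, rfl⟩
        (CL.nil true 1 [] (one_mem _) ⟨[], [], Or.inr ⟨fun _ => hP.one, rfl⟩, hf_false _ _, rfl⟩)
      rwa [one_mul, mul_one] at k
    · obtain ⟨L, h1, rfl, h2, -⟩ := hL.nf w hX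
      obtain ⟨t, C, h3, h4⟩ := (hS2_RED _ (hatH H X) (WW X μ)).2.2 a.K ln (Bk P) ln_one ln_mul_le
        (bk_total P) L fun g hg => (h1 g hg).imp_left fun k => Subgroup.mem_sup_left k
      refine ⟨C, fun _ => ⟨t, h3⟩, fun k => absurd (Subgroup.mem_sup_left k) hU, fun _ _ =>
        ⟨e, hS2_ORD Γ a _ _ _ 1 1 _ (bk_ord (ln_nonneg _) fun s u m hm => ?_) _ _ _ _ h3
          ((h2 (hμ.of_ls e)).mono_left (by linarith))⟩⟩
      exact ((mem_tiny hμ.pos.le).1 (hP.mem s u m hm).2.2).ls_right e (ln_nonneg _)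
  choose C h1 h2 h3 using key
  exact ⟨C, h1, h2, h3⟩

end Pool.Agent.P.MP_dba3d2_lc
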