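import Pool.Agent.P.MP_dba3d2_lc.F.IfaceS
import Pool.Agent.P.MP_dba3d2_lc.F.TbS
import Pool.Agent.P.MP_dba3d2_lc.F.TbShr

/-! Step S2_ENT of the stability project. -/

namespace Pool.Agent.P.MP_dba3d2_lc

open Filter
open SW

namespace S2_ent

theorem cl_mono {G K : Type} [Group G] [Add K] {U W : Subgroup G} {f : G → K}
    {B B' : Bool → Bool → G → List (G × Bool) → Prop} (hB : ∀ s t u c, B s t u c → B' s t u c)
    {s : Bool} {x : G} {t : K} {C : List (G × Bool)} (h : CL U W f B s x t C) :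
    CL U W f B' s x t C := by
  induction h with
  | nil s u c a1 a2 => exact CL.nil s u c a1 (hB _ _ _ _ a2)
  | cons s u w x t c C a1 a2 a3 a4 a5 _ ih => exact CL.cons s u w x t c C a1 a2 a3 a4 (hB _ _ _ _ a5) ih

theorem hf_nil {G : Type} {P : G → Prop} {s : Bool} {φ : G → G × Bool} (h : Hf P s φ []) :
    s = true → ∀ m, ¬ P m := by
  rcases h with ⟨m, -, -, e⟩ | h
  · exact absurd e (by simp)
  · exact h.1

theorem hf_false {G : Type} {P : G → Prop} {φ : G → G × Bool} {c : List (G × Bool)}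
    (h : Hf P false φ c) : c = [] := by
  rcases h with ⟨m, e, -⟩ | h
  · exact absurd e (by simp)
  · exact h.2

/-- no pattern at the ends of a block -/
def NP {G : Type} [Group G] (P : Bool → G → G → Prop) (s t : Bool) (u : G) : Prop :=
  (s = true → ∀ m, ¬ P t u m) ∧ (t = true → ∀ m, ¬ P s u⁻¹ m)

theorem bk_nil {G : Type} [Group G] {P : Bool → G → G → Prop} {s t : Bool} {u : G}
    (h : Bk P s t u []) : NP P s t u := by
  obtain ⟨c1, c2, h1, h2, e⟩ := h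
  obtain ⟨rfl, rfl⟩ := List.append_eq_nil_iff.1 e.symm
  exact ⟨hf_nil h1, hf_nil h2⟩

theorem bk_ff {G : Type} [Group G] {P : Bool → G → G → Prop} {u : G} {c : List (G × Bool)}
    (h : Bk P false false u c) : c = [] := by
  obtain ⟨c1, c2, h1, h2, rfl⟩ := h
  rw [hf_false h1, hf_false h2]
  rfl

variable {Γ : HG} {a : Amb}

theorem split_cmp {Q A Z R : List (Lt Γ a)} {v v' : MM Γ a} (k : NoG Q)
    (e : A ++ Sum.inr (none, v') :: Z = Q ++ Sum.inr (none, v) :: R) :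
    (A = Q ∧ Z = R) ∨ ∃ A', A = Q ++ Sum.inr (none, v) :: A' ∧
      R = A' ++ Sum.inr (none, v') :: Z := by
  rcases List.append_eq_append_iff.1 e with ⟨_ | ⟨y, E⟩, e1, e2⟩ | ⟨_ | ⟨y, E⟩, e1, e2⟩
  · exact Or.inl ⟨by simpa using e1.symm, (List.cons.inj e2).2⟩
  · obtain ⟨rfl, -⟩ := List.cons.inj e2
    exact absurd (by rw [e1]; simp) (k v')
  · exact Or.inl ⟨by simpa using e1, (List.cons.inj e2).2.symm⟩
  · obtain ⟨rfl, e3⟩ := List.cons.inj e2
    exact Or.inr ⟨E, e1, e3⟩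

/-- blocks of a final segment -/
def BS (s : Bool) (R : List (Lt Γ a)) (s' : Bool) (Q : List (Lt Γ a)) (t : Bool) : Prop :=
  ∃ A B, R = A ++ Q ++ B ∧ NoG Q ∧
    ((A = [] ∧ s' = s) ∨ (s' = true ∧ ∃ A' v, A = A' ++ [Sum.inr (none, v)])) ∧
    (t = false → B = []) ∧ (t = true → ∃ v B', B = Sum.inr (none, v) :: B')

theorem bs_of {D Q : List (Lt Γ a)} {s t : Bool} (h : Blk D s Q t) : BS false D s Q t := by
  obtain ⟨A, B, e, k, a1, a2, a3, a4⟩ := h
  refine ⟨A, B, e, k, ?_, a3, a4⟩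
  cases s
  · exact Or.inl ⟨a1 rfl, rfl⟩
  · exact Or.inr ⟨rfl, a2 rfl⟩

theorem bs_noG {R Q : List (Lt Γ a)} {s s' t : Bool} (k : NoG R) (h : BS s R s' Q t) :
    s' = s ∧ t = false ∧ Q = R := by
  obtain ⟨A, B, rfl, -, a1, a3, a4⟩ := h
  obtain ⟨rfl, rfl⟩ : A = [] ∧ s' = s := a1.resolve_right fun ⟨_, A', v, e⟩ => k v (by simp [e])
  cases t
  · exact ⟨rfl, rfl, by simp [a3 rfl]⟩
  · obtain ⟨v, B', rfl⟩ := a4 rfl
    exact absurd (by simp) (k v)

theorem bs_cons {R Q Q₀ : List (Lt Γ a)} {s s' t : Bool} {v : MM Γ a} (k : NoG Q₀)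
    (h : BS s (Q₀ ++ Sum.inr (none, v) :: R) s' Q t) :
    (s' = s ∧ t = true ∧ Q = Q₀) ∨ BS true R s' Q t := by
  obtain ⟨A, B, e, k', a1, a3, a4⟩ := h
  rcases a1 with ⟨rfl, rfl⟩ | ⟨rfl, A', v', rfl⟩
  · cases t
    · obtain rfl := a3 rfl
      exact absurd (by rw [List.nil_append, List.append_nil] at e; rw [← e]; simp) (k' v)
    · obtain ⟨v', B', rfl⟩ := a4 rfl
      rcases split_cmp k (A := Q) e.symm with ⟨e1, -⟩ | ⟨A', e1, -⟩
      · exact Or.inl ⟨rfl, rfl, e1⟩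
      · exact absurd (by rw [e1]; simp) (k' v)
  · rcases split_cmp k (A := A') (v' := v') (Z := Q ++ B) (by rw [e]; simp) with
      ⟨-, e1⟩ | ⟨A'', -, e1⟩
    · exact Or.inr ⟨[], B, e1.symm, k', Or.inl ⟨rfl, rfl⟩, a3, a4⟩
    · exact Or.inr ⟨A'' ++ [Sum.inr (none, v')], B, by rw [e1]; simp, k',
        Or.inr ⟨rfl, A'', v', rfl⟩, a3, a4⟩

theorem main {H X : Subgroup (MM Γ a)} {μ : a.K} {p : MM Γ a}
    {P : Bool → MM Γ a → MM Γ a → Prop} {D : List (Lt Γ a)} (h0 : 0 ≤ μ) (hX : H ≤ X)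
    (hF : F0 H X μ D) (hA : Ad μ D) (hO : OrdB μ p P D) :
    ∀ (n : ℕ) (A R : List (Lt Γ a)) (s : Bool), R.length < n → D = A ++ R →
      (s = false → A = []) → (s = true → ∃ A' v, A = A' ++ [Sum.inr (none, v)]) →
      ∃ C t, CL (hatH H X) (WW X μ) ln
          (fun s t u c => Bk P s t u c ∧ OrdOn μ 1 (cutPts 1 p c) u) s (lv R) t C ∧
        Ll (t - lc R) μ ∧ (C = [] → ∀ s' Q t', BS s R s' Q t' → NP P s' t' (lv Q)) ∧
        (NoG R → s = false → C = [])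
  | 0, _, _, _, h, _, _, _ => absurd h (Nat.not_lt_zero _)
  | n + 1, A, R, s, hn, e, a1, a2 => by
    have hR : F0 H X μ R := F0.right (A := A) (e ▸ hF)
    have sm : ∀ x, Sum.inr x ∈ R → Ll (ln x.2) μ := fun x k => hA.1 x (by simp [e, k])
    rcases split_G R with k | ⟨Q, v, R', rfl, k⟩
    · obtain ⟨c, hc⟩ := bk_total P s false (lv R)
      refine ⟨c, _, CL.nil s _ c (hR.toFa.memU hX k) ⟨hc, hO s R false c
        ⟨A, [], by simp [e], k, a1, a2, fun _ => rfl, fun h => absurd h (by simp)⟩ hc⟩,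
        ln_lv_le h0 sm, ?_, ?_⟩
      · rintro rfl s' Q t' h
        obtain ⟨rfl, rfl, rfl⟩ := bs_noG k h
        exact bk_nil hc
      · rintro - rfl
        exact bk_ff hc
    · obtain ⟨c, hc⟩ := bk_total P s true (lv Q)
      obtain ⟨C, t, h1, h2, h3, -⟩ := main h0 hX hF hA hO n (A ++ Q ++ [Sum.inr (none, v)]) R' true
        (by simp at hn; omega) (by simp [e]) (fun h => absurd h (by simp)) fun _ => ⟨_, _, rfl⟩
      have g := hR.gen v (by simp)
      refine ⟨c ++ cutMv (lv Q * v) C, ln (lv Q) + ln v + t, ?_, ?_, fun z s' Q' t' h => ?_,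
        fun h => absurd (by simp) (h v)⟩
      · rw [lv_append, lv_cons, ← mul_assoc]
        refine CL.cons s _ v _ t c C (hR.left.toFa.memU hX k) (fun z w => ?_) g.1 g.2
          ⟨hc, hO s Q true c ⟨A, _, by rw [e, List.append_assoc], k, a1, a2,
            fun h => absurd h (by simp), fun _ => ⟨v, R', rfl⟩⟩ hc⟩ h1
        obtain ⟨A', v', rfl⟩ := a2 z
        exact hF.f5 A' v' Q v R' (by simp [e]) k ((mem_tiny h0).1 w.2)
      · refine Ll.mono_left (le_of_eq ?_) (((ln_lv_le h0 (L := Q) fun x w => sm x (by simp [w])).add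
          (sm (none, v) (by simp))).add h2)
        simp only [lc_append, lc_inr]
        ring
      · obtain ⟨rfl, z'⟩ := List.append_eq_nil_iff.1 z
        rcases bs_cons k h with ⟨rfl, rfl, rfl⟩ | h
        · exact bk_nil hc
        · exact h3 (List.map_eq_nil_iff.1 z') s' Q' t' h

end S2_ent

open S2_ent in
theorem p_S2_ENT (hS2_ORD : S_S2_ORD) :
    S_S2_ENT := by
  intro Γ a H X μ p P D h0 hX hF hA hO
  obtain ⟨C, t, h1, h2, h3, h4⟩ := main h0 hX hF hA hO _ [] D false (Nat.lt_succ_self _) rfl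
    (fun _ => rfl) fun h => absurd h (by simp)
  refine ⟨C, t, cl_mono (fun _ _ _ _ h => h.1) h1,
    hS2_ORD Γ a _ _ μ 1 p _ (fun _ _ _ _ h => h.2) _ _ _ _ h1 ?_,
    fun z => ⟨fun Q t' h => (h3 z _ _ _ (bs_of h)).1 rfl,
      fun s Q h => (h3 z _ _ _ (bs_of h)).2 rfl⟩, fun k => h4 k rfl⟩
  exact Ll.mono_left (le_of_eq (by ring)) (h2.add hA.2)

end Pool.Agent.P.MP_dba3d2_lc
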