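import Pool.Agent.P.MP_dba3d2_lc.F.IfaceS
import Pool.Agent.P.MP_dba3d2_lc.F.Iface
import Pool.Agent.P.MP_dba3d2_lc.B.Axis2

/-! Step S2_ENV of the stability project. -/

namespace Pool.Agent.P.MP_dba3d2_lc

open Filter
open SW

theorem S2env.weave_mem {G : Type} [Group G] {P : Subgroup G} : ∀ (r : ℕ) (h : Fin (r + 1) → G)
    (z : Fin r → G), (∀ i, h i ∈ P) → (∀ i, z i ∈ P) → weave r h z ∈ P
  | 0, _, _, h1, _ => h1 0
  | r + 1, _, _, h1, h2 => mul_mem (mul_mem (h1 0) (h2 0))
      (S2env.weave_mem r _ _ (fun i => h1 i.succ) fun i => h2 i.succ)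

theorem p_S2_ENV (hCAP : S_CAP) (hS2_LV : S_S2_LV) :
    S_S2_ENV := by
  intro Γ a H l S y hH hb hd hy hh he
  have mono : ∀ m n, m ≤ n → Ls (l n) (l m) := by
    intro m n k
    induction k with
    | refl => exact Ls.refl' _
    | step _ ih => exact (hd _).ls.trans' ih
  obtain ⟨X, gX, le, hY, hX⟩ := hCAP Γ a H l {g | ∃ n t, g = y n t} hH hb hd (by
    rintro n _ ⟨m, t, rfl⟩
    rcases le_total n m with k | k
    · exact Subgroup.mem_sup_right ⟨Subgroup.mem_sup_right (Subgroup.subset_closure ⟨m, t, rfl⟩),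
        (mem_ball (hb n).pos.le).2 ((hy m t).trans' (mono n m k))⟩
    · obtain ⟨d, rfl⟩ := Nat.exists_eq_add_of_le k
      have key : ∀ d m t, y m t ∈ (H ⊔ ((H ⊔ Subgroup.closure {g | ∃ n t, g = y n t}) ⊓
          ball Γ (l (m + d))) : Subgroup (MM Γ a)) := by
        intro d
        induction d with
        | zero => exact fun m t => Subgroup.mem_sup_right ⟨Subgroup.mem_sup_right
            (Subgroup.subset_closure ⟨m, t, rfl⟩), (mem_ball (hb m).pos.le).2 (hy m t)⟩
        | succ d ih =>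
          intro m t
          rw [he m, show m + (d + 1) = m + 1 + d by omega]
          exact S2env.weave_mem _ _ _ (fun i => Subgroup.mem_sup_left (hh m t i)) fun i => ih _ _
      exact key d m t)
  refine ⟨X, ⟨gX, fun n => hS2_LV Γ a H X _ (hb n) hH.toGC0 gX.toGC0 ?_, hd⟩,
    fun n t => hY ⟨n, t, rfl⟩⟩
  refine le_antisymm ((hX (n + 1)).le.trans (sup_le_sup_left (inf_le_inf_left _ fun g hg => ?_) _))
    (sup_le le inf_le_left)
  exact (mem_tiny (hb n).pos.le).2 (Ll.ls_left ((mem_ball (hb _).pos.le).1 hg) (hd n))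

end Pool.Agent.P.MP_dba3d2_lc
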