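import Pool.Agent.P.MP_dba3d2_lc.F.TbS9

/-! Step S2_EXT1 of the stability project. -/

namespace Pool.Agent.P.MP_dba3d2_lc

open Filter
open SW T9

theorem p_S2_EXT1 :
    S_S2_EXT1 := by
  intro Γ a H X μ u0 N h0 hu far N1 e A v P N2 C R hN hP hR hC
  refine ⟨fun m => ⟨fun h => by simpa using h.1, fun h => by simpa using h.1⟩, ?_⟩
  rintro v' R' rfl m
  refine ⟨fun h => ?_, fun h => by simpa using h.1⟩
  obtain ⟨Nm, e', P', B, N3, rfl, rfl, -⟩ := fl_split hR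
  rw [noG_append] at hC
  refine (far N1 e A v P Nm e' P' v' B N3 (by simp [hN]) hP hC.1 hC.2 ?_).elim
  rw [List.append_assoc]
  generalize lv (P ++ (fl Nm ++ P')) = g at h
  have e1 : g = m * (u0 * (u0⁻¹ * (m⁻¹ * g))) := by group
  rw [e1]
  exact (mem_ball h0).1 (mul_mem (tiny_le_ball h0 h.2.2.1.2)
    (mul_mem ((mem_ball h0).2 hu) (tiny_le_ball h0 h.2.2.2.2)))

end Pool.Agent.P.MP_dba3d2_lc
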