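import Pool.Agent.P.MP_dba3d2_lc.F.TbS9b
import Pool.Agent.P.MP_dba3d2_lc.A.Iface
import Pool.Agent.P.MP_dba3d2_lc.B.Axis2

/-! Step S2_EXT2 of the stability project. -/

namespace Pool.Agent.P.MP_dba3d2_lc

open Filter
open SW T9

theorem p_S2_EXT2 (hELEM : S_ELEM) (hLINE : S_LINE) (hS2_PC : S_S2_PC) :
    S_S2_EXT2 := by
  intro Γ a H X μ d0 N lvl hd pd sd ni adj N1 e A v P N2 C R hN hP hR hC
  have h0 := lvl.big.pos
  have nd : ¬ Ll (ln d0) μ := fun k => k.not_ls h0 sd.2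
  have eN : fl N = (fl N1 ++ A ++ [Sum.inr (none, v)]) ++ (P ++ C) ++ R := by
    simp [hN, fl_append, fl_cons, ex, hR]
  have f3 := eN ▸ ni.f0
  have f2 := f0_left f3
  have f1 := f0_left (List.append_assoc _ P C ▸ f2)
  have hPC := noG_append.2 ⟨hP, hC⟩
  have pc := fun D Q t => hS2_PC Γ a H X μ d0 D Q t lvl hd pd nd
  have p1 := pc _ P false f1 ⟨_, [], (List.append_nil _).symm, hP, by simp, fun _ => ⟨_, v, rfl⟩, by simp, by simp⟩
  suffices key : ∀ D t, F0 H X μ D → Blk D true (P ++ C) t → ∀ m,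
      Pat2 H X μ d0 t (lv (P ++ C)) m ↔ Pat2 H X μ d0 false (lv P) m from
    ⟨key _ false f2 ⟨_, [], (List.append_nil _).symm, hPC, by simp, fun _ => ⟨_, v, rfl⟩, by simp, by simp⟩,
      fun v' R' e => key _ true f3 ⟨_, R, rfl, hPC, by simp, fun _ => ⟨_, v, rfl⟩, by simp,
        fun _ => ⟨v', R', e⟩⟩⟩
  intro D t fD bD m
  have p2 := pc D _ t fD bD
  by_cases k : NoV P
  swap
  · obtain ⟨β, ⟨_ | c, f⟩, P', rfl, hβ⟩ := firstV k
    · exact (hP f (by simp)).elim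
    · exact (p2.2 β c f (P' ++ C) (by simp) hβ m).trans (p1.2 β c f P' rfl hβ m).symm
  refine iff_of_false ?_ (p1.1 k m)
  by_cases k' : NoV C
  · exact p2.1 (noV_append.2 ⟨k, k'⟩) m
  obtain ⟨β, ⟨_ | c, f⟩, C', rfl, hβ⟩ := firstV k'
  · exact (hC f (by simp)).elim
  rw [p2.2 (P ++ β) c f C' (by simp) (noV_append.2 ⟨k, hβ⟩) m]
  rintro ⟨-, m2, m3⟩
  obtain ⟨Nm, ⟨τ, y⟩, P', B, N3, rfl, rfl, -⟩ :=
    fl_split (x := (some c, f)) (C := β) (R := C' ++ R) (hR.trans (by simp))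
  rw [noV_append] at hβ
  have mem : Sum.inr ((τ, y), P' ++ Sum.inr (some c, f) :: B) ∈ N := by simp [hN]
  cases τ with
  | none =>
    obtain ⟨w, hw⟩ := ni.kid.ch _ _ mem
    obtain ⟨B1, v', B2, rfl, hB⟩ := firstG (L := B) fun g => by
      simp only [List.mem_append, List.mem_cons] at hw
      rcases hw with hw | hw | hw
      exacts [hβ.2 _ hw, by simp at hw, g _ hw]
    refine (adj N1 e A v P Nm (none, y) (P' ++ Sum.inr (some c, f) :: B1) v' B2 N3 (by simp [hN])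
      hP hβ.1 (noG_append.2 ⟨noG_of hβ.2, fun z hz => ?_⟩)).2 (some c, f) (by simp)
    exact hB z (by simpa using hz)
  | some c' =>
    obtain ⟨β1, f', β2, e1, g1, g2, -⟩ := ni.kid.ce _ _ _ mem
    obtain rfl : c = c' := by
      have : Sum.inr (some c, f) ∈ β1 ++ Sum.inr (some c', f') :: β2 := e1 ▸ by simp
      simp only [List.mem_append, List.mem_cons] at this
      rcases this with h | h | h
      exacts [(g1 _ h).elim, by simp at h; exact h.1, (g2 _ h).elim]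
    refine ni.far4 N1 e A v P Nm c y P' f B N3 (by simp [hN]) k hβ.1 hβ.2 ?_
    rw [List.append_assoc]
    have pc' := (ni.f0.exp c f (by simp [eN])).2.1
    have := (pc'.conj _).disp' hELEM hLINE (pd.conj m).1 m3.symm 1
    rw [ds_one_mul, ds_one_mul] at this
    have mm := tiny_le_ball h0.le m2.2
    exact this.trans' ((mem_ball h0.le).1 (mul_mem (mul_mem mm ((mem_ball h0.le).2 sd.1)) (inv_mem mm)))

end Pool.Agent.P.MP_dba3d2_lc
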