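import Pool.Agent.P.MP_dba3d2_lc.F.TbS5

/-! Toolbox for words of letters: inversion. -/

namespace Pool.Agent.P.MP_dba3d2_lc.SW.T5

open Filter

variable {Γ : HG} {a : Amb} {H : Subgroup (MM Γ a)} {μ : a.K} {L L' : List (Lt Γ a)}
  {M M' : List (NL Γ a)} {x : Vr Γ a} {h : MM Γ a} {s : Lt Γ a} {t : NL Γ a}

@[simp] theorem iL_inl : iL (.inl h : Lt Γ a) = .inl h⁻¹ := rfl
@[simp] theorem iL_inr : iL (.inr x : Lt Γ a) = .inr (x.1, x.2⁻¹) := rfl
@[simp] theorem iL_iL : iL (iL s) = s := by cases s <;> simp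
@[simp] theorem vL_iL : vL (iL s) = (vL s)⁻¹ := by cases s <;> rfl
@[simp] theorem li_nil : li ([] : List (Lt Γ a)) = [] := rfl
@[simp] theorem li_cons : li (s :: L) = li L ++ [iL s] := by simp [li]
@[simp] theorem li_append : li (L ++ L') = li L' ++ li L := by simp [li]
@[simp] theorem li_li : li (li L) = L := by
  induction L with
  | nil => rfl
  | cons s L ih => simp [ih]
theorem mem_li : s ∈ li L ↔ iL s ∈ L := by
  simp only [li, List.mem_reverse, List.mem_map]
  exact ⟨fun ⟨_, h, e⟩ => by simpa [← e] using h, fun h => ⟨_, h, iL_iL⟩⟩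
@[simp] theorem lv_li : lv (li L) = (lv L)⁻¹ := by
  induction L with
  | nil => simp
  | cons s L ih => simp [ih]
@[simp] theorem lc_li : lc (li L) = lc L := by
  induction L with
  | nil => rfl
  | cons s L ih => cases s <;> simp [ih, add_comm]
@[simp] theorem cG_li : cG (li L) = cG L := by
  induction L with
  | nil => rfl
  | cons s L ih => cases s <;> simp [ih, cG_inr]
@[simp] theorem cV_li : cV (li L) = cV L := by
  induction L with
  | nil => rfl
  | cons s L ih => cases s <;> simp [ih]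
theorem noV_li (k : NoV L) : NoV (li L) := fun _ e => k _ (mem_li.1 e)
theorem noG_li (k : NoG L) : NoG (li L) := fun _ e => k _ (mem_li.1 e)

@[simp] theorem iN_inl : iN (.inl h : NL Γ a) = .inl h⁻¹ := rfl
@[simp] theorem iN_inr : iN (.inr (x, L) : NL Γ a) = .inr ((x.1, x.2⁻¹), li L) := rfl
@[simp] theorem iN_iN : iN (iN t) = t := by obtain _ | ⟨x, L⟩ := t <;> simp
@[simp] theorem ni_nil : ni ([] : List (NL Γ a)) = [] := rfl
@[simp] theorem ni_cons : ni (t :: M) = ni M ++ [iN t] := by simp [ni]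
@[simp] theorem ni_append : ni (M ++ M') = ni M' ++ ni M := by simp [ni]
@[simp] theorem ni_ni : ni (ni M) = M := by
  induction M with
  | nil => rfl
  | cons s L ih => simp [ih]
theorem mem_ni : t ∈ ni M ↔ iN t ∈ M := by
  simp only [ni, List.mem_reverse, List.mem_map]
  exact ⟨fun ⟨_, h, e⟩ => by simpa [← e] using h, fun h => ⟨_, h, iN_iN⟩⟩
@[simp] theorem fl_ni : fl (ni M) = li (fl M) := by
  induction M with
  | nil => rfl
  | cons t M ih => obtain _ | ⟨x, L⟩ := t <;> simp [ih]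
@[simp] theorem nc_ni : nc (ni M) = nc M := by
  induction M with
  | nil => rfl
  | cons t M ih => obtain _ | ⟨x, L⟩ := t <;> simp [ih, add_comm]
theorem tp_ni : (ni M).map tp = li (M.map tp) := by
  induction M with
  | nil => rfl
  | cons t M ih => obtain _ | ⟨x, L⟩ := t <;> simp [ih]
theorem sk_ni : ((ni M).map fun s => sk (tp s)) =
    ((M.map fun s => sk (tp s)).map (Sum.map (fun h => h⁻¹) id)).reverse := by
  rw [ni, List.map_reverse, List.map_map, List.map_map]
  congr 2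
  funext t
  obtain _ | ⟨x, L⟩ := t <;> rfl

theorem lok_iL (k : LOk μ H s) : LOk μ H (iL s) := by
  cases s
  · exact ⟨inv_mem k.1, by simpa using k.2⟩
  · exact ⟨k.1, fun c e => inv_mem (k.2.1 c e), by simpa using k.2.2⟩

theorem wd_iN (k : WD μ H t) : WD μ H (iN t) := by
  obtain _ | ⟨x, L⟩ := t
  · exact inv_mem k
  obtain ⟨k1, k2, k3⟩ := k
  refine ⟨lv_li.trans (congrArg _ k1), fun s hs => by simpa using lok_iL (k2 _ (mem_li.1 hs)),
    fun c e => ?_⟩
  obtain ⟨t1, t2, t3⟩ := k3 c e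
  exact ⟨cV_li.trans_le t1, fun h hs => by simpa using t2 _ (mem_li.1 hs),
    fun z hs => t3 (z.1, z.2⁻¹) (mem_li.1 hs)⟩

theorem wd_ni (k : ∀ s ∈ M, WD μ H s) : ∀ s ∈ ni M, WD μ H s := fun s hs => by
  simpa using wd_iN (k _ (mem_ni.1 hs))

theorem ad_li (k : Ad μ L) : Ad μ (li L) :=
  ⟨fun x hx => by simpa using k.1 (x.1, x.2⁻¹) (mem_li.1 hx), by simpa using k.2⟩

end Pool.Agent.P.MP_dba3d2_lc.SW.T5
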