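import Pool.Agent.P.MP_dba3d2_lc.F.IfaceS
import Pool.Agent.P.MP_dba3d2_lc.F.TbS6

/-! Step S2_F0 of the stability project. -/

namespace Pool.Agent.P.MP_dba3d2_lc

open Filter
open SW SW.T5

theorem p_S2_F0 (hS2_INV : S_S2_INV) (hS2_F12 : S_S2_F12) (hS2_F34 : S_S2_F34) (hS2_KID : S_S2_KID) (hS2_FAR5 : S_S2_FAR5) (hS2_F5 : S_S2_F5) (hS2_FAR4 : S_S2_FAR4) :
    S_S2_F0 := by
  intro Γ a H X l N hE hN
  have h0 := fun n => (hE.lv n).big.pos.le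
  have fa : ∀ N, Ch0 H X l N → ∀ n, Fa H X (l n) (fl (N n)) := fun N hN n =>
    hS2_F12 Γ a H X _ _ (hE.lv n) (hN.wd n) (hN.mem n) (hN.opt n)
  have f34 := fun N (hN : Ch0 H X l N) n =>
    hS2_F34 Γ a H X _ _ (h0 n) (hN.wd n) (hN.opt n) (fa N hN n)
  have kd : ∀ n, Kid (N (n + 1)) := fun n =>
    hS2_KID Γ a H X (l n) _ _ (hE.lv n).le (hN.wd _) (fa N hN _) (hN.succ n ▸ fa N hN n)
  have f5 : ∀ n, Far5 (l n) (N n) → F5 (l n) (fl (N n)) := fun n =>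
    hS2_F5 Γ a H _ _ (h0 n) (hN.wd n) (hN.opt n)
  have far : ∀ n, Far5 (l n) (N n) := fun n => by
    induction n with
    | zero =>
      obtain ⟨y, D, e⟩ := hN.base
      intro N1 _ _ _ _ Nm _ _ _ _ N2 k
      have := congrArg List.length (e ▸ k)
      simp only [List.length_append, List.length_cons, List.length_nil] at this
      omega
    | succ n ih =>
      exact hS2_FAR5 Γ a H (l n) _ _ (hE.lv _).big (hE.dec n) (hN.wd _) (kd n) (hN.succ n ▸ f5 n ih)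
  intro n
  refine ⟨⟨fa N hN _, (f34 N hN _).1, (f34 N hN _).2, fun A c f β v B e nv => ?_, f5 _ (far _)⟩,
    far _, hS2_FAR4 Γ a H (l n) _ _ (hE.lv _).big (hE.dec n) (hN.wd _) (kd n)
      (hN.succ n ▸ (f34 N hN n).2), kd n, hN.wd _, hN.add _⟩
  simpa using (f34 _ (hS2_INV Γ a H X l N hN) (n + 1)).2 (li B) v⁻¹ (li β) c f⁻¹ (li A)
    (by simp [e]) (noV_li nv)

end Pool.Agent.P.MP_dba3d2_lc
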