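import Pool.Agent.P.MP_dba3d2_lc.F.TbW2
import Pool.Agent.P.MP_dba3d2_lc.B.Iface
import Pool.Agent.P.MP_dba3d2_lc.E.E_sz

/-! Words of the limit stage: consequences of minimality. -/

namespace Pool.Agent.P.MP_dba3d2_lc

open Filter Tk

variable {Γ : HG} {a : Amb} {H X W : Subgroup (MM Γ a)} {l : ℕ → a.K} {S : Shape Γ a}
  {ty : (n : ℕ) → Fin (S.k n) → Option (MM Γ a)} {y : (n : ℕ) → Fin (S.k n) → MM Γ a}
  {V : (Fin (S.k 0) → MM Γ a) → Prop} {n : ℕ} {i : Fin (S.k n)} {β b c c' f x : MM Γ a} {μ : a.K}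
  {R : List (Tok Γ a)} {L K L' : List (Fin (S.k (n + 1)) × MM Γ a)} {s t : Fin (S.k (n + 1))}

/-- displacement by an element of the elementary closure -/
theorem Prim.disp_ep (hE : S_ELEM) (hL : S_LINE) (pc : Prim c) (hf : f ∈ Ep c) (p : MM Γ a) :
    Ls (ds p (f * p)) (md f + ds p (c * p)) := by
  obtain ⟨x, hx⟩ := exists_md_ds c
  obtain ⟨k, hk⟩ := (hL Γ a c x pc.1 (Ls.of_le hx.le)).2.1 p
  obtain ⟨j, hj⟩ := pc.2 f hf
  obtain ⟨h1, h2⟩ := p_E_SZ hE hL Γ a c f j pc.1 hf hj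
  have h3 := (h2 (ipow c k * x)).2
  have e : ds (ipow c k * x) (c * (ipow c k * x)) = md c := by
    rw [← mul_assoc, (commute_ipow (Commute.refl c) k).eq, mul_assoc, ds_mul_left, hx]
  rw [e, add_mul, one_mul] at h3
  have l1 := le_add_of_nonneg_left (a := ds p (c * p)) (md_nonneg f)
  have l2 := le_add_of_nonneg_right (a := md f) (ds_nonneg p (c * p))
  exact Ls.mono_left (disp_le f p _) ((hk.mono_right l1).two.add
    (h3.trans' ((h1.mono_right l2).add (Ls.of_le ((md_le_ds c p).trans l1)))))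

theorem Tow.le_surg (T : Tow H X l S ty y V) (h : S.kids n i = L ++ K ++ L')
    (ok : ∀ p ∈ R, Ok (l n) H (ty n i) p) (one : ty n i ≠ none → cj R ≤ K.length)
    (hb : Ll (bl R - bl (tks (ty (n + 1)) (y (n + 1)) K)) (l n))
    (hc : cg R ≤ cg (tks (ty (n + 1)) (y (n + 1)) K)) :
    Tk.Le (l n) H (ty n i) ((none, S.h n i 0) :: (tks (ty (n + 1)) (y (n + 1)) L ++ R ++
      tks (ty (n + 1)) (y (n + 1)) L')) (S.tk ty y n i) := by
  have k := T.le_tk n i
  rw [Shape.tk, h] at k ⊢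
  refine ⟨fun p hp => ?_, fun e => le_trans ?_ (k.one e), Ll.mono_left (le_of_eq ?_) hb, by simpa using hc⟩
  · by_cases e : p ∈ R
    · exact ok p e
    · exact k.ok p (by simp only [List.mem_cons, List.mem_append, tks_append] at hp ⊢; tauto)
  · simpa [cj_tks] using one e
  · simp only [bl_none, bl_append, tks_append]
    ring

/-- no segment of the word of an entry can be improved -/
theorem Tow.surg (T : Tow H X l S ty y V) (h : S.kids n i = L ++ K ++ L')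
    (ok : ∀ p ∈ R, Ok (l n) H (ty n i) p) (one : ty n i ≠ none → cj R ≤ K.length)
    (hb : Ll (bl R - bl (tks (ty (n + 1)) (y (n + 1)) K)) (l n))
    (hc : cg R ≤ cg (tks (ty (n + 1)) (y (n + 1)) K))
    (e : tv R = tv (tks (ty (n + 1)) (y (n + 1)) K))
    (lt : cg R < cg (tks (ty (n + 1)) (y (n + 1)) K) ∨ cj R < K.length) : False := by
  refine T.lex1 i ?_ (T.le_surg h ok one hb hc) ?_
  · rw [← T.ev_tk, Shape.tk, h]
    simp [e]
  · rw [Shape.tk, h]
    simpa [cj_tks] using lt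

theorem Tow.ok_kid (T : Tow H X l S ty y V) {p : Fin (S.k (n + 1)) × MM Γ a} (h : p ∈ S.kids n i) :
    Ok (l n) H (ty n i) (some (ty (n + 1) p.1), y (n + 1) p.1) ∧ Ok (l n) H (ty n i) (none, p.2) :=
  ⟨T.ok_tk n i _ (List.mem_cons_of_mem _ (List.mem_flatMap.2 ⟨p, h, by simp⟩)),
    T.ok_tk n i _ (List.mem_cons_of_mem _ (List.mem_flatMap.2 ⟨p, h, by simp⟩))⟩

theorem Shape.split (S : Shape Γ a) (n : ℕ) (t : Fin (S.k (n + 1))) :
    ∃ β, ∃ L L' : List _, S.kids n (S.par n t) = L ++ [(t, β)] ++ L' := by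
  obtain ⟨β, h⟩ := S.kids_par n t
  obtain ⟨L, L', e⟩ := List.append_of_mem h
  exact ⟨β, L, L', by simpa using e⟩

/-- F2: no variable lies in `H` -/
theorem Tow.not_mem (T : Tow H X l S ty y V) (t : Fin (S.k (n + 1))) : y (n + 1) t ∉ H := by
  intro e
  obtain ⟨β, L, L', h⟩ := S.split n t
  obtain ⟨k1, k2⟩ := T.ok_kid (i := S.par n t) (p := (t, β)) (by simp [h])
  exact T.surg (R := [(none, y (n + 1) t), (none, β)]) h
    (by simpa using ⟨⟨e, k1.2.2.1.ls, k1.has⟩, k2⟩) (by simp) (by simpa using k1.2.2.1) (by simp)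
    (by simp) (by simp)

theorem Tow.mem_W (T : Tow H X l S ty y V) (t : Fin (S.k (n + 1))) :
    y (n + 1) t ∈ X ⊓ tiny Γ (l n) := ⟨T.mem _ t, (mem_tiny (T.pos n).le).2 (T.var t).2.2⟩

theorem Tk.of_hatM (hH : GC0 H) (h0 : 0 ≤ μ) (hW : W ≤ tiny Γ μ) (hx : x ∈ hatM H W) :
    ∃ R : List (Tok Γ a), tv R = x ∧ (∀ p ∈ R, Ok μ H none p) ∧ Ll (bl R) μ ∧ cg R = 0 := by
  have tn : ∀ {g}, g ∈ W → Ll (ln g) μ := fun h => (mem_tiny h0).1 (hW h)
  have no : ∀ g : MM Γ a, HasT none g := fun _ _ h => by cases h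
  have gen : ∀ g ∈ ((H ⊓ W : Subgroup (MM Γ a)) : Set (MM Γ a)) ∪
      {f | f ∈ W ∧ ∃ c ∈ H ⊓ W, Prim c ∧ f ∈ Ep c},
      ∃ R : List (Tok Γ a), tv R = g ∧ (∀ p ∈ R, Ok μ H none p) ∧ Ll (bl R) μ ∧ cg R = 0 := by
    rintro g (hg | ⟨h1, c, hc, pc, h2⟩)
    · exact ⟨[(none, g)], by simp, by simpa using ⟨hg.1, (tn hg.2).ls, no _⟩,
        by simpa using tn hg.2, by simp⟩
    obtain ⟨x, x1, x2, x3⟩ := hH.cen1 hc.1 pc.1
    have x4 := Ll.ls_left x2 (tn hc.2)
    have x5 : Ll (ln x⁻¹) μ := by rwa [ln_inv]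
    refine ⟨[(none, x), (some (some (x⁻¹ * c * x)), x⁻¹ * g * x), (none, x⁻¹)], by simp [mul_assoc],
      ?_, by simpa using x4.add x4, by simp [cg_some]⟩
    simp only [List.forall_mem_cons, List.not_mem_nil, false_imp_iff, implies_true, and_true]
    refine ⟨⟨x1, x4.ls, no _⟩, ⟨?_, ?_, ?_, fun _ h => by cases h⟩, inv_mem x1, x5.ls, no _⟩
    · rintro _ ⟨rfl⟩
      exact ⟨mul_mem (mul_mem (inv_mem x1) hc.1) x1, pc.conj' x, x3⟩
    · rintro _ ⟨rfl⟩
      exact mem_Ep_conj'.2 (by simpa [mul_assoc] using h2)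
    · exact (mem_tiny h0).1 (mul_mem (mul_mem ((mem_tiny h0).2 x5) (hW h1)) ((mem_tiny h0).2 x4))
  rw [hatM, expW, ← Subgroup.closure_eq (H ⊓ W), ← Subgroup.closure_union] at hx
  simp only [Subgroup.closure_eq] at hx
  induction hx using Subgroup.closure_induction'' with
  | mem g hg => exact gen g hg
  | inv_mem g hg =>
    exact gen _ (hg.imp inv_mem fun ⟨h1, c, hc, pc, h2⟩ => ⟨inv_mem h1, c, hc, pc, inv_mem h2⟩)
  | one => exact ⟨[], rfl, by simp, by simpa using Ll.zero h0, rfl⟩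
  | mul g g' _ _ k k' =>
    obtain ⟨R, rfl, k1, k2, k3⟩ := k
    obtain ⟨R', rfl, k1', k2', k3'⟩ := k'
    exact ⟨R ++ R', by simp, List.forall_mem_append.2 ⟨k1, k1'⟩, by simpa using k2.add k2',
      by simp [k3, k3']⟩

/-- F1: a general variable is not a product of exponents -/
theorem Tow.not_hatM (T : Tow H X l S ty y V) (ht : ty (n + 1) t = none) :
    y (n + 1) t ∉ hatM H (X ⊓ tiny Γ (l n)) := by
  intro e
  obtain ⟨R, r1, r2, r3, r4⟩ := Tk.of_hatM T.gh.toGC0 (T.pos n).le inf_le_right e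
  obtain ⟨β, L, L', h⟩ := S.split n t
  have m : (t, β) ∈ S.kids n (S.par n t) := by simp [h]
  have k := T.par_none m ht
  exact T.surg (R := R ++ [(none, β)]) h
    (List.forall_mem_append.2 ⟨k ▸ r2, by simpa using (T.ok_kid m).2⟩) (by simp [k])
    (by simpa using r3) (by simp [r4]) (by simp [r1]) (by simp [r4, cg_some, ht])

/-- the type of a variable is not longer than the variable -/
theorem Tow.ty_le (T : Tow H X l S ty y V) (hE : S_ELEM) (hL : S_LINE) (hR : S_ROOT)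
    (ht : ty (n + 1) t = some c) : Ls (ln c) (ln (y (n + 1) t)) := by
  obtain ⟨h1, h2, -⟩ := (T.var t).1 c ht
  have h3 := (T.var t).2.1 c ht
  simpa using h2.disp hE hL h3
    (fun e => T.not_mem t ((hR Γ a H T.gh.toGC0).2.2.1 c h1 h2.1 _ h3 e)) 1

theorem Tow.ty_ll (T : Tow H X l S ty y V) (hE : S_ELEM) (hL : S_LINE) (hR : S_ROOT)
    (ht : ty (n + 1) t = some c) : Ll (ln c) (l n) := Ll.ls_left (T.ty_le hE hL hR ht) (T.var t).2.2

theorem Tow.exp_mem (T : Tow H X l S ty y V) (hE : S_ELEM) (hL : S_LINE) (hR : S_ROOT)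
    (ht : ty (n + 1) t ≠ none) : y (n + 1) t ∈ expW H (X ⊓ tiny Γ (l n)) := by
  obtain ⟨c, e⟩ := Option.ne_none_iff_exists'.1 ht
  obtain ⟨h1, h2, -⟩ := (T.var t).1 c e
  exact Subgroup.subset_closure ⟨T.mem_W t, c,
    ⟨h1, T.le h1, (mem_tiny (T.pos n).le).2 (T.ty_ll hE hL hR e)⟩, h2, (T.var t).2.1 c e⟩

theorem Tow.kids_ne (T : Tow H X l S ty y V) (t : Fin (S.k (n + 1))) : S.kids (n + 1) t ≠ [] :=
  fun e => T.not_mem t (by rw [T.eq, e]; simpa using (T.h0 _ t).1)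

/-- a general variable has a general child -/
theorem Tow.gen_kid (T : Tow H X l S ty y V) (hE : S_ELEM) (hL : S_LINE) (hR : S_ROOT)
    (ht : ty (n + 1) t = none) : ∃ p ∈ S.kids (n + 1) t, ty (n + 2) p.1 = none := by
  by_contra k
  push Not at k
  have h0 := (T.pos n).le
  have d := T.desc.ll n
  have m : ∀ {g}, g ∈ H ∧ Ls (ln g) (l (n + 1)) → g ∈ hatM H (X ⊓ tiny Γ (l n)) := fun h =>
    Subgroup.mem_sup_left ⟨h.1, T.le h.1, (mem_tiny h0).2 (Ll.ls_left h.2 d)⟩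
  refine T.not_hatM ht ?_
  rw [T.eq]
  refine mul_mem (m (T.h0 _ t)) (list_prod_mem fun x hx => ?_)
  obtain ⟨p, hp, rfl⟩ := List.mem_map.1 hx
  refine mul_mem (Subgroup.mem_sup_right ?_) (m (T.kid hp))
  obtain ⟨c, e⟩ := Option.ne_none_iff_exists'.1 (k p hp)
  obtain ⟨h1, h2, -⟩ := (T.var p.1).1 c e
  exact Subgroup.subset_closure ⟨⟨T.mem _ _, (mem_tiny h0).2 (Ll.ls_left (T.var _).2.2.ls d)⟩, c,
    ⟨h1, T.le h1, (mem_tiny h0).2 (Ll.ls_left (T.ty_ll hE hL hR e).ls d)⟩, h2, (T.var _).2.1 c e⟩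

/-- the flattened word of level `n` -/
theorem Tow.flat (T : Tow H X l S ty y V) (i : Fin (S.k 0)) : ∀ n, ∃ b ∈ H,
    ∃ L : List (Fin (S.k n) × MM Γ a), (∀ p ∈ L, p.2 ∈ H) ∧
      L.IsChain (fun p q => S.Adj n p.1 p.2 q.1) ∧
      ∀ (G : Type) [Group G] (j : MM Γ a →* G) (F : Fin (S.k n) → G),
        S.topG j n F i = j b * (L.map fun p => F p.1 * j p.2).prod
  | 0 => ⟨1, H.one_mem, [(i, 1)], by simp, .singleton _, fun G _ j F => by simp [Shape.topG]⟩
  | 1 => ⟨_, (T.h0 0 i).1, S.kids 0 i, fun p hp => (T.kid hp).1, S.kids_chain 0 i,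
      fun G _ j F => S.upG_eq j 0 F i⟩
  | n + 2 => by
    obtain ⟨b, hb, L, h1, h2, h3⟩ := Tow.flat T i (n + 1)
    obtain ⟨b', hb', L', k1, k2, -, k3⟩ := T.subst T.kids_ne L h1 h2
    exact ⟨b * b', mul_mem hb hb', L', k1, k2, fun G _ j F => by
      rw [Shape.topG, h3, k3, map_mul, mul_assoc]⟩

theorem Tk.Ok.mul {τ σ : Option (MM Γ a)} {z : MM Γ a} (h : Ok μ H τ (some σ, x)) (h1 : HasT σ z)
    (h2 : Ll (ln z) μ) : Ok μ H τ (some σ, x * z) ∧ Ok μ H τ (some σ, z * x) :=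
  ⟨⟨h.1, fun c e => mul_mem (h.2.1 c e) (h1 c e), Ll.mono_left (ln_mul_le _ _) (h.2.2.1.add h2), h.2.2.2⟩,
    h.1, fun c e => mul_mem (h1 c e) (h.2.1 c e), Ll.mono_left (ln_mul_le _ _) (h2.add h.2.2.1), h.2.2.2⟩

/-- a variable does not slide into its right neighbour -/
theorem Tow.slideR (T : Tow H X l S ty y V) (h : S.Adj (n + 1) s β t)
    (h1 : Ll (ln (β⁻¹ * y (n + 1) s * β)) (l n)) (h2 : HasT (ty (n + 1) t) (β⁻¹ * y (n + 1) s * β)) :
    False := by
  have z := Ll.zero (T.pos n).le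
  rcases h with ⟨i, β', L, L', h⟩ | ⟨s', β', t', β1, β2, L, L', h, e1, e2, e⟩
  · have k1 := T.ok_kid (i := i) (p := (s, β)) (by simp [h])
    have k2 := T.ok_kid (i := i) (p := (t, β')) (by simp [h])
    exact T.surg (i := i) (L := L) (K := [(s, β), (t, β')]) (L' := L') (R := [(none, β),
      (some (ty (n + 1) t), β⁻¹ * y (n + 1) s * β * y (n + 1) t), (none, β')]) (by simpa using h)
      (by simpa using ⟨k1.2, (k2.1.mul h2 h1).2, k2.2⟩) (by simp) (by simpa using z)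
      (by simp [cg_some]) (by simp [mul_assoc]) (by simp)
  · have k1 := T.ok_kid (i := s') (p := (s, β1)) (by simp [e1])
    have k2 := T.ok_kid (i := t') (p := (t, β2)) (by simp [e2])
    refine T.lex2 h ?_ (T.le_surg (L := L) (K := [(s, β1)]) (L' := []) (R := [(none, β1)])
        (by simpa using e1) (by simpa using k1.2) (by simp) (by simpa using z) (by simp))
      (T.le_surg (L := []) (K := [(t, β2)]) (L' := L')
        (R := [(some (ty (n + 1) t), β⁻¹ * y (n + 1) s * β * y (n + 1) t), (none, β2)])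
        (by simpa using e2) (by simpa using ⟨(k2.1.mul h2 h1).2, k2.2⟩) (by simp) (by simpa using z)
        (by simp [cg_some])) (by simp [Shape.tk, e1]) (by simp [Shape.tk, e2])
      (.inl (by simp [Shape.tk, e1]))
    rw [← T.ev_tk n s', ← T.ev_tk n t', Shape.tk, Shape.tk, e1, e2, e]
    simp [mul_assoc]

/-- a variable does not slide into its left neighbour -/
theorem Tow.slideL (T : Tow H X l S ty y V) (h : S.Adj (n + 1) s β t)
    (h1 : Ll (ln (β * y (n + 1) t * β⁻¹)) (l n)) (h2 : HasT (ty (n + 1) s) (β * y (n + 1) t * β⁻¹)) :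
    False := by
  have z := Ll.zero (T.pos n).le
  rcases h with ⟨i, β', L, L', h⟩ | ⟨s', β', t', β1, β2, L, L', h, e1, e2, e⟩
  · have k1 := T.ok_kid (i := i) (p := (s, β)) (by simp [h])
    have k2 := T.ok_kid (i := i) (p := (t, β')) (by simp [h])
    exact T.surg (i := i) (L := L) (K := [(s, β), (t, β')]) (L' := L') (R := [
      (some (ty (n + 1) s), y (n + 1) s * (β * y (n + 1) t * β⁻¹)), (none, β), (none, β')])
      (by simpa using h) (by simpa using ⟨(k1.1.mul h2 h1).1, k1.2, k2.2⟩) (by simp)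
      (by simpa using z) (by simp [cg_some]) (by simp [mul_assoc]) (by simp)
  · have k1 := T.ok_kid (i := s') (p := (s, β1)) (by simp [e1])
    have k2 := T.ok_kid (i := t') (p := (t, β2)) (by simp [e2])
    refine T.lex2 h ?_ (T.le_surg (L := L) (K := [(s, β1)]) (L' := [])
        (R := [(some (ty (n + 1) s), y (n + 1) s * (β * y (n + 1) t * β⁻¹)), (none, β1)])
        (by simpa using e1) (by simpa using ⟨(k1.1.mul h2 h1).1, k1.2⟩) (by simp) (by simpa using z)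
        (by simp [cg_some]))
      (T.le_surg (L := []) (K := [(t, β2)]) (L' := L') (R := [(none, β2)])
        (by simpa using e2) (by simpa using k2.2) (by simp) (by simpa using z) (by simp))
      (by simp [Shape.tk, e1]) (by simp [Shape.tk, e2]) (.inr (by simp [Shape.tk, e2]))
    rw [← T.ev_tk n s', ← T.ev_tk n t', Shape.tk, Shape.tk, e1, e2, e]
    simp [mul_assoc]

end Pool.Agent.P.MP_dba3d2_lc
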