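import Pool.Agent.P.MP_dba3d2_lc.F.DefsS
import Pool.Agent.P.MP_dba3d2_lc.F.TbW3

/-! Toolbox for words of letters: evaluation, replacement of variables, sliding. -/

namespace Pool.Agent.P.MP_dba3d2_lc.SW.T5

open Filter

variable {Γ : HG} {a : Amb} {H X : Subgroup (MM Γ a)} {l : ℕ → a.K} {μ : a.K} {n : ℕ}
  {L L' A B C D r r' : List (Lt Γ a)} {M M' N : List (NL Γ a)}
  {x x' : Vr Γ a} {h c c' f : MM Γ a} {s : Lt Γ a} {τ : Option (MM Γ a)}

@[simp] theorem vL_inl : vL (.inl h : Lt Γ a) = h := rfl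
@[simp] theorem vL_inr : vL (.inr x : Lt Γ a) = x.2 := rfl
@[simp] theorem lv_nil : lv ([] : List (Lt Γ a)) = 1 := rfl
@[simp] theorem lv_cons : lv (s :: L) = vL s * lv L := by simp [lv]
@[simp] theorem lv_append : lv (L ++ L') = lv L * lv L' := by simp [lv]
@[simp] theorem lc_nil : lc ([] : List (Lt Γ a)) = 0 := rfl
@[simp] theorem lc_inl : lc (.inl h :: L) = ln h + lc L := by simp [lc]
@[simp] theorem lc_inr : lc (.inr x :: L) = lc L := by simp [lc]
@[simp] theorem lc_append : lc (L ++ L') = lc L + lc L' := by simp [lc]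
@[simp] theorem cG_nil : cG ([] : List (Lt Γ a)) = 0 := rfl
@[simp] theorem cG_inl : cG (.inl h :: L) = cG L := by simp [cG, isG]
@[simp] theorem cG_none : cG (.inr (none, h) :: L) = cG L + 1 := by
  simp [cG, isG, List.countP_cons]
@[simp] theorem cG_some : cG (.inr (some c, h) :: L) = cG L := by simp [cG, isG]
theorem cG_inr : cG (.inr x :: L) = cG L + if x.1.isNone then 1 else 0 := by
  simp [cG, isG, List.countP_cons]
@[simp] theorem cG_append : cG (L ++ L') = cG L + cG L' := by simp [cG]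
@[simp] theorem cV_nil : cV ([] : List (Lt Γ a)) = 0 := rfl
@[simp] theorem cV_inl : cV (.inl h :: L) = cV L := by simp [cV]
@[simp] theorem cV_inr : cV (.inr x :: L) = cV L + 1 := by simp [cV, List.countP_cons]
@[simp] theorem cV_append : cV (L ++ L') = cV L + cV L' := by simp [cV]
@[simp] theorem fl_nil : fl ([] : List (NL Γ a)) = [] := rfl
@[simp] theorem fl_inl : fl (.inl h :: M) = .inl h :: fl M := rfl
@[simp] theorem fl_inr : fl (.inr (x, D) :: M) = D ++ fl M := rfl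
@[simp] theorem fl_append : fl (M ++ M') = fl M ++ fl M' := List.flatMap_append
@[simp] theorem nc_nil : nc ([] : List (NL Γ a)) = 0 := rfl
@[simp] theorem nc_inl : nc (.inl h :: M) = nc M := by simp [nc]
@[simp] theorem nc_inr : nc (.inr (x, D) :: M) = lc D + nc M := by simp [nc]
@[simp] theorem nc_append : nc (M ++ M') = nc M + nc M' := by simp [nc]
@[simp] theorem tp_inl : tp (.inl h : NL Γ a) = .inl h := rfl
@[simp] theorem tp_inr : tp (.inr (x, D) : NL Γ a) = .inr x := rfl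

theorem lv_mem {P : Subgroup (MM Γ a)} (k : ∀ s ∈ L, vL s ∈ P) : lv L ∈ P :=
  list_prod_mem fun _ hx => by
    obtain ⟨s, hs, rfl⟩ := List.mem_map.1 hx
    exact k s hs

theorem lok_ls (k : LOk μ H s) : Ls (ln (vL s)) μ := by
  cases s
  exacts [k.2, k.2.2.ls]

theorem ls_lv (h0 : 0 ≤ μ) (k : ∀ s ∈ L, LOk μ H s) : Ls (ln (lv L)) μ :=
  (mem_ball h0).1 (lv_mem fun s hs => (mem_ball h0).2 (lok_ls (k s hs)))

theorem ll_lc (h0 : 0 ≤ μ) (k : ∀ s ∈ L, Ll (ln (vL s)) μ) : Ll (lc L) μ := by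
  induction L with
  | nil => exact Ll.zero h0
  | cons s L ih =>
    have e := ih fun t ht => k t (List.mem_cons_of_mem _ ht)
    cases s
    · simpa using (k _ List.mem_cons_self).add e
    · simpa using e

theorem lv_tp (k : ∀ s ∈ M, WD μ H s) : lv (M.map tp) = lv (fl M) := by
  induction M with
  | nil => rfl
  | cons s M ih =>
    have e := ih fun t ht => k t (List.mem_cons_of_mem _ ht)
    obtain h | ⟨x, D⟩ := s
    · simp [e]
    · simp [e, (k _ List.mem_cons_self).1]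

theorem mem_fl : s ∈ fl M ↔ (∃ h, s = .inl h ∧ .inl h ∈ M) ∨ ∃ x D, .inr (x, D) ∈ M ∧ s ∈ D := by
  simp [fl, ex, and_comm]

/-- the letters of an expansion of exponent type -/
theorem tyl_mem (k : TyL c D) (k' : ∀ s ∈ D, LOk μ H s) : ∀ s ∈ D, vL s ∈ Ep c := by
  rintro (h | x) hs
  exacts [k.2.1 h hs, (k' _ hs).2.1 c (k.2.2 x hs)]

/-- replacement of one variable -/
theorem repl (h0 : 0 ≤ μ) (hr : Rp μ H x r) : ∀ (M : List (NL Γ a)) (A : List (Lt Γ a)),
    (∀ s ∈ M, WD μ H s) → fl M = A ++ .inr x :: B →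
    ∃ M' : List (NL Γ a), (M'.map fun s => sk (tp s)) = M.map (fun s => sk (tp s)) ∧
      fl M' = A ++ r ++ B ∧ (∀ s ∈ M', WD μ H s) ∧ Ll (nc M' - nc M) μ
  | [], A, _, e => by simp at e
  | .inl h :: M, A, k, e => by
    obtain _ | ⟨s, A⟩ := A
    · simp at e
    rw [fl_inl, List.cons_append, List.cons.injEq] at e
    obtain ⟨M', e1, e2, e3, e4⟩ := repl h0 hr M A (fun t ht => k t (List.mem_cons_of_mem _ ht)) e.2
    exact ⟨.inl h :: M', by simp [e1], by simp [e2, e.1],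
      List.forall_mem_cons.2 ⟨k _ List.mem_cons_self, e3⟩, by simpa using e4⟩
  | .inr (z, D) :: M, A, k, e => by
    have k' := fun t ht => k t (List.mem_cons_of_mem _ ht)
    rw [fl_inr] at e
    have : (∃ A', A = D ++ A' ∧ fl M = A' ++ .inr x :: B) ∨ ∃ B', D = A ++ .inr x :: B' ∧ B = B' ++ fl M := by
      rcases List.append_eq_append_iff.1 e with e | ⟨_ | ⟨s, B'⟩, e1, e2⟩
      · exact .inl e
      · exact .inl ⟨[], by simpa using e1.symm, e2.symm⟩
      · rw [List.cons_append, List.cons.injEq] at e2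
        exact .inr ⟨B', e2.1 ▸ e1, e2.2⟩
    rcases this with ⟨A', rfl, e'⟩ | ⟨B', rfl, rfl⟩
    · obtain ⟨M', e1, e2, e3, e4⟩ := repl h0 hr M A' k' e'
      exact ⟨.inr (z, D) :: M', by simp [e1], by simp [e2],
        List.forall_mem_cons.2 ⟨k _ List.mem_cons_self, e3⟩, by simpa using e4⟩
    · obtain ⟨-, w2, w3⟩ := k _ List.mem_cons_self
      refine ⟨.inr ((z.1, lv (A ++ r ++ B')), A ++ r ++ B') :: M, rfl, by simp,
        List.forall_mem_cons.2 ⟨⟨rfl, fun s hs => ?_, fun c e => ?_⟩, k'⟩, ?_⟩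
      · by_cases e : s ∈ r
        · exact (hr.1 s e).1
        · exact w2 s (by simp only [List.mem_cons, List.mem_append] at hs ⊢; tauto)
      · obtain ⟨t1, t2, t3⟩ := w3 c e
        obtain ⟨u1, u2, u3⟩ := hr.2 c (t3 x (by simp))
        simp only [cV_append, cV_inr] at t1
        refine ⟨by simp only [cV_append]; omega, fun h hs => ?_, fun h hs => ?_⟩
        · by_cases e : .inl h ∈ r
          · exact u2 h e
          · exact t2 h (by simp only [List.mem_cons, List.mem_append] at hs ⊢; tauto)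
        · by_cases e : .inr h ∈ r
          · exact u3 h e
          · exact t3 h (by simp only [List.mem_cons, List.mem_append] at hs ⊢; tauto)
      · refine Ll.mono_left (le_of_eq ?_) (ll_lc h0 fun s hs => (hr.1 s hs).2)
        simp only [nc_inr, lc_append, lc_inr]
        ring

theorem var (wd : ∀ s ∈ N, WD μ H s) (hx : .inr x ∈ fl N) :
    TyOk H x.1 ∧ HasT x.1 x.2 ∧ Ll (ln x.2) μ := by
  obtain ⟨h, e, -⟩ | ⟨z, D, e, e'⟩ := mem_fl.1 hx
  · cases e
  · exact (wd _ e).2.1 _ e'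

theorem con (wd : ∀ s ∈ N, WD μ H s) (hx : .inl h ∈ fl N) : h ∈ H := by
  obtain ⟨h, ⟨rfl⟩, e⟩ | ⟨z, D, e, e'⟩ := mem_fl.1 hx
  · exact wd _ e
  · exact ((wd _ e).2.1 _ e').1

/-- one variable cannot be replaced by a better word -/
theorem opt1 (wd : ∀ s ∈ N, WD μ H s) (op : Opt H μ N) (h0 : 0 ≤ μ) (hx : .inr x ∈ fl N) (hr : Rp μ H x r)
    (e : lv r = x.2) : cG [.inr x] < cG r ∨ (cG [.inr x] = cG r ∧ 1 ≤ cV r) := by
  obtain ⟨A, B, k⟩ := List.append_of_mem hx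
  obtain ⟨M', e1, e2, e3, e4⟩ := repl h0 hr _ A wd k
  have := op M' e1 (by simp [e2, k, e]) e3 e4
  rw [e2, k, show A ++ .inr x :: B = A ++ [.inr x] ++ B by simp] at this
  simp only [cG_append, cV_append, cV_inr, cV_nil] at this
  omega

/-- two variables cannot be replaced by better words -/
theorem opt2 (wd : ∀ s ∈ N, WD μ H s) (op : Opt H μ N) (h0 : 0 ≤ μ)
    (k : fl N = A ++ .inr x :: C ++ .inr x' :: B) (hr : Rp μ H x r)
    (hr' : Rp μ H x' r') (e : lv r * lv C * lv r' = x.2 * lv C * x'.2) :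
    cG [.inr x] + cG [.inr x'] < cG r + cG r' ∨
      (cG [.inr x] + cG [.inr x'] = cG r + cG r' ∧ 2 ≤ cV r + cV r') := by
  obtain ⟨M', e1, e2, e3, e4⟩ := repl h0 hr' _ _ wd k
  obtain ⟨M'', f1, f2, f3, f4⟩ := repl (B := C ++ r' ++ B) h0 hr _ A e3 (by simp [e2])
  have := op M'' (f1.trans e1) (by
      have := congrArg (fun w => lv A * w * lv B) e
      simpa [f2, k, mul_assoc] using this) f3 (Ll.mono_left (le_of_eq (by ring)) (f4.add e4))
  rw [f2, k, show A ++ .inr x :: C ++ .inr x' :: B = A ++ [.inr x] ++ C ++ [.inr x'] ++ B by simp] at this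
  simp only [cG_append, cV_append, cV_inr, cV_nil] at this
  omega

theorem rep_nil : Rp μ H x [] := ⟨by simp, fun _ _ => ⟨by simp, by simp, by simp⟩⟩

theorem rep_one (h1 : TyOk H x.1) (h2 : HasT x.1 f) (h3 : Ll (ln f) μ) : Rp μ H x [.inr (x.1, f)] :=
  ⟨by simpa using ⟨⟨h1, h2, h3⟩, h3⟩, fun c e => ⟨by simp, by simp, by simpa using e⟩⟩

/-- a variable does not slide into a variable on its left -/
theorem slideL (wd : ∀ s ∈ N, WD μ H s) (op : Opt H μ N) (k : fl N = A ++ .inr x :: C ++ .inr x' :: B)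
    (h1 : Ll (ln (lv C * x'.2 * (lv C)⁻¹)) μ) (h2 : HasT x.1 (lv C * x'.2 * (lv C)⁻¹)) : False := by
  obtain ⟨u1, u2, u3⟩ := var wd (x := x) (by simp [k])
  have := opt2 wd op h1.nonneg k (rep_one u1 (fun c e => mul_mem (u2 c e) (h2 c e))
    (Ll.mono_left (ln_mul_le _ _) (u3.add h1))) rep_nil (by simp [mul_assoc])
  simp only [cG_inr, cG_nil, cV_inr, cV_nil] at this
  omega

/-- a variable does not slide into a variable on its right -/
theorem slideR (wd : ∀ s ∈ N, WD μ H s) (op : Opt H μ N) (k : fl N = A ++ .inr x :: C ++ .inr x' :: B)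
    (h1 : Ll (ln ((lv C)⁻¹ * x.2 * lv C)) μ) (h2 : HasT x'.1 ((lv C)⁻¹ * x.2 * lv C)) : False := by
  obtain ⟨u1, u2, u3⟩ := var wd (x := x') (by simp [k])
  have := opt2 wd op h1.nonneg k rep_nil (rep_one u1 (fun c e => mul_mem (h2 c e) (u2 c e))
    (Ll.mono_left (ln_mul_le _ _) (h1.add u3))) (by simp [mul_assoc])
  simp only [cG_inr, cG_nil, cV_inr, cV_nil] at this
  omega

theorem hasT_none (g : MM Γ a) : HasT none g := fun _ h => by cases h

/-- no variable lies in `H` -/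
theorem not_mem (wd : ∀ s ∈ N, WD μ H s) (op : Opt H μ N) (hx : .inr x ∈ fl N) : x.2 ∉ H := by
  intro e
  obtain ⟨-, u2, u3⟩ := var wd hx
  have := opt1 wd op u3.nonneg hx (r := [.inl x.2]) ⟨by simpa using ⟨⟨e, u3.ls⟩, u3⟩,
    fun c k => ⟨by simp, by simpa using u2 c k, by simp⟩⟩ (by simp)
  simp at this

theorem of_hatM {W : Subgroup (MM Γ a)} (hH : GC0 H) (h0 : 0 ≤ μ) (hW : W ≤ tiny Γ μ)
    (hx : f ∈ hatM H W) :
    ∃ r : List (Lt Γ a), lv r = f ∧ (∀ s ∈ r, LOk μ H s ∧ Ll (ln (vL s)) μ) ∧ cG r = 0 := by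
  have tn : ∀ {g}, g ∈ W → Ll (ln g) μ := fun h => (mem_tiny h0).1 (hW h)
  have gen : ∀ g ∈ ((H ⊓ W : Subgroup (MM Γ a)) : Set (MM Γ a)) ∪
      {f | f ∈ W ∧ ∃ c ∈ H ⊓ W, Prim c ∧ f ∈ Ep c},
      ∃ r : List (Lt Γ a), lv r = g ∧ (∀ s ∈ r, LOk μ H s ∧ Ll (ln (vL s)) μ) ∧ cG r = 0 := by
    rintro g (hg | ⟨h1, c, hc, pc, h2⟩)
    · exact ⟨[.inl g], by simp, by simpa using ⟨⟨hg.1, (tn hg.2).ls⟩, tn hg.2⟩, by simp⟩
    obtain ⟨x, x1, x2, x3⟩ := hH.cen1 hc.1 pc.1
    have x4 := Ll.ls_left x2 (tn hc.2)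
    have x5 : Ll (ln x⁻¹) μ := by rwa [ln_inv]
    have x6 := (mem_tiny h0).1 (mul_mem (mul_mem ((mem_tiny h0).2 x5) (hW h1)) ((mem_tiny h0).2 x4))
    refine ⟨[.inl x, .inr (some (x⁻¹ * c * x), x⁻¹ * g * x), .inl x⁻¹], by simp [mul_assoc],
      ?_, by simp⟩
    simp only [List.forall_mem_cons, List.not_mem_nil, false_imp_iff, implies_true, and_true]
    refine ⟨⟨⟨x1, x4.ls⟩, x4⟩, ⟨⟨?_, ?_, x6⟩, x6⟩, ⟨inv_mem x1, x5.ls⟩, x5⟩
    · rintro _ ⟨rfl⟩
      exact ⟨mul_mem (mul_mem (inv_mem x1) hc.1) x1, pc.conj' x, x3⟩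
    · rintro _ ⟨rfl⟩
      exact mem_Ep_conj'.2 (by simpa [mul_assoc] using h2)
  rw [hatM, expW, ← Subgroup.closure_eq (H ⊓ W), ← Subgroup.closure_union] at hx
  simp only [Subgroup.closure_eq] at hx
  induction hx using Subgroup.closure_induction'' with
  | mem g hg => exact gen g hg
  | inv_mem g hg =>
    exact gen _ (hg.imp inv_mem fun ⟨h1, c, hc, pc, h2⟩ => ⟨inv_mem h1, c, hc, pc, inv_mem h2⟩)
  | one => exact ⟨[], rfl, by simp, rfl⟩
  | mul g g' _ _ k k' =>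
    obtain ⟨R, rfl, k1, k3⟩ := k
    obtain ⟨R', rfl, k1', k3'⟩ := k'
    exact ⟨R ++ R', by simp, List.forall_mem_append.2 ⟨k1, k1'⟩, by simp [k3, k3']⟩

/-- a general variable is not a product of small exponents -/
theorem not_hatM (wd : ∀ s ∈ N, WD μ H s) (op : Opt H μ N) (hH : GC0 H) (hx : .inr (none, f) ∈ fl N) :
    f ∉ hatM H (WW X μ) := by
  intro e
  have h0 := (var wd hx).2.2.nonneg
  obtain ⟨r, r1, r2, r3⟩ := of_hatM hH h0 inf_le_right e
  have := opt1 wd op h0 hx ⟨r2, fun c k => by cases k⟩ r1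
  simp [r3] at this

/-- the type of a variable is not longer than the variable -/
theorem ty_ll (wd : ∀ s ∈ N, WD μ H s) (op : Opt H μ N) (hE : S_ELEM) (hL : S_LINE) (hR : S_ROOT) (hH : GC0 H)
    (hx : .inr (some c, f) ∈ fl N) : Ll (ln c) μ := by
  obtain ⟨u1, u2, u3⟩ := var wd hx
  obtain ⟨h1, h2, -⟩ := u1 c rfl
  refine Ll.ls_left ?_ u3
  simpa using h2.disp hE hL (u2 c rfl)
    (fun e => not_mem wd op hx ((hR Γ a H hH).2.2.1 c h1 h2.1 _ (u2 c rfl) e)) 1

end Pool.Agent.P.MP_dba3d2_lc.SW.T5
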