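import Pool.Agent.P.MP_dba3d2_lc.F.IfaceS
import Pool.Agent.P.MP_dba3d2_lc.A.Iface
import Pool.Agent.P.MP_dba3d2_lc.B.Iface
import Pool.Agent.P.MP_dba3d2_lc.B.Axis2
import Pool.Agent.P.MP_dba3d2_lc.F.TbS5

/-! Step S2_F12 of the stability project. -/

namespace Pool.Agent.P.MP_dba3d2_lc

open Filter
open SW SW.T5

theorem p_S2_F12 (hELEM : S_ELEM) (hLINE : S_LINE) (hROOT : S_ROOT) (hS2_OPT : S_S2_OPT) :
    S_S2_F12 := by
  intro Γ a H X μ N hv wd hX op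
  have _ := hS2_OPT
  refine ⟨fun h => con wd, fun v hx => ?_, fun c f hx => ?_⟩
  · have m : v ∈ WW X μ := ⟨hX _ hx, (mem_tiny hv.big.pos.le).2 (var wd hx).2.2⟩
    exact ⟨m, fun e => not_hatM wd op hv.gH hx (hv.hm v e m)⟩
  · obtain ⟨u1, u2, u3⟩ := var wd hx
    exact ⟨(u1 c rfl).1, (u1 c rfl).2.1, ty_ll wd op hELEM hLINE hROOT hv.gH hx, hX _ hx, u2 c rfl,
      not_mem wd op hx, u3⟩

end Pool.Agent.P.MP_dba3d2_lc
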