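import Pool.Agent.P.MP_dba3d2_lc.F.IfaceS
import Pool.Agent.P.MP_dba3d2_lc.A.Iface
import Pool.Agent.P.MP_dba3d2_lc.B.Axis2
import Pool.Agent.P.MP_dba3d2_lc.F.TbS5

/-! Step S2_F34 of the stability project. -/

namespace Pool.Agent.P.MP_dba3d2_lc

open Filter
open SW SW.T5

theorem p_S2_F34 (hELEM : S_ELEM) (hLINE : S_LINE) (hS2_OPT : S_S2_OPT) :
    S_S2_F34 := by
  intro Γ a H X μ N _ wd op fa
  have _ := hS2_OPT
  refine ⟨fun A c f β c' f' B e _ k => ?_, fun A v β c f B e _ k => ?_⟩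
  · obtain ⟨-, a2, a3, -⟩ := fa.exp c f (by simp [e])
    obtain ⟨-, -, -, -, b5, -, b7⟩ := fa.exp c' f' (by simp [e])
    have m : lv β * f' * (lv β)⁻¹ ∈ Ep c := k ▸ mem_Ep_conj.2 (by simpa [mul_assoc] using b5)
    have t := a2.disp_ep hELEM hLINE m 1
    rw [ds_one_mul, ds_one_mul, md_conj'] at t
    exact slideL wd op e (Ll.ls_left t ((Ll.mono_left (md_le_ln _) b7).add a3))
      (by rintro _ ⟨rfl⟩; exact m)
  · obtain ⟨-, a2, -, -, a5, -, a7⟩ := fa.exp c f (by simp [e])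
    have t := a2.disp_ep hELEM hLINE a5 (lv β)⁻¹
    rw [ds_conj, ds_conj, inv_inv] at t
    exact slideL wd op e (Ll.ls_left t ((Ll.mono_left (md_le_ln _) a7).add k)) (hasT_none _)

end Pool.Agent.P.MP_dba3d2_lc
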