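import Pool.Agent.P.MP_dba3d2_lc.F.IfaceS
import Pool.Agent.P.MP_dba3d2_lc.B.Axis2
import Pool.Agent.P.MP_dba3d2_lc.F.TbS5

/-! Step S2_F5 of the stability project. -/

namespace Pool.Agent.P.MP_dba3d2_lc

open Filter
open SW SW.T5

theorem p_S2_F5 (hS2_OPT : S_S2_OPT) :
    S_S2_F5 := by
  intro Γ a H μ N h0 wd op _ A v P v' B e _ k
  have _ := hS2_OPT
  have t := (mem_tiny h0).2 k
  exact slideL wd op e ((mem_tiny h0).1 (mul_mem (mul_mem t
    ((mem_tiny h0).2 (var wd (x := (none, v')) (by simp [e])).2.2)) (inv_mem t))) (hasT_none _)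

end Pool.Agent.P.MP_dba3d2_lc
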