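import Pool.Agent.P.MP_dba3d2_lc.F.IfaceS
import Pool.Agent.P.MP_dba3d2_lc.A.Iface
import Pool.Agent.P.MP_dba3d2_lc.B.Axis2
import Pool.Agent.P.MP_dba3d2_lc.F.TbS5

/-! Step S2_FAR4 of the stability project. -/

namespace Pool.Agent.P.MP_dba3d2_lc

open Filter
open SW SW.T5

theorem p_S2_FAR4 (hELEM : S_ELEM) (hLINE : S_LINE) :
    S_S2_FAR4 := by
  intro Γ a H μ ν N hν hl wd kd f4 N1 ⟨τ, y0⟩ A v P Nm c y β f β' N2 e _ nv _ k
  have h0 := hν.pos.le
  obtain ⟨-, a2, a3⟩ := wd (.inr ((τ, y0), A ++ .inr (none, v) :: P)) (by simp [e])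
  obtain ⟨-, b2, b3⟩ := wd (.inr ((some c, y), β ++ .inr (some c, f) :: β')) (by simp [e])
  obtain rfl : τ = none := Option.eq_none_iff_forall_ne_some.2 fun c h => by
    cases (a3 c h).2.2 (none, v) (by simp)
  refine f4 (N1.map tp) y0 (Nm.map tp) c y (N2.map tp) (by simp [e]) (fun z hz => ?_) ?_
  · obtain ⟨_ | ⟨x, D⟩, h1, h2⟩ := List.mem_map.1 hz
    · cases h2
    obtain ⟨_ | d, w⟩ := x
    · obtain ⟨w, hw⟩ := kd.ch w D (by simp [e, h1])
      exact nv _ (mem_fl.2 (.inr ⟨_, _, h1, hw⟩))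
    · obtain ⟨γ, g, γ', rfl, -⟩ := kd.ce d w D (by simp [e, h1])
      exact nv (some d, g) (mem_fl.2 (.inr ⟨_, _, h1, by simp⟩))
  · rw [lv_tp fun s hs => wd s (by simp [e, hs])]
    have pc : Prim c := ((b2 (.inr (some c, f)) (by simp)).1 c rfl).2.1
    have m : lv β ∈ Ep c := lv_mem fun s hs => tyl_mem (b3 c rfl) b2 s (by simp [hs])
    have p1 := (mem_ball h0).2 (ls_lv (L := P) h0 fun s hs => a2 s (by simp [hs]))
    have p3 := mul_mem (mul_mem (inv_mem p1) ((mem_ball h0).2 k)) p1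
    have t := pc.disp' hELEM hLINE (pc.conj (lv β)).1 (Ep_conj_mem m).symm (lv (fl Nm))⁻¹
    rw [ds_conj, ds_conj, inv_inv] at t
    refine Ll.ls_left (t.trans' ((mem_ball h0).1 ?_)) hl
    convert p3 using 1
    simp only [lv_append]
    group

end Pool.Agent.P.MP_dba3d2_lc
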