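import Pool.Agent.P.MP_dba3d2_lc.F.IfaceS
import Pool.Agent.P.MP_dba3d2_lc.B.Axis2
import Pool.Agent.P.MP_dba3d2_lc.F.TbS5

/-! Step S2_FAR5 of the stability project. -/

namespace Pool.Agent.P.MP_dba3d2_lc

open Filter
open SW SW.T5

theorem p_S2_FAR5 :
    S_S2_FAR5 := by
  intro Γ a H μ ν N hν hl wd kd f5 N1 ⟨τ, y⟩ A v P Nm ⟨τ', y'⟩ P' v' B N2 e _ ng _ k
  have h0 := hν.pos.le
  obtain ⟨-, a2, a3⟩ := wd (.inr ((τ, y), A ++ .inr (none, v) :: P)) (by simp [e])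
  obtain ⟨-, b2, b3⟩ := wd (.inr ((τ', y'), P' ++ .inr (none, v') :: B)) (by simp [e])
  obtain rfl : τ = none := Option.eq_none_iff_forall_ne_some.2 fun c h => by
    cases (a3 c h).2.2 (none, v) (by simp)
  obtain rfl : τ' = none := Option.eq_none_iff_forall_ne_some.2 fun c h => by
    cases (b3 c h).2.2 (none, v') (by simp)
  refine f5 (N1.map tp) y (Nm.map tp) y' (N2.map tp) (by simp [e]) (fun z hz => ?_) ?_
  · obtain ⟨_ | ⟨x, D⟩, h1, h2⟩ := List.mem_map.1 hz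
    · cases h2
    obtain rfl : x = (none, z) := by simpa using h2
    obtain ⟨w, hw⟩ := kd.ch z D (by simp [e, h1])
    exact ng w (mem_fl.2 (.inr ⟨_, _, h1, hw⟩))
  · rw [lv_tp fun s hs => wd s (by simp [e, hs])]
    have p1 := (mem_ball h0).2 (ls_lv (L := P) h0 fun s hs => a2 s (by simp [hs]))
    have p2 := (mem_ball h0).2 (ls_lv (L := P') h0 fun s hs => b2 s (by simp [hs]))
    have p3 := (mem_ball h0).2 k
    rw [lv_append, lv_append, mul_mem_cancel_right p2, mul_mem_cancel_left p1] at p3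
    exact Ll.ls_left ((mem_ball h0).1 p3) hl

end Pool.Agent.P.MP_dba3d2_lc
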