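import Pool.Agent.P.MP_dba3d2_lc.F.DefsS
import Pool.Agent.P.MP_dba3d2_lc.C.IfaceP
import Pool.Agent.P.MP_dba3d2_lc.B.Iface
import Pool.Agent.P.MP_dba3d2_lc.B.Axis2

/-! Walks in the forest of cosets and axes. -/

namespace Pool.Agent.P.MP_dba3d2_lc.SW

open Filter

variable {Γ : HG} {a : Amb} {H X : Subgroup (MM Γ a)} {A B : Set (Subgroup (MM Γ a))} {μ : a.K}
  {c c' d d' f g m u x y z : MM Γ a}

theorem Wk.trans (h : Wk H X A x y) (h' : Wk H X A y z) : Wk H X A x z := by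
  induction h' with
  | refl => exact h
  | hs y k _ hk ih => exact ih.hs _ _ hk
  | es y c f _ h1 h2 h3 h4 h5 ih => exact ih.es _ c f h1 h2 h3 h4 h5

theorem Wk.mono (h : Wk H X A x y) (e : A ⊆ B) : Wk H X B x y := by
  induction h with
  | refl => exact .refl
  | hs y k _ hk ih => exact ih.hs _ _ hk
  | es y c f _ h1 h2 h3 h4 h5 ih => exact ih.es _ c f h1 h2 h3 h4 (e h5)

theorem Wk.of_mem (h : x⁻¹ * y ∈ H) : Wk H X A x y := by
  simpa using (Wk.refl (H := H) (X := X) (A := A) (x := x)).hs _ _ h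

theorem ep_step (h : f ∈ Ep c) (y : MM Γ a) : Ep (y * f * c * (y * f)⁻¹) = Ep (y * c * y⁻¹) := by
  rw [show y * f * c * (y * f)⁻¹ = y * (f * c * f⁻¹) * y⁻¹ by group, Ep_conj_iff, Ep_conj_mem h]

theorem Wk.one (h1 : c ∈ H) (h2 : Prim c) (h3 : x⁻¹ * y ∈ X) (h4 : x⁻¹ * y ∈ Ep c)
    (h5 : Ep (x * c * x⁻¹) ∈ A) : Wk H X A x y := by
  simpa using (Wk.refl (H := H) (X := X) (A := A) (x := x)).es _ c _ h1 h2 h3 h4 h5

theorem Wk.symm (h : Wk H X A x y) : Wk H X A y x := by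
  induction h with
  | refl => exact .refl
  | hs y k _ hk ih => exact (Wk.of_mem (by simpa using hk)).trans ih
  | es y c f _ h1 h2 h3 h4 h5 ih =>
    exact (Wk.one h1 h2 (by simpa using h3) (by simpa using h4) (by rwa [ep_step h4])).trans ih

theorem Wk.mv (h : Wk H X A x y) (g : MM Γ a) (e : ∀ d, Ep d ∈ A → Ep (g * d * g⁻¹) ∈ B) :
    Wk H X B (g * x) (g * y) := by
  induction h with
  | refl => exact .refl
  | hs y k _ hk ih => exact mul_assoc g y k ▸ ih.hs _ _ hk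
  | es y c f _ h1 h2 h3 h4 h5 ih =>
    refine mul_assoc g y f ▸ ih.es _ c f h1 h2 h3 h4 ?_
    rw [show g * y * c * (g * y)⁻¹ = g * (y * c * y⁻¹) * g⁻¹ by group]
    exact e _ h5

theorem Cn.mv (h : Cn H X d x y) (g : MM Γ a) : Cn H X (g * d * g⁻¹) (g * x) (g * y) :=
  Wk.mv h g fun _ k e => k ((Ep_conj_iff g).1 e)

theorem cn_mv (g : MM Γ a) : Cn H X (g * d * g⁻¹) (g * x) (g * y) ↔ Cn H X d x y :=
  ⟨fun h => by simpa [mul_assoc] using h.mv g⁻¹, fun h => h.mv g⟩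

theorem Cn.congr (h : Cn H X d x y) (e : Ep d = Ep d') : Cn H X d' x y := by
  unfold Cn at *
  rwa [← e]

theorem H_le_hat (H X : Subgroup (MM Γ a)) : H ≤ hatH H X := le_sup_left

theorem exp_mem_hat (hle : H ≤ X) (h1 : c ∈ H) (h2 : Prim c) (h3 : f ∈ X) (h4 : f ∈ Ep c) :
    f ∈ hatH H X :=
  Subgroup.mem_sup_right (Subgroup.subset_closure ⟨h3, c, ⟨h1, hle h1⟩, h2, h4⟩)

theorem hat_le (hle : H ≤ X) : hatH H X ≤ X :=
  sup_le hle ((Subgroup.closure_le _).2 fun _ h => h.1)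

theorem Wk.mem (hle : H ≤ X) (h : Wk H X A x y) : x⁻¹ * y ∈ hatH H X := by
  induction h with
  | refl => simp
  | hs y k _ hk ih => exact mul_assoc x⁻¹ y k ▸ mul_mem ih (H_le_hat H X hk)
  | es y c f _ h1 h2 h3 h4 _ ih =>
    exact mul_assoc x⁻¹ y f ▸ mul_mem ih (exp_mem_hat hle h1 h2 h3 h4)

theorem sup_clo {G : Type} [Group G] (K : Subgroup G) (S : Set G) :
    K ⊔ Subgroup.closure S = Subgroup.closure (K ∪ S) := by
  rw [Subgroup.closure_union, Subgroup.closure_eq]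

theorem wk_univ (h : x⁻¹ * y ∈ hatH H X) : Wk H X Set.univ x y := by
  suffices k : ∀ u ∈ hatH H X, ∀ x, Wk H X Set.univ x (x * u) by simpa using k _ h x
  intro u hu
  rw [hatH, expW, sup_clo] at hu
  induction hu using Subgroup.closure_induction with
  | mem u k =>
    intro x
    rcases k with k | ⟨k1, c, k2, k3, k4⟩
    · exact Wk.refl.hs _ _ k
    · exact Wk.refl.es _ c _ k2.1 k3 k1 k4 trivial
  | one => exact fun x => by simpa using Wk.refl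
  | mul u v _ _ h1 h2 => exact fun x => mul_assoc x u v ▸ (h1 x).trans (h2 _)
  | inv u _ h1 => exact fun x => by simpa using (h1 (x * u⁻¹)).symm

theorem Lv.wk_YA (L : Lv H X μ) (h1 : m ∈ hatH H X) (h2 : m ∈ WW X μ) (x : MM Γ a) :
    Wk H X (YA H X μ x) x (x * m) := by
  have h := L.hm m h1 h2
  suffices k : (m ∈ hatH H X ∧ m ∈ WW X μ) ∧ ∀ m0 ∈ hatH H X, m0 ∈ WW X μ →
    Wk H X (YA H X μ x) (x * m0) (x * m0 * m) by simpa using k.2 1 (one_mem _) (one_mem _)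
  clear h1 h2
  rw [hatM, expW, sup_clo] at h
  induction h using Subgroup.closure_induction with
  | mem u k =>
    rcases k with k | ⟨k1, c, k2, k3, k4⟩
    · exact ⟨⟨H_le_hat H X k.1, k.2⟩, fun m0 _ _ => Wk.refl.hs _ _ k.1⟩
    · exact ⟨⟨exp_mem_hat L.le k2.1 k3 k1.1 k4, k1⟩, fun m0 b1 b2 =>
        Wk.refl.es _ c _ k2.1 k3 k1.1 k4 ⟨m0, b1, b2, c, k2.1, k2.2, k3, rfl⟩⟩
  | one => exact ⟨⟨one_mem _, one_mem _⟩, fun m0 _ _ => by simpa using Wk.refl⟩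
  | mul u v _ _ h1 h2 =>
    refine ⟨⟨mul_mem h1.1.1 h2.1.1, mul_mem h1.1.2 h2.1.2⟩, fun m0 b1 b2 => ?_⟩
    have := h2.2 (m0 * u) (mul_mem b1 h1.1.1) (mul_mem b2 h1.1.2)
    rw [← mul_assoc] at this
    exact mul_assoc (x * m0) u v ▸ (h1.2 m0 b1 b2).trans this
  | inv u _ h1 =>
    refine ⟨⟨inv_mem h1.1.1, inv_mem h1.1.2⟩, fun m0 b1 b2 => ?_⟩
    have := h1.2 (m0 * u⁻¹) (mul_mem b1 (inv_mem h1.1.1)) (mul_mem b2 (inv_mem h1.1.2))
    simpa [mul_assoc] using this.symm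

/-- two cosets next to the same axis are joined by one step -/
theorem Wk.adj (hR : S_ROOT) (hH : GC0 H) (hle : H ≤ X) (h1 : c ∈ H) (h2 : Prim c) (h3 : c' ∈ H)
    (h4 : Prim c') (hx : x⁻¹ * y ∈ X) (e : Ep (y * c' * y⁻¹) = Ep (x * c * x⁻¹))
    (hA : Ep (x * c * x⁻¹) ∈ A) : Wk H X A x y := by
  have k : Cj (x⁻¹ * y) c' c := by
    unfold Cj
    rw [← Ep_conj_iff x, ← e]
    congr 1
    group
  obtain ⟨h, k1, k2⟩ := (hR Γ a H hH).2.2.2.2.2 c h1 c' h3 h2.1 h4.1 _ k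
  have := (Wk.one (y := y * h⁻¹) h1 h2 (mul_assoc x⁻¹ y _ ▸ mul_mem hx (inv_mem (hle k1)))
    (mul_assoc x⁻¹ y _ ▸ k2) hA).hs _ _ k1
  simpa using this

/-- the last use of an axis from `B` -/
theorem Wk.last (h : Wk H X A x y) (B : Set (Subgroup (MM Γ a))) :
    Wk H X (A \ B) x y ∨ ∃ z c, c ∈ H ∧ Prim c ∧ Ep (z * c * z⁻¹) ∈ A ∧ Ep (z * c * z⁻¹) ∈ B ∧
      Wk H X A x z ∧ Wk H X (A \ B) z y := by
  induction h with
  | refl => exact .inl .refl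
  | hs y k _ hk ih =>
    exact ih.imp (fun h => h.hs _ _ hk) fun ⟨z, c, b1, b2, b3, b4, b5, b6⟩ =>
      ⟨z, c, b1, b2, b3, b4, b5, b6.hs _ _ hk⟩
  | es y c f h0 h1 h2 h3 h4 h5 ih =>
    by_cases e : Ep (y * c * y⁻¹) ∈ B
    · exact .inr ⟨y * f, c, h1, h2, by rwa [ep_step h4], by rwa [ep_step h4],
        h0.es _ c f h1 h2 h3 h4 h5, .refl⟩
    · exact ih.imp (fun h => h.es _ c f h1 h2 h3 h4 ⟨h5, e⟩) fun ⟨z, c', b1, b2, b3, b4, b5, b6⟩ =>
        ⟨z, c', b1, b2, b3, b4, b5, b6.es _ c f h1 h2 h3 h4 ⟨h5, e⟩⟩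

/-- a walk uses finitely many axes -/
theorem Wk.fin (h : Wk H X A x y) : ∃ B ⊆ A, B.Finite ∧ Wk H X B x y := by
  induction h with
  | refl => exact ⟨∅, Set.empty_subset _, Set.finite_empty, .refl⟩
  | hs y k _ hk ih =>
    obtain ⟨B, b1, b2, b3⟩ := ih
    exact ⟨B, b1, b2, b3.hs _ _ hk⟩
  | es y c f _ h1 h2 h3 h4 h5 ih =>
    obtain ⟨B, b1, b2, b3⟩ := ih
    exact ⟨insert _ B, Set.insert_subset h5 b1, b2.insert _,
      (b3.mono (Set.subset_insert _ _)).es _ c f h1 h2 h3 h4 (Set.mem_insert _ _)⟩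

theorem ww_ls (hμ : Big μ) (h : x ∈ X) (k : x ∉ WW X μ) : Ls μ (ln x) :=
  (not_ll_iff' hμ.pos).1 fun e => k ⟨h, (mem_tiny hμ.pos.le).2 e⟩

theorem ww_ll (hμ : Big μ) (k : x ∈ WW X μ) : Ll (ln x) μ := (mem_tiny hμ.pos.le).1 k.2

theorem ww_mono {ν : a.K} (hμ : Big μ) (hν : Big ν) (h : Ls ν μ) : WW X ν ≤ WW X μ :=
  fun _ k => ⟨k.1, (mem_tiny hμ.pos.le).2 ((ww_ll hν k).ls_right h hμ.pos.le)⟩

theorem ww_of_ls {ν : a.K} (hμ : Big μ) (h : Ll ν μ) (hx : x ∈ X) (k : Ls (ln x) ν) :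
    x ∈ WW X μ := ⟨hx, (mem_tiny hμ.pos.le).2 (Ll.ls_left k h)⟩

/-- a primitive period of an axis at the edge `x` fixes `x` -/
theorem YA_fix (hE : S_ELEM) (hL : S_LINE) (hμ : Big μ) (hd : Prim d) (h : Ep d ∈ YA H X μ x) :
    Ll (ds x (d * x)) μ := by
  obtain ⟨m, -, h2, c, -, h4, h5, e⟩ := h
  refine Prim.fix hE hL hd (h5.conj (x * m)).1 e ?_
  rw [ds_conj, show x⁻¹ * (x * m * c * (x * m)⁻¹) * x = m * c * m⁻¹ by group]
  exact ww_ll hμ (mul_mem (mul_mem h2 h4) (inv_mem h2))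

theorem YA_prim (h : B ⊆ YA H X μ x) {e : Subgroup (MM Γ a)} (he : e ∈ B) :
    ∃ d, Prim d ∧ e = Ep d := by
  obtain ⟨m, -, -, c, -, -, h5, e⟩ := h he
  exact ⟨_, h5.conj _, e⟩

theorem YA_mv (g : MM Γ a) : Ep (g * d * g⁻¹) ∈ YA H X μ (g * x) ↔ Ep d ∈ YA H X μ x := by
  refine exists_congr fun m => and_congr_right fun _ => and_congr_right fun _ =>
    exists_congr fun c => and_congr_right fun _ => and_congr_right fun _ =>
    and_congr_right fun _ => ?_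
  rw [show g * x * m * c * (g * x * m)⁻¹ = g * (x * m * c * (x * m)⁻¹) * g⁻¹ by group, Ep_conj_iff]

theorem YA_mono {ν : a.K} (h : WW X ν ≤ WW X μ) (h1 : m ∈ hatH H X) (h2 : m ∈ WW X μ) :
    YA H X ν (x * m) ⊆ YA H X μ x := by
  rintro _ ⟨m', k1, k2, c, k3, k4, k5, rfl⟩
  exact ⟨m * m', mul_mem h1 k1, mul_mem h2 (h k2), c, k3, h k4, k5, by rw [mul_assoc x m m']⟩

theorem YA_right (h1 : m ∈ hatH H X) (h2 : m ∈ WW X μ) : YA H X μ (x * m) = YA H X μ x :=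
  (YA_mono le_rfl h1 h2).antisymm (by
    simpa using YA_mono (x := x * m) le_rfl (inv_mem h1) (inv_mem h2))

/-- two different edges have at most one common axis -/
theorem YA_sub (hE : S_ELEM) (hL : S_LINE) (hP : S_PERC) (hμ : Big μ) (h : Ls μ (ds x y)) :
    (YA H X μ x ∩ YA H X μ y).Subsingleton := by
  intro e he e' he'
  obtain ⟨d, p, rfl⟩ := YA_prim Set.inter_subset_left he
  obtain ⟨d', p', rfl⟩ := YA_prim Set.inter_subset_left he'
  exact Ep_eq_of_stab hE hP hμ h p.1 p'.1 ⟨YA_fix hE hL hμ p he.1, YA_fix hE hL hμ p he.2⟩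
    ⟨YA_fix hE hL hμ p' he'.1, YA_fix hE hL hμ p' he'.2⟩

theorem ln_conj_ll (hm : Ll (ln m) μ) (h : Ll (ln (m * d * m⁻¹)) μ) : Ll (ln d) μ := by
  have t3 := ln_mul_le (m⁻¹ * (m * d * m⁻¹)) m
  have t4 := ln_mul_le m⁻¹ (m * d * m⁻¹)
  rw [show m⁻¹ * (m * d * m⁻¹) * m = d by group] at t3
  rw [ln_inv] at t4
  exact Ll.mono_left (by linarith) ((hm.add hm).add h)

theorem not_YA (hE : S_ELEM) (hL : S_LINE) (hμ : Big μ) (hd : Prim d) (hm : m ∈ WW X μ)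
    (h : ¬ Ll (ln d) μ) : Ep (m * d * m⁻¹) ∉ YA H X μ 1 := fun e =>
  h (ln_conj_ll (ww_ll hμ hm) (by simpa using YA_fix hE hL hμ (hd.conj m) e))

theorem Lv.cn_of (L : Lv H X μ) (h1 : m ∈ hatH H X) (h2 : m ∈ WW X μ)
    (h : Ep d ∉ YA H X μ x) : Cn H X d x (x * m) :=
  (L.wk_YA h1 h2 x).mono fun _ k e => h (e ▸ k)

/-- the axis that separates the edge `1` from `u` and is next to the edge is unique -/
theorem Lv.uq (hA : ∀ x y, x⁻¹ * y ∈ X → ∀ c ∈ H, ∀ c' ∈ H, Prim c → Prim c' →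
    Ep (x * c * x⁻¹) = Ep (y * c' * y⁻¹) → Wk H X {Ep (x * c * x⁻¹)} x y) (L : Lv H X μ) {m' : MM Γ a} (hu : u ∈ hatH H X) (h1 : c ∈ H)
    (h2 : Prim c) (h3 : c' ∈ H) (h4 : Prim c') (m1 : m ∈ hatH H X) (m2 : m ∈ WW X μ)
    (m3 : m' ∈ hatH H X) (m4 : m' ∈ WW X μ) (y1 : Ep (m * c * m⁻¹) ∉ YA H X μ 1)
    (y2 : Ep (m' * c' * m'⁻¹) ∉ YA H X μ 1) (n1 : ¬ Cn H X (m * c * m⁻¹) 1 u)
    (n2 : ¬ Cn H X (m' * c' * m'⁻¹) 1 u) : Ep (m * c * m⁻¹) = Ep (m' * c' * m'⁻¹) := by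
  by_contra e
  have key : ∀ {m c d z c0 : MM Γ a}, c ∈ H → Prim c → m ∈ hatH H X → m ∈ WW X μ →
      Ep d ∉ YA H X μ 1 → Ep (m * c * m⁻¹) ≠ Ep d → c0 ∈ H → Prim c0 →
      Ep (z * c0 * z⁻¹) = Ep (m * c * m⁻¹) → z ∈ hatH H X → Cn H X d z u → Cn H X d 1 u :=
    fun h1 h2 m1 m2 y e k1 k2 k3 k4 k5 => ((L.cn_of m1 m2 y).trans (by
      rw [one_mul]
      exact (hA _ _ (hat_le L.le (mul_mem (inv_mem m1) k4)) _ h1 _ k1 h2 k2 k3.symm).mono
        fun _ k => k ▸ e)).trans k5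
  rcases (wk_univ (x := 1) (by simpa using hu)).last
    {Ep (m * c * m⁻¹), Ep (m' * c' * m'⁻¹)} with k | ⟨z, c0, k1, k2, -, k3, k4, k5⟩
  · exact n1 (k.mono fun _ h e => h.2 (.inl e))
  · have k6 : z ∈ hatH H X := by simpa using k4.mem L.le
    rcases k3 with k3 | k3
    · exact n2 (key h1 h2 m1 m2 y2 e k1 k2 k3 k6 (k5.mono fun _ h e => h.2 (.inr e)))
    · exact n1 (key h3 h4 m3 m4 y1 (Ne.symm e) k1 k2 k3 k6 (k5.mono fun _ h e => h.2 (.inl e)))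

/-- entries of star words -/
def SV (H : Subgroup (MM Γ a)) (s : MM Γ a × MM Γ a × MM Γ a) : Prop :=
  s.1 ∈ H ∧ s.2.1 ∈ H ∧ Prim s.2.1 ∧ s.2.2 ∈ Ep s.2.1 ∧ s.2.2 ∉ H
/-- neighbours in star words -/
def SR (s s' : MM Γ a × MM Γ a × MM Γ a) : Prop := ¬ Cj s'.1 s'.2.1 s.2.1
/-- values of star words -/
def sv (l : List (MM Γ a × MM Γ a × MM Γ a)) : MM Γ a := (l.map fun s => s.1 * s.2.2).prod

theorem SR.chg {k k' g g' : MM Γ a} {l : List (MM Γ a × MM Γ a × MM Γ a)}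
    (h : ((k, c, g) :: l).IsChain SR) : ((k', c, g') :: l).IsChain SR :=
  List.isChain_cons.2 ((List.isChain_cons (x := (k, c, g))).1 h)

/-- the first axis of a reduced star word separates its ends -/
theorem first (hS : S_STAR) (hH : GC0 H) {β h : MM Γ a} {r : List (MM Γ a × MM Γ a × MM Γ a)}
    (h1 : ∀ s ∈ (β, c, f) :: r, SV H s) (h2 : ((β, c, f) :: r).IsChain SR) (hh : h ∈ H) :
    ¬ Cn H X (β * c * β⁻¹) 1 (sv ((β, c, f) :: r) * h) := by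
  intro hw
  let I : MM Γ a → Prop := fun z => ∃ l k, (∀ s ∈ l ++ (k, c, f) :: r, SV H s) ∧
    (l ++ (k, c, f) :: r).IsChain SR ∧ z * sv l * k = β
  have ih : ∀ z k0, k0 ∈ H → I z → I (z * k0) := by
    rintro z k0 hk ⟨l, k, b1, b2, b3⟩
    rcases l with _ | ⟨⟨k1, c1, f1⟩, l⟩
    · refine ⟨[], k0⁻¹ * k, ?_, ?_, by simpa [sv, mul_assoc] using b3⟩
      · simp only [List.nil_append, List.forall_mem_cons] at b1 ⊢
        exact ⟨⟨mul_mem (inv_mem hk) b1.1.1, b1.1.2⟩, b1.2⟩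
      · exact SR.chg b2
    · refine ⟨(k0⁻¹ * k1, c1, f1) :: l, k, ?_, ?_, by simpa [sv, mul_assoc] using b3⟩
      · simp only [List.cons_append, List.forall_mem_cons] at b1 ⊢
        exact ⟨⟨mul_mem (inv_mem hk) b1.1.1, b1.1.2⟩, b1.2⟩
      · exact SR.chg b2
  have main : ∀ z, Cn H X (β * c * β⁻¹) 1 z → I z := by
    intro z hz
    induction hz with
    | refl => exact ⟨[], β, h1, h2, by simp [sv]⟩
    | hs y k _ hk h => exact ih y k hk h
    | es y d g _ k1 k2 k3 k4 k5 h =>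
      by_cases e : g ∈ H
      · exact ih y g e h
      obtain ⟨l, k, b1, b2, b3⟩ := h
      have new : (∀ s ∈ (l ++ (k, c, f) :: r).head?, ¬ Cj s.1 s.2.1 d) → I (y * g) := fun n =>
        ⟨(1, d, g⁻¹) :: l, k, List.forall_mem_cons.2
          ⟨⟨one_mem _, k1, k2, inv_mem k4, fun e' => e (by simpa using e')⟩, b1⟩,
          List.isChain_cons.2 ⟨n, b2⟩, by simpa [sv, mul_assoc] using b3⟩
      rcases l with _ | ⟨⟨k', c1, f1⟩, l⟩
      · refine new fun s hs e' => k5 ?_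
        obtain rfl : (k, c, f) = s := by simpa using hs
        obtain rfl : y * k = β := by simpa [sv] using b3
        rw [show y * k * c * (y * k)⁻¹ = y * (k * c * k⁻¹) * y⁻¹ by group, Ep_conj_iff]
        exact e'.symm
      · by_cases n : Cj k' c1 d
        · simp only [List.cons_append, List.forall_mem_cons] at b1
          have g1 : k'⁻¹ * g⁻¹ * k' ∈ Ep c1 := mem_Ep_conj.1 (n ▸ inv_mem k4)
          by_cases e2 : k'⁻¹ * g⁻¹ * k' * f1 ∈ H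
          · have i1 : I (y * k' * f1) := ⟨l, k, b1.2, (List.isChain_cons.1 b2).2,
              by simpa [sv, mul_assoc] using b3⟩
            have := ih _ _ (inv_mem (mul_mem b1.1.1 e2)) i1
            simpa [mul_assoc] using this
          · refine ⟨(k', c1, k'⁻¹ * g⁻¹ * k' * f1) :: l, k, List.forall_mem_cons.2
              ⟨⟨b1.1.1, b1.1.2.1, b1.1.2.2.1, mul_mem g1 b1.1.2.2.2.1, e2⟩, b1.2⟩,
              SR.chg b2, by simpa [sv, mul_assoc] using b3⟩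
        · exact new fun s hs => by
            obtain rfl : (k', c1, f1) = s := by simpa using hs
            exact n
  obtain ⟨l, k, b1, b2, b3⟩ := main _ hw
  refine hS Γ a H _ hH (by simp) b1 b2 ?_
  have e : sv (l ++ (k, c, f) :: r) = h⁻¹ := by
    have e1 : sv (l ++ (k, c, f) :: r) = sv l * k * (f * sv r) := by simp [sv, mul_assoc]
    have e2 : sv ((β, c, f) :: r) = β * (f * sv r) := by simp [sv, mul_assoc]
    rw [e2] at b3
    rw [e1, show sv l * k = h⁻¹ * (f * sv r)⁻¹ by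
      rw [← mul_left_cancel_iff (a := β * (f * sv r) * h), ← mul_assoc, b3]; group]
    group
  exact (show sv _ ∈ H from e ▸ inv_mem hh)

/-- a small element that preserves the axis fixes the projection of `1` -/
theorem proj_stab (hE : S_ELEM) (hL : S_LINE) {p : MM Γ a} (hd : Prim d)
    (h1 : Ll (ds p (d * p)) μ) (h2 : ∀ z, Ll (ds z (d * z)) μ → On μ p 1 z) (hg : Ll (ln g) μ)
    (e : Cj g d d) : Stab μ 1 p g := by
  have k : ∀ g, Cj g d d → On μ p 1 (g * p) := fun g e =>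
    h2 _ (Prim.fix hE hL hd (hd.conj g).1 (Eq.symm e) (by rwa [disp_conj]))
  refine ⟨by simpa using hg, (k g e).antisymm ?_⟩
  have := (k g⁻¹ e.inv).mul g
  rw [mul_inv_cancel_left, mul_one] at this
  exact this.congr (FixA.ll_self hg.nonneg _) (by simpa using hg) (FixA.ll_self hg.nonneg _)

end Pool.Agent.P.MP_dba3d2_lc.SW
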