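import Pool.Agent.P.MP_dba3d2_lc.F.IfaceS
import Pool.Agent.P.MP_dba3d2_lc.C.IfaceP
import Pool.Agent.P.MP_dba3d2_lc.F.TbFo
import Pool.Agent.P.MP_dba3d2_lc.B.Axis2

/-! Step S2_FIRST of the stability project. -/

namespace Pool.Agent.P.MP_dba3d2_lc

open Filter
open SW

namespace S2First

variable {Γ : HG} {a : Amb} {H X : Subgroup (MM Γ a)} {μ : a.K}

theorem lv_mem {γ L : List (Lt Γ a)} (h : NoV γ) (k : Fa H X μ L) (e : γ ⊆ L) : lv γ ∈ H :=
  list_prod_mem fun _ hx => by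
    obtain ⟨s | s, hs, rfl⟩ := List.mem_map.1 hx
    exacts [k.con s (e hs), absurd hs (h s)]

theorem conv : ∀ (R A γ : List (Lt Γ a)) (c f : MM Γ a), NoV γ → NoG R →
    Fa H X μ (A ++ .inr (some c, f) :: γ ++ R) → F3 (A ++ .inr (some c, f) :: γ ++ R) →
    ∃ r h, h ∈ H ∧ (∀ s ∈ r, SV H s) ∧ (∀ k, ((k, c, f) :: r).IsChain SR) ∧
      lv γ * lv R = sv r * h
  | [], A, γ, c, f, h1, _, h3, _ => ⟨[], lv γ, lv_mem h1 h3 fun _ h => by simp [h], by simp,
      by simp, by simp [lv, sv]⟩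
  | .inl k :: R, A, γ, c, f, h1, h2, h3, h4 => by
    obtain ⟨r, h, b⟩ := conv R A (γ ++ [.inl k]) c f (fun x e => h1 x (by simpa using e))
      (fun v e => h2 v (List.mem_cons_of_mem _ e)) (by simpa using h3) (by simpa using h4)
    exact ⟨r, h, b.1, b.2.1, b.2.2.1, by simpa [lv, vL, mul_assoc] using b.2.2.2⟩
  | .inr (none, v) :: R, _, _, _, _, _, h2, _, _ => absurd List.mem_cons_self (h2 v)
  | .inr (some c', f') :: R, A, γ, c, f, h1, h2, h3, h4 => by
    obtain ⟨r, h, b1, b2, b3, b4⟩ := conv R (A ++ .inr (some c, f) :: γ) [] c' f'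
      (fun x e => by simp at e) (fun v e => h2 v (List.mem_cons_of_mem _ e)) (by simpa using h3)
      (by simpa using h4)
    obtain ⟨k1, k2, -, -, k3, k4, -⟩ := h3.exp c' f' (by simp)
    refine ⟨(lv γ, c', f') :: r, h, b1, List.forall_mem_cons.2
      ⟨⟨lv_mem h1 h3 fun _ h => by simp [h], k1, k2, k3, k4⟩, b2⟩,
      fun k => List.isChain_cons_cons.2 ⟨h4 A c f γ c' f' R rfl h1, b3 _⟩, ?_⟩
    have e : lv R = sv r * h := by simpa [lv] using b4
    rw [show lv (.inr (some c', f') :: R) = f' * lv R by simp [lv, vL], e]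
    simp [sv, mul_assoc]

end S2First

theorem p_S2_FIRST (hSTAR : S_STAR) :
    S_S2_FIRST := by
  intro Γ a H X μ β R c f hH h1 h2 h3 h4
  obtain ⟨r, h, b1, b2, b3, b4⟩ := S2First.conv (H := H) (X := X) (μ := μ) R β [] c f
    (fun x e => by simp at e) h2 (by simpa using h3) (by simpa using h4)
  obtain ⟨k1, k2, -, -, k3, k4, -⟩ := h3.exp c f (by simp)
  have e : lv R = sv r * h := by simpa [lv] using b4
  have := first (X := X) hSTAR hH (List.forall_mem_cons.2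
    ⟨⟨S2First.lv_mem h1 h3 fun _ h => by simp [h], k1, k2, k3, k4⟩, b2⟩) (b3 (lv β)) b1
  rwa [show lv (β ++ .inr (some c, f) :: R) = lv β * (f * lv R) by simp [lv, vL], e,
    show lv β * (f * (sv r * h)) = sv ((lv β, c, f) :: r) * h by simp [sv, mul_assoc]]

end Pool.Agent.P.MP_dba3d2_lc
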