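import Pool.Agent.P.MP_dba3d2_lc.F.IfaceS
import Pool.Agent.P.MP_dba3d2_lc.F.TbS6

/-! Step S2_INV of the stability project. -/

namespace Pool.Agent.P.MP_dba3d2_lc

open Filter
open SW SW.T5

theorem p_S2_INV :
    S_S2_INV := by
  intro Γ a H X l N hN
  refine ⟨⟨?_, fun n => by rw [tp_ni, hN.succ, fl_ni], fun n => wd_ni (hN.wd n), fun n x hx => ?_,
    fun n e D hs => ?_⟩, fun n M e1 e2 e3 e4 => ?_⟩
  · obtain ⟨y, D, e⟩ := hN.base
    exact ⟨y⁻¹, li D, by simp [e]⟩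
  · rw [fl_ni, mem_li] at hx
    simpa using hN.mem n _ hx
  · simpa using ad_li (hN.add n _ _ (mem_ni.1 hs))
  · simpa using hN.opt n (ni M) (by rw [sk_ni, e1, ← sk_ni, ni_ni]) (by
      rw [fl_ni, lv_li, e2, fl_ni, lv_li, inv_inv]) (wd_ni e3) (by simpa using e4)

end Pool.Agent.P.MP_dba3d2_lc
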