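import Pool.Agent.P.MP_dba3d2_lc.F.IfaceS

/-! Step S2_IO of the stability project. -/

namespace Pool.Agent.P.MP_dba3d2_lc

open Filter
open SW

namespace S2_io

variable {G T : Type} [Group G] [Group T] {U W : Subgroup G} {P : Bool → G → G → Prop}
  {j : G →* T} {ν : T} {n : Bool → G → T}

theorem exN (hc : ∀ s, ∀ u ∈ U, ∀ m m', P s u m → P s u m' → Commute (j (m⁻¹ * m')) ν) :
    ∃ n, IsN U P j ν n := by
  classical
  refine ⟨fun s u => if h : ∃ m, P s u m then j h.choose * ν⁻¹ * (j h.choose)⁻¹ else 1, ?_, ?_⟩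
  · intro s u hu m hm
    have h : ∃ m, P s u m := ⟨m, hm⟩
    have h1 := (hc s u hu m _ hm h.choose_spec).inv_right
    have h2 : j h.choose = j m * j (m⁻¹ * h.choose) := by
      rw [← map_mul, mul_inv_cancel_left]
    simp only [dif_pos h]
    rw [h2, mul_assoc (j m), h1.eq]
    group
  · intro s u hu
    have h : ¬ ∃ m, P s u m := fun ⟨m, hm⟩ => hu m hm
    simp only [dif_neg h]

theorem n1 (hP : Pt0 U W P) (hN : IsN U P j ν n) (s : Bool) {u m : G} (hu : u ∈ U)
    (h1 : m ∈ U) (h2 : m ∈ W) : n s (m * u) = j m * n s u * (j m)⁻¹ := by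
  by_cases h : ∃ k, P s u k
  · obtain ⟨k, hk⟩ := h
    rw [hN.yes s u hu k hk, hN.yes s _ (U.mul_mem h1 hu) _ (hP.left s u hu k hk m h1 h2), map_mul]
    group
  · have h3 : ∀ k, ¬ P s (m * u) k := fun k hk => by
      have := hP.left s _ (U.mul_mem h1 hu) k hk m⁻¹ (U.inv_mem h1) (W.inv_mem h2)
      rw [inv_mul_cancel_left] at this
      exact h ⟨_, this⟩
    rw [hN.no s _ h3, hN.no s u fun k hk => h ⟨k, hk⟩]
    group

theorem n2 (hP : Pt0 U W P) (hN : IsN U P j ν n) {u m : G} (hu : u ∈ U)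
    (h1 : m ∈ U) (h2 : m ∈ W) : n true (u * m) = n true u := by
  by_cases h : ∃ k, P true u k
  · obtain ⟨k, hk⟩ := h
    rw [hN.yes _ u hu k hk, hN.yes _ _ (U.mul_mem hu h1) _ (hP.right u hu k hk m h1 h2)]
  · have h3 : ∀ k, ¬ P true (u * m) k := fun k hk => by
      have := hP.right _ (U.mul_mem hu h1) k hk m⁻¹ (U.inv_mem h1) (W.inv_mem h2)
      rw [mul_inv_cancel_right] at this
      exact h ⟨_, this⟩
    rw [hN.no _ _ h3, hN.no _ u fun k hk => h ⟨k, hk⟩]

theorem phR (hP : Pt0 U W P) (hN : IsN U P j ν n) (s : Bool) {u m : G} (hu : u ∈ U)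
    (h1 : m ∈ U) (h2 : m ∈ W) : ph j n s true (u * m) = ph j n s true u * j m := by
  unfold ph
  rw [n2 hP hN hu h1 h2, mul_inv_rev, n1 hP hN s (U.inv_mem hu) (U.inv_mem h1) (W.inv_mem h2),
    map_mul, map_inv]
  simp only [if_true]
  group

theorem phL (hP : Pt0 U W P) (hN : IsN U P j ν n) (t : Bool) {u m : G} (hu : u ∈ U)
    (h1 : m ∈ U) (h2 : m ∈ W) : ph j n true t (m * u) = j m * ph j n true t u := by
  unfold ph
  rw [n1 hP hN t hu h1 h2, mul_inv_rev m, n2 hP hN (U.inv_mem hu) (U.inv_mem h1) (W.inv_mem h2),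
    map_mul]
  simp only [if_true]
  group

theorem phL' (hP : Pt0 U W P) (hN : IsN U P j ν n) {s : Bool} (t : Bool) {u m : G} (hu : u ∈ U)
    (h1 : m ∈ U) (h2 : m ∈ W) (h : s = true ∨ m = 1) :
    ph j n s t (m * u) = j m * ph j n s t u := by
  rcases h with rfl | rfl
  · exact phL hP hN t hu h1 h2
  · rw [one_mul, map_one, one_mul]

/-- the graph of the insertion map -/
inductive R (U W : Subgroup G) (j : G →* T) (n : Bool → G → T) : Bool → G → T → Prop
  | nil (s : Bool) (u : G) : u ∈ U → R U W j n s u (ph j n s false u)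
  | cons (s : Bool) (u w x : G) (v : T) : u ∈ U → w ∈ W → w ∉ U → Tl U W x →
      R U W j n true x v → R U W j n s (u * w * x) (ph j n s true u * j w * v)

theorem R.inv' {s : Bool} {y : G} {v : T} (h : R U W j n s y v) :
    (y ∈ U ∧ v = ph j n s false y) ∨ ∃ u w x v0, u ∈ U ∧ w ∈ W ∧ w ∉ U ∧ Tl U W x ∧
      R U W j n true x v0 ∧ y = u * w * x ∧ v = ph j n s true u * j w * v0 := by
  cases h with
  | nil _ _ hu => exact Or.inl ⟨hu, rfl⟩
  | cons _ u w x v0 hu hw hw' hx hv => exact Or.inr ⟨u, w, x, v0, hu, hw, hw', hx, hv, rfl, rfl⟩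

theorem notU (hNT : S_S2_NT) (hA : Am U W) {u w x : G} (hu : u ∈ U) (hw : w ∈ W) (hw' : w ∉ U)
    (hx : Tl U W x) : u * w * x ∉ U := by
  have := (hNT G U W hA).1 u⁻¹ x w ⟨0, Rw.nil true _ (U.inv_mem hu)⟩ hx hw hw'
  rwa [inv_inv] at this

theorem uniq (hNT : S_S2_NT) (hA : Am U W) (hP : Pt0 U W P) (hN : IsN U P j ν n)
    {s : Bool} {y : G} {v : T} (h : R U W j n s y v) :
    ∀ m ∈ U, m ∈ W → (s = true ∨ m = 1) → ∀ v', R U W j n s (m * y) v' → v' = j m * v := by
  induction h with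
  | nil s u hu =>
    intro m h1 h2 hs v' hv'
    rcases hv'.inv' with ⟨-, rfl⟩ | ⟨u', w', x', v0, hu', hw', hw'', hx', -, e, -⟩
    · exact phL' hP hN false hu h1 h2 hs
    · exact absurd (e ▸ U.mul_mem h1 hu) (notU hNT hA hu' hw' hw'' hx')
  | cons s u w x v hu hw hw1 hx _ ih =>
    intro m h1 h2 hs v' hv'
    have hmu := U.mul_mem h1 hu
    have e0 : m * (u * w * x) = m * u * w * x := by group
    rw [e0] at hv'
    rcases hv'.inv' with ⟨hy, -⟩ | ⟨u', w', x', v0, hu', hw', hw'', hx', hv0, e, rfl⟩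
    · exact absurd hy (notU hNT hA hmu hw hw1 hx)
    · obtain ⟨a1, a2⟩ := (hNT G U W hA).2 _ hmu _ hu' _ hw _ hw' hw1 hw'' _ _ hx hx' e
      have a3 : (m * u)⁻¹ * u' ∈ U := U.mul_mem (U.inv_mem hmu) hu'
      have a4 : w⁻¹ * ((m * u)⁻¹ * u') * w' ∈ W := W.mul_mem (W.mul_mem (W.inv_mem hw) a1) hw'
      have ex : x' = (w⁻¹ * ((m * u)⁻¹ * u') * w')⁻¹ * x := by
        have : x = (m * u * w)⁻¹ * (u' * w' * x') := by rw [← e]; group
        rw [this]; group
      have eu : u' = m * u * ((m * u)⁻¹ * u') := by group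
      rw [ex] at hv0
      have hv := ih _ (U.inv_mem a2) (W.inv_mem a4) (Or.inl rfl) v0 hv0
      generalize (m * u)⁻¹ * u' = m0 at a1 a3 hv eu
      rw [hv, eu, phR hP hN s hmu a3 a1, phL' hP hN true hu h1 h2 hs]
      simp only [map_mul, map_inv]
      group

theorem exR {k : ℕ} {b : Bool} {x : G} (h : Rw U W k b x) : ∀ s, ∃ v, R U W j n s x v := by
  induction h with
  | nil b u hu => exact fun s => ⟨_, R.nil s u hu⟩
  | cons k b u w x hu _ hw hw' hx ih =>
    intro s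
    obtain ⟨v, hv⟩ := ih true
    exact ⟨_, R.cons s u w x v hu hw hw' ⟨k, hx⟩ hv⟩

end S2_io

open S2_io in
theorem p_S2_IO (hS2_NT : S_S2_NT) (hS2_RED : S_S2_RED) :
    S_S2_IO := by
  classical
  intro G T _ _ U W P j ν hA hP hc
  obtain ⟨n, hN⟩ := exN hc
  have key : ∀ s y v, R U W j n s y v →
      (if h : ∃ v, R U W j n s y v then h.choose else 1) = v := by
    intro s y v hv
    have h : ∃ v, R U W j n s y v := ⟨v, hv⟩
    have h1 := uniq hS2_NT hA hP hN hv 1 U.one_mem W.one_mem (Or.inr rfl) h.choose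
      (by rw [one_mul]; exact h.choose_spec)
    rw [dif_pos h, h1, map_one, one_mul]
  refine ⟨n, fun s y => if h : ∃ v, R U W j n s y v then h.choose else 1, hN, ?_, ?_⟩
  · intro s u hu
    exact key s u _ (R.nil s u hu)
  · intro s u hu w hw hw' x hx
    obtain ⟨k, hk⟩ := hx
    obtain ⟨v, hv⟩ := exR (j := j) (n := n) hk true
    show (if h : ∃ v, R U W j n s (u * w * x) v then h.choose else 1) =
      _ * (if h : ∃ v, R U W j n true x v then h.choose else 1)
    rw [key true x v hv]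
    exact key s _ _ (R.cons s u w x v hu hw hw' ⟨k, hk⟩ hv)

end Pool.Agent.P.MP_dba3d2_lc
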