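import Pool.Agent.P.MP_dba3d2_lc.F.IfaceS
import Pool.Agent.P.MP_dba3d2_lc.F.TbS5

/-! Step S2_KID of the stability project. -/

namespace Pool.Agent.P.MP_dba3d2_lc

open Filter
open SW SW.T5

theorem p_S2_KID :
    S_S2_KID := by
  intro Γ a H X μ ν N hX wd fa fb
  refine ⟨fun y D hs => ?_, fun c y D hs => ?_⟩
  · by_contra k
    push Not at k
    refine (fb.gen y (List.mem_map_of_mem (f := tp) hs)).2 ((show lv D = y from (wd _ hs).1) ▸ lv_mem ?_)
    rintro (h | ⟨_ | c, f⟩) ht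
    · exact Subgroup.mem_sup_left ((wd _ hs).2.1 _ ht).1
    · exact (k f ht).elim
    · obtain ⟨a1, a2, -, a4, a5, -⟩ := fa.exp c f (mem_fl.2 (.inr ⟨_, _, hs, ht⟩))
      exact Subgroup.mem_sup_right (Subgroup.subset_closure ⟨a4, c, ⟨a1, hX a1⟩, a2, a5⟩)
  · obtain ⟨w1, w2, w3⟩ := wd _ hs
    have t := w3 c rfl
    have m := tyl_mem t w2
    obtain ⟨⟨τ, f⟩, hx⟩ : ∃ x, Sum.inr x ∈ D := by
      by_contra k
      push Not at k
      refine (fb.exp c y (List.mem_map_of_mem (f := tp) hs)).2.2.2.2.2.1 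
        ((show lv D = y from w1) ▸ lv_mem ?_)
      rintro (h | x) ht
      exacts [(w2 _ ht).1, (k x ht).elim]
    obtain rfl : τ = some c := t.2.2 _ hx
    obtain ⟨β, β', rfl⟩ := List.append_of_mem hx
    have t1 := t.1
    simp only [cV_append, cV_inr] at t1
    have nv : ∀ L : List (Lt Γ a), cV L = 0 → NoV L := fun L e x hx => by
      simpa using List.countP_eq_zero.1 e _ hx
    exact ⟨β, f, β', rfl, nv _ (by omega), nv _ (by omega), lv_mem fun s h => m s (by simp [h]),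
      lv_mem fun s h => m s (by simp [h])⟩

end Pool.Agent.P.MP_dba3d2_lc
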