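import Pool.Agent.P.MP_dba3d2_lc.F.IfaceS
import Pool.Agent.P.MP_dba3d2_lc.B.Iface
import Pool.Agent.P.MP_dba3d2_lc.C.Iface
import Pool.Agent.P.MP_dba3d2_lc.F.Iface
import Pool.Agent.P.MP_dba3d2_lc.B.Axis2

/-! Step S2_LV of the stability project. -/

namespace Pool.Agent.P.MP_dba3d2_lc

open Filter
open SW

namespace S2lv

variable {Γ : HG} {a : Amb} {H X W : Subgroup (MM Γ a)} {μ : a.K}

theorem exp_le : expW H W ≤ W := (Subgroup.closure_le _).2 fun _ h => h.1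

theorem sep (hμ : Big μ) (h : H ≤ X) : Sep H (X ⊓ tiny Γ μ) := fun g hg hn _ hw =>
  ((mem_tiny hμ.pos.le).1 hw.2).ls_right ((ll_or_ls hμ.pos (ln g)).resolve_left
    fun k => hn ⟨h hg, (mem_tiny hμ.pos.le).2 k⟩) (ln_nonneg g)

theorem sep' (hμ : Big μ) : Sep X (tiny Γ μ) := fun g _ hn _ hw =>
  ((mem_tiny hμ.pos.le).1 hw).ls_right ((ll_or_ls hμ.pos (ln g)).resolve_left
    fun k => hn ((mem_tiny hμ.pos.le).2 k)) (ln_nonneg g)

theorem hat_eq (o : TwoOut H W) (e : H ⊔ W = X) : hatH H X = hatH H W := by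
  have hW : W ≤ X := e ▸ le_sup_right
  have hH : H ≤ X := e ▸ le_sup_left
  refine le_antisymm (sup_le le_sup_left ((Subgroup.closure_le _).2 ?_))
    (sup_le_sup_left (Subgroup.closure_mono fun f h => h.2.elim fun c k =>
      ⟨hW h.1, c, ⟨k.1.1, hW k.1.2⟩, k.2⟩) H)
  rintro f ⟨h1, c, h2, h3, h4⟩
  by_cases k : ∃ g ∈ H, g⁻¹ * c * g ∈ W
  · obtain ⟨g, hg, k⟩ := k
    have m : g⁻¹ * c * g ∈ H ⊓ W := ⟨H.mul_mem (H.mul_mem (H.inv_mem hg) h2.1) hg, k⟩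
    obtain ⟨x, hx, y, hy, -, k2, k3⟩ := o.e1 _ m (h3.conj' g) (g⁻¹ * f * g)
      (e ▸ mul_mem (mul_mem (inv_mem (hH hg)) h1) (hH hg))
      (mem_Ep_conj'.2 (by simpa [mul_assoc] using h4))
    have : f = g * (x * y) * g⁻¹ := by rw [← k3]; group
    rw [this]
    have l : H ≤ hatH H W := le_sup_left
    exact mul_mem (mul_mem (l hg) (mul_mem (l hx) (Subgroup.mem_sup_right
      (Subgroup.subset_closure ⟨hy, _, m, h3.conj' g, k2⟩)))) (inv_mem (l hg))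
  · exact Subgroup.mem_sup_left (o.e2 c h2.1 h3 (fun g hg k' => k ⟨g, hg, k'⟩) f (e ▸ h1) h4)

end S2lv

open S2lv in
theorem p_S2_LV (hTRUNC : S_TRUNC) (hGRAFT : S_GRAFT) (hGT : S_GT) :
    S_S2_LV := by
  intro Γ a H X μ hμ hH hX e
  replace e := e.symm
  have le : H ≤ X := e ▸ le_sup_left
  have gW : GC0 (WW X μ) := hTRUNC Γ a X _ hX (std_le_tiny hμ) (sep' hμ)
  obtain ⟨o, nf⟩ := hGRAFT Γ a H _ hH gW (sep hμ le)
  have u := hat_eq o e
  have gt := fun l => hGT Γ a H _ l hH gW (sep hμ le)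
  have m1 : hatM H (WW X μ) ≤ hatH H (WW X μ) := sup_le_sup_right inf_le_left _
  have m2 : hatM H (WW X μ) ≤ WW X μ := sup_le inf_le_right exp_le
  refine ⟨hμ, hH, le, le_antisymm (sup_le (sup_le le exp_le) inf_le_left)
    (e.ge.trans (sup_le_sup_right le_sup_left _)), ?_, ?_, by rwa [e] at nf⟩
  · rw [u]
    exact fun l hl h1 h2 => gt l hl (fun s hs => ⟨(h1 s hs).1, (h1 s hs).2.1,
      fun k => (h1 s hs).2.2 (m1 k)⟩) fun s hs k => h2 s hs (m2 k)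
  · rw [u]
    intro m h1 h2
    by_contra k
    exact gt [(1, m)] (by simp) (List.forall_mem_singleton.2 ⟨one_mem _, h2, k⟩) (by simp) (by simpa using h1)

end Pool.Agent.P.MP_dba3d2_lc
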