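import Pool.Agent.P.MP_dba3d2_lc.F.IfaceS
import Pool.Agent.P.MP_dba3d2_lc.F.TbS

/-! Step S2_MACH of the stability project. -/

namespace Pool.Agent.P.MP_dba3d2_lc

open Filter
open SW

theorem p_S2_MACH (hS2_IO : S_S2_IO) (hS2_COC : S_S2_COC) (hS2_MULT : S_S2_MULT) (hS2_CW : S_S2_CW) (hS2_ENT : S_S2_ENT) :
    S_S2_MACH := by
  intro Γ a H X l k N E ⟨A, hA, hS⟩
  refine ⟨A, hA, fun n p P hp hP hG hN i e D hD => ?_⟩
  have L := E.lv n
  have h0 := L.big.pos.le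
  obtain ⟨C, c1, c2, c3⟩ := hS2_CW Γ a H X _ P L hP.toPt0
  have ent : ∀ s : NL Γ a, ∃ c, ∀ i, s ∈ N n i →
      (∃ t, CL (hatH H X) (WW X (l n)) ln (Bk P) false (lv (ex s)) t c) ∧
      OrdOn (l n) 1 (cutPts 1 p c) (lv (ex s)) ∧ (c = [] → NoPat P (ex s)) ∧
      (NoG (ex s) → c = []) := fun s => by
    by_cases h : ∃ i, s ∈ N n i
    swap
    · exact ⟨[], fun i k => absurd ⟨i, k⟩ h⟩
    obtain ⟨i, h⟩ := h
    obtain ⟨N1, N2, e1⟩ := List.append_of_mem h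
    have f0 : F0 H X (l n) (ex s) :=
      F0.sub (A := fl N1) (B := fl N2) (by simpa [e1] using (hN i).1.f0)
    suffices k : Ad (l n) (ex s) ∧ OrdB (l n) p P (ex s) by
      obtain ⟨c, t, b⟩ := hS2_ENT Γ a H X _ p P _ h0 L.le f0 k.1 k.2
      exact ⟨c, fun _ _ => ⟨⟨t, b.1⟩, b.2⟩⟩
    obtain g | ⟨e, D⟩ := s
    · refine ⟨⟨fun x k => by simp at k, by simpa using Ll.zero h0⟩, ?_⟩
      rintro s Q t c ⟨B, B', e, -, -, b1, -, b2⟩ ⟨c1, c2, k1, k2, rfl⟩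
      have g : NoG (B ++ Q ++ B') := e ▸ by simp
      have s1 : ¬ s = true := fun k => by
        obtain ⟨_, _, rfl⟩ := b1 k
        simp at g
      have s2 : ¬ t = true := fun k => by
        obtain ⟨_, _, rfl⟩ := b2 k
        simp at g
      rw [(k1.resolve_left fun ⟨_, k, _⟩ => s1 k).2, (k2.resolve_left fun ⟨_, k, _⟩ => s2 k).2]
      trivial
    · exact ⟨(hN i).1.add e D h, (hN i).2.2.2 e D h⟩
  choose F hF using ent
  have val := fun i s (h : s ∈ N n i) => ((hN i).1.wd s h).val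
  refine (hF _ i hD).2.2.1 (hS n p C F hp c2 c3 (fun i s h k => (hF s i h).2.2.2 ?_)
    (fun i s h => val i s h ▸ (hF s i h).2.1) (fun G _ j ν hν => ?_) i _ hD)
  · obtain g | ⟨⟨τ, y⟩, D⟩ := s
    · simp
    · intro v hv
      obtain rfl : τ = none := ((hN i).1.wd _ h).gen hv
      simp at k
  obtain ⟨m, ι, m1, m2⟩ := hS2_IO _ G _ _ P j ν L.am hP.toPt0
    fun s u hu m m' k k' => hν _ (hP.stab s u hu m m' k k')
  obtain ⟨-, q1, q2⟩ := hS2_COC _ G _ _ P j ν m ι m1 m2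
  have q3 : ∀ w ∈ X, cutEv j ν (C w) * j w = ι false w := fun w h =>
    (c1 w h).elim fun t k => q2 _ _ _ _ t _ k
  refine ⟨fun w h w' h' => ?_, fun i => ?_⟩
  · rw [q3 _ (mul_mem (hA w h) (hA w' h')), q3 _ (hA w h), q3 _ (hA w' h'), q1 _ _ (hG w h w' h')]
  · rw [q3 _ ((hN i).1.f0.toFa.memX L.le),
      hS2_MULT Γ a H X _ G P j ν m ι _ h0 L.le m1 m2 (hN i).1.f0 (hN i).2.1 (hN i).2.2.1]
    refine congrArg _ (List.map_congr_left fun s h => ?_)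
    obtain ⟨t, k⟩ := (hF s i h).1
    rw [← val i s h, q2 _ _ _ _ t _ k]

end Pool.Agent.P.MP_dba3d2_lc
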