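import Pool.Agent.P.MP_dba3d2_lc.F.TbS9b

/-! Step S2_MULT of the stability project. -/

namespace Pool.Agent.P.MP_dba3d2_lc

open Filter
open SW T9

namespace S2mult

variable {Γ : HG} {a : Amb} {H X : Subgroup (MM Γ a)} {μ : a.K} {T : Type} [Group T]
  {Pa : Bool → MM Γ a → MM Γ a → Prop} {j : MM Γ a →* T} {ν : T} {n ι : Bool → MM Γ a → T}
  {A L P C R : List (Lt Γ a)} {N : List (NL Γ a)}

theorem li_append (L L' : List (Lt Γ a)) : li (L ++ L') = li L' ++ li L := by simp [li]
theorem li_gen (v : MM Γ a) (L : List (Lt Γ a)) :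
    li (Sum.inr (none, v) :: L) = li L ++ [Sum.inr (none, v⁻¹)] := by simp [li, iL]
theorem lv_li (L : List (Lt Γ a)) : lv (li L) = (lv L)⁻¹ := by
  induction L with
  | nil => simp [li, lv]
  | cons x L ih =>
    rw [← List.singleton_append, li_append, lv_append, lv_append, ih, mul_inv_rev]
    rcases x with g | x <;> simp [li, lv, iL, vL]
theorem noG_li (h : NoG L) : NoG (li L) := fun v m => by
  obtain ⟨g | x, m, e⟩ := List.mem_map.1 (List.mem_reverse.1 m)
  · cases e
  · obtain ⟨t, y⟩ := x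
    obtain rfl : t = none := congrArg Prod.fst (Sum.inr.inj e)
    exact h y m
theorem fl_ni (N : List (NL Γ a)) : fl (ni N) = li (fl N) := by
  induction N with
  | nil => rfl
  | cons s N ih =>
    rw [fl_cons, li_append, ← ih, ni, List.map_cons, List.reverse_cons, fl_append]
    rcases s with g | x <;> simp [fl, ex, iN, li, iL, ni]

/-- the mirror image of `ExtP` -/
def ExtQ (Pa : Bool → MM Γ a → MM Γ a → Prop) (N : List (NL Γ a)) : Prop :=
  ∀ N1 e P v B N2 R C, N = N1 ++ Sum.inr (e, P ++ Sum.inr (none, v) :: B) :: N2 → NoG P →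
    fl N1 = R ++ C → NoG C → (∀ m, Pa false (lv (C ++ P))⁻¹ m ↔ Pa false (lv P)⁻¹ m) ∧
      ∀ v' R', R = R' ++ [Sum.inr (none, v')] → ∀ m, Pa true (lv (C ++ P))⁻¹ m ↔ Pa false (lv P)⁻¹ m

theorem extQ (h : ExtP Pa (ni N)) : ExtQ Pa N := by
  rintro N1 e P v B N2 R C rfl hP hR hC
  have := h (ni N2) (e.1, e.2⁻¹) (li B) v⁻¹ (li P) (ni N1) (li C) (li R)
    (by simp [ni, iN, li_append, li_gen]) (noG_li hP) (by rw [fl_ni, hR, li_append]) (noG_li hC)
  rw [← li_append, lv_li, lv_li] at this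
  exact ⟨this.1, fun v' R' e' => this.2 v'⁻¹ (li R') (by rw [e', li_append, li_gen]; rfl)⟩

theorem n_eq (hn : IsN (hatH H X) Pa j ν n) {s t : Bool} {u u' : MM Γ a} (h : u ∈ hatH H X)
    (h' : u' ∈ hatH H X) (e : ∀ m, Pa s u m ↔ Pa t u' m) : n s u = n t u' := by
  by_cases k : ∃ m, Pa s u m
  · obtain ⟨m, k⟩ := k
    rw [hn.yes s u h m k, hn.yes t u' h' m ((e m).1 k)]
  · rw [hn.no s u fun m c => k ⟨m, c⟩, hn.no t u' fun m c => k ⟨m, (e m).2 c⟩]

theorem step (h0 : 0 ≤ μ) (le : H ≤ X) (hι : IsI (hatH H X) (WW X μ) j n ι) (s : Bool) {v : MM Γ a}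
    (hP : NoG P) (h : F0 H X μ (P ++ Sum.inr (none, v) :: L)) :
    ι s (lv (P ++ Sum.inr (none, v) :: L)) = ph j n s true (lv P) * j v * ι true (lv L) := by
  have g := h.gen v (by simp)
  rw [lv_append, lv_cons, ← mul_assoc]
  exact hι.cons s _ (blk_mem le (f0_left h).toFa hP) v g.1 g.2 _ (tl_of h0 le (f0_right h))

/-- the part up to a general variable splits off -/
theorem pre (h0 : 0 ≤ μ) (le : H ≤ X) (hι : IsI (hatH H X) (WW X μ) j n ι) (v : MM Γ a)
    (A : List (Lt Γ a)) : ∀ s, ∃ τ, ∀ L, F0 H X μ (A ++ Sum.inr (none, v) :: L) →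
      ι s (lv (A ++ Sum.inr (none, v) :: L)) = τ * ι true (lv L) := by
  induction A using genInd with
  | h0 P k => exact fun s => ⟨_, fun L h => step h0 le hι s k h⟩
  | h1 P w A k ih =>
    obtain ⟨τ, e⟩ := ih true
    refine fun s => ⟨ph j n s true (lv P) * j w * τ, fun L h => ?_⟩
    rw [List.append_assoc, List.cons_append] at h ⊢
    rw [step h0 le hι s k h, e L (f0_right (A := P ++ [Sum.inr (none, w)]) (by simpa using h)),
      mul_assoc _ τ]

/-- splitting inside a block -/
theorem blk (h0 : 0 ≤ μ) (le : H ≤ X) (hι : IsI (hatH H X) (WW X μ) j n ι) (s : Bool)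
    (hP : NoG P) (h : F0 H X μ (P ++ L))
    (h1 : NoG L → s = true → n false (lv (P ++ L)) = n false (lv P))
    (h2 : ∀ C v R, L = C ++ Sum.inr (none, v) :: R → NoG C →
      (s = true → n true (lv (P ++ C)) = n false (lv P)) ∧
        n s (lv (P ++ C))⁻¹ = n false (lv C)⁻¹) :
    ι s (lv (P ++ L)) = ι s (lv P) * ι false (lv L) := by
  rw [hι.nil s _ (blk_mem le (f0_left h).toFa hP)]
  by_cases k : NoG L
  · rw [hι.nil s _ (blk_mem le h.toFa (noG_append.2 ⟨hP, k⟩)),
      hι.nil false _ (blk_mem le (f0_right h).toFa k)]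
    cases s
    · simp [ph, lv_append]
    · simp only [ph, h1 k rfl]
      simp [lv_append, mul_assoc]
  · obtain ⟨C, v, R, rfl, hC⟩ := firstG k
    obtain ⟨e1, e2⟩ := h2 C v R rfl hC
    rw [step h0 le hι false hC (f0_right h), ← List.append_assoc,
      step h0 le hι s (noG_append.2 ⟨hP, hC⟩) (List.append_assoc P C _ ▸ h)]
    cases s
    · simp only [ph, e2]
      simp [lv_append, mul_assoc]
    · simp only [ph, e1 rfl, e2]
      simp [lv_append, mul_assoc]

theorem lastG (h : ¬ NoG L) : ∃ A v P, L = A ++ Sum.inr (none, v) :: P ∧ NoG P := by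
  induction L using genInd with
  | h0 L k => exact (h k).elim
  | h1 P v L _ ih =>
    by_cases k : NoG L
    · exact ⟨P, v, L, rfl, k⟩
    · obtain ⟨A, w, B, rfl, hB⟩ := ih k
      exact ⟨P ++ Sum.inr (none, v) :: A, w, B, by simp, hB⟩

end S2mult

open S2mult in
theorem p_S2_MULT (_hS2_COC : S_S2_COC) :
    S_S2_MULT := by
  intro Γ a H X μ T _ Pa j ν n ι N h0 le hn hι h hp hq
  replace hq := extQ hq
  induction N with
  | nil => simpa [ph, fl, lv] using hι.nil false 1 (one_mem _)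
  | cons s N ih =>
    rw [fl_cons] at h ⊢
    rw [List.map_cons, List.prod_cons, ← ih (f0_right h)
      (fun N1 e A v P N2 C R e' => hp (s :: N1) e A v P N2 C R (by simp [e']))
      fun N1 e P v B N2 R C e' k1 k2 k3 => by
        have := hq (s :: N1) e P v B N2 (ex s ++ R) C (by simp [e']) k1 (by simp [fl_cons, k2]) k3
        exact ⟨this.1, fun v' R' e2 => this.2 v' (ex s ++ R') (by simp [e2])⟩]
    have mem : ∀ {L}, L ⊆ ex s ++ fl N → NoG L → lv L ∈ hatH H X :=
      fun k g => blk_mem le (fa_sub h.toFa k) g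
    have left : ∀ t A P, ex s = A ++ P → NoG P → (t = true → ∃ A' v, A = A' ++ [Sum.inr (none, v)]) →
        ∀ C v R, fl N = C ++ Sum.inr (none, v) :: R → NoG C →
        n t (lv (P ++ C))⁻¹ = n false (lv C)⁻¹ := by
      intro t A P e1 g1 ht C v R e2 g2
      have m1 := mem (L := P ++ C) (fun _ m => by simp at m; rcases m with m | m <;> simp [e1, e2, m])
        (noG_append.2 ⟨g1, g2⟩)
      have m2 := mem (L := C) (fun _ m => by simp [e2, m]) g2
      obtain ⟨Nm, e, P', B, N3, rfl, rfl, -⟩ := fl_split e2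
      rw [noG_append] at g2
      have q1 := hq (s :: Nm) e P' v B N3 A (P ++ fl Nm) rfl g2.2 (by simp [fl_cons, e1])
        (noG_append.2 ⟨g1, g2.1⟩)
      have q2 := (hq (s :: Nm) e P' v B N3 (ex s) (fl Nm) rfl g2.2 (fl_cons _ _) g2.1).1
      rw [List.append_assoc] at q1
      refine n_eq hn (inv_mem m1) (inv_mem m2) fun m => Iff.trans ?_ (q2 m).symm
      cases t
      · exact q1.1 m
      · obtain ⟨A', w, e3⟩ := ht rfl
        exact q1.2 w A' e3 m
    by_cases k : NoG (ex s)
    · exact blk h0 le hι false k h (by simp) fun C v R e g =>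
        ⟨by simp, left false [] _ rfl k (by simp) C v R e g⟩
    obtain ⟨A, v, P, e1, g1⟩ := lastG k
    obtain ⟨τ, e⟩ := pre h0 le hι v A false
    have h' : F0 H X μ (A ++ Sum.inr (none, v) :: (P ++ fl N)) := by simpa [e1] using h
    have right : ∀ C R, fl N = C ++ R → NoG C → (n false (lv (P ++ C)) = n false (lv P)) ∧
        ∀ v' R', R = Sum.inr (none, v') :: R' → n true (lv (P ++ C)) = n false (lv P) := by
      intro C R e2 g2
      have m1 := mem (L := P ++ C) (fun _ m => by simp at m; rcases m with m | m <;> simp [e1, e2, m])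
        (noG_append.2 ⟨g1, g2⟩)
      have m2 := mem (L := P) (fun _ m => by simp [e1, m]) g1
      rcases s with g | ⟨x, D⟩
      · exact (k fun _ m => by simp [ex] at m).elim
      have := hp [] x A v P N C R (congrArg (fun D => Sum.inr (x, D) :: N) e1) g1 e2 g2
      exact ⟨n_eq hn m1 m2 this.1, fun v' R' e3 => n_eq hn m1 m2 (this.2 v' R' e3)⟩
    rw [e1, List.append_assoc, List.cons_append, e _ h', e P (f0_left (B := fl N) (by simpa using h')),
      mul_assoc, blk h0 le hι true g1 (f0_right (A := A ++ [Sum.inr (none, v)]) (by simpa using h'))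
        (fun g _ => (right _ [] (List.append_nil _).symm g).1) fun C w R e2 g =>
        ⟨fun _ => (right C _ e2 g).2 w R rfl, left true (A ++ [Sum.inr (none, v)]) P (by simp [e1]) g1
          (fun _ => ⟨A, v, rfl⟩) C w R e2 g⟩]

end Pool.Agent.P.MP_dba3d2_lc
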