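import Pool.Agent.P.MP_dba3d2_lc.F.IfaceS

/-! Step S2_NT of the stability project. -/

namespace Pool.Agent.P.MP_dba3d2_lc

open Filter
open SW

namespace S2_ntA

variable {G : Type} [Group G] {U W : Subgroup G}

theorem to_list {n : ℕ} {b : Bool} {y : G} (h : Rw U W n b y) (hb : b = true) :
    ∃ l : List (G × G), ∃ z ∈ U, y = (l.map fun s => s.1 * s.2).prod * z ∧
      ∀ s ∈ l, (s.1 ∈ U ∧ s.2 ∈ W ∧ s.2 ∉ U) ∧ s.1 ∉ W := by
  induction h with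
  | nil b u hu => exact ⟨[], u, hu, by simp, by simp⟩
  | cons n b u w x hu h1 hw h2 _ ih =>
    obtain ⟨l, z, hz, rfl, k⟩ := ih rfl
    exact ⟨(u, w) :: l, z, hz, by simp [mul_assoc],
      List.forall_mem_cons.2 ⟨⟨⟨hu, hw, h2⟩, h1 hb⟩, k⟩⟩

theorem tail_not (hA : Am U W) {y w : G} (hy : Tl U W y) (hw : w ∈ W) (hw' : w ∉ U) :
    w * y ∉ U := by
  obtain ⟨n, hy⟩ := hy
  obtain ⟨l, z, hz, rfl, k⟩ := to_list hy rfl
  intro e
  refine hA ((1, w) :: l) (by simp)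
    (List.forall_mem_cons.2 ⟨⟨one_mem _, hw, hw'⟩, fun s hs => (k s hs).1⟩)
    (fun s hs => (k s hs).2) ?_
  simpa [mul_assoc] using mul_mem e (inv_mem hz)

theorem two_tails (hA : Am U W) {n : ℕ} {b : Bool} {x : G} (h : Rw U W n b x) (hb : b = true) :
    ∀ y w, Tl U W y → w ∈ W → w ∉ U → x⁻¹ * w * y ∉ U := by
  induction h with
  | nil b u hu =>
    intro y w hy hw hw' e
    exact tail_not hA hy hw hw' (by simpa [mul_assoc] using mul_mem hu e)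
  | cons n b u w' x hu h1 h2 h3 _ ih =>
    rintro y w ⟨m, hy⟩ hw hw' e
    refine ih rfl (u⁻¹ * w * y) w'⁻¹ ⟨m + 1, .cons m true _ _ _ (inv_mem hu)
      (fun _ k => h1 hb (inv_mem_iff.1 k)) hw hw' hy⟩ (inv_mem h2) (fun k => h3 (inv_mem_iff.1 k)) ?_
    simpa [mul_assoc] using e

end S2_ntA

open S2_ntA

theorem p_S2_NT :
    S_S2_NT := by
  intro G _ U W hA
  have key : ∀ x y w, Tl U W x → Tl U W y → w ∈ W → w ∉ U → x⁻¹ * w * y ∉ U :=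
    fun x y w ⟨_, hx⟩ => two_tails hA hx rfl y w
  refine ⟨key, fun u hu u' hu' w hw w' hw' h1 h2 x x' hx hx' e => ?_⟩
  have e1 : x⁻¹ * w⁻¹ * (u⁻¹ * u' * w' * x') = 1 := by
    rw [mul_assoc u⁻¹, mul_assoc u⁻¹, ← e]
    group
  have k : u⁻¹ * u' ∈ W := by
    by_contra k
    obtain ⟨m, hm⟩ := hx'
    exact key x _ w⁻¹ hx ⟨m + 1, .cons m true _ _ _ (mul_mem (inv_mem hu) hu') (fun _ => k) hw' h2 hm⟩
      (inv_mem hw) (fun a => h1 (inv_mem_iff.1 a)) (e1 ▸ one_mem _)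
  refine ⟨k, by_contra fun k' => key x x' _ hx hx' (mul_mem (mul_mem (inv_mem hw) k) hw') k' ?_⟩
  have e2 : x⁻¹ * (w⁻¹ * (u⁻¹ * u') * w') * x' = 1 := by
    rw [← e1]
    group
  exact e2 ▸ one_mem _

end Pool.Agent.P.MP_dba3d2_lc
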