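import Pool.Agent.P.MP_dba3d2_lc.F.IfaceS
import Pool.Agent.P.MP_dba3d2_lc.A.Iface
import Pool.Agent.P.MP_dba3d2_lc.F.TbS5
import Pool.Agent.P.MP_dba3d2_lc.B.Axis2

/-! Step S2_OB2 of the stability project. -/

namespace Pool.Agent.P.MP_dba3d2_lc

open Filter
open SW

namespace S2_ob2
open SW.T5

variable {Γ : HG} {a : Amb} {H X : Subgroup (MM Γ a)} {μ : a.K} {D P A B L : List (Lt Γ a)}
  {d0 p m : MM Γ a}

theorem li_append : li (A ++ B) = li B ++ li A := by simp [li]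
theorem li_cons (s : Lt Γ a) : li (s :: B) = li B ++ [iL s] := by simp [li]
theorem iL_iL (s : Lt Γ a) : iL (iL s) = s := by cases s <;> simp [iL]
theorem li_li (L : List (Lt Γ a)) : li (li L) = L := by
  simp [li, List.map_reverse, Function.comp_def, iL_iL]
theorem mem_li {s : Lt Γ a} : s ∈ li L ↔ iL s ∈ L := by
  simp only [li, List.mem_reverse, List.mem_map]
  exact ⟨fun ⟨t, h, e⟩ => by rwa [← e, iL_iL], fun h => ⟨_, h, iL_iL s⟩⟩
theorem lv_li (L : List (Lt Γ a)) : lv (li L) = (lv L)⁻¹ := by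
  induction L with
  | nil => simp [li]
  | cons s L ih => rw [li_cons, lv_append, ih]; cases s <;> simp [iL]
theorem lc_li (L : List (Lt Γ a)) : lc (li L) = lc L := by
  induction L with
  | nil => simp [li]
  | cons s L ih => rw [li_cons, lc_append, ih]; cases s <;> simp [iL, add_comm]
theorem noV_li (h : NoV L) : NoV (li L) := fun _ k => h _ (mem_li.1 k)
theorem noG_li (h : NoG L) : NoG (li L) := fun _ k => h _ (mem_li.1 k)

theorem li_two {x y : Lt Γ a} (e : li D = A ++ x :: P ++ y :: B) :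
    D = li B ++ iL y :: li P ++ iL x :: li A := by
  rw [← li_li D, e]
  simp [li]

theorem f0_li (h : F0 H X μ D) : F0 H X μ (li D) where
  con g k := (inv_mem_iff (H := H)).1 (h.con _ (mem_li.1 k))
  gen v k := by simpa only [inv_mem_iff] using h.gen _ (mem_li.1 k)
  exp c f k := by simpa only [inv_mem_iff, ln_inv] using h.exp _ _ (mem_li.1 k)
  f3 A c f β c' f' B e k j := h.f3 _ _ _ _ _ _ _ (li_two e) (noV_li k) (by rw [lv_li]; exact j.inv)
  f4 A v β c f B e k := by simpa [lv_li] using h.f4' _ _ _ _ _ _ (li_two e) (noV_li k)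
  f4' A c f β v B e k := by simpa [lv_li] using h.f4 _ _ _ _ _ _ (li_two e) (noV_li k)
  f5 A v P v' B e k := by simpa [lv_li] using h.f5 _ _ _ _ _ (li_two e) (noG_li k)

theorem ad_li (h : Ad μ D) : Ad μ (li D) :=
  ⟨fun x k => by simpa using h.1 _ (mem_li.1 k), by simpa [lv_li, lc_li] using h.2⟩

theorem ln_le (h0 : 0 ≤ μ) (h : ∀ x, Sum.inr x ∈ L → Ll (ln x.2) μ) :
    Ll (ln (lv L) - lc L) μ := by
  induction L with
  | nil => simpa using Ll.zero h0
  | cons s L ih =>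
    have i := ih fun x k => h x (List.mem_cons_of_mem _ k)
    have t := ln_mul_le (vL s) (lv L)
    rcases s with g | x
    · exact Ll.mono_left (by simp only [lv_cons, lc_inl, vL_inl] at t ⊢; linarith) i
    · exact Ll.mono_left (by simp only [lv_cons, lc_inr, vL_inr] at t ⊢; linarith)
        (i.add (h x List.mem_cons_self))

theorem ad_on {β R : List (Lt Γ a)} (h : Ad μ (A ++ (β ++ R) ++ B)) :
    On μ (lv β) 1 (lv (β ++ R)) := by
  have h0 := h.2.nonneg
  have k1 := ln_le (L := A) h0 fun x k => h.1 x (by simp [k])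
  have k2 := ln_le (L := β) h0 fun x k => h.1 x (by simp [k])
  have k3 := ln_le (L := R) h0 fun x k => h.1 x (by simp [k])
  have k4 := ln_le (L := B) h0 fun x k => h.1 x (by simp [k])
  refine Ll.mono_left ?_ ((((k1.add k2).add k3).add k4).add h.2)
  have t1 := ln_mul_le (lv A * (lv β * lv R)) (lv B)
  have t2 := ln_mul_le (lv A) (lv β * lv R)
  simp only [lv_append, lc_append, ds_one_left, ds_mul_right]
  linarith

theorem first (h : ¬ NoV P) : ∃ β x R, P = β ++ Sum.inr x :: R ∧ NoV β := by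
  induction P with
  | nil => exact absurd (fun _ k => by simp at k) h
  | cons s P ih =>
    rcases s with g | x
    · obtain ⟨β, x, R, rfl, k⟩ := ih fun k => h fun x j => k x (by simpa using j)
      exact ⟨.inl g :: β, x, R, rfl, fun y j => k y (by simpa using j)⟩
    · exact ⟨[], x, P, rfl, fun _ k => by simp at k⟩

theorem core (hE : S_ELEM) (hL : S_LINE) (hC : S_S2_PC) (v : Lv H X μ) (h1 : d0 ∈ H)
    (h2 : Prim d0) (h3 : ¬ Ll (ln d0) μ) (hp : ∀ z, Ll (ds z (d0 * z)) μ → On μ p 1 z)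
    (f0 : F0 H X μ D) (ad : Ad μ D) (b : Blk D true P false)
    (pt : Pat2 H X μ d0 false (lv P) m) : On μ m 1 (lv P) ∧ On μ (m * p) m (lv P) := by
  have h0 := v.big.pos.le
  obtain ⟨k1, k2⟩ := hC Γ a H X μ d0 D P false v h1 h2 h3 f0 b
  obtain ⟨β, ⟨τ, f⟩, R, rfl, nβ⟩ := first fun k => k1 k m pt
  obtain ⟨A, B, rfl, ng, -⟩ := b
  rcases τ with _ | c
  · exact absurd (by simp) (ng f)
  obtain ⟨-, mw, e⟩ := (k2 β c f R rfl nβ m).1 pt
  have tm : Ll (ds 1 m) μ := by simpa using (mem_tiny h0).1 mw.2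
  obtain ⟨-, pc, lc', -⟩ := f0.exp c f (by simp)
  have fx := Prim.fix hE hL (h2.conj m) (pc.conj (lv β)).1 e (p := lv β) (μ := μ)
    (by rwa [inv_mul_cancel_right, ds_mul_right])
  have o1 := (hp (m⁻¹ * lv β) (by rwa [← disp_conj m, mul_inv_cancel_left])).mul m
  rw [mul_one, mul_inv_cancel_left] at o1
  have z : ∀ x : MM Γ a, Ll (ds x x) μ := FixA.ll_self h0
  exact ⟨On.of_near tm _, (((ad_on ad).congr (z _) tm (z _)).sub o1).1⟩

end S2_ob2

open S2_ob2 in
theorem p_S2_OB2 (hELEM : S_ELEM) (hLINE : S_LINE) (hS2_PC : S_S2_PC) :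
    S_S2_OB2 := by
  intro Γ a H X μ d0 p D v h1 h2 h3 hp f0 ad cg s P t c b ⟨c1, c2, e1, e2, e⟩
  subst e
  cases s <;> cases t
  · rcases e1 with ⟨m, k, -⟩ | ⟨-, rfl⟩
    · cases k
    rcases e2 with ⟨m, k, -⟩ | ⟨-, rfl⟩
    · cases k
    trivial
  · rcases e1 with ⟨m, k, -⟩ | ⟨-, rfl⟩
    · cases k
    rcases e2 with ⟨m, -, pt, rfl⟩ | ⟨-, rfl⟩
    swap
    · trivial
    have b' : Blk (li D) true (li P) false := by
      obtain ⟨A, B, rfl, ng, k1, -, -, k2⟩ := b
      obtain ⟨w, B', rfl⟩ := k2 rfl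
      obtain rfl := k1 rfl
      exact ⟨li B' ++ [.inr (none, w⁻¹)], [], by simp [li, iL], noG_li ng, by simp,
        fun _ => ⟨_, _, rfl⟩, fun _ => rfl, by simp⟩
    obtain ⟨o1, o2⟩ := core hELEM hLINE hS2_PC v h1 h2 h3 hp (f0_li f0) (ad_li ad) b'
      (by rwa [lv_li])
    have o3 := (o1.mul (lv P)).symm
    have o4 := (o2.mul (lv P)).symm
    rw [lv_li, mul_inv_cancel] at o3 o4
    rw [mul_one] at o3
    have o5 := o3.sub o4
    simpa [cutPts, OrdOn, mul_assoc] using o5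
  · rcases e2 with ⟨m, k, -⟩ | ⟨-, rfl⟩
    · cases k
    rcases e1 with ⟨m, -, pt, rfl⟩ | ⟨-, rfl⟩
    swap
    · trivial
    simpa [cutPts, OrdOn] using core hELEM hLINE hS2_PC v h1 h2 h3 hp f0 ad b pt
  · obtain ⟨A, B, rfl, -, -, k1, -, k2⟩ := b
    obtain ⟨A', w, rfl⟩ := k1 rfl
    obtain ⟨w', B', rfl⟩ := k2 rfl
    simp only [T5.cG_append, T5.cG_none] at cg
    omega

end Pool.Agent.P.MP_dba3d2_lc
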