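import Pool.Agent.P.MP_dba3d2_lc.F.IfaceS
import Pool.Agent.P.MP_dba3d2_lc.F.TbS5

/-! Step S2_OPT of the stability project. -/

namespace Pool.Agent.P.MP_dba3d2_lc

open Filter
open SW SW.T5

theorem SW.T5.lc_nonneg {Γ : HG} {a : Amb} (L : List (Lt Γ a)) : 0 ≤ lc L := by
  induction L with
  | nil => exact le_rfl
  | cons s L ih => cases s <;> simp [ih, add_nonneg, ln_nonneg]

theorem p_S2_OPT (hS2_REPL : S_S2_REPL) :
    S_S2_OPT := by
  intro Γ a H μ N h0 wd op
  have _ := hS2_REPL
  refine ⟨fun A B r x e hr k => opt1 wd op h0 (by simp [e]) hr k, fun A β B x x' v e h1 h2 k => ?_,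
    fun N1 N2 y A D B e h => ?_⟩
  · have := opt2 wd op h0 e (rep_one (var wd (x := x) (by simp [e])).1 h1 h2) rep_nil (by simpa using k)
    simp only [cG_inr, cG_nil, cV_inr, cV_nil] at this
    omega
  · subst e
    obtain ⟨w1, w2, -⟩ := wd (.inr ((none, y), A ++ D ++ B)) (by simp)
    have := op (N1 ++ .inr ((none, y), A ++ [.inr (none, lv D)] ++ B) :: N2) (by simp) (by simp)
      (fun s hs => ?_) (Ll.of_nonpos (by simpa using lc_nonneg D) h0)
    · simp only [fl_append, fl_inr, cG_append, cG_none, cG_nil] at this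
      omega
    simp only [List.mem_append, List.mem_cons] at hs
    rcases hs with hs | rfl | hs
    · exact wd s (by simp [hs])
    · refine ⟨by simpa using w1, fun t ht => ?_, fun c k => by cases k⟩
      simp only [List.mem_append, List.mem_singleton] at ht
      rcases ht with (ht | rfl) | ht
      · exact w2 t (by simp [ht])
      · exact ⟨fun c k => (by cases k), hasT_none _, h⟩
      · exact w2 t (by simp [ht])
    · exact wd s (by simp [hs])

end Pool.Agent.P.MP_dba3d2_lc
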