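import Pool.Agent.P.MP_dba3d2_lc.F.IfaceS
import Pool.Agent.P.MP_dba3d2_lc.F.TbShr
import Pool.Agent.P.MP_dba3d2_lc.B.Axis2

/-! Step S2_ORD of the stability project. -/

namespace Pool.Agent.P.MP_dba3d2_lc

open Filter
open SW

theorem S2_ord.le {Γ : HG} {a : Amb} {U W : Subgroup (MM Γ a)}
    {B : Bool → Bool → MM Γ a → List (MM Γ a × Bool) → Prop} {s : Bool} {x : MM Γ a} {t : a.K}
    {C : List (MM Γ a × Bool)} (h : CL U W ln B s x t C) : ln x ≤ t := by
  induction h with
  | nil s u c _ _ => exact le_rfl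
  | cons s u w x t c C _ _ _ _ _ _ ih => linarith [ln_mul_le (u * w) x, ln_mul_le u w]

theorem p_S2_ORD :
    S_S2_ORD := by
  intro Γ a U W μ p q B hB s x t C h
  induction h with
  | nil s u c _ hb => exact fun _ => hB _ _ _ _ hb
  | cons s u w x t c C _ _ _ _ hb hc ih =>
    intro k
    have h1 := S2_ord.le hc
    have h2 := ln_mul_le (u * w) x
    have h3 := ln_mul_le u w
    have h4 := ds_tri 1 u (u * w * x)
    have h5 := ds_tri u (u * w) (u * w * x)
    rw [ds_mul_right, ds_mul_right] at h5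
    rw [ds_one_left, ds_one_left] at h4
    have o := (ih (Ll.mono_left (by linarith) k)).mul (u * w)
    rw [mul_one] at o
    rw [cutPts_append, cutPts_mv]
    refine OrdOn.append (o.back (x' := u) ?_) (hB _ _ _ _ hb) ?_
    · refine Ll.mono_left ?_ k
      rw [ds_mul_right, ds_mul_right]
      linarith
    · refine Ll.mono_left ?_ k
      rw [ds_one_left, ds_one_left]
      linarith

end Pool.Agent.P.MP_dba3d2_lc
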