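import Pool.Agent.P.MP_dba3d2_lc.F.IfaceS
import Pool.Agent.P.MP_dba3d2_lc.F.TbS

/-! Step S2_PART1 of the stability project. -/

namespace Pool.Agent.P.MP_dba3d2_lc

open Filter
open SW

theorem p_S2_PART1 (hS2_INV : S_S2_INV) (hS2_F0 : S_S2_F0) (hS2_PT1 : S_S2_PT1) (hS2_BAD1 : S_S2_BAD1) (hS2_EXT1 : S_S2_EXT1) (hS2_MACH : S_S2_MACH) :
    S_S2_PART1 := by
  intro Γ a H X l k N E hC hS
  obtain ⟨A, hA, hM⟩ := hS2_MACH Γ a H X l k N E hS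
  have bad : ∀ᶠ n in atTop, ∀ w ∈ A, ∀ w' ∈ A, ∀ u0, Ls (ln u0) (l n) →
      Gd (hatH H X) (WW X (l n)) (Pat1 H X (l n) u0) ![1, w, w * w'] :=
    (eventually_all_finset A).2 fun w h => (eventually_all_finset A).2 fun w' h' =>
      hS2_BAD1 Γ a H X l _ E fun i => by
        fin_cases i
        exacts [one_mem X, hA w h, mul_mem (hA w h) (hA w' h')]
  filter_upwards [bad, eventually_gt_atTop 0] with n hb hn i e D hD
  obtain ⟨n, rfl⟩ := Nat.exists_eq_succ_of_ne_zero hn.ne'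
  have n1 := fun i => hS2_F0 Γ a H X l _ E (hC i) n
  have n2 := fun i => hS2_F0 Γ a H X l _ E (hS2_INV Γ a H X l _ (hC i)) n
  have big := (E.lv (n + 1)).big
  by_contra hc
  obtain h | ⟨B, v, R, rfl, h⟩ := split_G D
  · exact hc (by rw [noG_iff.1 h]; exact zero_le_one)
  obtain h' | ⟨P, v', R, rfl, h'⟩ := split_G R
  · exact hc (by simp [noG_iff.1 h, noG_iff.1 h'])
  obtain ⟨N1, N2, e1⟩ := List.append_of_mem hD
  have l1 : Ls (ln (lv P)) (l (n + 1)) := ln_lv_ls big.pos.le fun x hx =>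
    (((n1 i).wd _ hD).2.1 x (by simp [hx])).ls
  have l2 := (n1 i).f0.f5 (fl N1 ++ B) v P v' (R ++ fl N2) (by simp [e1]) h'
  obtain ⟨p, p1, p2, p3⟩ := hS2_PT1 Γ a H X _ (lv P) big ⟨l1, (ll_or_ls big.pos _).resolve_left l2⟩
  refine (hM (n + 1) p _ p1 p2 (fun w h w' h' => hb w h w' h' _ l1) (fun i => ⟨n1 i,
    hS2_EXT1 Γ a H X _ _ _ big.pos.le l1 (n1 i).far5,
    hS2_EXT1 Γ a H X _ _ _ big.pos.le l1 (n2 i).far5, fun _ _ _ s P t c _ => p3 s t _ c⟩)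
    i e _ hD).1 P true ⟨B ++ [.inr (none, v)], .inr (none, v') :: R, by simp, h', by simp,
      fun _ => ⟨B, v, rfl⟩, by simp, fun _ => ⟨v', R, rfl⟩⟩ 1
    ⟨rfl, one_mem _, one_mem _, by simp⟩

end Pool.Agent.P.MP_dba3d2_lc
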