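import Pool.Agent.P.MP_dba3d2_lc.F.IfaceS
import Pool.Agent.P.MP_dba3d2_lc.F.TbS
import Pool.Agent.P.MP_dba3d2_lc.B.Axis2

/-! Step S2_PART2 of the stability project. -/

namespace Pool.Agent.P.MP_dba3d2_lc

open Filter
open SW

namespace S2Part2

variable {Γ : HG} {a : Amb} {H X : Subgroup (MM Γ a)} {μ : a.K}

/-- an exponent variable after the general variable gives a pattern -/
theorem pat (hP : S_S2_PC) (L : Lv H X μ) {B P : List (Lt Γ a)} {v : MM Γ a}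
    (h0 : F0 H X μ (B ++ .inr (none, v) :: P)) (h1 : NoG P) (h2 : ¬ NoV P)
    (h3 : ∀ x ∈ P, LOk μ H x) :
    ∃ d ∈ H, Prim d ∧ Sim (ln d) μ ∧ Ll (md d) μ ∧ Pat2 H X μ d false (lv P) 1 := by
  obtain ⟨β, c, f, R, rfl, b1, -⟩ := h1.split.resolve_left h2
  obtain ⟨k1, k2, k3, -⟩ := h0.exp c f (by simp)
  have b2 : lv β ∈ H := (h0.toFa.mono fun x hx => by simp [hx]).memH b1
  have b3 := h0.f4 B v β c f R (by simp) b1
  have b4 : Ls (ln (lv β)) μ := ln_lv_ls L.big.pos.le fun x hx => (h3 x (by simp [hx])).ls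
  have d1 := mul_mem (mul_mem b2 k1) (inv_mem b2)
  have t1 := ln_mul_le (lv β * c) (lv β)⁻¹
  have t2 := ln_mul_le (lv β) c
  rw [ln_inv] at t1
  refine ⟨_, d1, k2.conj _, ⟨Ls.mono_left (by linarith) ((b4.add b4).add k3.ls),
    (ll_or_ls L.big.pos _).resolve_left b3⟩, ?_, ?_⟩
  · rw [md_conj']
    exact Ll.mono_left (md_le_ln c) k3
  · exact ((hP Γ a H X μ _ _ _ false L d1 (k2.conj _) b3 h0 ⟨B ++ [.inr (none, v)], [], by simp, h1,
      by simp, fun _ => ⟨B, v, rfl⟩, fun _ => rfl, by simp⟩).2 β c f R rfl b1 1).2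
      ⟨one_mem _, one_mem _, by simp⟩

end S2Part2

theorem p_S2_PART2 (hS2_INV : S_S2_INV) (hS2_F0 : S_S2_F0) (hS2_PC : S_S2_PC) (hS2_PT2 : S_S2_PT2) (hS2_OB2 : S_S2_OB2) (hS2_BAD2 : S_S2_BAD2) (hS2_EXT2 : S_S2_EXT2) (hS2_ADJ : S_S2_ADJ) (hS2_MACH : S_S2_MACH) :
    S_S2_PART2 := by
  intro Γ a H X l k N E hC hS hG
  obtain ⟨A, hA, hM⟩ := hS2_MACH Γ a H X l k N E hS
  have bad : ∀ᶠ n in atTop, ∀ w ∈ A, ∀ w' ∈ A, ∀ d0 ∈ H, Prim d0 → Sim (ln d0) (l n) →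
      Gd (hatH H X) (WW X (l n)) (Pat2 H X (l n) d0) ![1, w, w * w'] :=
    (eventually_all_finset A).2 fun w h => (eventually_all_finset A).2 fun w' h' =>
      hS2_BAD2 Γ a H X l _ E fun i => by
        fin_cases i
        exacts [one_mem X, hA w h, mul_mem (hA w h) (hA w' h')]
  have ni0 : ∀ N, Ch0 H X l N → ∀ᶠ n in atTop, Ni H X (l n) (N n) := fun N h => by
    filter_upwards [eventually_gt_atTop 0] with n hn
    obtain ⟨n, rfl⟩ := Nat.exists_eq_succ_of_ne_zero hn.ne'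
    exact hS2_F0 Γ a H X l _ E h n
  have adj : ∀ N, Ch0 H X l N → (∀ᶠ n in atTop, Sg (N n)) →
      ∀ᶠ n in atTop, Ni H X (l n) (N n) ∧ Adj (N n) := fun N h g => (ni0 N h).and
    (hS2_ADJ Γ a N h.succ (g.and ((ni0 N h).mono fun _ k => k.kid)))
  filter_upwards [bad, hG, eventually_all.2 fun i => adj _ (hC i) (hG.mono fun _ h => h i),
    eventually_all.2 fun i => adj _ (hS2_INV Γ a H X l _ (hC i)) (hG.mono fun _ h => (h i).ni)]
    with n hb sg n1 n2 i ⟨τ, y⟩ D hD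
  have L := E.lv n
  have f0 : ∀ i e D, Sum.inr (e, D) ∈ N n i → F0 H X (l n) D := fun i e D h => by
    obtain ⟨N1, N2, e1⟩ := List.append_of_mem h
    exact F0.sub (A := fl N1) (B := fl N2) (by simpa [e1] using (n1 i).1.f0)
  have key : ∀ d ∈ H, Prim d → Sim (ln d) (l n) → Ll (md d) (l n) →
      NoPat (Pat2 H X (l n) d) D := fun d d1 d2 d3 d4 => by
    obtain ⟨p, p1, p2, p3⟩ := hS2_PT2 Γ a H X _ d L d1 d2 d3 d4
    exact hM n p _ p1 p2 (fun w h w' h' => hb w h w' h' d d1 d2 d3) (fun i => ⟨(n1 i).1,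
      hS2_EXT2 Γ a H X _ d _ L d1 d2 d3 (n1 i).1 (n1 i).2,
      hS2_EXT2 Γ a H X _ d _ L d1 d2 d3 (n2 i).1 (n2 i).2, fun e D h =>
      hS2_OB2 Γ a H X _ d p D L d1 d2 (fun k => k.not_ls L.big.pos d3.2) p3 (f0 i e D h)
        ((n1 i).1.add e D h) (sg i e D h)⟩) i _ D hD
  have wd := (n1 i).1.wd _ hD
  rcases τ with _ | c
  swap
  · exact (wd.2.2 c rfl).1
  obtain ⟨v, hv⟩ := (n1 i).1.kid.ch y D hD
  obtain ⟨B, P, rfl⟩ := List.append_of_mem hv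
  have g := sg i _ _ hD
  rw [cG_append, cG_none] at g
  have g1 : NoG B := noG_iff.2 (by omega)
  have g2 : NoG P := noG_iff.2 (by omega)
  have v1 : NoV P := by_contra fun h => by
    obtain ⟨d, d1, d2, d3, d4, d5⟩ := S2Part2.pat hS2_PC L (f0 i _ _ hD) g2 h
      fun x hx => wd.2.1 x (by simp [hx])
    exact (key d d1 d2 d3 d4).1 P false ⟨B ++ [.inr (none, v)], [], by simp, g2, by simp,
      fun _ => ⟨B, v, rfl⟩, fun _ => rfl, by simp⟩ 1 d5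
  have v2 : NoV B := by_contra fun h => by
    have wd' := (n2 i).1.wd (iN _) (mem_ni.2 (by rw [iN_iN]; exact hD))
    obtain ⟨d, d1, d2, d3, d4, d5⟩ := S2Part2.pat hS2_PC L (B := li P) (P := li B) (v := v⁻¹)
      (by simpa using (f0 i _ _ hD).li) (noG_li.2 g1) (fun k => h (noV_li.1 k))
      fun x hx => wd'.2.1 x (by simp [hx])
    exact (key d d1 d2 d3 d4).2 false B ⟨[], .inr (none, v) :: P, by simp, g1, fun _ => rfl,
      by simp, by simp, fun _ => ⟨v, P, rfl⟩⟩ 1 (by rwa [lv_li] at d5)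
  simp [noV_iff.1 v1, noV_iff.1 v2]

end Pool.Agent.P.MP_dba3d2_lc
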