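import Pool.Agent.P.MP_dba3d2_lc.F.IfaceS
import Pool.Agent.P.MP_dba3d2_lc.A.Iface
import Pool.Agent.P.MP_dba3d2_lc.F.TbS5
import Pool.Agent.P.MP_dba3d2_lc.B.Axis2

/-! Step S2_PC of the stability project. -/

namespace Pool.Agent.P.MP_dba3d2_lc

open Filter
open SW

namespace S2_pc

open SW.T5

variable {Γ : HG} {a : Amb} {H X : Subgroup (MM Γ a)} {μ : a.K} {L L' A B : List (Lt Γ a)}
  {s : Lt Γ a}

theorem li_nil : li ([] : List (Lt Γ a)) = [] := rfl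
theorem li_cons : li (s :: L) = li L ++ [iL s] := by simp [li]
theorem li_append : li (L ++ L') = li L' ++ li L := by simp [li]
theorem iL_iL (s : Lt Γ a) : iL (iL s) = s := by rcases s with h | x <;> simp [iL]
theorem li_li (L : List (Lt Γ a)) : li (li L) = L := by
  simp [li, List.map_reverse, Function.comp_def, iL_iL]
theorem mem_li : s ∈ li L ↔ iL s ∈ L := by
  simp only [li, List.mem_reverse, List.mem_map]
  exact ⟨fun ⟨t, h, e⟩ => by rwa [← e, iL_iL], fun h => ⟨_, h, iL_iL s⟩⟩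
theorem lv_li (L : List (Lt Γ a)) : lv (li L) = (lv L)⁻¹ := by
  induction L with
  | nil => simp [li_nil]
  | cons s L ih => rcases s with h | x <;> simp [li_cons, ih, iL]
theorem noV_li (h : NoV L) : NoV (li L) := fun _ k => h _ (mem_li.1 k)
theorem noG_li (h : NoG L) : NoG (li L) := fun _ k => h _ (mem_li.1 k)

theorem fa_sub (h : Fa H X μ L) (k : ∀ s ∈ L', s ∈ L) : Fa H X μ L' :=
  ⟨fun x e => h.con x (k _ e), fun x e => h.gen x (k _ e), fun c f e => h.exp c f (k _ e)⟩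
theorem fa_li (h : Fa H X μ L) : Fa H X μ (li L) := by
  refine ⟨fun x e => ?_, fun x e => ?_, fun c f e => ?_⟩
  · simpa using h.con x⁻¹ (mem_li.1 e)
  · simpa using h.gen x⁻¹ (mem_li.1 e)
  · simpa [ln_inv] using h.exp c f⁻¹ (mem_li.1 e)
theorem f3_sub (h : F3 (A ++ L ++ B)) : F3 L := by
  rintro A' c f β c' f' B' rfl
  exact h (A ++ A') c f β c' f' (B' ++ B) (by simp)
theorem f3_li (h : F3 L) : F3 (li L) := by
  intro A c f β c' f' B e n k
  refine h (li B) c' f'⁻¹ (li β) c f⁻¹ (li A) ?_ (noV_li n) (by rw [lv_li]; exact k.inv)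
  rw [← li_li L, e]
  simp [li_append, li_cons, iL]

theorem mem_H (h : Fa H X μ L) (n : NoV L) : lv L ∈ H := lv_mem fun s hs => by
  rcases s with x | x
  exacts [h.con x hs, absurd hs (n x)]
theorem mem_U (hX : H ≤ X) (h : Fa H X μ L) (n : NoG L) : lv L ∈ hatH H X :=
  lv_mem fun s hs => by
    rcases s with x | ⟨_ | c, f⟩
    · exact Subgroup.mem_sup_left (h.con x hs)
    · exact absurd hs (n f)
    · obtain ⟨a1, a2, -, a3, a4, -⟩ := h.exp c f hs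
      exact Subgroup.mem_sup_right (Subgroup.subset_closure ⟨a3, c, ⟨a1, hX a1⟩, a2, a4⟩)
theorem U_le (hX : H ≤ X) : hatH H X ≤ X :=
  sup_le hX ((Subgroup.closure_le _).2 fun _ h => h.1)

theorem split : ∀ {L : List (Lt Γ a)}, ¬ NoV L → ∃ β x R, L = β ++ Sum.inr x :: R ∧ NoV β
  | [], h => absurd (fun _ k => by simp at k) h
  | .inr x :: L, _ => ⟨[], x, L, rfl, fun _ k => by simp at k⟩
  | .inl y :: L, h => by
    obtain ⟨β, x, R, rfl, k⟩ := split (L := L) fun n => h fun x e => n x (by simpa using e)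
    exact ⟨.inl y :: β, x, R, rfl, fun z e => k z (by simpa using e)⟩

end S2_pc

open S2_pc in
theorem p_S2_PC (hELEM : S_ELEM) (hLINE : S_LINE) (hS2_WK : S_S2_WK) (hS2_UQ : S_S2_UQ) (hS2_FIRST : S_S2_FIRST) :
    S_S2_PC := by
  have _ := And.intro hELEM hLINE
  rintro Γ a H X μ d0 D P t V h0 p0 n0 F ⟨A, B, rfl, nG, -, hA, -, hB⟩
  obtain ⟨A', v, rfl⟩ := hA rfl
  have fa : Fa H X μ P := fa_sub F.toFa fun s hs => by simp [hs]
  have f3 : F3 P := f3_sub F.f3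
  refine ⟨fun n m k => k.2.2.2 (by simpa [Cn] using Wk.hs 1 _ .refl (mem_H fa n)), ?_⟩
  intro β c f P' e n m
  obtain ⟨w1, w2, w3, w4, -, w6, w7⟩ := hS2_WK Γ a H X V.gH V.le
  obtain ⟨q1, q2⟩ := hS2_UQ Γ a H X μ V
  have hb : lv β ∈ H := mem_H (fa_sub fa fun s hs => by simp [e, hs]) n
  obtain ⟨hc, pc, -⟩ := fa.exp c f (by simp [e])
  have hu := mem_U V.le fa nG
  have k1 : ¬ Cn H X (lv β * c * (lv β)⁻¹) 1 (lv P) := by
    rw [e] at fa f3 ⊢
    exact hS2_FIRST Γ a H X μ β P' c f V.gH n (fun x k => nG x (by simp [e, k])) fa f3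
  refine ⟨fun k => ⟨k.1, k.2.1, ?_⟩, fun ⟨m1, m2, m3⟩ => ⟨m1, m2, fun ht => ?_, ?_⟩⟩
  · simpa using q2 _ hu m k.1 1 (one_mem _) k.2.1 (one_mem _) d0 h0 _
      (mul_mem (mul_mem hb hc) (inv_mem hb)) p0 (pc.conj _) n0
      (F.f4 A' v β c f (P' ++ B) (by simp [e]) n) k.2.2.2 (by simpa using k1)
  · obtain ⟨v', B', rfl⟩ := hB ht
    rintro ⟨m0, a1, a2, c0, a3, a4, a5, a6⟩
    obtain ⟨β2, ⟨_ | c2, f2⟩, P2, e2, n2⟩ := split (L := li P) fun k =>
      k (some c, f⁻¹) (mem_li.2 (by simp [e, iL]))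
    · exact noG_li nG f2 (by simp [e2])
    have fa2 := fa_li fa
    have f32 := f3_li f3
    obtain ⟨-, pc2, -⟩ := fa2.exp c2 f2 (by simp [e2])
    have k2 : ¬ Cn H X (lv β2 * c2 * (lv β2)⁻¹) 1 (lv P)⁻¹ := by
      rw [← lv_li P]
      rw [e2] at fa2 f32 ⊢
      exact hS2_FIRST Γ a H X μ β2 P2 c2 f2 V.gH n2
        (fun x k => noG_li nG x (by simp [e2, k])) fa2 f32
    have k3 : ¬ Ll (ln (lv β2 * c2 * (lv β2)⁻¹)) μ := by
      have := F.f4' (A' ++ [Sum.inr (none, v)] ++ li P2) c2 f2⁻¹ (li β2) v' B' (by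
        rw [← li_li P, e2]
        simp [li_append, li_cons, iL]) (noV_li n2)
      rwa [lv_li, inv_inv] at this
    have k4 : Ep (lv P * (lv β2 * c2 * (lv β2)⁻¹) * (lv P)⁻¹) ∉ YA H X μ (lv P) := fun k => by
      have := q1 _ _ ((pc2.conj _).conj _) k
      rw [inv_mul_cancel_right, ds_mul_right] at this
      exact k3 this
    refine k2 ((w4 (lv P) _ _ _).1 (w3 (YA H X μ (lv P)) _ _ _
      (fun y hy (r : y = _) => k4 (r ▸ hy)) ?_))
    rw [mul_one, mul_inv_cancel, ← mul_inv_cancel (lv β)]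
    refine .hs _ _ (w1 _ _ _ _ (w6 μ V m0 a1 a2 _).2 (w3 _ _ _ _ ?_ (w7 _ _ (mul_mem (inv_mem
      (U_le V.le (mul_mem hu a1))) (V.le hb)) c0 a3 c hc a5 pc (a6.symm.trans m3)))) (inv_mem hb)
    rintro _ rfl
    exact ⟨m0, a1, a2, c0, a3, a4, a5, rfl⟩
  · rw [Cn, m3]
    exact k1

end Pool.Agent.P.MP_dba3d2_lc
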