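import Pool.Agent.P.MP_dba3d2_lc.F.IfaceS

/-! Step S2_PERS of the stability project. -/

namespace Pool.Agent.P.MP_dba3d2_lc

open Filter
open SW

namespace S2_pers

variable {G : Type} [Group G] {U W W' : Subgroup G}

theorem tl_one : Tl U W 1 := ⟨0, .nil _ _ (one_mem U)⟩

theorem rw_mem {n : ℕ} {b : Bool} {x : G} (h : Rw U W n b x) : x ∈ U ⊔ W := by
  induction h with
  | nil b u hu => exact Subgroup.mem_sup_left hu
  | cons n b u w x hu _ hw _ _ ih =>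
    exact mul_mem (mul_mem (Subgroup.mem_sup_left hu) (Subgroup.mem_sup_right hw)) ih

theorem coarse (nt : ∀ x y w, Tl U W' x → Tl U W' y → w ∈ W' → w ∉ U → x⁻¹ * w * y ∉ U)
    (le : W' ≤ W) {n : ℕ} {b : Bool} {z : G} (h : Rw U W' n b z) : b = true → ∀ w1 ∈ W', w1 ∉ U →
      ∃ t z', w1 * z' ∈ W ∧ Tl U W t ∧ Tl U W' z' ∧ z = z' * t := by
  induction h with
  | nil b u hu =>
    exact fun _ w1 h1 _ => ⟨u, 1, by simpa using le h1, ⟨0, .nil _ _ hu⟩, tl_one, by simp⟩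
  | cons n b u w x hu hb hw hw' _ ih =>
    intro e w1 h1 _
    obtain ⟨t, z', a1, ⟨k, a2⟩, ⟨k', a3⟩, rfl⟩ := ih rfl w hw hw'
    by_cases c : u ∈ W
    · exact ⟨t, u * w * z', by simpa [mul_assoc] using mul_mem (le h1) (mul_mem c a1), ⟨k, a2⟩,
        ⟨_, .cons _ _ _ _ _ hu (fun _ => hb e) hw hw' a3⟩, by simp [mul_assoc]⟩
    · have a4 : w * z' ∉ U := by simpa using nt 1 z' w tl_one ⟨k', a3⟩ hw hw'
      exact ⟨u * (w * z') * t, 1, by simpa using le h1,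
        ⟨_, .cons _ _ _ _ _ hu (fun _ => c) a1 a4 a2⟩, tl_one, by simp [mul_assoc]⟩

theorem en_coarse (nt : ∀ x y w, Tl U W' x → Tl U W' y → w ∈ W' → w ∉ U → x⁻¹ * w * y ∉ U)
    (le : W' ≤ W) {x u : G} {s : Bool} (h : En U W' x s u) : En U W x s u := by
  refine ⟨h.1, h.2.1, fun e => ?_⟩
  obtain ⟨w, z, hw, hw', ⟨n, hz⟩, rfl⟩ := h.2.2 e
  obtain ⟨t, z', a1, a2, a3, rfl⟩ := coarse nt le hz rfl w hw hw'
  exact ⟨w * z', t, a1, by simpa using nt 1 z' w tl_one a3 hw hw', a2, by simp [mul_assoc]⟩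

end S2_pers

open S2_pers in
theorem p_S2_PERS (hS2_NT : S_S2_NT) (hS2_RED : S_S2_RED) :
    S_S2_PERS := by
  intro G _ U W W' hA hA' le sup
  have c1 : ∀ x u u', En U W x true u → En U W' x true u' → u⁻¹ * u' ∈ W := by
    intro x u u' h h'
    have h2 := en_coarse (hS2_NT G U W' hA').1 le h'
    obtain ⟨w, t, hw, hw', ht, e⟩ := h.2.2 rfl
    obtain ⟨w2, t2, hw2, hw2', ht2, e2⟩ := h2.2.2 rfl
    exact ((hS2_NT G U W hA).2 u h.1 u' h2.1 w hw w2 hw2 hw' hw2' t t2 ht ht2 (e ▸ e2)).1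
  refine ⟨c1, fun x s u h => ?_⟩
  have key : ∀ (x u : G) (s : Bool), En U W x s u →
      ∃ u', En U W' x s u' ∧ u⁻¹ * u' ∈ W ∧ (s = false → u' = u) := by
    intro x u s h
    cases s with
    | false => exact ⟨u, ⟨h.1, h.2.1, by simp⟩, by simp, fun _ => rfl⟩
    | true =>
      obtain ⟨w, t, hw, hw', ⟨k, ht⟩, e⟩ := h.2.2 rfl
      have hx : x ∈ U ⊔ W := e ▸ mul_mem (mul_mem (Subgroup.mem_sup_left h.1)
        (Subgroup.mem_sup_right hw)) (rw_mem ht)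
      have hn : x ∉ U := by
        have := (hS2_NT G U W hA).1 1 t w tl_one ⟨k, ht⟩ hw hw'
        rw [e, mul_assoc, U.mul_mem_cancel_left h.1]
        simpa using this
      obtain ⟨n, hr⟩ := (hS2_RED G U W').1 x (sup hx)
      cases hr with
      | nil _ _ hu => exact absurd hu hn
      | cons n _ u' w' t' hu _ h1 h2 h3 =>
        have en : En U W' (u' * w' * t') true u' :=
          ⟨hu, by simp, fun _ => ⟨w', t', h1, h2, ⟨n, h3⟩, rfl⟩⟩
        exact ⟨u', en, c1 _ _ _ h en, by simp⟩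
  choose u' h1 h2 h3 using fun i => key (x i) (u i) (s i) (h.en i)
  refine ⟨u', ⟨h1, fun i j ne si sj m => h.ne i j ne si sj ?_⟩, fun i => ⟨h2 i, h3 i⟩⟩
  simpa [mul_assoc] using mul_mem (mul_mem (h2 i) (le m)) (inv_mem (h2 j))

end Pool.Agent.P.MP_dba3d2_lc
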