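import Pool.Agent.P.MP_dba3d2_lc.F.IfaceS
import Pool.Agent.P.MP_dba3d2_lc.F.TbShr
import Pool.Agent.P.MP_dba3d2_lc.B.Axis2

/-! Step S2_PT1 of the stability project. -/

namespace Pool.Agent.P.MP_dba3d2_lc

open Filter
open SW

theorem p_S2_PT1 :
    S_S2_PT1 := by
  intro Γ a H X μ u0 hμ hu
  have h0 := ln_nonneg u0
  obtain ⟨p, p1, p2, p3, -⟩ := exists_on hμ 1 u0 (ln u0 / 3) (by positivity)
    (by rw [ds_one_left]; linarith)
  rw [ds_one_left] at p2 p3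
  have z := FixA.ll_self (Γ := Γ) hμ.pos.le
  have key : ∀ {s u m}, Pat1 H X μ u0 s u m →
      Ll (ln m) μ ∧ Ll (ds (m * u0) u) μ ∧ On μ (m * p) 1 u := fun {s u m} h => by
    have k1 := (mem_tiny hμ.pos.le).1 h.2.2.1.2
    have k2 : Ll (ds (m * u0) u) μ := by
      have := (mem_tiny hμ.pos.le).1 h.2.2.2.2
      rwa [← mul_assoc, ← mul_inv_rev] at this
    exact ⟨k1, k2, (p1.mul m).congr (z _) (by simpa using k1) k2⟩
  refine ⟨p, ⟨Ls.mono_left (by linarith) hu.1,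
    hu.2.of_le_add (hμ.ll_nat 3) hμ.pos 3 (by push_cast; linarith)⟩,
    ⟨⟨fun s u m h => ⟨h.2.1, h.2.2.1⟩, fun s u _ m h m0 b1 b2 => ⟨h.1, mul_mem b1 h.2.1,
      mul_mem b2 h.2.2.1, by simpa [mul_assoc] using h.2.2.2⟩, fun u _ m h m0 _ b2 =>
      ⟨rfl, h.2.1, h.2.2.1, by simpa [mul_assoc] using mul_mem h.2.2.2 b2⟩,
      fun m h => by simpa using h.1⟩, fun s u _ m m' h h' => ?_⟩, ?_⟩
  · obtain ⟨k1, k2, -⟩ := key h
    obtain ⟨k3, k4, -⟩ := key h'
    refine Stab.sub hμ (p := 1) (q := u0) ⟨?_, ?_⟩ (on_left hμ.pos.le _ _) p1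
    · rw [ds_one_mul]
      exact Ll.mono_left (by simpa using ln_mul_le m⁻¹ m') (k1.add k3)
    · rw [← ds_mul_left m, ← mul_assoc, mul_inv_cancel_left]
      exact Ll.mono_left (ds_tri _ u _) (k2.add (FixA.ll_comm k4))
  · have b1 : ∀ {s u m}, Pat1 H X μ u0 s u m → On μ (m * 1) 1 u ∧ On μ (m * p) (m * 1) u :=
      fun h => ⟨.of_near (by simpa using (key h).1) _,
        (key h).2.2.congr (z _) (by simpa using (key h).1) (z _)⟩
    have b2 : ∀ {s u m}, Pat1 H X μ u0 s u⁻¹ m →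
        On μ (u * m * p) 1 u ∧ On μ (u * m * 1) (u * m * p) u := fun {s u m} h =>
      ⟨by simpa [mul_assoc] using ((key h).2.2.mul u).symm,
        (On.of_near (by rw [mul_one, ds_mul_right]; exact (key h).1) _).symm⟩
    rintro s t u c ⟨c1, c2, ⟨m, -, k, rfl⟩ | ⟨-, rfl⟩, ⟨m', -, k', rfl⟩ | ⟨-, rfl⟩, rfl⟩
    · refine ⟨(b1 k).1, (b1 k).2, ((key k).2.2.order hμ (b2 k').1 ?_).2, (b2 k').2, trivial⟩
      have e1 := ln_mul_le m p
      have e2 := ds_tri (m * 1) u (m * u0)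
      have e3 := ds_tri (m * 1) 1 u
      have e4 := ds_tri 1 (u * m' * p) u
      have e5 := ln_mul_le m' p
      have e6 : ds (u * m' * p) u = ln (m' * p) := by rw [ds_comm, mul_assoc, ds_mul_right]
      rw [ds_mul_left, ds_one_left, ds_comm u] at e2
      rw [ds_one_right, mul_one] at e3
      rw [mul_one] at e2
      refine Ll.mono_left ?_ ((((key k).1.add (key k).1).add (key k').1).add (key k).2.1)
      rw [ds_one_left (m * p)]
      linarith
    · exact ⟨(b1 k).1, (b1 k).2, trivial⟩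
    · exact ⟨(b2 k').1, (b2 k').2, trivial⟩
    · trivial

end Pool.Agent.P.MP_dba3d2_lc
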