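import Pool.Agent.P.MP_dba3d2_lc.F.IfaceS
import Pool.Agent.P.MP_dba3d2_lc.A.Iface
import Pool.Agent.P.MP_dba3d2_lc.B.Axis2

/-! Step S2_PT2 of the stability project. -/

namespace Pool.Agent.P.MP_dba3d2_lc

open Filter
open SW

theorem p_S2_PT2 (hELEM : S_ELEM) (hLINE : S_LINE) (hS2_WK : S_S2_WK) (hS2_UQ : S_S2_UQ) :
    S_S2_PT2 := by
  intro Γ a H X μ d0 hL hd0 hp hs hmd
  have hμ := hL.big
  have h0 := hμ.pos
  obtain ⟨tr, sy, mo, cj, -, mw, -⟩ := hS2_WK Γ a H X hL.gH hL.le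
  obtain ⟨u1, u2⟩ := hS2_UQ Γ a H X μ hL
  have hd : ¬ Ll (ln d0) μ := (not_ll_iff' h0).2 hs.2
  have sm : ∀ m, m ∈ WW X μ → Ll (ln m) μ := fun m hm => (mem_tiny h0.le).1 hm.2
  obtain ⟨p, -, a2, a3, a4, a5⟩ := exists_proj hμ hmd 1
  rw [ds_one_mul, ds_one_left] at a2 a3
  have far : ∀ m, m ∈ WW X μ → Ep (m * d0 * m⁻¹) ∉ YA H X μ 1 := by
    intro m hm h
    have h1 := u1 1 _ (hp.conj m) h
    rw [ds_one_mul] at h1
    refine hd (Ll.mono_left ?_ ((sm m hm).two.add h1))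
    have e : d0 = m⁻¹ * (m * d0 * m⁻¹) * m := by group
    have e1 := ln_mul_le (m⁻¹ * (m * d0 * m⁻¹)) m
    have e2 := ln_mul_le m⁻¹ (m * d0 * m⁻¹)
    rw [← e] at e1
    rw [ln_inv] at e2
    linarith
  refine ⟨p, ⟨Ls.mono_left (by linarith [ln_nonneg p]) hs.1,
    hs.2.of_le_add (FixA.ll_two hμ) h0 2 (by exact_mod_cast a3)⟩, ⟨⟨?_, ?_, ?_, ?_⟩, ?_⟩, a5⟩
  · exact fun s u m h => ⟨h.1, h.2.1⟩
  · intro s u _ m h m0 hU hW
    have e : m0 * m * d0 * (m0 * m)⁻¹ = m0 * (m * d0 * m⁻¹) * m0⁻¹ := by group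
    refine ⟨mul_mem hU h.1, mul_mem hW h.2.1, fun hs' hy => h.2.2.1 hs' ?_, fun hc => h.2.2.2 ?_⟩
    · obtain ⟨m1, b1, b2, c, b3, b4, b5, b6⟩ := hy
      refine ⟨m1, b1, b2, c, b3, b4, b5, (Ep_conj_iff m0).1 ?_⟩
      rw [← e, b6]
      congr 1
      group
    · rw [e, ← mul_inv_cancel m0] at hc
      have h1 := (mw μ hL _ (inv_mem hU) (inv_mem hW) 1).2
      rw [one_mul] at h1
      exact tr _ _ _ _ (mo _ _ _ _ (fun e he h' => far m h.2.1 (h' ▸ he)) h1) ((cj _ _ _ _).1 hc)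
  · intro u _ m h m0 hU hW
    obtain ⟨b1, b2⟩ := mw μ hL m0 hU hW u
    refine ⟨h.1, h.2.1, fun hs' => b1 ▸ h.2.2.1 hs', fun hc => h.2.2.2 ?_⟩
    exact tr _ _ _ _ hc (sy _ _ _ (mo _ _ _ _ (fun e he h' => h.2.2.1 rfl (h' ▸ he)) b2))
  · exact fun m h => h.2.2.2 Wk.refl
  · intro s u hu m m' h h'
    have e := u2 u hu m h.1 m' h'.1 h.2.1 h'.2.1 d0 hd0 d0 hd0 hp hp hd hd h.2.2.2 h'.2.2.2
    have hg := sm _ (mul_mem (inv_mem h.2.1) h'.2.1)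
    generalize hgg : m⁻¹ * m' = g at hg
    have e' : Ep d0 = Ep (g * d0 * g⁻¹) := by
      refine (Ep_conj_iff m).1 (e.trans ?_)
      congr 1
      rw [← hgg]
      group
    have f := a5 (g * p) (hp.fix hELEM hLINE (hp.conj g).1 e' (by rw [disp_conj]; exact a4))
    refine ⟨by rwa [ds_one_mul], Ll.mono_left ?_ (Ll.add f hg)⟩
    rw [ds_one_left, ds_one_left]
    linarith [ln_mul_le g p]

end Pool.Agent.P.MP_dba3d2_lc
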