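import Pool.Agent.P.MP_dba3d2_lc.F.IfaceS

/-! Step S2_RED of the stability project. -/

namespace Pool.Agent.P.MP_dba3d2_lc

open Filter
open SW

namespace S2_red

variable {G : Type} [Group G] {U W : Subgroup G}

theorem rwU {n : ℕ} {b : Bool} {x g : G} (h : Rw U W n b x) (hg : g ∈ U) :
    Rw U W n false (g * x) := by
  cases h with
  | nil _ u hu => exact .nil _ _ (mul_mem hg hu)
  | cons n _ u w x hu _ hw hw' h =>
    rw [show g * (u * w * x) = g * u * w * x by group]
    exact .cons n _ _ w x (mul_mem hg hu) (by simp) hw hw' h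

theorem rwW {n : ℕ} {x g : G} (h : Rw U W n false x) (hg : g ∈ W) :
    ∃ n' ≤ n + 1, Rw U W n' false (g * x) := by
  by_cases hU : g ∈ U
  · exact ⟨n, n.le_succ, rwU h hU⟩
  have key : ∀ {m : ℕ} {v y : G}, v ∈ W → v ∉ U → Rw U W m true y →
      Rw U W (m + 1) false (v * y) := fun {m v y} a b c => by
    simpa using Rw.cons m false 1 v y (one_mem _) (by simp) a b c
  cases h with
  | nil _ u hu => exact ⟨1, le_rfl, key hg hU (.nil _ _ hu)⟩
  | cons n _ u w x hu _ hw hw' h =>
    by_cases e : u ∈ W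
    · rw [show g * (u * w * x) = g * u * w * x by group]
      by_cases e' : g * u * w ∈ U
      · exact ⟨n, by omega, rwU h e'⟩
      · exact ⟨n + 1, by omega, key (mul_mem (mul_mem hg e) hw) e' h⟩
    · exact ⟨_, le_rfl, key hg hU (.cons n true u w x hu (fun _ => e) hw hw' h)⟩

variable {K : Type} [Field K] [LinearOrder K] [IsStrictOrderedRing K] {f : G → K}
  {B : Bool → Bool → G → List (G × Bool) → Prop}

theorem clU (hf : ∀ x y, f (x * y) ≤ f x + f y) (hB : ∀ s t u, ∃ c, B s t u c) {s : Bool}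
    {x g : G} {t : K} {C : List (G × Bool)} (h : CL U W f B s x t C) (hg : g ∈ U) :
    ∃ t' C', CL U W f B false (g * x) t' C' ∧ t' ≤ f g + t := by
  cases h with
  | nil _ u c hu _ =>
    obtain ⟨c, hc⟩ := hB false false (g * x)
    exact ⟨_, _, .nil _ _ c (mul_mem hg hu) hc, hf _ _⟩
  | cons _ u w x t c C hu _ hw hw' _ h =>
    obtain ⟨c, hc⟩ := hB false true (g * u)
    rw [show g * (u * w * x) = g * u * w * x by group]
    exact ⟨_, _, .cons _ _ w x t c C (mul_mem hg hu) (by simp) hw hw' hc h, by linarith [hf g u]⟩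

theorem clW (h1 : f 1 = 0) (hf : ∀ x y, f (x * y) ≤ f x + f y) (hB : ∀ s t u, ∃ c, B s t u c)
    {x g : G} {t : K} {C : List (G × Bool)} (h : CL U W f B false x t C) (hg : g ∈ W) :
    ∃ t' C', CL U W f B false (g * x) t' C' ∧ t' ≤ f g + t := by
  by_cases hU : g ∈ U
  · exact clU hf hB h hU
  have key : ∀ {v y : G} {r : K} {D : List (G × Bool)}, v ∈ W → v ∉ U → CL U W f B true y r D →
      ∃ C', CL U W f B false (v * y) (f v + r) C' := fun {v y r D} a b c => by
    obtain ⟨c1, k⟩ := hB false true 1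
    have := CL.cons false 1 v y r c1 D (one_mem _) (by simp) a b k c
    rw [h1, zero_add, one_mul] at this
    exact ⟨_, this⟩
  cases h with
  | nil _ u c hu _ =>
    obtain ⟨c, hc⟩ := hB true false x
    obtain ⟨C', k⟩ := key hg hU (.nil _ _ c hu hc)
    exact ⟨_, C', k, le_rfl⟩
  | cons _ u w x t c C hu _ hw hw' _ h =>
    by_cases e : u ∈ W
    · rw [show g * (u * w * x) = g * u * w * x by group]
      have i : f (g * u * w) ≤ f g + f u + f w := by linarith [hf (g * u) w, hf g u]
      by_cases e' : g * u * w ∈ U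
      · obtain ⟨t', C', k, k'⟩ := clU hf hB h e'
        exact ⟨t', C', k, by linarith⟩
      · obtain ⟨C', k⟩ := key (mul_mem (mul_mem hg e) hw) e' h
        exact ⟨_, C', k, by linarith⟩
    · obtain ⟨c, hc⟩ := hB true true u
      obtain ⟨C', k⟩ := key hg hU (.cons true u w x t c C hu (fun _ => e) hw hw' hc h)
      exact ⟨_, C', k, le_rfl⟩

end S2_red

open S2_red in
theorem p_S2_RED :
    S_S2_RED := by
  intro G _ U W
  refine ⟨fun x hx => ?_, fun n x h g hg => rwW h hg, fun K _ _ _ f B h1 hf hB L hL => ?_⟩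
  · have st : ∀ g y : G, g ∈ U ∨ g ∈ W → (∃ n, Rw U W n false y) → ∃ n, Rw U W n false (g * y) := by
      rintro g y (hg | hg) ⟨n, h⟩
      · exact ⟨n, rwU h hg⟩
      · exact (rwW h hg).imp fun _ k => k.2
    rw [Subgroup.sup_eq_closure] at hx
    induction hx using Subgroup.closure_induction_left with
    | one => exact ⟨0, .nil _ _ (one_mem _)⟩
    | mul_left g hg y _ ih => exact st g y hg ih
    | inv_mul_cancel g hg y _ ih => exact st _ y (Or.imp inv_mem inv_mem hg) ih
  · induction L with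
    | nil =>
      obtain ⟨c, hc⟩ := hB false false 1
      exact ⟨_, c, .nil _ _ c (one_mem _) hc, by simp [h1]⟩
    | cons g L ih =>
      obtain ⟨t, C, k, k'⟩ := ih fun g hg => hL g (List.mem_cons_of_mem _ hg)
      obtain ⟨t', C', m, m'⟩ : ∃ t' C', CL U W f B false (g * L.prod) t' C' ∧ t' ≤ f g + t :=
        (hL g List.mem_cons_self).elim (clU hf hB k) (clW h1 hf hB k)
      exact ⟨t', C', by rwa [List.prod_cons], by rw [List.map_cons, List.sum_cons]; linarith⟩

end Pool.Agent.P.MP_dba3d2_lc
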