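import Pool.Agent.P.MP_dba3d2_lc.F.IfaceS
import Pool.Agent.P.MP_dba3d2_lc.F.TbS5

/-! Step S2_REPL of the stability project. -/

namespace Pool.Agent.P.MP_dba3d2_lc

open Filter
open SW SW.T5

theorem p_S2_REPL :
    S_S2_REPL := by
  intro Γ a H μ N A B r x h0 wd e hr
  obtain ⟨M, e1, e2, e3, e4⟩ := repl h0 hr N A wd e
  exact ⟨M, e1, e3, e4, e2⟩

end Pool.Agent.P.MP_dba3d2_lc
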