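import Pool.Agent.P.MP_dba3d2_lc.F.TbS5

/-! Toolbox for words of letters: woven lists and the words of a shape. -/

namespace Pool.Agent.P.MP_dba3d2_lc.SW.T5

open Filter

section lists
variable {α β α' β' γ : Type}

theorem wl_map (f : α → α') (g : β → β') : ∀ (r : ℕ) (h : Fin (r + 1) → α) (z : Fin r → β),
    (wl r h z).map (Sum.map f g) = wl r (fun i => f (h i)) fun i => g (z i)
  | 0, _, _ => rfl
  | r + 1, h, z => by rw [wl, wl, List.map_cons, List.map_cons, wl_map f g r]; rfl

theorem wl_prod {G : Type} [Group G] (f : α → G) (g : β → G) :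
    ∀ (r : ℕ) (h : Fin (r + 1) → α) (z : Fin r → β),
    ((wl r h z).map (Sum.elim f g)).prod = weave r (fun i => f (h i)) fun i => g (z i)
  | 0, _, _ => by simp [wl, weave]
  | r + 1, h, z => by
    rw [wl, weave, List.map_cons, List.map_cons, List.prod_cons, List.prod_cons, wl_prod f g r,
      mul_assoc]
    rfl

theorem wl_sum {A : Type} [AddCommMonoid A] (f : α → A) (g : β → A) :
    ∀ (r : ℕ) (h : Fin (r + 1) → α) (z : Fin r → β),
    ((wl r h z).map (Sum.elim f g)).sum = ∑ i, f (h i) + ∑ i, g (z i)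
  | 0, _, _ => by simp [wl]
  | r + 1, h, z => by
    rw [wl, List.map_cons, List.map_cons, List.sum_cons, List.sum_cons, wl_sum f g r,
      Fin.sum_univ_succ fun i => f (h i), Fin.sum_univ_succ fun i => g (z i)]
    simp only [Sum.elim_inl, Sum.elim_inr, Fin.tail]
    abel

theorem inl_wl {x : α} : ∀ {r : ℕ} {h : Fin (r + 1) → α} {z : Fin r → β},
    Sum.inl x ∈ wl r h z ↔ ∃ i, x = h i
  | 0, _, _ => by simp [wl]
  | r + 1, h, z => by
    rw [wl, List.mem_cons, List.mem_cons, inl_wl, Fin.exists_fin_succ (n := r + 1)]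
    simp [Fin.tail]

theorem wl_right : ∀ (r : ℕ) (h : Fin (r + 1) → α) (z : Fin r → β),
    (wl r h z).filterMap Sum.getRight? = List.ofFn z
  | 0, _, _ => by simp [wl]
  | r + 1, h, z => by
    rw [wl, List.ofFn_succ, List.filterMap_cons, List.filterMap_cons, wl_right r]
    rfl

theorem mem_right {x : β} {w : List (α ⊕ β)} : x ∈ w.filterMap Sum.getRight? ↔ Sum.inr x ∈ w := by
  simp

theorem inr_wl {x : β} {r : ℕ} {h : Fin (r + 1) → α} {z : Fin r → β} :
    Sum.inr x ∈ wl r h z ↔ ∃ i, x = z i := by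
  rw [← mem_right, wl_right, List.mem_ofFn]
  simp only [eq_comm]

/-- a word with the same skeleton is a substitution -/
theorem extract {ι : Type} (π : β → γ) (τ : ι → γ) (d : ι → β) : ∀ (w : List (α ⊕ ι))
    (M : List (α ⊕ β)), (w.filterMap Sum.getRight?).Nodup →
    M.map (Sum.map id π) = w.map (Sum.map id τ) →
    ∃ F : ι → β, M = w.map (Sum.map id F) ∧ (∀ t, Sum.inr t ∉ w → F t = d t) ∧
      ∀ t, Sum.inr t ∈ w → π (F t) = τ t
  | [], M, _, e => ⟨d, by simpa using e, fun _ _ => rfl, by simp⟩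
  | _ :: _, [], _, e => by simp at e
  | .inl h :: w, s :: M, k, e => by
    rw [List.map_cons, List.map_cons, List.cons.injEq] at e
    obtain ⟨F, e1, e2, e3⟩ := extract π τ d w M k e.2
    obtain rfl : s = .inl h := by cases s <;> simp_all
    exact ⟨F, by simp [e1], by simpa using e2, by simpa using e3⟩
  | .inr t :: w, s :: M, k, e => by
    classical
    rw [List.map_cons, List.map_cons, List.cons.injEq] at e
    have k' : Sum.inr t ∉ w ∧ (w.filterMap Sum.getRight?).Nodup := by simpa using k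
    obtain ⟨F, e1, e2, e3⟩ := extract π τ d w M k'.2 e.2
    obtain ⟨b, rfl, hb⟩ : ∃ b, s = .inr b ∧ π b = τ t := by cases s <;> simp_all
    have ne : ∀ u, Sum.inr u ∈ w → u ≠ t := fun u hu e => k'.1 (e ▸ hu)
    refine ⟨Function.update F t b, ?_, fun u hu => ?_, fun u hu => ?_⟩
    · rw [List.map_cons, Sum.map_inr, Function.update_self, e1]
      congr 1
      refine List.map_congr_left ?_
      rintro (h | u) hu
      · rfl
      · rw [Sum.map_inr, Sum.map_inr, Function.update_of_ne (ne u hu)]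
    · rw [List.mem_cons, not_or] at hu
      rw [Function.update_of_ne (fun e => hu.1 (by rw [e])), e2 u hu.2]
    · rcases List.mem_cons.1 hu with ⟨⟨rfl⟩⟩ | hu
      · rw [Function.update_self, hb]
      · rw [Function.update_of_ne (ne u hu), e3 u hu]

open Classical in
theorem sum_split {ι A : Type} [Fintype ι] [AddCommMonoid A] (g : ι → A) {w : List (α ⊕ ι)}
    (k : (w.filterMap Sum.getRight?).Nodup) : ∑ t, g t = (w.map (Sum.elim (fun _ => 0) g)).sum +
      ∑ t with Sum.inr t ∉ w, g t := by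
  rw [← Finset.sum_filter_add_sum_filter_not Finset.univ (fun t => Sum.inr t ∈ w)]
  congr 1
  rw [show Finset.univ.filter (fun t => Sum.inr t ∈ w) = (w.filterMap Sum.getRight?).toFinset by
    ext; simp, List.sum_toFinset _ k]
  clear k
  induction w with
  | nil => rfl
  | cons s w ih => cases s <;> simp [List.filterMap_cons, ih]

end lists

variable {Γ : HG} {a : Amb} {H : Subgroup (MM Γ a)} {μ : a.K} {L : List (Lt Γ a)} {r : ℕ}
  {h : Fin (r + 1) → MM Γ a} {z : Fin r → Vr Γ a}

theorem lv_wl : lv (wl r h z) = weave r h fun i => (z i).2 := wl_prod id Prod.snd r h z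

theorem lc_wl : lc (wl r h z) = ∑ i, ln (h i) := by simpa [lc] using wl_sum ln (fun _ => 0) r h z

theorem cV_wl : ∀ {r : ℕ} {h : Fin (r + 1) → MM Γ a} {z : Fin r → Vr Γ a}, cV (wl r h z) = r
  | 0, _, _ => by simp [wl]
  | r + 1, h, z => by rw [wl, cV_inl, cV_inr, cV_wl]

theorem cG_wl : ∀ {r : ℕ} {h : Fin (r + 1) → MM Γ a} {z : Fin r → Vr Γ a},
    cG (wl r h z) = nG fun i => (z i).1
  | 0, _, _ => by simp [wl, nG]
  | r + 1, h, z => by
    rw [wl, cG_inl, cG_inr, cG_wl, ← Tk.nG_cons]
    congr 1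
    funext i
    exact Fin.cases rfl (fun _ => rfl) i

/-- a list of letters as a woven product -/
theorem to_weave (L : List (Lt Γ a)) : ∃ (r : ℕ) (h : Fin (r + 1) → MM Γ a) (z : Fin r → Vr Γ a),
    r = cV L ∧ (nG fun i => (z i).1) = cG L ∧ lv L = weave r h (fun i => (z i).2) ∧
    ∑ j, ln (h j) ≤ lc L ∧
    (∀ P : Subgroup (MM Γ a), (∀ x, .inl x ∈ L → x ∈ P) → ∀ j, h j ∈ P) ∧ ∀ j, .inr (z j) ∈ L := by
  induction L with
  | nil => exact ⟨0, fun _ => 1, Fin.elim0, rfl, by simp [nG], rfl, by simp,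
      fun P _ _ => P.one_mem, fun j => j.elim0⟩
  | cons s L ih =>
    obtain ⟨r, h, z, e1, e2, e3, e4, e5, e6⟩ := ih
    obtain x | x := s
    · refine ⟨r, Fin.cons (x * h 0) (Fin.tail h), z, by simpa using e1, by simpa using e2, ?_, ?_,
        fun P hP j => ?_, fun j => List.mem_cons_of_mem _ (e6 j)⟩
      · rw [lv_cons, e3, weave_eq, weave_eq, ← mul_assoc]
        rfl
      · rw [Fin.sum_univ_succ] at e4 ⊢
        simp only [Fin.cons_zero, Fin.cons_succ, Fin.tail, lc_inl]
        linarith [ln_mul_le x (h 0)]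
      · have k := e5 P fun x hx => hP x (List.mem_cons_of_mem _ hx)
        refine Fin.cases ?_ (fun j => k _) j
        exact mul_mem (hP x List.mem_cons_self) (k 0)
    · refine ⟨r + 1, Fin.cons 1 h, Fin.cons x z, by simpa using e1, ?_, ?_, ?_, fun P hP j => ?_,
        fun j => ?_⟩
      · rw [cG_inr, ← e2, ← Tk.nG_cons]
        congr 1
        funext i
        exact Fin.cases rfl (fun _ => rfl) i
      · rw [lv_cons, e3, weave, Fin.cons_zero, one_mul]
        rfl
      · rw [Fin.sum_univ_succ]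
        simpa using e4
      · exact Fin.cases P.one_mem (e5 P fun x hx => hP x (List.mem_cons_of_mem _ hx)) j
      · exact Fin.cases List.mem_cons_self (fun j => List.mem_cons_of_mem _ (e6 j)) j

theorem ln_lv (h0 : 0 ≤ μ) (k : ∀ s ∈ L, LOk μ H s) : Ll (ln (lv L) - lc L) μ := by
  induction L with
  | nil => simpa using Ll.zero h0
  | cons s L ih =>
    have k1 := ih fun q hq => k q (List.mem_cons_of_mem _ hq)
    have k2 := k s List.mem_cons_self
    have e := ln_mul_le (vL s) (lv L)
    cases s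
    · exact Ll.mono_left (by rw [lv_cons, lc_inl]; simp only [vL_inl] at e ⊢; linarith) k1
    · exact Ll.mono_left (by rw [lv_cons, lc_inr]; simp only [vL_inr] at e ⊢; linarith) (k1.add k2.2.2)

section subst
variable {ι : Type} (F : ι → Vr Γ a × List (Lt Γ a)) (w : List (MM Γ a ⊕ ι))
theorem nc_subst : nc (w.map (Sum.map id F)) = (w.map (Sum.elim (fun _ => 0) fun t => lc (F t).2)).sum := by
  induction w with
  | nil => rfl
  | cons s w ih => cases s <;> simp [← ih, nc]
theorem cG_subst : cG (fl (w.map (Sum.map id F))) =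
    (w.map (Sum.elim (fun _ => 0) fun t => cG (F t).2)).sum := by
  induction w with
  | nil => rfl
  | cons s w ih =>
    obtain x | t := s
    · simp [← ih]
    · rw [List.map_cons, List.map_cons, List.sum_cons, ← ih]
      exact cG_append
theorem cV_subst : cV (fl (w.map (Sum.map id F))) =
    (w.map (Sum.elim (fun _ => 0) fun t => cV (F t).2)).sum := by
  induction w with
  | nil => rfl
  | cons s w ih =>
    obtain x | t := s
    · simp [← ih]
    · rw [List.map_cons, List.map_cons, List.sum_cons, ← ih]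
      exact cV_append
end subst

variable {S : Shape Γ a} {n : ℕ} {i : Fin (S.k 0)}

theorem inr_fw {t : Fin (S.k (n + 1))} : Sum.inr t ∈ fw S (n + 1) i ↔ Sum.inr (S.par n t) ∈ fw S n i := by
  obtain ⟨⟨u, j⟩, rfl⟩ := (S.e n).surjective t
  rw [fw, List.mem_flatMap, Shape.par, Equiv.symm_apply_apply]
  refine ⟨?_, fun k => ⟨_, k, inr_wl.2 ⟨j, rfl⟩⟩⟩
  rintro ⟨_ | v, k, e⟩
  · simp at e
  · obtain ⟨j', e⟩ := inr_wl.1 e
    obtain rfl : u = v := congrArg Sigma.fst ((S.e n).injective e)
    exact k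

theorem inl_fw (k : ∀ n t j, S.h n t j ∈ H) {x : MM Γ a} : ∀ {n}, Sum.inl x ∈ fw S n i → x ∈ H
  | 0, e => by simp [fw] at e
  | n + 1, e => by
    obtain ⟨_ | v, k1, e⟩ := List.mem_flatMap.1 e
    · obtain rfl : x = _ := by simpa using e
      exact inl_fw k k1
    · obtain ⟨j, rfl⟩ := inl_wl.1 e
      exact k _ _ _

end Pool.Agent.P.MP_dba3d2_lc.SW.T5
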