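import Pool.Agent.P.MP_dba3d2_lc.F.IfaceS
import Pool.Agent.P.MP_dba3d2_lc.F.TbShr
import Pool.Agent.P.MP_dba3d2_lc.F.TbS7

/-! Step S2_TR0 of the stability project. -/

namespace Pool.Agent.P.MP_dba3d2_lc

open Filter
open SW SW.T5

theorem p_S2_TR0 :
    S_S2_TR0 := by
  intro Γ a S n
  induction n with
  | zero =>
    exact ⟨fun t => ⟨t, by simp [fw]⟩, fun t i i' h h' => by simp_all [fw], fun i => by simp [fw],
      fun G _ j z i => by simp [fw, Shape.topG]⟩
  | succ n ih =>
    obtain ⟨h1, h2, h3, h4⟩ := ih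
    refine ⟨fun t => (h1 _).imp fun i => inr_fw.2, fun t i i' h h' => h2 _ i i' (inr_fw.1 h) (inr_fw.1 h'),
      fun i => ?_, fun G _ j z i => ?_⟩
    · have e : (fw S (n + 1) i).filterMap Sum.getRight? = ((fw S n i).filterMap Sum.getRight?).flatMap
          fun t => List.ofFn fun j => S.e n ⟨t, j⟩ := by
        rw [fw]
        induction fw S n i with
        | nil => rfl
        | cons s w ih => cases s <;> simp [List.filterMap_cons, ih, wl_right]
      rw [e, List.nodup_flatMap]
      refine ⟨fun t _ => List.nodup_ofFn_ofInjective fun j j' h => by simpa using h,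
        (h3 i).imp fun {t t'} ne x a1 a2 => ?_⟩
      obtain ⟨j, rfl⟩ := List.mem_ofFn.1 a1
      obtain ⟨j', e⟩ := List.mem_ofFn.1 a2
      exact ne (congrArg Sigma.fst ((S.e n).injective e)).symm
    · rw [Shape.topG, h4, fw]
      induction fw S n i with
      | nil => rfl
      | cons s w ih => cases s <;> simp [ih, wl_prod, Shape.upG]

end Pool.Agent.P.MP_dba3d2_lc
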