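import Pool.Agent.P.MP_dba3d2_lc.F.IfaceS
import Pool.Agent.P.MP_dba3d2_lc.F.TbS7

/-! Step S2_TR1 of the stability project. -/

namespace Pool.Agent.P.MP_dba3d2_lc

open Filter
open SW SW.T5

theorem p_S2_TR1 :
    S_S2_TR1 := by
  intro Γ a H X l S ty m Q h y sy hX hy i
  have succ : ∀ n, (NS S ty y (n + 1) i).map tp = fl (NS S ty y n i) := fun n => by
    rw [NS, NS, fw]
    induction fw S n i with
    | nil => rfl
    | cons s w ih =>
      rw [List.flatMap_cons, List.map_append, List.map_append, ih]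
      cases s
      · rfl
      · rw [List.map_cons, Sum.map_inr, fl_inr, Sum.elim_inr, wl_map, tp, wl_map]
        rfl
  have wd : ∀ n, ∀ s ∈ NS S ty y n i, WD (l n) H s := fun n s hs => by
    obtain ⟨x | t, e, rfl⟩ := List.mem_map.1 hs
    · exact inl_fw (fun n t j => (sy.dec n t).mem j) e
    have d := sy.dec n t
    refine ⟨lv_wl.trans d.eq.symm, ?_, fun c e => ⟨cV_wl.trans_le (d.one c e).1, fun x hx => ?_,
      fun x hx => ?_⟩⟩
    · rintro (x | x) hx
      · obtain ⟨j, rfl⟩ := inl_wl.1 hx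
        exact ⟨d.mem j, d.bd j⟩
      · obtain ⟨j, rfl⟩ := inr_wl.1 hx
        exact ⟨d.ok j, d.has j, d.tin j⟩
    · obtain ⟨j, rfl⟩ := inl_wl.1 hx
      exact (d.one c e).2.2 j
    · obtain ⟨j, rfl⟩ := inr_wl.1 hx
      exact (d.one c e).2.1 j
  refine ⟨⟨⟨y 0 i, _, by rw [NS, fw, List.map_singleton, Sum.map_inr, sy.ty0]⟩, succ, wd, fun n => ?_,
    fun n e D hs => ?_⟩, fun n => ?_⟩
  · rintro (x | x) hx
    · exact hX (con (wd n) hx)
    · rw [← succ, NS, List.map_map] at hx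
      obtain ⟨_ | t, -, e⟩ := List.mem_map.1 hx
      · cases e
      · cases e
        exact hy _ t
  · obtain ⟨x | t, -, e⟩ := List.mem_map.1 hs
    · cases e
    cases e
    refine ⟨fun x hx => ?_, by rw [lc_wl, lv_wl, ← (sy.dec n t).eq]; exact (sy.dec n t).add⟩
    obtain ⟨j, rfl⟩ := inr_wl.1 hx
    exact (sy.dec n t).tin j
  · induction n with
    | zero => rw [← lv_tp (wd 0)]; simp [NS, fw]
    | succ n ih => rw [← lv_tp (wd _), succ, ih]

end Pool.Agent.P.MP_dba3d2_lc
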