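import Pool.Agent.P.MP_dba3d2_lc.F.IfaceS
import Pool.Agent.P.MP_dba3d2_lc.F.TbS

/-! Step S2_TR2 of the stability project. -/

namespace Pool.Agent.P.MP_dba3d2_lc

open Filter
open SW

namespace S2_tr2

theorem reindex {α β γ ι : Type} (π : β → γ) (old : ι → β) : ∀ (F : List (α ⊕ ι))
    (N : List (α ⊕ β)), (F.filterMap Sum.getRight?).Nodup →
    N.map (Sum.map id π) = (F.map (Sum.map id old)).map (Sum.map id π) →
    ∃ φ : ι → β, N = F.map (Sum.map id φ) ∧ (∀ t, Sum.inr t ∉ F → φ t = old t) ∧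
      ∀ t, π (φ t) = π (old t)
  | [], N, _, h => ⟨old, by simpa using h, fun _ _ => rfl, fun _ => rfl⟩
  | _ :: _, [], _, h => by simp at h
  | .inl g :: F, s :: N, k, h => by
    obtain ⟨e, h⟩ := List.cons.inj h
    obtain ⟨φ, a1, a2, a3⟩ := reindex π old F N k h
    rcases s with g' | b
    · obtain rfl : g' = g := Sum.inl.inj e
      exact ⟨φ, by rw [a1]; rfl, fun t ht => a2 t fun m => ht (List.mem_cons_of_mem _ m), a3⟩
    · cases e
  | .inr t :: F, s :: N, k, h => by
    classical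
    obtain ⟨e, h⟩ := List.cons.inj h
    obtain ⟨k1, k2⟩ := List.nodup_cons.1 (show (t :: F.filterMap Sum.getRight?).Nodup from k)
    obtain ⟨φ, a1, a2, a3⟩ := reindex π old F N k2 h
    rcases s with g' | b
    · cases e
    refine ⟨Function.update φ t b, ?_, fun u hu => ?_, fun u => ?_⟩
    · rw [a1, List.map_cons, Sum.map_inr, Function.update_self]
      congr 1
      refine List.map_congr_left fun s hs => ?_
      rcases s with g | u
      · rfl
      · rw [Sum.map_inr, Sum.map_inr, Function.update_of_ne]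
        rintro rfl
        exact k1 (List.mem_filterMap.2 ⟨_, hs, rfl⟩)
    · rw [Function.update_of_ne, a2 u fun m => hu (List.mem_cons_of_mem _ m)]
      rintro rfl
      exact hu List.mem_cons_self
    · rcases eq_or_ne u t with rfl | e'
      · rw [Function.update_self]
        exact Sum.inr.inj e
      · rw [Function.update_of_ne e', a3]

theorem swap_sum {α β ι M : Type} [Fintype ι] [AddCommMonoid M] (G : List (α ⊕ β) → M) (g : β → M)
    (h0 : G [] = 0) (h1 : ∀ a N, G (.inl a :: N) = G N) (h2 : ∀ b N, G (.inr b :: N) = g b + G N)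
    {F : List (α ⊕ ι)} (k : (F.filterMap Sum.getRight?).Nodup) {φ old : ι → β}
    (e : ∀ t, Sum.inr t ∉ F → φ t = old t) :
    ∑ t, g (φ t) + G (F.map (Sum.map id old)) = ∑ t, g (old t) + G (F.map (Sum.map id φ)) := by
  classical
  have a : ∀ (ψ : ι → β) (F : List (α ⊕ ι)), G (F.map (Sum.map id ψ)) =
      ((F.filterMap Sum.getRight?).map fun t => g (ψ t)).sum := fun ψ F => by
    induction F with
    | nil => exact h0
    | cons s F ih =>
      rcases s with x | t
      · exact (h1 _ _).trans ih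
      · exact (h2 _ _).trans (congrArg _ ih)
  rw [a, a, ← List.sum_toFinset _ k, ← List.sum_toFinset _ k,
    ← Finset.sum_add_sum_compl (F.filterMap Sum.getRight?).toFinset,
    ← Finset.sum_add_sum_compl (F.filterMap Sum.getRight?).toFinset fun t => g (old t),
    Finset.sum_congr rfl (s₁ := (F.filterMap Sum.getRight?).toFinsetᶜ) (g := fun t => g (old t))
      fun t ht => congrArg g (e t fun m => Finset.mem_compl.1 ht
        (List.mem_toFinset.2 (List.mem_filterMap.2 ⟨_, m, rfl⟩)))]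
  abel

theorem nG_eq {X : Type} {r : ℕ} (ty : Fin r → Option X) :
    nG ty = ∑ j, if (ty j).isNone = true then 1 else 0 := Finset.card_filter _ _

variable {Γ : HG} {a : Amb}

theorem cG_inr (x : Vr Γ a) (L : List (Lt Γ a)) :
    cG (Sum.inr x :: L) = (if x.1.isNone = true then 1 else 0) + cG L := by
  rcases x with ⟨_ | c, v⟩ <;> simp [add_comm]

theorem cG_wl : ∀ (r : ℕ) (h : Fin (r + 1) → MM Γ a) (z : Fin r → Vr Γ a),
    cG (wl r h z) = ∑ j, if (z j).1.isNone = true then 1 else 0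
  | 0, _, _ => by simp [wl]
  | r + 1, h, z => by
    rw [wl, cG_inl, cG_inr, cG_wl r, Fin.sum_univ_succ]
    rfl

theorem cV_wl : ∀ (r : ℕ) (h : Fin (r + 1) → MM Γ a) (z : Fin r → Vr Γ a), cV (wl r h z) = r
  | 0, _, _ => by simp [wl]
  | r + 1, h, z => by rw [wl, cV_inl, cV_inr, cV_wl r]

theorem unweave : ∀ D : List (Lt Γ a), ∃ (r : ℕ) (h : Fin (r + 1) → MM Γ a) (z : Fin r → Vr Γ a),
    lv D = weave r h (fun j => (z j).2) ∧ r = cV D ∧ nG (fun j => (z j).1) = cG D ∧
    ∑ j, ln (h j) ≤ lc D ∧ (∀ j, Sum.inr (z j) ∈ D) ∧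
    ∀ K : Subgroup (MM Γ a), (∀ g, Sum.inl g ∈ D → g ∈ K) → ∀ j, h j ∈ K
  | [] => ⟨0, fun _ => 1, Fin.elim0, rfl, rfl, by simp [nG], by simp, fun j => j.elim0,
      fun K _ _ => one_mem K⟩
  | .inl g :: D => by
    obtain ⟨r, h, z, a1, a2, a3, a4, a5, a6⟩ := unweave D
    refine ⟨r, Fin.cons (g * h 0) (Fin.tail h), z, ?_, by rw [cV_inl, a2], by rw [cG_inl, a3], ?_,
      fun j => List.mem_cons_of_mem _ (a5 j), fun K hK j => ?_⟩
    · rw [lv_cons, vL_inl, a1]
      cases r <;> simp [weave, mul_assoc]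
    · rw [Fin.sum_univ_succ] at a4 ⊢
      simp only [Fin.cons_zero, Fin.cons_succ, lc_inl, Fin.tail]
      linarith [ln_mul_le g (h 0)]
    · have := a6 K fun g m => hK g (List.mem_cons_of_mem _ m)
      exact Fin.cases (mul_mem (hK g List.mem_cons_self) (this 0)) (fun j => this j.succ) j
  | .inr x :: D => by
    obtain ⟨r, h, z, a1, a2, a3, a4, a5, a6⟩ := unweave D
    refine ⟨r + 1, Fin.cons 1 h, Fin.cons x z, ?_, by rw [cV_inr, a2], ?_, ?_,
      fun j => Fin.cases List.mem_cons_self (fun j => List.mem_cons_of_mem _ (a5 j)) j,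
      fun K hK j => Fin.cases (one_mem K) (a6 K fun g m => hK g (List.mem_cons_of_mem _ m)) j⟩
    · rw [lv_cons, vL_inr, a1, weave]
      simp only [Fin.cons_zero, one_mul, Fin.tail_cons]
      rfl
    · rw [cG_inr, ← a3, nG_eq, nG_eq, Fin.sum_univ_succ]
      rfl
    · rw [Fin.sum_univ_succ]
      simpa using a4

end S2_tr2

open S2_tr2 in
theorem p_S2_TR2 (hS2_TR0 : S_S2_TR0) (hS2_TR1 : S_S2_TR1) :
    S_S2_TR2 := by
  intro Γ a H l S ty m Q h y Y n i N' hsk hlv hwd hnc
  obtain ⟨b1, b2, b3, b4⟩ := hS2_TR0 Γ a S n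
  have T := hS2_TR1 Γ a H ⊤ l S ty m Q h y Y le_top fun _ _ => trivial
  have h0 := (Y.big n).pos.le
  obtain ⟨old, ho⟩ : ∃ old : Fin (S.k n) → Vr Γ a × List (Lt Γ a), ∀ t, old t = ((ty n t, y n t),
      wl (S.r n t) (S.h n t) fun j => (ty (n + 1) (S.e n ⟨t, j⟩), y (n + 1) (S.e n ⟨t, j⟩))) :=
    ⟨_, fun _ => rfl⟩
  have hN : ∀ i, NS S ty y n i = (fw S n i).map (Sum.map id old) := fun i => by
    rw [NS, funext ho]
  have om : ∀ t, ∃ i, Sum.inr (old t) ∈ NS S ty y n i := fun t => by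
    obtain ⟨i, k⟩ := b1 t
    exact ⟨i, hN i ▸ List.mem_map.2 ⟨_, k, rfl⟩⟩
  have ow : ∀ t, WD (l n) H (.inr (old t)) := fun t => let ⟨i, k⟩ := om t; (T i).1.wd n _ k
  have oa : ∀ t, Ll (lc (old t).2 - ln (y n t)) (l n) := fun t => by
    obtain ⟨i, k⟩ := om t
    have := ((T i).1.add n _ _ k).2
    rwa [(ow t).1, show (old t).1.2 = y n t by rw [ho]] at this
  have e : (fun s : NL Γ a => sk (tp s)) = Sum.map id fun x => x.1.1 := by
    funext s
    cases s <;> rfl
  rw [e, hN] at hsk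
  obtain ⟨φ, rfl, f2, f3⟩ := reindex _ old _ N' (b3 i) hsk
  have f4 : ∀ t, (φ t).1.1 = ty n t := fun t => (f3 t).trans (by rw [ho])
  have w : ∀ t, WD (l n) H (.inr (φ t)) := fun t => by
    by_cases k : Sum.inr t ∈ fw S n i
    · exact hwd _ (List.mem_map.2 ⟨_, k, rfl⟩)
    · exact f2 t k ▸ ow t
  have has : ∀ t, HasT (ty n t) (φ t).1.2 := fun t c hc => by
    have k := (w t).2.2 c ((f4 t).trans hc)
    rw [← (w t).1]
    exact lv_mem _ fun
      | .inl g, m => k.2.1 g m
      | .inr x, m => ((w t).2.1 _ m).2.1 c (k.2.2 x m)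
  have top : S.top n (fun t => (φ t).1.2) = y 0 := by
    funext i'
    have : S.top n (fun t => (φ t).1.2) i' = lv (((fw S n i').map (Sum.map id φ)).map tp) := by
      rw [← S.topG_id, b4, lv, List.map_map, List.map_map]
      exact congrArg _ (List.map_congr_left fun s _ => by cases s <;> rfl)
    rw [this, ← (T i').2 n]
    rcases eq_or_ne i' i with rfl | k
    · rw [← lv_fl hwd, hlv]
    · rw [lv_fl ((T i').1.wd n), hN]
      congr 2
      refine List.map_congr_left fun s hs => ?_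
      rcases s with g | t
      · rfl
      · exact congrArg _ (f2 t fun m => k (b2 t _ _ hs m))
  have st : St Q (Sum.elim h (S.top n fun t => (φ t).1.2)) := top ▸ Y.st
  have s1 := swap_sum nc (fun x => lc x.2) rfl nc_inl nc_inr (b3 i) f2
  have s2 := swap_sum (fun N => cG (fl N)) (fun x => cG x.2) rfl (by simp) (by simp) (b3 i) f2
  have s3 := swap_sum (fun N => cV (fl N)) (fun x => cV x.2) rfl (by simp) (by simp) (b3 i) f2
  rw [← hN] at s1 s2 s3
  have E1 : ∀ t, Ll (ln (φ t).1.2 - lc (φ t).2) (l n) := fun t => by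
    rw [← (w t).1]
    exact ln_lv_le h0 fun x m => ((w t).2.1 _ m).2.2
  have E2 := (ll_sum Finset.univ _ h0 fun t _ => oa t).add hnc
  have E3 := E2.add (ll_sum Finset.univ _ h0 fun t _ => E1 t)
  have E4 := E2.add (Y.min n _ has st)
  simp only [Finset.sum_sub_distrib, tl] at E3 E4
  have E5 : ∀ t, Ll (lc (φ t).2 - ln (φ t).1.2) (l n) := fun t => by
    refine Ll.mono_left ?_ (E4.add (ll_sum (Finset.univ.erase t) _ h0 fun t _ => E1 t))
    have := Finset.add_sum_erase _ (fun t => ln (φ t).1.2 - lc (φ t).2) (Finset.mem_univ t)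
    simp only [Finset.sum_sub_distrib] at this ⊢
    linarith
  choose r' h' z' u1 u2 u3 u4 u5 u6 using fun t => unweave (φ t).2
  have := Y.opt n _ has st (Ll.mono_left (by simp only [tl]; linarith) E3) r' h'
    (fun t j => (z' t j).2) (fun t j => (z' t j).1) fun t =>
      { mem := u6 t H fun g m => ((w t).2.1 _ m).1
        bd := fun j => (mem_ball h0).1 (u6 t _ (fun g m => (mem_ball h0).2 ((w t).2.1 _ m).2) j)
        tin := fun j => ((w t).2.1 _ (u5 t j)).2.2
        eq := (w t).1.symm.trans (u1 t)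
        add := (E5 t).mono_left (sub_le_sub_right (u4 t) _)
        ok := fun j => ((w t).2.1 _ (u5 t j)).1
        has := fun j => ((w t).2.1 _ (u5 t j)).2.1
        one := fun c hc =>
          have k := (w t).2.2 c ((f4 t).trans hc)
          ⟨(u2 t).trans_le k.1, fun j => k.2.2 _ (u5 t j), u6 t _ k.2.1⟩ }
  have c1 : nG (ty (n + 1)) = ∑ t, cG (old t).2 := by
    rw [nG_eq, ← (S.e n).sum_comp, Fintype.sum_sigma]
    exact Finset.sum_congr rfl fun t _ => by rw [ho, cG_wl]
  have c2 : S.k (n + 1) = ∑ t, cV (old t).2 := by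
    have := Fintype.card_congr (S.e n)
    simp only [Fintype.card_sigma, Fintype.card_fin] at this
    rw [← this]
    exact Finset.sum_congr rfl fun t _ => by rw [ho, cV_wl]
  simp only [u3, c1, c2, Finset.sum_congr rfl fun t _ => u2 t] at this
  omega

end Pool.Agent.P.MP_dba3d2_lc
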