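import Pool.Agent.P.MP_dba3d2_lc.F.IfaceS
import Pool.Agent.P.MP_dba3d2_lc.F.IfaceShr
import Pool.Agent.P.MP_dba3d2_lc.F.TbS7

/-! Step S2_TR3 of the stability project. -/

namespace Pool.Agent.P.MP_dba3d2_lc

open Filter
open SW SW.T5

theorem SW.T5.ordOn_pts {Γ : HG} {a : Amb} {μ : a.K} {y : MM Γ a} :
    ∀ {L : List (MM Γ a × Bool)} {x : MM Γ a},
      OrdOn μ x (cutPts 1 1 L) y → OrdOn μ x (L.map fun s => s.1 * 1) y
  | [], _, _ => trivial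
  | s :: L, x, h => by
    have h' : OrdOn μ x (s.1 * 1 :: s.1 * 1 :: cutPts 1 1 L) y := by simpa [cutPts] using h
    exact ⟨h'.1, SW.T5.ordOn_pts h'.2.2⟩

theorem p_S2_TR3 (hFS_SHR : S_FS_SHR) (hS2_TR0 : S_S2_TR0) (hS2_TR1 : S_S2_TR1) :
    S_S2_TR3 := by
  intro Γ a H X l S ty m Q h y sy hH hG hX hQ hh hy
  obtain ⟨A, a1, -, a3⟩ := hFS_SHR Γ a X S m Q h (y 0) hG hQ (fun i => hX (hh i)) (hy 0) sy.st
  refine ⟨A, a1, fun n p C D h1 h2 h3 h4 h5 h6 => ?_⟩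
  obtain ⟨t1, -, -, t4⟩ := hS2_TR0 Γ a S n
  have tr := hS2_TR1 Γ a H X l S ty m Q h y sy hX hy
  have mem : ∀ t, ∃ i, Sum.inr ((ty n t, y n t), wl (S.r n t) (S.h n t) fun j =>
      (ty (n + 1) (S.e n ⟨t, j⟩), y (n + 1) (S.e n ⟨t, j⟩))) ∈ NS S ty y n i := fun t =>
    (t1 t).imp fun i e => List.mem_map.2 ⟨_, e, rfl⟩
  have k := a3 n (l n) 1 p (ty n) (y n) C (fun t => D (.inr ((ty n t, y n t), wl (S.r n t) (S.h n t)
      fun j => (ty (n + 1) (S.e n ⟨t, j⟩), y (n + 1) (S.e n ⟨t, j⟩))))) (sy.big n)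
    (by rwa [ds_one_left]) (fun t c e => ?_) (sy.min n) (fun t e => ?_) (fun w _ e => h2 w ?_)
    (fun w hw e => (h3 w (a1 w hw) e).imp_right ordOn_pts)
    (fun t => (mem t).elim fun i e => h5 i _ e) fun G _ j ν cm => ⟨fun w hw w' hw' _ => ?_, fun i => ?_⟩
  · intro i s hs
    obtain ⟨x | t, -, rfl⟩ := List.mem_map.1 hs
    exacts [h4 i _ hs rfl, k t]
  · obtain ⟨i, hs⟩ := mem t
    obtain ⟨w1, w2, w3⟩ := (tr i).1.wd n _ hs
    exact (show lv _ = y n t from w1) ▸ lv_mem (tyl_mem (w3 c e) w2)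
  · obtain ⟨i, hs⟩ := mem t
    exact h4 i _ hs (Option.isNone_eq_false_iff.2 (Option.isSome_iff_ne_none.2 e))
  · rcases e with ⟨i, rfl⟩ | e
    exacts [hh i, hH.base e]
  · rw [cutEv_mv, eq_mul_inv_of_mul_eq ((h6 G j ν cm).1 w hw w' hw'), map_mul]
    group
  · have := (h6 G j ν cm).2 i
    rw [(tr i).2] at this
    rw [this, t4, NS, List.map_map]
    congr 1
    refine List.map_congr_left ?_
    rintro (x | t) e
    · rw [Function.comp_apply, h4 i _ (List.mem_map.2 ⟨_, e, rfl⟩) rfl, cutEv_nil, one_mul]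
      rfl
    · rfl

end Pool.Agent.P.MP_dba3d2_lc
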