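import Pool.Agent.P.MP_dba3d2_lc.F.IfaceS

/-! Step S2_TRI of the stability project. -/

namespace Pool.Agent.P.MP_dba3d2_lc

open Filter
open SW

namespace S2_tri

variable {G : Type} [Group G] {U W : Subgroup G}

theorem lU {n : ℕ} {b : Bool} {y g : G} (h : Rw U W n b y) (hg : g ∈ U) :
    Rw U W n false (g * y) := by
  cases h with
  | nil _ _ hu => exact .nil _ _ (U.mul_mem hg hu)
  | cons n _ u w x hu _ hw hw' hx =>
    rw [← mul_assoc, ← mul_assoc]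
    exact .cons _ _ _ _ _ (U.mul_mem hg hu) (by simp) hw hw' hx

theorem rd {n : ℕ} {y : G} (h : Rw U W n false y) : ∃ (s : Bool) (u w t : G), u ∈ U ∧
    (s = false → y = u) ∧
    (s = true → w ∈ W ∧ w ∉ U ∧ y = u * w * t ∧ ∃ m < n, Rw U W m true t) := by
  cases h with
  | nil _ _ hu => exact ⟨false, y, 1, 1, hu, fun _ => rfl, by simp⟩
  | cons n _ u w x hu _ hw hw' hx =>
    exact ⟨true, u, w, x, hu, by simp, fun _ => ⟨hw, hw', rfl, n, n.lt_succ_self, hx⟩⟩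

theorem sm (n n' : Fin 3 → ℕ) (k k' : Fin 3) (hk : k ≠ k') (h : ∀ l, n' l ≤ n l + 1)
    (h1 : n' k < n k) (h2 : n' k' < n k') : n' 0 + n' 1 + n' 2 < n 0 + n 1 + n 2 := by
  have a0 := h 0
  have a1 := h 1
  have a2 := h 2
  fin_cases k <;> fin_cases k' <;> simp at hk h1 h2 <;> omega

theorem key (R : ∀ n x, Rw U W n false x → ∀ g ∈ W, ∃ n' ≤ n + 1, Rw U W n' false (g * x))
    (N : ℕ) : ∀ (x : Fin 3 → G) (n : Fin 3 → ℕ), (∀ i, Rw U W (n i) false (x i)) →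
    n 0 + n 1 + n 2 = N → ∃ g ∈ U ⊔ W, WC U W (fun i => g * x i) ∨
      ∃ s u, UC U W (fun i => g * x i) s u := by
  classical
  induction N using Nat.strong_induction_on with
  | _ N ih =>
  intro x n hx hN
  choose s u w t hu hf ht using fun i => rd (hx i)
  by_cases ne : ∀ i j, i ≠ j → s i = true → s j = true → (u i)⁻¹ * u j ∉ W
  · refine ⟨1, one_mem _, .inr ⟨s, u, fun i => ⟨hu i, fun e => by simpa using hf i e, fun e => ?_⟩,
      ne⟩⟩
    obtain ⟨a, b, c, m, -, d⟩ := ht i e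
    exact ⟨w i, t i, a, b, ⟨m, d⟩, by simpa using c⟩
  push Not at ne
  obtain ⟨i, j, ij, si, sj, hij⟩ := ne
  have ui := U.inv_mem (hu i)
  have st : ∀ k, ∃ (w' t' : G), (w' ∈ W ∧ Tl U W t' ∧ (u i)⁻¹ * x k = w' * t') ∧
      ((w' ∉ U ∧ ∃ m < n k, Rw U W m true t') ∨ (w' = 1 ∧ k ≠ i ∧ k ≠ j)) := by
    intro k
    have uk := U.mul_mem ui (hu k)
    by_cases c : s k = true ∧ (u i)⁻¹ * u k ∈ W
    · obtain ⟨a, b, e, m, hm, d⟩ := ht k c.1
      exact ⟨(u i)⁻¹ * u k * w k, t k, ⟨W.mul_mem c.2 a, ⟨m, d⟩, by rw [e]; group⟩,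
        .inl ⟨fun q => b ((U.mul_mem_cancel_left uk).1 q), m, hm, d⟩⟩
    · refine ⟨1, (u i)⁻¹ * x k, ⟨one_mem _, ?_, (one_mul _).symm⟩, .inr ⟨rfl, ?_, ?_⟩⟩
      · cases e : s k with
        | false => exact ⟨0, .nil _ _ (hf k e ▸ uk)⟩
        | true =>
          obtain ⟨a, b, e', m, -, d⟩ := ht k e
          refine ⟨m + 1, ?_⟩
          rw [e', ← mul_assoc, ← mul_assoc]
          exact .cons _ _ _ _ _ uk (fun _ q => c ⟨e, q⟩) a b d
      · rintro rfl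
        exact c ⟨si, by simp⟩
      · rintro rfl
        exact c ⟨sj, hij⟩
  choose w' t' h1 h2 using st
  by_cases q : ∀ k k', k ≠ k' → (w' k)⁻¹ * w' k' ∉ U
  · exact ⟨(u i)⁻¹, Subgroup.mem_sup_left ui, .inl ⟨w', t', h1, q⟩⟩
  push Not at q
  obtain ⟨k, k', kk, q⟩ := q
  rcases h2 k with ⟨a, m, hm, d⟩ | ⟨a, b, c⟩ <;> rcases h2 k' with ⟨a', m', hm', d'⟩ | ⟨a', b', c'⟩
  · have wk := W.inv_mem (h1 k).1
    have z : ∀ l, ∃ n', Rw U W n' false ((w' k)⁻¹ * (u i)⁻¹ * x l) ∧ n' ≤ n l + 1 ∧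
        (l = k ∨ l = k' → n' < n l) := by
      intro l
      by_cases e : l = k
      · subst e
        refine ⟨m, ?_, by omega, fun _ => hm⟩
        rw [mul_assoc, (h1 l).2.2, ← mul_assoc]
        exact lU d (by simp)
      by_cases e' : l = k'
      · subst e'
        refine ⟨m', ?_, by omega, fun _ => hm'⟩
        rw [mul_assoc, (h1 l).2.2, ← mul_assoc]
        exact lU d' q
      obtain ⟨n', a1, a2⟩ := R _ _ (lU (hx l) ui) _ wk
      exact ⟨n', by rwa [mul_assoc], a1, by tauto⟩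
    choose n' z1 z2 z3 using z
    obtain ⟨g, hg, r⟩ := ih _ (hN ▸ sm n n' k k' kk z2 (z3 _ (.inl rfl)) (z3 _ (.inr rfl)))
      _ n' z1 rfl
    refine ⟨g * ((w' k)⁻¹ * (u i)⁻¹), mul_mem hg (mul_mem (Subgroup.mem_sup_right wk)
      (Subgroup.mem_sup_left ui)), ?_⟩
    simpa only [mul_assoc] using r
  · exact (a (by simpa [a'] using q)).elim
  · exact (a' (by simpa [a] using q)).elim
  · omega

end S2_tri

theorem p_S2_TRI (hS2_RED : S_S2_RED) :
    S_S2_TRI := by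
  intro G _ U W x hx
  obtain ⟨h1, h2, -⟩ := hS2_RED G U W
  choose n hn using fun i => h1 _ (hx i)
  exact S2_tri.key h2 _ x n hn rfl

end Pool.Agent.P.MP_dba3d2_lc
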