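import Pool.Agent.P.MP_dba3d2_lc.F.IfaceS
import Pool.Agent.P.MP_dba3d2_lc.A.Iface
import Pool.Agent.P.MP_dba3d2_lc.B.Axis2
import Pool.Agent.P.MP_dba3d2_lc.F.TbFo

/-! Step S2_UQ of the stability project. -/

namespace Pool.Agent.P.MP_dba3d2_lc

open Filter
open SW

theorem p_S2_UQ (hELEM : S_ELEM) (hLINE : S_LINE) (hS2_WK : S_S2_WK) :
    S_S2_UQ := by
  intro Γ a H X μ L
  exact ⟨fun x d hd h => YA_fix hELEM hLINE L.big hd h,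
    fun u hu m m1 m' m3 m2 m4 d h1 d' h3 h2 h4 n1 n2 => L.uq (hS2_WK Γ a H X L.gH L.le).2.2.2.2.2.2
      hu h1 h2 h3 h4 m1 m2 m3 m4 (not_YA hELEM hLINE L.big h2 m2 n1)
      (not_YA hELEM hLINE L.big h4 m4 n2)⟩

end Pool.Agent.P.MP_dba3d2_lc
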