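import Pool.Agent.P.MP_dba3d2_lc.F.IfaceS
import Pool.Agent.P.MP_dba3d2_lc.B.Iface
import Pool.Agent.P.MP_dba3d2_lc.F.TbFo

/-! Step S2_WK of the stability project. -/

namespace Pool.Agent.P.MP_dba3d2_lc

open Filter
open SW

theorem p_S2_WK (hROOT : S_ROOT) :
    S_S2_WK := by
  intro Γ a H X hH hle
  refine ⟨fun _ _ _ _ => Wk.trans, fun _ _ _ => Wk.symm, fun _ _ _ _ e h => h.mono e,
    fun g _ _ _ => cn_mv g, fun u hu x => ?_, fun μ L m h1 h2 x => ⟨YA_right h1 h2, L.wk_YA h1 h2 x⟩,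
    fun x y h c h1 c' h2 h3 h4 e => Wk.adj hROOT hH hle h1 h3 h2 h4 h e.symm rfl⟩
  obtain ⟨B, -, b2, b3⟩ := (wk_univ (x := x) (y := x * u) (by simpa using hu)).fin
  exact ⟨B, b2, b3⟩

end Pool.Agent.P.MP_dba3d2_lc
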