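import Pool.Agent.P.MP_dba3d2_lc.F.IfaceS
import Pool.Agent.P.MP_dba3d2_lc.B.Sc

/-! Lists of letters: splitting lemmas. -/

namespace Pool.Agent.P.MP_dba3d2_lc.T9

open Filter SW

variable {Γ : HG} {a : Amb} {L L' C R D : List (Lt Γ a)} {N N' : List (NL Γ a)}

theorem fl_nil : fl ([] : List (NL Γ a)) = [] := rfl
theorem fl_cons (s : NL Γ a) (N : List (NL Γ a)) : fl (s :: N) = ex s ++ fl N := List.flatMap_cons
theorem fl_append (N N' : List (NL Γ a)) : fl (N ++ N') = fl N ++ fl N' := List.flatMap_append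
theorem lv_nil : lv ([] : List (Lt Γ a)) = 1 := rfl
theorem lv_cons (x : Lt Γ a) (L : List (Lt Γ a)) : lv (x :: L) = vL x * lv L := List.prod_cons
theorem lv_append (L L' : List (Lt Γ a)) : lv (L ++ L') = lv L * lv L' := by simp [lv]
theorem noG_append : NoG (L ++ L') ↔ NoG L ∧ NoG L' := by simp [NoG, forall_and]
theorem noV_append : NoV (L ++ L') ↔ NoV L ∧ NoV L' := by simp only [NoV, List.mem_append, not_or, forall_and]
theorem noG_of (h : NoV L) : NoG L := fun _ => h _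
theorem noV_nil : NoV ([] : List (Lt Γ a)) := fun _ => List.not_mem_nil
theorem noG_nil : NoG ([] : List (Lt Γ a)) := fun _ => List.not_mem_nil

/-- the place of a variable in an expanded word -/
theorem fl_split {x : Vr Γ a} (h : fl N = C ++ Sum.inr x :: R) :
    ∃ N1 e P B N2, N = N1 ++ Sum.inr (e, P ++ Sum.inr x :: B) :: N2 ∧ C = fl N1 ++ P ∧
      R = B ++ fl N2 := by
  induction N generalizing C with
  | nil => simp [fl] at h
  | cons s N ih =>
    rw [fl_cons, List.append_eq_append_iff] at h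
    rcases h with ⟨C', rfl, h⟩ | ⟨B, h1, h2⟩
    · obtain ⟨N1, e, P, B, N2, rfl, rfl, rfl⟩ := ih h
      exact ⟨s :: N1, e, P, B, N2, rfl, by rw [fl_cons, List.append_assoc], rfl⟩
    · cases B with
      | nil =>
        obtain ⟨N1, e, P, B, N2, rfl, k, rfl⟩ := ih (C := []) h2.symm
        exact ⟨s :: N1, e, P, B, N2, rfl, by rw [fl_cons, List.append_assoc, ← k, h1]; simp, rfl⟩
      | cons z B =>
        obtain ⟨rfl, rfl⟩ := List.cons.inj h2
        rcases s with g | ⟨e, D⟩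
        · exact absurd (show Sum.inr x ∈ ex (Sum.inl g : NL Γ a) from h1 ▸ by simp) (by simp [ex])
        · exact ⟨[], e, C, B, N, congrArg (fun D => Sum.inr (e, D) :: N) h1, rfl, rfl⟩

/-- the first letter with a property -/
theorem first_split {α : Type} (p : α → Prop) {L : List α} (h : ∃ x ∈ L, p x) :
    ∃ A x B, L = A ++ x :: B ∧ p x ∧ ∀ y ∈ A, ¬ p y := by
  classical
  induction L with
  | nil => simp at h
  | cons z L ih =>
    by_cases k : p z
    · exact ⟨[], z, L, rfl, k, by simp⟩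
    · obtain ⟨A, x, B, rfl, h1, h2⟩ := ih (by simpa [k] using h)
      exact ⟨z :: A, x, B, rfl, h1, List.forall_mem_cons.2 ⟨k, h2⟩⟩

theorem firstV (h : ¬ NoV L) : ∃ A x B, L = A ++ Sum.inr x :: B ∧ NoV A := by
  obtain ⟨A, z, B, rfl, ⟨x, rfl⟩, h2⟩ := first_split (fun z : Lt Γ a => ∃ x, z = .inr x)
    (by simpa [NoV] using h)
  exact ⟨A, x, B, rfl, fun y hy => h2 _ hy ⟨y, rfl⟩⟩

theorem firstG (h : ¬ NoG L) : ∃ A v B, L = A ++ Sum.inr (none, v) :: B ∧ NoG A := by
  obtain ⟨A, z, B, rfl, ⟨x, rfl⟩, h2⟩ := first_split (fun z : Lt Γ a => ∃ v, z = .inr (none, v))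
    (by simpa [NoG] using h)
  exact ⟨A, x, B, rfl, fun y hy => h2 _ hy ⟨y, rfl⟩⟩

theorem kid_sub (h : Kid N) (k : N' ⊆ N) : Kid N' :=
  ⟨fun y D e => h.ch y D (k e), fun c y D e => h.ce c y D (k e)⟩

theorem sg_sub (h : Sg N) (k : N' ⊆ N) : Sg N' := fun e D m => h e D (k m)

theorem noG_of_cG {v : MM Γ a} (h : cG (L ++ Sum.inr (none, v) :: L') ≤ 1) : NoG L ∧ NoG L' := by
  have k : cG L = 0 ∧ cG L' = 0 := by
    simp only [cG, List.countP_append, List.countP_cons] at h ⊢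
    rw [if_pos (show isG (Sum.inr (none, v) : Lt Γ a) = true from rfl)] at h
    omega
  exact ⟨fun w m => List.countP_eq_zero.1 k.1 _ m rfl, fun w m => List.countP_eq_zero.1 k.2 _ m rfl⟩

/-- the parent of a general variable is general -/
theorem kid_gen (h : Kid N) {e : Vr Γ a} {v : MM Γ a} (m : Sum.inr (e, D) ∈ N)
    (k : Sum.inr (none, v) ∈ D) : e.1 = none := by
  obtain ⟨_ | c, y⟩ := e
  · rfl
  · obtain ⟨β, f, β', rfl, h1, h2, -⟩ := h.ce c y D m
    simp only [List.mem_append, List.mem_cons] at k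
    rcases k with k | k | k
    exacts [(h1 _ k).elim, by simp at k, (h2 _ k).elim]

/-- every variable has a child -/
theorem kid_noV (h : Kid N) (k : NoV (fl N)) : NoV (N.map tp) := by
  rintro ⟨t, y⟩ m
  obtain ⟨g | ⟨e, D⟩, m, e'⟩ := List.mem_map.1 m
  · cases e'
  obtain rfl : e = (t, y) := Sum.inr.inj e'
  cases t with
  | none =>
    obtain ⟨v, hv⟩ := h.ch y D m
    exact k _ (List.mem_flatMap.2 ⟨_, m, hv⟩)
  | some c =>
    obtain ⟨β, f, β', rfl, -⟩ := h.ce c y D m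
    exact k (some c, f) (List.mem_flatMap.2 ⟨_, m, by simp [ex]⟩)

end Pool.Agent.P.MP_dba3d2_lc.T9
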