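import Pool.Agent.P.MP_dba3d2_lc.F.TbS9

/-! Reduced words: subwords, blocks, tails. -/

namespace Pool.Agent.P.MP_dba3d2_lc.T9

open Filter SW

variable {Γ : HG} {a : Amb} {H X : Subgroup (MM Γ a)} {μ : a.K} {L A B : List (Lt Γ a)}

theorem fa_sub (h : Fa H X μ L) (k : A ⊆ L) : Fa H X μ A :=
  ⟨fun _ m => h.con _ (k m), fun _ m => h.gen _ (k m), fun _ _ m => h.exp _ _ (k m)⟩

theorem f0_left (h : F0 H X μ (L ++ B)) : F0 H X μ L :=
  ⟨fa_sub h.toFa (List.subset_append_left _ _),
    fun A c f β c' f' B' e => h.f3 A c f β c' f' (B' ++ B) (by simp [e]),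
    fun A v β c f B' e => h.f4 A v β c f (B' ++ B) (by simp [e]),
    fun A c f β v B' e => h.f4' A c f β v (B' ++ B) (by simp [e]),
    fun A v P v' B' e => h.f5 A v P v' (B' ++ B) (by simp [e])⟩

theorem f0_right (h : F0 H X μ (A ++ L)) : F0 H X μ L :=
  ⟨fa_sub h.toFa (List.subset_append_right _ _),
    fun A' c f β c' f' B e => h.f3 (A ++ A') c f β c' f' B (by simp [e]),
    fun A' v β c f B e => h.f4 (A ++ A') v β c f B (by simp [e]),
    fun A' c f β v B e => h.f4' (A ++ A') c f β v B (by simp [e]),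
    fun A' v P v' B e => h.f5 (A ++ A') v P v' B (by simp [e])⟩

/-- blocks lie in the extended group -/
theorem blk_mem (le : H ≤ X) (h : Fa H X μ L) (k : NoG L) : lv L ∈ hatH H X := by
  refine list_prod_mem fun g hg => ?_
  obtain ⟨x | ⟨_ | c, f⟩, m, rfl⟩ := List.mem_map.1 hg
  · exact Subgroup.mem_sup_left (h.con x m)
  · exact (k f m).elim
  · obtain ⟨h1, h2, -, h3, h4, -⟩ := h.exp c f m
    exact Subgroup.mem_sup_right (Subgroup.subset_closure ⟨h3, c, ⟨h1, le h1⟩, h2, h4⟩)

/-- induction along the general variables -/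
theorem genInd {p : List (Lt Γ a) → Prop} (h0 : ∀ L, NoG L → p L)
    (h1 : ∀ P v L, NoG P → p L → p (P ++ Sum.inr (none, v) :: L)) (L : List (Lt Γ a)) : p L := by
  induction hn : L.length using Nat.strong_induction_on generalizing L with
  | _ n ih =>
    by_cases k : NoG L
    · exact h0 L k
    · obtain ⟨P, v, B, rfl, hP⟩ := firstG k
      exact h1 P v B hP (ih _ (by simp [← hn]; omega) B rfl)

/-- what follows a general variable in a reduced word is a tail -/
theorem tl_of (h0 : 0 ≤ μ) (le : H ≤ X) {v : MM Γ a} (h : F0 H X μ (Sum.inr (none, v) :: L)) :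
    Tl (hatH H X) (WW X μ) (lv L) := by
  induction L using genInd generalizing v with
  | h0 L k => exact ⟨0, .nil _ _ (blk_mem le (fa_sub h.toFa (List.subset_cons_self _ _)) k)⟩
  | h1 P w L k ih =>
    obtain ⟨n, hn⟩ := ih (f0_right (A := Sum.inr (none, v) :: P) h)
    have g := h.gen w (by simp)
    rw [lv_append, lv_cons, ← mul_assoc]
    exact ⟨n + 1, .cons _ _ _ _ _ (blk_mem le (fa_sub h.toFa fun _ m => by simp [m]) k)
      (fun _ m => h.f5 [] v P w L rfl k ((mem_tiny h0).1 m.2)) g.1 g.2 hn⟩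

end Pool.Agent.P.MP_dba3d2_lc.T9
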