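import Pool.Agent.P.MP_dba3d2_lc.F.DefsW
import Pool.Agent.P.MP_dba3d2_lc.F.TbC
import Pool.Agent.P.MP_dba3d2_lc.F.TbShr

/-! Words of the limit stage: children, neighbours, flattened words. -/

namespace Pool.Agent.P.MP_dba3d2_lc

open Filter

theorem weave_eq {G : Type} [Group G] : ∀ (r : ℕ) (h : Fin (r + 1) → G) (z : Fin r → G),
    weave r h z = h 0 * (List.ofFn fun j => z j * h j.succ).prod
  | 0, _, _ => by simp [weave]
  | r + 1, h, z => by
    rw [weave, weave_eq r, List.ofFn_succ, List.prod_cons, mul_assoc, mul_assoc]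
    rfl

variable {Γ : HG} {a : Amb} {H X : Subgroup (MM Γ a)} {l : ℕ → a.K} {S : Shape Γ a}
  {ty : (n : ℕ) → Fin (S.k n) → Option (MM Γ a)} {y : (n : ℕ) → Fin (S.k n) → MM Γ a}
  {V : (Fin (S.k 0) → MM Γ a) → Prop} {n : ℕ} {i : Fin (S.k n)} {β c : MM Γ a}

theorem Shape.upG_eq (S : Shape Γ a) {G : Type} [Group G] (j : MM Γ a →* G) (n : ℕ)
    (z : Fin (S.k (n + 1)) → G) (i : Fin (S.k n)) :
    S.upG j n z i = j (S.h n i 0) * ((S.kids n i).map fun p => z p.1 * j p.2).prod := by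
  rw [Shape.upG, weave_eq, Shape.kids, List.map_ofFn]
  rfl

theorem Shape.up_eq (S : Shape Γ a) (n : ℕ) (z : Fin (S.k (n + 1)) → MM Γ a) (i : Fin (S.k n)) :
    S.up n z i = S.h n i 0 * ((S.kids n i).map fun p => z p.1 * p.2).prod :=
  S.upG_eq (MonoidHom.id _) n z i

theorem Shape.mem_kids {p : Fin (S.k (n + 1)) × MM Γ a} :
    p ∈ S.kids n i ↔ ∃ j, p = (S.e n ⟨i, j⟩, S.h n i j.succ) := by
  simp only [Shape.kids, List.mem_ofFn, eq_comm]

theorem Shape.par_kids {p : Fin (S.k (n + 1)) × MM Γ a} (h : p ∈ S.kids n i) :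
    S.par n p.1 = i := by
  obtain ⟨j, rfl⟩ := Shape.mem_kids.1 h
  rw [Shape.par, Equiv.symm_apply_apply]

theorem Shape.kids_par (S : Shape Γ a) (n : ℕ) (t : Fin (S.k (n + 1))) :
    ∃ β, (t, β) ∈ S.kids n (S.par n t) :=
  ⟨_, Shape.mem_kids.2 ⟨((S.e n).symm t).2, Prod.ext ((S.e n).apply_symm_apply t).symm rfl⟩⟩

theorem Shape.kids_length (S : Shape Γ a) (n : ℕ) (i : Fin (S.k n)) :
    (S.kids n i).length = S.r n i := List.length_ofFn

theorem Shape.kids_nodup (S : Shape Γ a) (n : ℕ) (i : Fin (S.k n)) :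
    ((S.kids n i).map Prod.fst).Nodup := by
  rw [Shape.kids, List.map_ofFn]
  exact List.nodup_ofFn_ofInjective fun j j' h => by simpa using h

/-- the other children are different -/
theorem Shape.kids_ne {L L' : List (Fin (S.k (n + 1)) × MM Γ a)} {p q : Fin (S.k (n + 1)) × MM Γ a}
    (h : S.kids n i = L ++ p :: L') (hq : q ∈ L ∨ q ∈ L') : q.1 ≠ p.1 := by
  have e := S.kids_nodup n i
  rw [h, List.map_append, List.map_cons, List.nodup_middle, List.nodup_cons, ← List.map_append] at e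
  exact fun k => e.1 (k ▸ List.mem_map_of_mem (List.mem_append.2 hq))

/-- a change of two neighbours that keeps their product does not change the top -/
theorem Shape.Adj.top : ∀ {n : ℕ} {s t : Fin (S.k n)} {β : MM Γ a}, S.Adj n s β t → s ≠ t ∧
    ∀ z z' : Fin (S.k n) → MM Γ a, (∀ u, u ≠ s → u ≠ t → z u = z' u) →
      z s * β * z t = z' s * β * z' t → S.top n z = S.top n z'
  | 0, _, _, _, h => h.elim
  | n + 1, s, t, β, h => by
    have out : ∀ (z z' : Fin (S.k (n + 1)) → MM Γ a), (∀ u, u ≠ s → u ≠ t → z u = z' u) →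
        ∀ L : List (Fin (S.k (n + 1)) × MM Γ a), (∀ p ∈ L, p.1 ≠ s ∧ p.1 ≠ t) →
        (L.map fun p => z p.1 * p.2) = L.map fun p => z' p.1 * p.2 := fun z z' e L k =>
      List.map_congr_left fun p hp => by rw [e _ (k p hp).1 (k p hp).2]
    rcases h with ⟨i, β', L, L', h⟩ | ⟨s', β', t', β1, β2, L, L', h, h1, h2, rfl⟩
    · have h' : S.kids n i = (L ++ [(s, β)]) ++ (t, β') :: L' := by simpa using h
      have ps : S.par n s = i := Shape.par_kids (p := (s, β)) (by simp [h])
      have pt : S.par n t = i := Shape.par_kids (p := (t, β')) (by simp [h])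
      refine ⟨Shape.kids_ne (q := (s, β)) h' (by simp), fun z z' e k => ?_⟩
      refine congrArg (S.top n) (funext fun u => ?_)
      rw [S.up_eq, S.up_eq]
      by_cases hu : u = i
      · rw [hu, h]
        simp only [List.map_append, List.map_cons, List.prod_append, List.prod_cons]
        rw [out z z' e L fun p hp => ⟨Shape.kids_ne h (.inl hp), Shape.kids_ne h' (by simp [hp])⟩,
          out z z' e L' fun p hp => ⟨Shape.kids_ne h (by simp [hp]), Shape.kids_ne h' (.inr hp)⟩,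
          ← mul_assoc (z s * β), ← mul_assoc (z s * β), k, mul_assoc (z' s * β), mul_assoc (z' s * β)]
      · rw [out z z' e _ fun p hp => ⟨fun e => hu (by rw [← Shape.par_kids hp, e, ps]),
          fun e => hu (by rw [← Shape.par_kids hp, e, pt])⟩]
    · obtain ⟨ne, ih⟩ := Shape.Adj.top h
      have ps : S.par n s = s' := Shape.par_kids (p := (s, β1)) (by simp [h1])
      have pt : S.par n t = t' := Shape.par_kids (p := (t, β2)) (by simp [h2])
      refine ⟨fun e => ne (by rw [← ps, e, pt]), fun z z' e k => ih _ _ (fun u u1 u2 => ?_) ?_⟩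
      · rw [S.up_eq, S.up_eq, out z z' e _ fun p hp =>
          ⟨fun e => u1 (by rw [← Shape.par_kids hp, e, ps]),
          fun e => u2 (by rw [← Shape.par_kids hp, e, pt])⟩]
      · simp only [S.up_eq, h1, h2, List.map_append, List.map_cons, List.prod_append, List.prod_cons,
          List.map_nil, List.prod_nil, mul_one]
        rw [out z z' e L fun p hp => ⟨Shape.kids_ne h1 (.inl hp), fun e => ne (by
            rw [← Shape.par_kids (p := p) (i := s') (by simp [h1, hp]), e, pt])⟩,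
          out z z' e L' fun p hp => ⟨fun e => ne (by
            rw [← Shape.par_kids (p := p) (i := t') (by simp [h2, hp]), e, ps]),
            Shape.kids_ne (L := []) h2 (.inr hp)⟩]
        have := congrArg (fun w => S.h n s' 0 * (L.map fun p => z' p.1 * p.2).prod * w * β2 *
          (L'.map fun p => z' p.1 * p.2).prod) k
        simpa only [mul_assoc] using this

theorem Shape.kids_chain (S : Shape Γ a) (n : ℕ) (i : Fin (S.k n)) :
    (S.kids n i).IsChain fun p q => S.Adj (n + 1) p.1 p.2 q.1 :=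
  List.isChain_iff_forall_rel_of_append_cons_cons.2 fun _ q L L' h => .inl ⟨i, q.2, L, L', h⟩

theorem Tow.up (T : Tow H X l S ty y V) (n : ℕ) : S.up n (y (n + 1)) = y n :=
  funext fun i => (T.dec n i).eq.symm

/-- the word of an entry -/
theorem Tow.eq (T : Tow H X l S ty y V) (n : ℕ) (i : Fin (S.k n)) :
    y n i = S.h n i 0 * ((S.kids n i).map fun p => y (n + 1) p.1 * p.2).prod := by
  rw [← S.up_eq, T.up]

theorem Tow.top (T : Tow H X l S ty y V) : ∀ n, S.top n (y n) = y 0
  | 0 => rfl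
  | n + 1 => by rw [Shape.top, T.up, Tow.top T n]

theorem Tow.pos (T : Tow H X l S ty y V) (n : ℕ) : 0 < l n := T.desc.pos n

theorem Tow.h0 (T : Tow H X l S ty y V) (n : ℕ) (i : Fin (S.k n)) :
    S.h n i 0 ∈ H ∧ Ls (ln (S.h n i 0)) (l n) := ⟨(T.dec n i).mem 0, (T.dec n i).bd 0⟩

theorem Tow.kid (T : Tow H X l S ty y V) {p : Fin (S.k (n + 1)) × MM Γ a} (h : p ∈ S.kids n i) :
    p.2 ∈ H ∧ Ls (ln p.2) (l n) := by
  obtain ⟨j, rfl⟩ := Shape.mem_kids.1 h
  exact ⟨(T.dec n i).mem _, (T.dec n i).bd _⟩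

theorem Tow.var (T : Tow H X l S ty y V) (t : Fin (S.k (n + 1))) :
    TyOk H (ty (n + 1) t) ∧ HasT (ty (n + 1) t) (y (n + 1) t) ∧ Ll (ln (y (n + 1) t)) (l n) := by
  obtain ⟨⟨i, j⟩, rfl⟩ := (S.e n).surjective t
  exact ⟨(T.dec n i).ok j, (T.dec n i).has j, (T.dec n i).tin j⟩

theorem Tow.has (T : Tow H X l S ty y V) : ∀ n i, HasT (ty n i) (y n i)
  | 0, i => fun c h => by rw [T.ty0] at h; cases h
  | _ + 1, i => (T.var i).2.1

theorem Tow.ok (T : Tow H X l S ty y V) : ∀ n i, TyOk H (ty n i)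
  | 0, i => fun c h => by rw [T.ty0] at h; cases h
  | _ + 1, i => (T.var i).1

/-- the word of a typed entry -/
theorem Tow.one (T : Tow H X l S ty y V) (h : ty n i = some c) : (S.kids n i).length ≤ 1 ∧
    S.h n i 0 ∈ Ep c ∧ ∀ p ∈ S.kids n i, ty (n + 1) p.1 = some c ∧ p.2 ∈ Ep c := by
  obtain ⟨h1, h2, h3⟩ := (T.dec n i).one c h
  refine ⟨S.kids_length n i ▸ h1, h3 0, fun p hp => ?_⟩
  obtain ⟨j, rfl⟩ := Shape.mem_kids.1 hp
  exact ⟨h2 j, h3 _⟩

/-- the parent of a general variable is general -/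
theorem Tow.par_none (T : Tow H X l S ty y V) {p : Fin (S.k (n + 1)) × MM Γ a} (h : p ∈ S.kids n i)
    (k : ty (n + 1) p.1 = none) : ty n i = none := by
  cases e : ty n i with
  | none => rfl
  | some c => rw [((T.one e).2.2 p h).1] at k; cases k

theorem Tow.adj_mem (T : Tow H X l S ty y V) : ∀ {n : ℕ} {s t : Fin (S.k n)} {β : MM Γ a},
    S.Adj n s β t → β ∈ H
  | 0, _, _, _, h => h.elim
  | n + 1, s, t, β, h => by
    rcases h with ⟨i, β', L, L', h⟩ | ⟨s', β', t', β1, β2, L, L', h, h1, -, rfl⟩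
    · exact (T.kid (i := i) (p := (s, β)) (by simp [h])).1
    · exact mul_mem (mul_mem (T.kid (i := s') (p := (s, β1)) (by simp [h1])).1 (Tow.adj_mem T h))
        (T.h0 n t').1

/-- substitution of the children into a word -/
theorem Tow.subst (T : Tow H X l S ty y V) (hk : ∀ i, S.kids n i ≠ []) :
    ∀ L : List (Fin (S.k n) × MM Γ a), (∀ p ∈ L, p.2 ∈ H) →
      L.IsChain (fun p q => S.Adj n p.1 p.2 q.1) →
      ∃ b ∈ H, ∃ L' : List (Fin (S.k (n + 1)) × MM Γ a), (∀ p ∈ L', p.2 ∈ H) ∧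
        L'.IsChain (fun p q => S.Adj (n + 1) p.1 p.2 q.1) ∧
        (∀ q ∈ L'.head?, ∃ p ∈ L.head?, b = S.h n p.1 0 ∧ ∃ β K, S.kids n p.1 = (q.1, β) :: K) ∧
        ∀ (G : Type) [Group G] (j : MM Γ a →* G) (F : Fin (S.k (n + 1)) → G),
          (L.map fun p => S.upG j n F p.1 * j p.2).prod = j b * (L'.map fun p => F p.1 * j p.2).prod
  | [], _, _ => ⟨1, H.one_mem, [], by simp, .nil, by simp, by simp⟩
  | p :: L, h1, h2 => by
    obtain ⟨b, hb, L', k1, k2, k3, k4⟩ :=
      Tow.subst T hk L (fun q hq => h1 q (List.mem_cons_of_mem _ hq)) h2.tail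
    obtain ⟨K, ⟨s, β⟩, e⟩ := (List.eq_nil_or_concat' (S.kids n p.1)).resolve_left (hk _)
    have c1 := S.kids_chain n p.1
    refine ⟨_, (T.h0 n p.1).1, K ++ (s, β * p.2 * b) :: L', fun q hq => ?_, ?_, fun q hq => ?_,
      fun G _ j F => ?_⟩
    · simp only [List.mem_append, List.mem_cons] at hq
      rcases hq with hq | rfl | hq
      · exact (T.kid (i := p.1) (by simp [e, hq])).1
      · exact mul_mem (mul_mem (T.kid (i := p.1) (p := (s, β)) (by simp [e])).1
          (h1 p List.mem_cons_self)) hb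
      · exact k1 q hq
    · rw [e, List.isChain_append] at c1
      refine List.isChain_append.2 ⟨c1.1, List.isChain_cons.2 ⟨fun q hq => ?_, k2⟩,
        fun x hx q hq => ?_⟩
      · obtain ⟨p', u1, u2, β', K', u3⟩ := k3 q hq
        exact .inr ⟨p.1, p.2, p'.1, β, β', K, K', (List.isChain_cons.1 h2).1 p' u1, e, u3, by rw [u2]⟩
      · obtain rfl : (s, β * p.2 * b) = q := by simpa using hq
        exact c1.2.2 x hx (s, β) rfl
    · refine ⟨p, rfl, rfl, ?_⟩
      cases K with
      | nil => obtain rfl : (s, β * p.2 * b) = q := by simpa using hq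
               exact ⟨β, [], e⟩
      | cons x K => obtain rfl : x = q := by simpa using hq
                    exact ⟨x.2, _, e⟩
    · rw [List.map_cons, List.prod_cons, k4, S.upG_eq, e]
      simp [mul_assoc]

end Pool.Agent.P.MP_dba3d2_lc
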