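import Pool.Agent.P.MP_dba3d2_lc.F.TbW

/-! Words of the limit stage: lexicographic minimality for lists of tokens. -/

namespace Pool.Agent.P.MP_dba3d2_lc

open Filter

variable {Γ : HG} {a : Amb} {H X : Subgroup (MM Γ a)} {l : ℕ → a.K} {S : Shape Γ a}
  {ty : (n : ℕ) → Fin (S.k n) → Option (MM Γ a)} {y : (n : ℕ) → Fin (S.k n) → MM Γ a}
  {V : (Fin (S.k 0) → MM Γ a) → Prop} {n : ℕ} {i : Fin (S.k n)} {β c x : MM Γ a} {μ : a.K}
  {N N' : List (Tok Γ a)} {τ : Option (MM Γ a)}

namespace Tk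

/-- value of a list of tokens -/
def tv (N : List (Tok Γ a)) : MM Γ a := (N.map Prod.snd).prod
/-- total length of the blocks -/
def bl (N : List (Tok Γ a)) : a.K := (N.map fun p => if p.1.isSome then 0 else ln p.2).sum
/-- number of joints -/
def cj (N : List (Tok Γ a)) : ℕ := N.countP fun p => p.1.isSome
/-- number of general joints -/
def cg (N : List (Tok Γ a)) : ℕ := N.countP fun p => p.1.any Option.isNone

@[simp] theorem ev_nil : tv ([] : List (Tok Γ a)) = 1 := rfl
@[simp] theorem bl_nil : bl ([] : List (Tok Γ a)) = 0 := rfl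
@[simp] theorem cj_nil : cj ([] : List (Tok Γ a)) = 0 := rfl
@[simp] theorem cg_nil : cg ([] : List (Tok Γ a)) = 0 := rfl
@[simp] theorem ev_cons (p : Tok Γ a) : tv (p :: N) = p.2 * tv N := by simp [tv]
@[simp] theorem bl_none : bl ((none, x) :: N) = ln x + bl N := by simp [bl]
@[simp] theorem bl_some : bl ((some τ, x) :: N) = bl N := by simp [bl]
@[simp] theorem cj_none : cj ((none, x) :: N) = cj N := by simp [cj]
@[simp] theorem cj_some : cj ((some τ, x) :: N) = cj N + 1 := by simp [cj]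
@[simp] theorem cg_none : cg ((none, x) :: N) = cg N := by simp [cg]
theorem cg_some : cg ((some τ, x) :: N) = cg N + if τ.isNone then 1 else 0 := by
  simp [cg, List.countP_cons]
@[simp] theorem ev_append : tv (N ++ N') = tv N * tv N' := by simp [tv]
@[simp] theorem bl_append : bl (N ++ N') = bl N + bl N' := by simp [bl]
@[simp] theorem cj_append : cj (N ++ N') = cj N + cj N' := by simp [cj]
@[simp] theorem cg_append : cg (N ++ N') = cg N + cg N' := by simp [cg]

theorem bl_nonneg (N : List (Tok Γ a)) : 0 ≤ bl N := by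
  induction N with
  | nil => simp
  | cons p N ih => obtain ⟨_ | τ, x⟩ := p <;> simp [ih, add_nonneg, ln_nonneg]

theorem nG_cons {Y : Type} {r : ℕ} (τ : Option Y) (t : Fin r → Option Y) :
    nG (Fin.cons τ t : Fin (r + 1) → Option Y) = nG t + if τ.isNone then 1 else 0 := by
  simp only [nG, Finset.card_filter, Fin.sum_univ_succ, Fin.cons_zero, Fin.cons_succ, add_comm]

/-- a list of tokens as a woven product -/
theorem weave (N : List (Tok Γ a)) : ∃ (h : Fin (cj N + 1) → MM Γ a) (z : Fin (cj N) → MM Γ a)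
    (t : Fin (cj N) → Option (MM Γ a)), nG t = cg N ∧ tv N = weave _ h z ∧ ∑ j, ln (h j) ≤ bl N ∧
    (∀ P : Subgroup (MM Γ a), (∀ x, (none, x) ∈ N → x ∈ P) → ∀ j, h j ∈ P) ∧
    ∀ j, (some (t j), z j) ∈ N := by
  suffices ∃ (r : ℕ) (h : Fin (r + 1) → MM Γ a) (z : Fin r → MM Γ a)
      (t : Fin r → Option (MM Γ a)), r = cj N ∧ nG t = cg N ∧ tv N = MP_dba3d2_lc.weave _ h z ∧
      ∑ j, ln (h j) ≤ bl N ∧ (∀ P : Subgroup (MM Γ a), (∀ x, (none, x) ∈ N → x ∈ P) → ∀ j, h j ∈ P) ∧
      ∀ j, (some (t j), z j) ∈ N by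
    obtain ⟨r, h, z, t, rfl, k⟩ := this
    exact ⟨h, z, t, k⟩
  induction N with
  | nil => exact ⟨0, fun _ => 1, Fin.elim0, Fin.elim0, rfl, by simp [nG], rfl, by simp,
      fun P _ _ => P.one_mem, fun j => j.elim0⟩
  | cons p N ih =>
    obtain ⟨r, h, z, t, e1, e2, e3, e4, e5, e6⟩ := ih
    obtain ⟨_ | τ, x⟩ := p
    · refine ⟨r, Fin.cons (x * h 0) (Fin.tail h), z, t, by simpa using e1, by simpa using e2, ?_, ?_,
        fun P hP j => ?_, fun j => List.mem_cons_of_mem _ (e6 j)⟩
      · rw [ev_cons, e3, weave_eq, weave_eq, ← mul_assoc]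
        rfl
      · rw [Fin.sum_univ_succ] at e4 ⊢
        simp only [Fin.cons_zero, Fin.cons_succ, Fin.tail, bl_none]
        linarith [ln_mul_le x (h 0)]
      · have k := e5 P fun x hx => hP x (List.mem_cons_of_mem _ hx)
        refine Fin.cases ?_ (fun j => k _) j
        exact mul_mem (hP x List.mem_cons_self) (k 0)
    · refine ⟨r + 1, Fin.cons 1 h, Fin.cons x z, Fin.cons τ t, by simpa using e1,
        by rw [nG_cons, cg_some, e2], ?_, ?_, fun P hP j => ?_, fun j => ?_⟩
      · rw [ev_cons, e3, MP_dba3d2_lc.weave]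
        simp
      · rw [Fin.sum_univ_succ]
        simpa using e4
      · exact Fin.cases P.one_mem (e5 P fun x hx => hP x (List.mem_cons_of_mem _ hx)) j
      · exact Fin.cases List.mem_cons_self (fun j => List.mem_cons_of_mem _ (e6 j)) j

/-- admissible tokens at scale `μ` in an entry of type `τ` -/
def Ok (μ : a.K) (H : Subgroup (MM Γ a)) (τ : Option (MM Γ a)) : Tok Γ a → Prop
  | (none, x) => x ∈ H ∧ Ls (ln x) μ ∧ HasT τ x
  | (some t, x) => TyOk H t ∧ HasT t x ∧ Ll (ln x) μ ∧ ∀ c, τ = some c → t = some c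

theorem Ok.has {p : Tok Γ a} (h : Ok μ H τ p) : HasT τ p.2 := by
  obtain ⟨_ | t, x⟩ := p
  exacts [h.2.2, fun c e => h.2.1 c (h.2.2.2 c e)]

theorem has_ev (h : ∀ p ∈ N, Ok μ H τ p) : HasT τ (tv N) := fun c e =>
  list_prod_mem fun x hx => by
    obtain ⟨p, hp, rfl⟩ := List.mem_map.1 hx
    exact (h p hp).has c e

theorem ln_ev (h0 : 0 ≤ μ) (h : ∀ p ∈ N, Ok μ H τ p) : Ll (ln (tv N) - bl N) μ := by
  induction N with
  | nil => simpa using Ll.zero h0
  | cons p N ih =>
    have k := ih fun q hq => h q (List.mem_cons_of_mem _ hq)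
    have k' := h p List.mem_cons_self
    have e := ln_mul_le p.2 (tv N)
    obtain ⟨_ | t, x⟩ := p
    · exact Ll.mono_left (by rw [ev_cons, bl_none]; linarith) k
    · exact Ll.mono_left (by rw [ev_cons, bl_some]; linarith) (k.add k'.2.2.1)

section
variable {ι : Type} {t : ι → Option (MM Γ a)} {v : ι → MM Γ a} {L L' : List (ι × MM Γ a)}
@[simp] theorem tks_nil : tks t v [] = [] := rfl
@[simp] theorem tks_cons (p : ι × MM Γ a) :
    tks t v (p :: L) = (some (t p.1), v p.1) :: (none, p.2) :: tks t v L := rfl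
@[simp] theorem tks_append : tks t v (L ++ L') = tks t v L ++ tks t v L' := List.flatMap_append
theorem ev_tks : tv (tks t v L) = (L.map fun p => v p.1 * p.2).prod := by
  induction L with
  | nil => rfl
  | cons p L ih => simp [ih, mul_assoc]
theorem bl_tks : bl (tks t v L) = (L.map fun p => ln p.2).sum := by
  induction L with
  | nil => rfl
  | cons p L ih => simp [ih]
theorem cj_tks : cj (tks t v L) = L.length := by
  induction L with
  | nil => rfl
  | cons p L ih => simp [ih]
theorem cg_tks : cg (tks t v L) = (L.map fun p => if (t p.1).isNone then 1 else 0).sum := by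
  induction L with
  | nil => rfl
  | cons p L ih => rw [tks_cons, cg_some, cg_none, ih, List.map_cons, List.sum_cons, add_comm]
end

end Tk

open Tk

/-- the tokens of an entry -/
def Shape.tk (S : Shape Γ a) (ty : (n : ℕ) → Fin (S.k n) → Option (MM Γ a))
    (y : (n : ℕ) → Fin (S.k n) → MM Γ a) (n : ℕ) (i : Fin (S.k n)) : List (Tok Γ a) :=
  (none, S.h n i 0) :: tks (ty (n + 1)) (y (n + 1)) (S.kids n i)

theorem Tow.ev_tk (T : Tow H X l S ty y V) (n : ℕ) (i : Fin (S.k n)) :
    tv (S.tk ty y n i) = y n i := by rw [Shape.tk, ev_cons, ev_tks, ← T.eq]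

theorem Shape.bl_tk (n : ℕ) (i : Fin (S.k n)) : bl (S.tk ty y n i) = ∑ j, ln (S.h n i j) := by
  rw [Shape.tk, bl_none, bl_tks, Shape.kids, List.map_ofFn, List.sum_ofFn, Fin.sum_univ_succ]
  rfl

theorem Shape.cj_tk (n : ℕ) (i : Fin (S.k n)) : cj (S.tk ty y n i) = S.r n i := by
  rw [Shape.tk, cj_none, cj_tks, S.kids_length]

theorem Shape.sum_cj (n : ℕ) : ∑ i, cj (S.tk ty y n i) = S.k (n + 1) := by
  have := Fintype.card_congr (S.e n)
  simpa [Shape.cj_tk] using this

theorem Shape.sum_cg (n : ℕ) : ∑ i, cg (S.tk ty y n i) = nG (ty (n + 1)) := by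
  rw [nG, Finset.card_filter, ← (S.e n).sum_comp, Fintype.sum_sigma]
  refine Finset.sum_congr rfl fun i _ => ?_
  rw [Shape.tk, cg_none, cg_tks, Shape.kids, List.map_ofFn, List.sum_ofFn]
  rfl

theorem Tow.ok_tk (T : Tow H X l S ty y V) (n : ℕ) (i : Fin (S.k n)) :
    ∀ p ∈ S.tk ty y n i, Ok (l n) H (ty n i) p := by
  refine List.forall_mem_cons.2 ⟨⟨(T.h0 n i).1, (T.h0 n i).2, fun c e => (T.one e).2.1⟩, fun p hp => ?_⟩
  obtain ⟨q, hq, hp⟩ := List.mem_flatMap.1 hp
  simp only [List.mem_cons, List.not_mem_nil, or_false] at hp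
  rcases hp with rfl | rfl
  · exact ⟨(T.var _).1, (T.var _).2.1, (T.var _).2.2, fun c e => ((T.one e).2.2 q hq).1⟩
  · exact ⟨(T.kid hq).1, (T.kid hq).2, fun c e => ((T.one e).2.2 q hq).2⟩

theorem Tow.bl_tk (T : Tow H X l S ty y V) (n : ℕ) (i : Fin (S.k n)) :
    Ll (bl (S.tk ty y n i) - ln (y n i)) (l n) := Shape.bl_tk n i ▸ (T.dec n i).add

/-- the word of an entry is geodesic -/
theorem Tow.geo (T : Tow H X l S ty y V) (n : ℕ) (i : Fin (S.k n)) :
    Geo (l n) ((S.tk ty y n i).map Prod.snd) := by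
  have : ∀ N : List (Tok Γ a), (∀ p ∈ N, Ok (l n) H (ty n i) p) →
      Ll (((N.map Prod.snd).map ln).sum - bl N) (l n) := by
    intro N h
    induction N with
    | nil => simpa using Ll.zero (T.pos n).le
    | cons p N ih =>
      have k := ih fun q hq => h q (List.mem_cons_of_mem _ hq)
      have k' := h p List.mem_cons_self
      obtain ⟨_ | t, x⟩ := p
      · exact Ll.mono_left (by simp) k
      · refine Ll.mono_left (le_of_eq ?_) (k.add k'.2.2.1)
        simp only [List.map_cons, List.sum_cons, bl_some]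
        ring
  refine Ll.mono_left (le_of_eq ?_) ((this _ (T.ok_tk n i)).add (T.bl_tk n i))
  rw [← T.ev_tk n i, tv]
  ring

/-- `N` is admissible and not worse than `N'` -/
structure Tk.Le (μ : a.K) (H : Subgroup (MM Γ a)) (τ : Option (MM Γ a)) (N N' : List (Tok Γ a)) :
    Prop where
  ok : ∀ p ∈ N, Ok μ H τ p
  one : τ ≠ none → cj N ≤ 1
  bl : Ll (bl N - bl N') μ
  cg : cg N ≤ cg N'

theorem Tow.le_tk (T : Tow H X l S ty y V) (n : ℕ) (i : Fin (S.k n)) :
    Tk.Le (l n) H (ty n i) (S.tk ty y n i) (S.tk ty y n i) := by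
  refine ⟨T.ok_tk n i, fun h => ?_, by simpa using Ll.zero (T.pos n).le, le_rfl⟩
  obtain ⟨c, e⟩ := Option.ne_none_iff_exists'.1 h
  rw [Shape.cj_tk, ← S.kids_length]
  exact (T.one e).1

theorem Tk.ll_sum {ι : Type} [Fintype ι] (h0 : 0 ≤ μ) {f : ι → a.K} (h : ∀ i, Ll (f i) μ) :
    Ll (∑ i, f i) μ :=
  Finset.sum_induction f (fun s => Ll s μ) (fun _ _ => Ll.add) (Ll.zero h0) fun i _ => h i

/-- lexicographic minimality for lists of tokens -/
theorem Tow.lexT (T : Tow H X l S ty y V) (N : Fin (S.k n) → List (Tok Γ a))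
    (top : S.top n (fun i => tv (N i)) = y 0)
    (le : ∀ i, Tk.Le (l n) H (ty n i) (N i) (S.tk ty y n i))
    (lt : (∃ i, cg (N i) < cg (S.tk ty y n i)) ∨
      (∀ i, cj (N i) ≤ cj (S.tk ty y n i)) ∧ ∃ i, cj (N i) < cj (S.tk ty y n i)) : False := by
  classical
  have h0 := (T.pos n).le
  have has := fun i => has_ev (le i).ok
  have up : ∀ i, Ll (bl (N i) - ln (y n i)) (l n) := fun i =>
    Ll.mono_left (le_of_eq (by ring)) ((le i).bl.add (T.bl_tk n i))
  have up' : ∀ i, Ll (ln (tv (N i)) - ln (y n i)) (l n) := fun i =>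
    Ll.mono_left (le_of_eq (by ring)) ((ln_ev h0 (le i).ok).add (up i))
  have nr := T.near n _ has (top ▸ T.wit)
  choose h z t e1 e2 e3 e4 e5 using fun i => Tk.weave (N i)
  have k := T.lex n _ has (top ▸ T.wit)
    (by rw [tl, tl, ← Finset.sum_sub_distrib]; exact Tk.ll_sum h0 up') _ h z t fun i => by
      have ok := fun j => (le i).ok _ (e5 i j)
      refine ⟨⟨e4 i H fun x hx => ((le i).ok _ hx).1, fun j => (mem_ball h0).1
        (e4 i _ (fun x hx => (mem_ball h0).2 ((le i).ok _ hx).2.1) j), fun j => (ok j).2.2.1, e2 i, ?_⟩,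
        fun j => (ok j).1, fun j => (ok j).2.1, fun c e => ⟨(le i).one (by simp [e]),
          fun j => (ok j).2.2.2 c e, e4 i _ fun x hx => ((le i).ok _ hx).2.2 c e⟩⟩
      have s := Tk.ll_sum h0 (f := fun u => if u = i then 0 else ln (tv (N u)) - ln (y n u)) fun u => by
        split_ifs
        exacts [Ll.zero h0, up' u]
      refine Ll.mono_left ?_ (((up i).add nr).add s)
      have e : ∑ u, (if u = i then 0 else ln (tv (N u)) - ln (y n u)) +
          (ln (tv (N i)) - ln (y n i)) = ∑ u, (ln (tv (N u)) - ln (y n u)) := by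
        rw [← Finset.sum_erase_add _ _ (Finset.mem_univ i), ← Finset.sum_erase_add _ _ (Finset.mem_univ i),
          if_pos rfl, add_zero]
        congr 1
        exact Finset.sum_congr rfl fun u hu => if_neg (Finset.ne_of_mem_erase hu)
      rw [Finset.sum_sub_distrib] at e
      rw [tl, tl]
      linarith [e3 i]
  simp only [e1] at k
  rw [← Shape.sum_cg (y := y), ← Shape.sum_cj (ty := ty) (y := y)] at k
  have s1 := Finset.sum_le_sum (s := Finset.univ) fun i _ => (le i).cg
  rcases lt with ⟨i, e⟩ | ⟨e, i, e'⟩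
  · have := Finset.sum_lt_sum (s := Finset.univ) (fun i _ => (le i).cg) ⟨i, Finset.mem_univ i, e⟩
    omega
  · have := Finset.sum_lt_sum (s := Finset.univ) (fun i _ => e i) ⟨i, Finset.mem_univ i, e'⟩
    omega

/-- no entry has a better word -/
theorem Tow.lex1 (T : Tow H X l S ty y V) (i : Fin (S.k n)) (e : tv N = y n i)
    (le : Tk.Le (l n) H (ty n i) N (S.tk ty y n i))
    (lt : cg N < cg (S.tk ty y n i) ∨ cj N < cj (S.tk ty y n i)) : False := by
  classical
  have key : ∀ P : (u : Fin (S.k n)) → List (Tok Γ a) → Prop, P i N → (∀ u, P u (S.tk ty y n u)) →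
      ∀ u, P u (Function.update (S.tk ty y n) i N u) := fun P h1 h2 u => by
    by_cases k : u = i
    · rw [k, Function.update_self]; exact h1
    · rw [Function.update_of_ne k]; exact h2 u
  refine T.lexT (Function.update (S.tk ty y n) i N) ?_
    (key (fun u M => Tk.Le (l n) H (ty n u) M (S.tk ty y n u)) le (T.le_tk n)) ?_
  · rw [← T.top n]
    exact congrArg _ (funext (key (fun u M => tv M = y n u) e (T.ev_tk n)))
  · refine lt.imp (fun h => ⟨i, by rwa [Function.update_self]⟩) fun h =>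
      ⟨key (fun u M => cj M ≤ cj (S.tk ty y n u)) h.le fun _ => le_rfl, i, by rwa [Function.update_self]⟩

/-- no two neighbours have better words with the same product -/
theorem Tow.lex2 (T : Tow H X l S ty y V) {s t : Fin (S.k n)} (h : S.Adj n s β t)
    (e : tv N * β * tv N' = y n s * β * y n t)
    (le : Tk.Le (l n) H (ty n s) N (S.tk ty y n s)) (le' : Tk.Le (l n) H (ty n t) N' (S.tk ty y n t))
    (c1 : cj N ≤ cj (S.tk ty y n s)) (c2 : cj N' ≤ cj (S.tk ty y n t))
    (lt : cj N < cj (S.tk ty y n s) ∨ cj N' < cj (S.tk ty y n t)) : False := by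
  classical
  obtain ⟨ne, top⟩ := h.top
  set M := Function.update (Function.update (S.tk ty y n) s N) t N' with hM
  have m1 : M s = N := by rw [hM, Function.update_of_ne ne, Function.update_self]
  have m2 : M t = N' := by rw [hM, Function.update_self]
  have m3 : ∀ u, u ≠ s → u ≠ t → M u = S.tk ty y n u := fun u k k' => by
    rw [hM, Function.update_of_ne k', Function.update_of_ne k]
  have key : ∀ P : (u : Fin (S.k n)) → List (Tok Γ a) → Prop, P s N → P t N' →
      (∀ u, P u (S.tk ty y n u)) → ∀ u, P u (M u) := fun P h1 h2 h3 u => by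
    by_cases k : u = s
    · rw [k, m1]; exact h1
    by_cases k' : u = t
    · rw [k', m2]; exact h2
    · rw [m3 u k k']; exact h3 u
  refine T.lexT M ?_ (key (fun u M => Tk.Le (l n) H (ty n u) M (S.tk ty y n u)) le le' (T.le_tk n))
    (.inr ⟨key (fun u M => cj M ≤ cj (S.tk ty y n u)) c1 c2 fun _ => le_rfl,
      lt.elim (fun h => ⟨s, by rwa [m1]⟩) fun h => ⟨t, by rwa [m2]⟩⟩)
  rw [← T.top n]
  exact top _ _ (fun u k k' => by rw [m3 u k k', T.ev_tk]) (by rw [m1, m2, e])

end Pool.Agent.P.MP_dba3d2_lc
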