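import Pool.Agent.P.MP_dba3d2_lc.F.Iface
import Pool.Agent.P.MP_dba3d2_lc.F.TbA

/-! Step WC0 of the stability project. -/

namespace Pool.Agent.P.MP_dba3d2_lc

open Filter

theorem p_WC0 :
    S_WC0 := fun _ _ _ _ θ hle hG hr hi h1 h2 =>
  FA.wc_of_hom hle hG θ hi hr h1 (by rintro _ ⟨x, rfl⟩; exact h2 x)

end Pool.Agent.P.MP_dba3d2_lc
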