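import Pool.Agent.P.MP_dba3d2_lc.F.Iface
import Pool.Agent.P.MP_dba3d2_lc.E.Iface
import Pool.Agent.P.MP_dba3d2_lc.F.AdjA

/-! Step WCE of the stability project. -/

namespace Pool.Agent.P.MP_dba3d2_lc

open Filter

theorem p_WCE (hMICE : S_MICE) :
    S_WCE := fun _ _ _ _ k hH hc pc hG ext => FA.wc_exp hMICE hH hc pc k hG ext

end Pool.Agent.P.MP_dba3d2_lc
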