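import Pool.Agent.P.MP_dba3d2_lc.F.Iface
import Pool.Agent.P.MP_dba3d2_lc.A.Iface
import Pool.Agent.P.MP_dba3d2_lc.E.Iface
import Pool.Agent.P.MP_dba3d2_lc.F.AdjB

/-! Step WCL of the stability project. -/

namespace Pool.Agent.P.MP_dba3d2_lc

open Filter

theorem p_WCL (hTORS : S_TORS) (hELEM : S_ELEM) (hMICL : S_MICL) :
    S_WCL := by
  intro Γ a H u hH hu gc ext st
  let J : Subgroup (MM Γ a) := H ⊓ H.comap (MulAut.conj u⁻¹).toMonoidHom
  have mem : ∀ x, x ∈ J ↔ x ∈ H ∧ u⁻¹ * x * u ∈ H := fun x => by simp [J, Subgroup.mem_comap]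
  have f0 : Finite J := (hTORS Γ a _ fun k hk => (st k ((mem k).1 hk).1 ((mem k).1 hk).2).2).1
  obtain ⟨z, hz, e1⟩ := hH.finc J inf_le_left f0
  let K : Subgroup Γ.G := J.comap ((MulAut.conj z).toMonoidHom.comp (cst Γ a))
  have hK : ∀ x, x ∈ K ↔ z * cst Γ a x * z⁻¹ ∈ J := fun _ => Iff.rfl
  have fK : Finite K := Frame.fin_comap _ ((MulAut.conj z).injective.comp cst_injective) _ f0
  have key : ∀ x ∈ J, z⁻¹ * x * z ∈ K.map (cst Γ a) := fun x m => by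
    obtain ⟨k, e⟩ := e1 x m
    refine ⟨k, (hK k).2 ?_, e⟩
    rw [e]
    simpa [mul_assoc] using m
  obtain ⟨γ, hγ⟩ := Frame.fix (z⁻¹ * u) K fK fun k hk => by
    have m := (mem _).1 ((hK k).1 hk)
    simpa [mul_assoc] using (st _ m.1 m.2).1
  have hw : cst Γ a γ ∈ H := hH.base ⟨γ, rfl⟩
  refine FA.wc_let hTORS hELEM hMICL hH hu hz hw fK (fun k hk => ?_) (fun g hg e => ?_) gc
    fun G _ θ0 ν hν => ext G θ0 ν fun i x y e => hν i x y (key x ((mem x).2 ⟨x.2, e ▸ y.2⟩)) e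
  · have h1 := hγ k hk
    rw [map_mul, map_mul, map_inv] at h1
    generalize z⁻¹ * u = v at h1
    have h2 : cst Γ a k * v = v * ((cst Γ a γ)⁻¹ * cst Γ a k * cst Γ a γ) := by
      rw [← h1]; group
    rw [Commute, SemiconjBy, ← mul_assoc, h2]
    group
  · have := key (z * g * z⁻¹) ((mem _).2 ⟨mul_mem (mul_mem hz (hH.base hg)) (inv_mem hz), by
      simpa [mul_assoc] using mul_mem (mul_mem (inv_mem hw) (hH.base e)) hw⟩)
    simpa [mul_assoc] using this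

end Pool.Agent.P.MP_dba3d2_lc
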